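import Pool.Agent.Lib.MP_172a45_an.F.H69.Typ2

set_option autoImplicit false

/-!
# Part L-b, `t₀ ≥ 25/2` and `y ≥ 6`
-/

namespace Pool.Agent.Lib.MP_172a45_an.F.H69

open Finset Real
open Pool.Agent.Lib.MP_172a45_an.F.Fr
open Pool.Agent.Lib.MP_172a45_an.L

section Sound

variable {M : ℕ} {a : ℝ} {ζ z : Fin (M + 1) → ℂ}

/-! ### `y ≥ 6` -/

/-- version 1 -/
theorem bigY1 (h : Fr (M + 1) a ζ z) (hM : 0 < M) (hmax : ∀ k, ‖u a ζ k‖ ≤ ‖u a ζ 0‖)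
    (hΔ : 8 ≤ Del a ζ) (ht : 25 / 2 ≤ ‖u a ζ 0‖) {b1 b2 A X1 TAU : ℤ}
    (hrun : runOK 50 X1 X1 TAU A X1 X1 0 0 (fin2 50 X1 X1 TAU) 8 50 = true)
    (hA : 1000000 ≤ A) (hA4 : A ≤ 4000000) (hX10 : 0 ≤ X1) (hT0 : 0 ≤ TAU) (hTU : TAU ≤ 12500000)
    (hb1 : (b1 : ℝ) / 1000000 ≤ 1 - a) (hb2 : 1 - a ≤ (b2 : ℝ) / 1000000)
    (hX1 : (X1 : ℝ) / 1000000 ≤ (1 - (b2 : ℝ) / 1000000) * (25 / 2))
    (hTAU : (1 - (b1 : ℝ) / 1000000) * (25 / 2) ≤ (TAU : ℝ) / 1000000)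
    (hV : (A : ℝ) / 1000000 + 1 / 50 + 3 / 2 - (b1 : ℝ) / 1000000 / 2 ≤ (1 - a) * ‖u a ζ 0‖) :
    False := by
  have hM0 : (0 : ℝ) < M := by exact_mod_cast hM
  have ha0 := h.a0
  have ha1 := h.a1
  have hDS := DS_nn h
  obtain ⟨t, htdef⟩ : ∃ t : ℝ, t = ‖u a ζ 0‖ := ⟨_, rfl⟩
  have ht' : 25 / 2 ≤ t := by rw [htdef]; exact ht
  rw [← htdef] at hV
  have hAR : (1 : ℝ) ≤ (A : ℝ) / 1000000 := by
    rw [le_div_iff₀ (by norm_num)]
    have : (1000000 : ℝ) ≤ A := by exact_mod_cast hA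
    linarith only [this]
  refine run2_false h hM hmax hΔ ht (e := 0) (R2 := 0) hrun (by norm_num) (by norm_num) le_rfl
    hX10 hX10 hT0 (by linarith only [hA]) hA4 le_rfl ?_ ?_ ?_ ?_ (Or.inl ⟨rfl, rfl⟩) ?_ hTU ?_
  all_goals try rw [← htdef]
  · have h1 : 0 ≤ a * (t - 1) := mul_nonneg ha0.le (by linarith only [ht, ha0, ha1, htdef])
    have h2 : 0 ≤ a * (t - 1) + (t - 1 + DS a ζ) := by linarith only [ht, ha0, ha1, hDS, htdef, h1]
    positivity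
  · have e2 : (t - 1 + DS a ζ) * (1 + 1 / M) = (t - 1 + DS a ζ) + (t - 1 + DS a ζ) / M := by
      ring
    rw [e2]
    have h3 : 0 ≤ (t - 1 + DS a ζ) / M := by
      have : 0 ≤ t - 1 + DS a ζ := by linarith only [ht, ha0, ha1, hDS, htdef]
      positivity
    linarith only [hb1, hDS, hV, h3]
  · linarith only [hb1, ha0, ha1, hDS, hV, hAR]
  · have h1 : t / (25 / 2) * ((X1 : ℝ) / 1000000) ≤
        t / (25 / 2) * ((1 - (b2 : ℝ) / 1000000) * (25 / 2)) :=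
      mul_le_mul_of_nonneg_left hX1 (by positivity)
    have e1 : t / (25 / 2) * ((1 - (b2 : ℝ) / 1000000) * (25 / 2)) =
        (1 - (b2 : ℝ) / 1000000) * t := by field_simp
    rw [e1] at h1
    have h2 : (1 - (b2 : ℝ) / 1000000) * t ≤ a * t :=
      mul_le_mul_of_nonneg_right (by linarith only [hb2]) (by linarith only [ht, ha0, ha1, htdef])
    linarith only [ha0, h1, h2]
  · right
    have h1 : t / (25 / 2) * ((1 - (b1 : ℝ) / 1000000) * (25 / 2)) ≤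
        t / (25 / 2) * ((TAU : ℝ) / 1000000) :=
      mul_le_mul_of_nonneg_left hTAU (by positivity)
    have e1 : t / (25 / 2) * ((1 - (b1 : ℝ) / 1000000) * (25 / 2)) =
        (1 - (b1 : ℝ) / 1000000) * t := by field_simp
    rw [e1] at h1
    have h2 : a * t ≤ (1 - (b1 : ℝ) / 1000000) * t :=
      mul_le_mul_of_nonneg_right (by linarith only [hb1]) (by linarith only [ht, ha0, ha1, htdef])
    linarith only [h1, h2]
  · intro hc
    exact absurd hc (by linarith only [hA, hc])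

/-- version 2 -/
theorem bigY2 (h : Fr (M + 1) a ζ z) (hM : 0 < M) (hmax : ∀ k, ‖u a ζ k‖ ≤ ‖u a ζ 0‖)
    (hΔ : 8 ≤ Del a ζ) (ht : 25 / 2 ≤ ‖u a ζ 0‖) {b1 b2 A X1 X2 TAU : ℤ}
    (hrun : runOK 50 X1 X2 TAU A 11500000 11500000 0 0 (fin2 50 X2 11500000 TAU) 8 50 = true)
    (hA : 1000000 ≤ A) (hA4 : A ≤ 4000000) (hX10 : 0 ≤ X1) (hX20 : 0 ≤ X2)
    (hT0 : 0 ≤ TAU) (hTU : TAU ≤ 12500000)
    (hb1 : (b1 : ℝ) / 1000000 ≤ 1 - a) (hb2 : 1 - a ≤ (b2 : ℝ) / 1000000)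
    (hX1 : (X1 : ℝ) / 1000000 ≤ (1 - (b2 : ℝ) / 1000000) * (25 / 2))
    (hX2 : (1 - (b1 : ℝ) / 1000000) * 13 ≤ (X2 : ℝ) / 1000000)
    (hTAU : (1 - (b1 : ℝ) / 1000000) * (25 / 2) ≤ (TAU : ℝ) / 1000000)
    (hV : (A : ℝ) / 1000000 + 1 / 50 + 3 / 2 - (b1 : ℝ) / 1000000 / 2 ≤ (1 - a) * ‖u a ζ 0‖) :
    False := by
  have hM0 : (0 : ℝ) < M := by exact_mod_cast hM
  have ha0 := h.a0
  have ha1 := h.a1
  have hDS := DS_nn h
  obtain ⟨t, htdef⟩ : ∃ t : ℝ, t = ‖u a ζ 0‖ := ⟨_, rfl⟩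
  have ht' : 25 / 2 ≤ t := by rw [htdef]; exact ht
  rw [← htdef] at hV
  have hAR : (1 : ℝ) ≤ (A : ℝ) / 1000000 := by
    rw [le_div_iff₀ (by norm_num)]
    have : (1000000 : ℝ) ≤ A := by exact_mod_cast hA
    linarith only [this]
  refine run2_false h hM hmax hΔ ht (e := 0) (R2 := 0) hrun (by norm_num) (by norm_num) le_rfl
    hX10 hX20 hT0 (by linarith only [hA]) hA4 le_rfl ?_ ?_ ?_ ?_ (Or.inr ⟨?_, ?_⟩) ?_ hTU ?_
  all_goals try rw [← htdef]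
  · have h1 : 0 ≤ a * (t - 1) := mul_nonneg ha0.le (by linarith only [ht, ha0, ha1, htdef])
    have h2 : 0 ≤ a * (t - 1) + (t - 1 + DS a ζ) := by linarith only [ht, ha0, ha1, hDS, htdef, h1]
    positivity
  · have e2 : (t - 1 + DS a ζ) * (1 + 1 / M) = (t - 1 + DS a ζ) + (t - 1 + DS a ζ) / M := by
      ring
    rw [e2]
    have h3 : 0 ≤ (t - 1 + DS a ζ) / M := by
      have : 0 ≤ t - 1 + DS a ζ := by linarith only [ht, ha0, ha1, hDS, htdef]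
      positivity
    linarith only [hb1, hDS, hV, h3]
  · linarith only [hb1, ha0, ha1, hDS, hV, hAR]
  · have h1 : t / (25 / 2) * ((X1 : ℝ) / 1000000) ≤
        t / (25 / 2) * ((1 - (b2 : ℝ) / 1000000) * (25 / 2)) :=
      mul_le_mul_of_nonneg_left hX1 (by positivity)
    have e1 : t / (25 / 2) * ((1 - (b2 : ℝ) / 1000000) * (25 / 2)) =
        (1 - (b2 : ℝ) / 1000000) * t := by field_simp
    rw [e1] at h1
    have h2 : (1 - (b2 : ℝ) / 1000000) * t ≤ a * t :=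
      mul_le_mul_of_nonneg_right (by linarith only [hb2]) (by linarith only [ht, ha0, ha1, htdef])
    linarith only [ha0, h1, h2]
  · -- `a t + a/2 ≤ ν X₂`
    have hν : 1 ≤ t / (25 / 2) := by rw [le_div_iff₀ (by norm_num)]; linarith only [ht, htdef]
    have h1 : t / (25 / 2) * ((1 - (b1 : ℝ) / 1000000) * 13) ≤
        t / (25 / 2) * ((X2 : ℝ) / 1000000) := mul_le_mul_of_nonneg_left hX2 (by positivity)
    have h2 : a * (t + 1 / 2) ≤ (1 - (b1 : ℝ) / 1000000) * (t + 1 / 2) :=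
      mul_le_mul_of_nonneg_right (by linarith only [hb1]) (by linarith only [ht, ha0, ha1, htdef])
    have h3 : (1 - (b1 : ℝ) / 1000000) * (t + 1 / 2) ≤
        (1 - (b1 : ℝ) / 1000000) * (t / (25 / 2) * 13) := by
      refine mul_le_mul_of_nonneg_left ?_ (by linarith only [hb1, ha0])
      linarith only [ht, htdef]
    linarith only [h1, h2, h3]
  · push_cast
    linarith only [ht, hDS, htdef]
  · right
    have h1 : t / (25 / 2) * ((1 - (b1 : ℝ) / 1000000) * (25 / 2)) ≤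
        t / (25 / 2) * ((TAU : ℝ) / 1000000) :=
      mul_le_mul_of_nonneg_left hTAU (by positivity)
    have e1 : t / (25 / 2) * ((1 - (b1 : ℝ) / 1000000) * (25 / 2)) =
        (1 - (b1 : ℝ) / 1000000) * t := by field_simp
    rw [e1] at h1
    have h2 : a * t ≤ (1 - (b1 : ℝ) / 1000000) * t :=
      mul_le_mul_of_nonneg_right (by linarith only [hb1]) (by linarith only [ht, ha0, ha1, htdef])
    linarith only [h1, h2]
  · intro hc
    exact absurd hc (by linarith only [hA, hc])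

end Sound

end Pool.Agent.Lib.MP_172a45_an.F.H69
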