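import Pool.Agent.Lib.MP_172a45_an.F.H69.ChkT
import Pool.Agent.Lib.MP_172a45_an.F.H69.BigY
import Pool.Agent.Lib.MP_172a45_an.F.H69.C.D0
import Pool.Agent.Lib.MP_172a45_an.F.H69.C.D1
import Pool.Agent.Lib.MP_172a45_an.F.H69.C.D2
import Pool.Agent.Lib.MP_172a45_an.F.H69.C.D3
import Pool.Agent.Lib.MP_172a45_an.F.H69.C.D4
import Pool.Agent.Lib.MP_172a45_an.F.H69.C.D5
import Pool.Agent.Lib.MP_172a45_an.F.H69.C.D6
import Pool.Agent.Lib.MP_172a45_an.F.H69.C.D7
import Pool.Agent.Lib.MP_172a45_an.F.H69.C.D8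
import Pool.Agent.Lib.MP_172a45_an.F.H69.C.D9
import Pool.Agent.Lib.MP_172a45_an.F.H69.C.D10
import Pool.Agent.Lib.MP_172a45_an.F.H69.C.D11
import Pool.Agent.Lib.MP_172a45_an.F.H69.C.D12
import Pool.Agent.Lib.MP_172a45_an.F.H69.C.D13
import Pool.Agent.Lib.MP_172a45_an.F.H69.C.D14
import Pool.Agent.Lib.MP_172a45_an.F.H69.C.D15

set_option autoImplicit false
set_option maxRecDepth 100000

/-!
# Part L-b for `t₀ ≥ 25/2`
-/

namespace Pool.Agent.Lib.MP_172a45_an.F.H69

open Finset Real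
open Pool.Agent.Lib.MP_172a45_an.F.Fr
open Pool.Agent.Lib.MP_172a45_an.L

variable {M : ℕ} {a : ℝ} {ζ z : Fin (M + 1) → ℂ}

/-- splitting the range of `y` -/
theorem InT.split {y1 y2 r1 r2 : ℤ} (B : InT a ζ y1 y2 r1 r2) (m : ℤ) (hm : 0 ≤ m) :
    InT a ζ y1 m r1 r2 ∨ InT a ζ m y2 r1 r2 := by
  rcases le_total ((1 - a ^ 2) * ‖u a ζ 0‖) ((m : ℝ) / 1000000) with h | h
  · exact Or.inl { B with hy2 := h }
  · exact Or.inr { B with hy1 := h, y10 := hm }

theorem baseT (h : Fr (M + 1) a ζ z) (ht : 25 / 2 ≤ ‖u a ζ 0‖)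
    (hy : (1 - a ^ 2) * ‖u a ζ 0‖ ≤ 6) {r1 r2 : ℤ} (h1 : 1000000 ≤ r1)
    (hr1 : (r1 : ℝ) / 1000000 * ‖u a ζ 0‖ ≤ M + 1)
    (hr2 : r2 = 0 ∨ (M : ℝ) + 1 ≤ (r2 : ℝ) / 1000000 * ‖u a ζ 0‖) :
    InT a ζ 0 6000000 r1 r2 where
  hy1 := by
    push_cast
    rw [zero_div]
    exact mul_nonneg h.m_pos.le (norm_nonneg _)
  hy2 := by push_cast; linarith only [hy]
  hr1 := hr1
  hr2 := hr2
  ht := ht
  y10 := le_rfl
  r10 := h1

theorem jobT_0 (h : Fr (M + 1) a ζ z) (hM : 0 < M) (hmax : ∀ k, ‖u a ζ k‖ ≤ ‖u a ζ 0‖)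
    (hΔ : 8 ≤ Del a ζ) (B : InT a ζ 0 6000000 7000000 7250000) : False := by
  rcases B.split 1250000 (by norm_num) with B | B
  · exact chkT_sound h hM hmax hΔ _ _ _ B C.d0_0
  rcases B.split 1750000 (by norm_num) with B | B
  · exact chkT_sound h hM hmax hΔ _ _ _ B C.d0_1
  exact chkT_sound h hM hmax hΔ _ _ _ B C.d0_2

theorem jobT_1 (h : Fr (M + 1) a ζ z) (hM : 0 < M) (hmax : ∀ k, ‖u a ζ k‖ ≤ ‖u a ζ 0‖)
    (hΔ : 8 ≤ Del a ζ) (B : InT a ζ 0 6000000 7250000 7500000) : False := by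
  rcases B.split 1500000 (by norm_num) with B | B
  · exact chkT_sound h hM hmax hΔ _ _ _ B C.d1_0
  exact chkT_sound h hM hmax hΔ _ _ _ B C.d1_1

theorem jobT_2 (h : Fr (M + 1) a ζ z) (hM : 0 < M) (hmax : ∀ k, ‖u a ζ k‖ ≤ ‖u a ζ 0‖)
    (hΔ : 8 ≤ Del a ζ) (B : InT a ζ 0 6000000 7500000 8000000) : False := by
  rcases B.split 1750000 (by norm_num) with B | B
  · exact chkT_sound h hM hmax hΔ _ _ _ B C.d2_0
  exact chkT_sound h hM hmax hΔ _ _ _ B C.d2_1

theorem jobT_3 (h : Fr (M + 1) a ζ z) (hM : 0 < M) (hmax : ∀ k, ‖u a ζ k‖ ≤ ‖u a ζ 0‖)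
    (hΔ : 8 ≤ Del a ζ) (B : InT a ζ 0 6000000 8000000 8500000) : False := by
  rcases B.split 4500000 (by norm_num) with B | B
  · exact chkT_sound h hM hmax hΔ _ _ _ B C.d3_0
  exact chkT_sound h hM hmax hΔ _ _ _ B C.d3_1

theorem jobT_4 (h : Fr (M + 1) a ζ z) (hM : 0 < M) (hmax : ∀ k, ‖u a ζ k‖ ≤ ‖u a ζ 0‖)
    (hΔ : 8 ≤ Del a ζ) (B : InT a ζ 0 6000000 8500000 9000000) : False := by
  exact chkT_sound h hM hmax hΔ _ _ _ B C.d4_0

theorem jobT_5 (h : Fr (M + 1) a ζ z) (hM : 0 < M) (hmax : ∀ k, ‖u a ζ k‖ ≤ ‖u a ζ 0‖)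
    (hΔ : 8 ≤ Del a ζ) (B : InT a ζ 0 6000000 9000000 10000000) : False := by
  exact chkT_sound h hM hmax hΔ _ _ _ B C.d5_0

theorem jobT_6 (h : Fr (M + 1) a ζ z) (hM : 0 < M) (hmax : ∀ k, ‖u a ζ k‖ ≤ ‖u a ζ 0‖)
    (hΔ : 8 ≤ Del a ζ) (B : InT a ζ 0 6000000 10000000 11000000) : False := by
  exact chkT_sound h hM hmax hΔ _ _ _ B C.d6_0

theorem jobT_7 (h : Fr (M + 1) a ζ z) (hM : 0 < M) (hmax : ∀ k, ‖u a ζ k‖ ≤ ‖u a ζ 0‖)
    (hΔ : 8 ≤ Del a ζ) (B : InT a ζ 0 6000000 11000000 12500000) : False := by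
  exact chkT_sound h hM hmax hΔ _ _ _ B C.d7_0

theorem jobT_8 (h : Fr (M + 1) a ζ z) (hM : 0 < M) (hmax : ∀ k, ‖u a ζ k‖ ≤ ‖u a ζ 0‖)
    (hΔ : 8 ≤ Del a ζ) (B : InT a ζ 0 6000000 12500000 14000000) : False := by
  exact chkT_sound h hM hmax hΔ _ _ _ B C.d8_0

theorem jobT_9 (h : Fr (M + 1) a ζ z) (hM : 0 < M) (hmax : ∀ k, ‖u a ζ k‖ ≤ ‖u a ζ 0‖)
    (hΔ : 8 ≤ Del a ζ) (B : InT a ζ 0 6000000 14000000 16000000) : False := by
  exact chkT_sound h hM hmax hΔ _ _ _ B C.d9_0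

theorem jobT_10 (h : Fr (M + 1) a ζ z) (hM : 0 < M) (hmax : ∀ k, ‖u a ζ k‖ ≤ ‖u a ζ 0‖)
    (hΔ : 8 ≤ Del a ζ) (B : InT a ζ 0 6000000 16000000 19000000) : False := by
  exact chkT_sound h hM hmax hΔ _ _ _ B C.d10_0

theorem jobT_11 (h : Fr (M + 1) a ζ z) (hM : 0 < M) (hmax : ∀ k, ‖u a ζ k‖ ≤ ‖u a ζ 0‖)
    (hΔ : 8 ≤ Del a ζ) (B : InT a ζ 0 6000000 19000000 22000000) : False := by
  exact chkT_sound h hM hmax hΔ _ _ _ B C.d11_0

theorem jobT_12 (h : Fr (M + 1) a ζ z) (hM : 0 < M) (hmax : ∀ k, ‖u a ζ k‖ ≤ ‖u a ζ 0‖)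
    (hΔ : 8 ≤ Del a ζ) (B : InT a ζ 0 6000000 22000000 26000000) : False := by
  exact chkT_sound h hM hmax hΔ _ _ _ B C.d12_0

theorem jobT_13 (h : Fr (M + 1) a ζ z) (hM : 0 < M) (hmax : ∀ k, ‖u a ζ k‖ ≤ ‖u a ζ 0‖)
    (hΔ : 8 ≤ Del a ζ) (B : InT a ζ 0 6000000 26000000 32000000) : False := by
  exact chkT_sound h hM hmax hΔ _ _ _ B C.d13_0

theorem jobT_14 (h : Fr (M + 1) a ζ z) (hM : 0 < M) (hmax : ∀ k, ‖u a ζ k‖ ≤ ‖u a ζ 0‖)
    (hΔ : 8 ≤ Del a ζ) (B : InT a ζ 0 6000000 32000000 40000000) : False := by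
  exact chkT_sound h hM hmax hΔ _ _ _ B C.d14_0

theorem jobT_15 (h : Fr (M + 1) a ζ z) (hM : 0 < M) (hmax : ∀ k, ‖u a ζ k‖ ≤ ‖u a ζ 0‖)
    (hΔ : 8 ≤ Del a ζ) (B : InT a ζ 0 6000000 40000000 60000000) : False := by
  exact chkT_sound h hM hmax hΔ _ _ _ B C.d15_0

theorem jobT_16 (h : Fr (M + 1) a ζ z) (hM : 0 < M) (hmax : ∀ k, ‖u a ζ k‖ ≤ ‖u a ζ 0‖)
    (hΔ : 8 ≤ Del a ζ) (B : InT a ζ 0 6000000 60000000 0) : False := by
  exact chkT_sound h hM hmax hΔ _ _ _ B C.d16_0

theorem runB_0 : runOK 50 11250000 11250000 12500000 1480000 11250000 11250000 0 0 (fin2 50 11250000 11250000 12500000) 8 50 = true := by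
  decide +kernel

theorem runB_1 : runOK 50 10000000 10000000 11250000 1687000 10000000 10000000 0 0 (fin2 50 10000000 10000000 11250000) 8 50 = true := by
  decide +kernel

theorem runB_2 : runOK 50 9000000 9000000 10000000 1913000 9000000 9000000 0 0 (fin2 50 9000000 9000000 10000000) 8 50 = true := by
  decide +kernel

theorem runB_3 : runOK 50 7500000 9360000 9000000 2120000 11500000 11500000 0 0 (fin2 50 9360000 11500000 9000000) 8 50 = true := by
  decide +kernel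

theorem runB_4 : runOK 50 5000000 7800000 7500000 3600000 11500000 11500000 0 0 (fin2 50 7800000 11500000 7500000) 8 50 = true := by
  decide +kernel

theorem runB_5 : runOK 50 2500000 5200000 5000000 4000000 11500000 11500000 0 0 (fin2 50 5200000 11500000 5000000) 8 50 = true := by
  decide +kernel

theorem runB_6 : runOK 50 0 2600000 2500000 4000000 11500000 11500000 0 0 (fin2 50 2600000 11500000 2500000) 8 50 = true := by
  decide +kernel

/-- `y ≥ 6` -/
theorem bigY (h : Fr (M + 1) a ζ z) (hM : 0 < M) (hmax : ∀ k, ‖u a ζ k‖ ≤ ‖u a ζ 0‖)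
    (hΔ : 8 ≤ Del a ζ) (ht : 25 / 2 ≤ ‖u a ζ 0‖)
    (hy : 6 ≤ (1 - a ^ 2) * ‖u a ζ 0‖) : False := by
  have ha0 := h.a0
  have ha1 := h.a1
  obtain ⟨b, hb⟩ : ∃ b : ℝ, b = 1 - a := ⟨_, rfl⟩
  obtain ⟨t, htdef⟩ : ∃ t : ℝ, t = ‖u a ζ 0‖ := ⟨_, rfl⟩
  have ht' : 25 / 2 ≤ t := by rw [htdef]; exact ht
  have hb0 : 0 < b := by linarith only [ha1, hb]
  have hb1 : b < 1 := by linarith only [ha0, hb]
  have hy' : 6 ≤ (2 - b) * (b * t) := by
    have e : (2 - b) * (b * t) = (1 - a ^ 2) * t := by rw [hb]; ring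
    rw [e, htdef]; exact hy
  have hbt : b * (25 / 2) ≤ b * t := mul_le_mul_of_nonneg_left ht' hb0.le
  have hV0 : ∀ c d : ℝ, c ≤ b → 0 ≤ d → (2 - c) * d ≤ 6 → d ≤ b * t := by
    intro c d hc hd h6
    by_contra hcon
    push Not at hcon
    have h1 : (2 - b) * (b * t) < (2 - b) * d := mul_lt_mul_of_pos_left hcon (by linarith only [ha0, ha1, hb])
    have h2 : (2 - b) * d ≤ (2 - c) * d := mul_le_mul_of_nonneg_right (by linarith only [hc]) hd
    linarith only [hy', h6, h1, h2]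
  have e1 : (1 - a) * ‖u a ζ 0‖ = b * t := by rw [hb, htdef]
  rcases le_total b (100000 / 1000000) with h0 | h0
  · exact bigY1 h hM hmax hΔ ht (b1 := 0) (b2 := 100000) runB_0 (by norm_num) (by norm_num)
      (by norm_num) (by norm_num) (by norm_num) (by push_cast; linarith only [ha1])
      (by push_cast; linarith only [hb, h0]) (by push_cast; norm_num) (by push_cast; norm_num) (by
        have := hV0 (0 / 1000000) (3 / 1) (by linarith only [ha1, hb]) (by norm_num) (by norm_num)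
        rw [e1]; push_cast; linarith only [this])
  rcases le_total b (200000 / 1000000) with h1 | h1
  · exact bigY1 h hM hmax hΔ ht (b1 := 100000) (b2 := 200000) runB_1 (by norm_num) (by norm_num)
      (by norm_num) (by norm_num) (by norm_num) (by push_cast; linarith only [hb, h0])
      (by push_cast; linarith only [hb, h1]) (by push_cast; norm_num) (by push_cast; norm_num) (by
        have := hV0 (100000 / 1000000) (3157 / 1000) (by linarith only [h0]) (by norm_num) (by norm_num)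
        rw [e1]; push_cast; linarith only [this])
  rcases le_total b (280000 / 1000000) with h2 | h2
  · exact bigY1 h hM hmax hΔ ht (b1 := 200000) (b2 := 280000) runB_2 (by norm_num) (by norm_num)
      (by norm_num) (by norm_num) (by norm_num) (by push_cast; linarith only [hb, h1])
      (by push_cast; linarith only [hb, h2]) (by push_cast; norm_num) (by push_cast; norm_num) (by
        have := hV0 (200000 / 1000000) (3333 / 1000) (by linarith only [h1]) (by norm_num) (by norm_num)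
        rw [e1]; push_cast; linarith only [this])
  rcases le_total b (400000 / 1000000) with h3 | h3
  · exact bigY2 h hM hmax hΔ ht (b1 := 280000) (b2 := 400000) runB_3 (by norm_num) (by norm_num)
      (by norm_num) (by norm_num) (by norm_num) (by norm_num) (by push_cast; linarith only [hb, h2])
      (by push_cast; linarith only [hb, h3]) (by push_cast; norm_num) (by push_cast; norm_num)
      (by push_cast; norm_num) (by
        rw [e1]; push_cast; linarith only [hbt, h2])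
  rcases le_total b (600000 / 1000000) with h4 | h4
  · exact bigY2 h hM hmax hΔ ht (b1 := 400000) (b2 := 600000) runB_4 (by norm_num) (by norm_num)
      (by norm_num) (by norm_num) (by norm_num) (by norm_num) (by push_cast; linarith only [hb, h3])
      (by push_cast; linarith only [hb, h4]) (by push_cast; norm_num) (by push_cast; norm_num)
      (by push_cast; norm_num) (by
        rw [e1]; push_cast; linarith only [ha1, hb, hbt, h3])
  rcases le_total b (800000 / 1000000) with h5 | h5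
  · exact bigY2 h hM hmax hΔ ht (b1 := 600000) (b2 := 800000) runB_5 (by norm_num) (by norm_num)
      (by norm_num) (by norm_num) (by norm_num) (by norm_num) (by push_cast; linarith only [hb, h4])
      (by push_cast; linarith only [hb, h5]) (by push_cast; norm_num) (by push_cast; norm_num)
      (by push_cast; norm_num) (by
        rw [e1]; push_cast; linarith only [hbt, h4])
  exact bigY2 h hM hmax hΔ ht (b1 := 800000) (b2 := 1000000) runB_6 (by norm_num) (by norm_num)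
    (by norm_num) (by norm_num) (by norm_num) (by norm_num) (by push_cast; linarith only [hb, h5])
    (by push_cast; linarith only [ha0]) (by push_cast; norm_num) (by push_cast; norm_num)
    (by push_cast; norm_num) (by
      rw [e1]; push_cast; linarith only [ha0, hb, hbt, h5])

/-- **part L-b for `t₀ ≥ 25/2`** -/
theorem LbT (h : Fr (M + 1) a ζ z) (hM : 99 ≤ M) (hmax : ∀ k, ‖u a ζ k‖ ≤ ‖u a ζ 0‖)
    (hΔ : 8 ≤ Del a ζ) (h1 : 25 / 2 ≤ ‖u a ζ 0‖) (h2 : 7 * ‖u a ζ 0‖ ≤ M + 1) : False := by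
  have hM0 : 0 < M := by omega
  rcases le_total 6 ((1 - a ^ 2) * ‖u a ζ 0‖) with hy | hy
  · exact bigY h hM0 hmax hΔ h1 hy
  rcases le_total ((M : ℝ) + 1) (7250000 / 1000000 * ‖u a ζ 0‖) with g0 | g0
  · exact jobT_0 h hM0 hmax hΔ (baseT h h1 hy (by norm_num) (by push_cast; linarith only [h2])
      (Or.inr (by push_cast; linarith only [g0])))
  rcases le_total ((M : ℝ) + 1) (7500000 / 1000000 * ‖u a ζ 0‖) with g1 | g1
  · exact jobT_1 h hM0 hmax hΔ (baseT h h1 hy (by norm_num) (by push_cast; linarith only [g0])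
      (Or.inr (by push_cast; linarith only [g1])))
  rcases le_total ((M : ℝ) + 1) (8000000 / 1000000 * ‖u a ζ 0‖) with g2 | g2
  · exact jobT_2 h hM0 hmax hΔ (baseT h h1 hy (by norm_num) (by push_cast; linarith only [g1])
      (Or.inr (by push_cast; linarith only [g2])))
  rcases le_total ((M : ℝ) + 1) (8500000 / 1000000 * ‖u a ζ 0‖) with g3 | g3
  · exact jobT_3 h hM0 hmax hΔ (baseT h h1 hy (by norm_num) (by push_cast; linarith only [g2])
      (Or.inr (by push_cast; linarith only [g3])))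
  rcases le_total ((M : ℝ) + 1) (9000000 / 1000000 * ‖u a ζ 0‖) with g4 | g4
  · exact jobT_4 h hM0 hmax hΔ (baseT h h1 hy (by norm_num) (by push_cast; linarith only [g3])
      (Or.inr (by push_cast; linarith only [g4])))
  rcases le_total ((M : ℝ) + 1) (10000000 / 1000000 * ‖u a ζ 0‖) with g5 | g5
  · exact jobT_5 h hM0 hmax hΔ (baseT h h1 hy (by norm_num) (by push_cast; linarith only [g4])
      (Or.inr (by push_cast; linarith only [g5])))
  rcases le_total ((M : ℝ) + 1) (11000000 / 1000000 * ‖u a ζ 0‖) with g6 | g6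
  · exact jobT_6 h hM0 hmax hΔ (baseT h h1 hy (by norm_num) (by push_cast; linarith only [g5])
      (Or.inr (by push_cast; linarith only [g6])))
  rcases le_total ((M : ℝ) + 1) (12500000 / 1000000 * ‖u a ζ 0‖) with g7 | g7
  · exact jobT_7 h hM0 hmax hΔ (baseT h h1 hy (by norm_num) (by push_cast; linarith only [g6])
      (Or.inr (by push_cast; linarith only [g7])))
  rcases le_total ((M : ℝ) + 1) (14000000 / 1000000 * ‖u a ζ 0‖) with g8 | g8
  · exact jobT_8 h hM0 hmax hΔ (baseT h h1 hy (by norm_num) (by push_cast; linarith only [g7])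
      (Or.inr (by push_cast; linarith only [g8])))
  rcases le_total ((M : ℝ) + 1) (16000000 / 1000000 * ‖u a ζ 0‖) with g9 | g9
  · exact jobT_9 h hM0 hmax hΔ (baseT h h1 hy (by norm_num) (by push_cast; linarith only [g8])
      (Or.inr (by push_cast; linarith only [g9])))
  rcases le_total ((M : ℝ) + 1) (19000000 / 1000000 * ‖u a ζ 0‖) with g10 | g10
  · exact jobT_10 h hM0 hmax hΔ (baseT h h1 hy (by norm_num) (by push_cast; linarith only [g9])
      (Or.inr (by push_cast; linarith only [g10])))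
  rcases le_total ((M : ℝ) + 1) (22000000 / 1000000 * ‖u a ζ 0‖) with g11 | g11
  · exact jobT_11 h hM0 hmax hΔ (baseT h h1 hy (by norm_num) (by push_cast; linarith only [g10])
      (Or.inr (by push_cast; linarith only [g11])))
  rcases le_total ((M : ℝ) + 1) (26000000 / 1000000 * ‖u a ζ 0‖) with g12 | g12
  · exact jobT_12 h hM0 hmax hΔ (baseT h h1 hy (by norm_num) (by push_cast; linarith only [g11])
      (Or.inr (by push_cast; linarith only [g12])))
  rcases le_total ((M : ℝ) + 1) (32000000 / 1000000 * ‖u a ζ 0‖) with g13 | g13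
  · exact jobT_13 h hM0 hmax hΔ (baseT h h1 hy (by norm_num) (by push_cast; linarith only [g12])
      (Or.inr (by push_cast; linarith only [g13])))
  rcases le_total ((M : ℝ) + 1) (40000000 / 1000000 * ‖u a ζ 0‖) with g14 | g14
  · exact jobT_14 h hM0 hmax hΔ (baseT h h1 hy (by norm_num) (by push_cast; linarith only [g13])
      (Or.inr (by push_cast; linarith only [g14])))
  rcases le_total ((M : ℝ) + 1) (60000000 / 1000000 * ‖u a ζ 0‖) with g15 | g15
  · exact jobT_15 h hM0 hmax hΔ (baseT h h1 hy (by norm_num) (by push_cast; linarith only [g14])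
      (Or.inr (by push_cast; linarith only [g15])))
  exact jobT_16 h hM0 hmax hΔ (baseT h h1 hy (by norm_num) (by push_cast; linarith only [g15]) (Or.inl rfl))

end Pool.Agent.Lib.MP_172a45_an.F.H69
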