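import Pool.Agent.Lib.MP_172a45_an.F.H69.Lb1
import Pool.Agent.Lib.MP_172a45_an.F.H69.LbT

set_option autoImplicit false

/-!
# Part L-b: no frame with `N ≥ 100`, `Δ ≥ 8`, `t₀ ≤ N/7`
-/

namespace Pool.Agent.Lib.MP_172a45_an.F.H69

open Pool.Agent.Lib.MP_172a45_an.F.Fr

variable {M : ℕ} {a : ℝ} {ζ z : Fin (M + 1) → ℂ}

/-- **part L-b** -/
theorem Lb (h : Fr (M + 1) a ζ z) (hM : 99 ≤ M) (hmax : ∀ k, ‖u a ζ k‖ ≤ ‖u a ζ 0‖)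
    (hΔ : 8 ≤ Del a ζ) (ht : 7 * ‖u a ζ 0‖ ≤ M + 1) : False := by
  rcases le_total ‖u a ζ 0‖ (25 / 2) with h1 | h1
  · exact Lb1 h hM hmax hΔ h1
  · exact LbT h hM hmax hΔ h1 ht

end Pool.Agent.Lib.MP_172a45_an.F.H69
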