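import Mathlib.Data.Int.Notation
import Mathlib.Data.Nat.Notation

set_option autoImplicit false

/-!
# The integer checkers of part L-b: definitions only

All numbers are scaled by `10⁶`.  Soundness: `Run`, `Frm`, `Typ2`, `ChkA`, `ChkB`, `ChkT`.
-/

namespace Pool.Agent.Lib.MP_172a45_an.F.H69

/-! ### from `Run` -/

def cdiv (a b : ℤ) : ℤ := -((-a) / b)

/-- upper bound of the loss at `i/n` -/
def eu (n X1 TAU i : ℤ) : ℤ :=
  let B := cdiv (n * 1000000 + i * TAU) (n - i)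
  let w := 2 * B - (i * (X1 * X1)) / (n * 1000000 + i * X1)
  if w ≤ 0 then 0 else cdiv (w * w) (4 * B)

/-- lower bound of `lam` at `i/n` -/
def ll (n X2 M D i : ℤ) : ℤ :=
  (M * (n - i) + i * D) / n - cdiv (n * X2 * 1000000) (n * 1000000 + i * X2)

/-- one step: the new `H`, or a negative number -/
def stp (n A H Ls Lt Ms Mt : ℤ) : ℤ :=
  let L0 := if Ms < 0 ∨ Mt < 0 then 0 else if Ms ≤ Mt then Ms else Mt
  let dL := if Ms < 0 ∨ Mt < 0 then 0 else if Ms ≤ Mt then Mt - Ms else 0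
  let P := A - Ls + L0 * H / 1000000
  let E := Ls - Lt + dL * H / 1000000 + L0 * P / (n * 1000000)
  if 0 ≤ P ∧ 0 ≤ E then H + (2 * P + E) / (2 * n)
  else if 0 ≤ P ∧ L0 ≤ n * 1000000 ∧ 0 ≤ P + E then H + (P + E) / n
  else H + (A - (if Ls ≤ Lt then Lt else Ls)) / n

/-- the main loop; `fin i H` is the final test -/
def go (n X1 X2 TAU A M D : ℤ) (fin : ℤ → ℤ → Bool) : ℕ → ℤ → ℤ → ℤ → ℤ → Bool
  | 0, _, _, _, _ => false
  | k + 1, i, H, Ls, Ms =>
    let Lt := eu n X1 TAU (i + 1)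
    let Mt := ll n X2 M D (i + 1)
    let Hn := stp n A H Ls Lt Ms Mt
    if n ≤ i + 1 then false
    else if Hn < 0 then false
    else if fin (i + 1) Hn then true
    else go n X1 X2 TAU A M D fin k (i + 1) Hn Lt Mt

/-- start stage on cells of length `1/n`: `h` may be negative (`≥ -Hm`).  A negative result means
failure. -/
def stt (n X1 TAU A K Hm : ℤ) : ℕ → ℤ → ℤ → ℤ → ℤ
  | 0, _, H, _ => H
  | k + 1, j, H, L =>
    let Lt := eu n X1 TAU (j + 1)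
    if L < Lt then -1
    else if H < -Hm then -1
    else if (H + Hm) * n + (A - K - L) < 0 then -1
    else stt n X1 TAU A K Hm k (j + 1) (H + (2 * (A - K) - L - Lt) / (2 * n)) Lt

/-- a complete run: `k` main steps, `n0` start cells in `[0, 1/n]` if `A < 1` -/
def runOK (n X1 X2 TAU A M D LAM Hm : ℤ) (fin : ℤ → ℤ → Bool) (n0 k : ℕ) : Bool :=
  if 1000000 ≤ A then go n X1 X2 TAU A M D fin k 0 0 (eu n X1 TAU 0) (ll n X2 M D 0)
  else
    let H := stt (n * n0) X1 TAU A (cdiv (LAM * Hm) 1000000) Hm n0 0 0 (eu (n * n0) X1 TAU 0)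
    if H < 0 then false
    else if stt (n * n0) X1 TAU 1000000 0 0 n0 0 0 (eu (n * n0) X1 TAU 0) < H then false
    else go n X1 X2 TAU A M D fin k 1 H (eu n X1 TAU 1) (ll n X2 M D 1)

/-! ### from `Frm` -/

/-- final test, type 1 -/
def fin1 (n X2 TAU : ℤ) (i H : ℤ) : Bool :=
  if i * i + i * n - n * n ≤ 0 then false
  else if H * (n * 1000000 + i * X2) * (i * i + i * n - n * n) <
    2 * i * (n * n) * ((1000000 + TAU) * (1000000 + X2)) then false else true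

/-! ### from `Typ2` -/

/-- final test, type 2 (`T = 25/2`, `β = 1/4`) -/
def fin2 (n X2 Mm TAU : ℤ) (i H : ℤ) : Bool :=
  if i * i + i * n - n * n ≤ 0 then false
  else if 25 * i < 16 * n then false
  else if H * (i * i + i * n - n * n) < 2 * (1000000 + TAU) * (n * n) then false
  else if 2 * ((ll n X2 Mm Mm i - 3125000) * H) * (n - i) < (2 * n + 25 * i) * 1000000000000 then false
  else true

/-! ### from `ChkA` -/

/-- upper bound of `10⁶ exp(G/128)` -/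
def eU (G : ℕ) : ℤ := ((1007843098 ^ G * 1000000 / 10 ^ (9 * G) + 1 : ℕ) : ℤ)

/-- lower bound of `10⁶ exp(G/128)` -/
def eL (G : ℕ) : ℤ := ((1007843097 ^ G * 1000000 / 10 ^ (9 * G) : ℕ) : ℤ)

/-- `e` -/
def rE (n2 b2 t1 Mm : ℤ) : ℤ :=
  if n2 = 0 then 0
  else if ((1000000 - b2) * (t1 + 500000)) / 1000000 ≤
      ((1000000 - b2) * (t1 - 1000000) / 1000000 + Mm) / (2 * (n2 - 1)) then
    ((1000000 - b2) * (t1 + 500000)) / 1000000
  else ((1000000 - b2) * (t1 - 1000000) / 1000000 + Mm) / (2 * (n2 - 1))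

def rA (F : ℤ) : ℤ := if F < 3220000 then F - 20000 else 3200000

def rTAU (b1 t2 : ℤ) : ℤ :=
  if t2 - 1000000 ≤ cdiv ((1000000 - b1) * t2) 1000000 then t2 - 1000000
  else cdiv ((1000000 - b1) * t2) 1000000

def rX1 (b2 t1 e : ℤ) : ℤ := ((1000000 - b2) * (t1 + 500000)) / 1000000 - e

def rX2 (b1 t2 e : ℤ) : ℤ := cdiv ((1000000 - b1) * (t2 + 500000)) 1000000 - e

def rD (D1 t1 : ℤ) (L : ℕ) : ℤ :=
  if D1 * 1000000 + (L * 1000000) / 128 ≤ t1 - 1000000 then t1 - 1000000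
  else D1 * 1000000 + (L * 1000000) / 128

def rLAM (n2 X2 TAU : ℤ) : ℤ :=
  3600000 + cdiv (cdiv (X2 * X2) 1000000 + cdiv (25 * ((n2 - 1) * TAU)) 24) 25

def rF (n2 b1 Mm V e : ℤ) : ℤ :=
  V - 1500000 + b1 / 2 + (if n2 = 0 then 0 else Mm / (n2 - 1)) + e

def rRun (n2 A TAU X1 X2 Mm D : ℤ) (H : ℕ) : Bool :=
  if A < 0 then false
  else if A < 1000000 then
    (if n2 = 0 then false
    else if TAU < 1000000 then false
    else runOK 25 X1 X2 TAU A Mm D (rLAM n2 X2 TAU) H (fin1 25 X2 TAU) 8 25)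
  else runOK 25 X1 X2 TAU A Mm D 0 0 (fin1 25 X2 TAU) 8 25

def leafE (n2 b1 b2 t1 t2 Mm V e D : ℤ) (H : ℕ) : Bool :=
  rRun n2 (rA (rF n2 b1 Mm V e)) (rTAU b1 t2) (rX1 b2 t1 e) (rX2 b1 t2 e) Mm D H

/-- last stage of a leaf -/
def leafR (n2 D1 b1 b2 t1 t2 Dst V : ℤ) (L H : ℕ) : Bool :=
  if V - 1500000 + b1 / 2 < 0 then false
  else if Dst < 0 then false
  else if !(L == 0) && decide (t1 < eU L) then false
  else leafE n2 b1 b2 t1 t2 (t1 - 1000000 + Dst) V (rE n2 b2 t1 (t1 - 1000000 + Dst))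
    (rD D1 t1 L) H

/-! ### from `ChkB` -/

/-- upper bound of `(1 - a²) t₀ - (1 - a)` -/
def kX0 (b1 b2 t2 : ℤ) : ℤ := cdiv (b2 * ((2000000 - b1) * t2 - 1000000000000)) 1000000000000

/-- test `G/128 ≤ GS` -/
def kG (n1 b1 X0 : ℤ) (G : ℕ) : Bool :=
  if X0 < 0 then false
  else if G = 0 then true
  else if 1000000 + (b1 * n1 * (3000000000000 - b1 * b1)) / 2000000000000 <
    cdiv (eU G * (1000000 + X0)) 1000000 + cdiv ((2000000 + X0) * G) 512 + cdiv X0 2 then false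
  else true

/-- lower bound of `(1 + a) t₀ - 1` at the corner -/
def kden (b1 t1 : ℤ) : ℤ := ((2000000 - b1) * t1) / 1000000 - 1000000

/-- upper bound of `a N/((1+a) t₀ - 1) - 1` -/
def knn (n b1 den : ℤ) : ℤ := cdiv ((1000000 - b1) * n * 1000000) den - 1000000

/-- value `(1 + v) g - n v²/4` -/
def kval (G v : ℕ) (nn : ℤ) : ℤ :=
  ((1000000 + v) * G) / 128 - cdiv (nn * (v * v)) 4000000000000

def kT2 (b2 t1 nn : ℤ) (G v : ℕ) : ℤ :=
  if 2000000 < (v : ℤ) then -1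
  else if ((2000000 - b2) * t1) / 1000000 < 1000000 + v then -1
  else kval G v (if nn < 0 then 0 else nn)

/-- kind T -/
def kT (n2 b1 b2 t1 : ℤ) (G v : ℕ) : ℤ :=
  if v = 0 then kval G 0 0
  else if n2 = 0 then -1
  else if kden b1 t1 ≤ 0 then -1
  else kT2 b2 t1 (knn n2 b1 (kden b1 t1)) G v

def kD2 (t1 nn : ℤ) (G v : ℕ) : ℤ :=
  if 2 * (t1 - 1000000) * 1000000 < v * (t1 + 1000000) then -1
  else kval G v nn

/-- lower bound of `g(t₀)` -/
def kgl (t1 : ℤ) (U : ℕ) : ℤ := t1 - 1000000 - cdiv (U * 1000000) 128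

/-- kind D -/
def kD (D2 t1 : ℤ) (G v U : ℕ) : ℤ :=
  if D2 = 0 then -1
  else if eL U < t1 then -1
  else if kgl t1 U ≤ 0 then -1
  else kD2 t1 (cdiv (D2 * 1000000000000) (kgl t1 U) - 1000000) G v

def kM2 (b2 t1 X0 n1 : ℤ) (G g : ℕ) : ℤ :=
  if n1 ≤ 0 then -1
  else if (2000000 + X0) * ((G : ℤ) - 128) + 256 * X0 - 512000000 < 0 then -1
  else if n1 * 16384 < (2 * g * G - g * g : ℤ) * 1000000 then -1
  else if !(g == 0) && decide (g < 64) then -1
  else if n1 * 128 < (g : ℤ) * 1000000 then -1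
  else if ((2000000 - b2) * t1) / 1000000 <
    1000000 + cdiv (2 * g * 1000000000000) (128 * n1) then -1
  else (G * 1000000) / 128 + ((2 * g * G - g * g : ℤ) * 1000000000000) / (16384 * n1)

/-- kind M -/
def kM (n1 b1 b2 t1 X0 : ℤ) (G g : ℕ) : ℤ :=
  if kden b1 t1 ≤ 0 then -1
  else if G = 0 then -1
  else kM2 b2 t1 X0 (knn n1 b1 (kden b1 t1)) G g

/-- upper bound of `y` -/
def ky2 (b2 t2 : ℤ) : ℤ := cdiv (b2 * (2000000 - b2) * t2) 1000000000000

/-- `Y + C'' (2 Y₀ - Y)/Y₀²` -/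
def kvY (Cp Y0 Y : ℤ) : ℤ := Y + (Cp * (2 * Y0 - Y) * 1000000) / (Y0 * Y0)

/-- lower bound of `b t₀ + D_S` -/
def kV (Cp Y0 Y1 Y2 : ℤ) : ℤ := if kvY Cp Y0 Y1 ≤ kvY Cp Y0 Y2 then kvY Cp Y0 Y1 else kvY Cp Y0 Y2

/-- leaf from `C` -/
def leafC (n2 D1 b1 b2 t1 t2 C : ℤ) (Y L H : ℕ) : Bool :=
  if C < 0 then false
  else if ky2 b2 t2 ≤ 0 then false
  else if Y = 0 then false
  else leafR n2 D1 b1 b2 t1 t2 ((C * 1000000) / ky2 b2 t2)
    (kV ((C * 1000000) / (2000000 - b1)) Y ((b1 * t1) / 1000000) (cdiv (b2 * t2) 1000000)) L H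

/-- kind S, auxiliary test -/
def kS (n1 b2 t2 Do u0 X0 : ℤ) : Bool :=
  if 1000000 < u0 then false
  else if 2 * (n1 * (3000000000000 - b2 * b2)) * 1000000000000 <
    6 * (2 * t2 - 1000000) * 1000000000000000000 +
    2 * t2 * (1000000 + u0) * (Do * (6000000 + 5 * X0)) then false
  else true

/-- the trees -/
inductive Tr where
  | T (G v Y L H : ℕ)
  | D (G v Y L H U : ℕ)
  | M (G g Y L H : ℕ)
  | S (Do L H : ℕ)
  | B (m : ℕ) (l r : Tr)
  | X (m : ℕ) (l r : Tr)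

/-- the checker -/
noncomputable def chk (n1 n2 D1 D2 : ℤ) (T : Tr) : ℤ → ℤ → ℤ → ℤ → Bool :=
  Tr.rec (motive := fun _ => ℤ → ℤ → ℤ → ℤ → Bool)
    (fun G v Y L H b1 b2 t1 t2 =>
      if !(kG n1 b1 (kX0 b1 b2 t2) G) then false
      else leafC n2 D1 b1 b2 t1 t2 (kT n2 b1 b2 t1 G v) Y L H)
    (fun G v Y L H U b1 b2 t1 t2 =>
      if !(kG n1 b1 (kX0 b1 b2 t2) G) then false
      else leafC n2 D1 b1 b2 t1 t2 (kD D2 t1 G v U) Y L H)
    (fun G g Y L H b1 b2 t1 t2 =>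
      if !(kG n1 b1 (kX0 b1 b2 t2) G) then false
      else leafC n2 D1 b1 b2 t1 t2 (kM n1 b1 b2 t1 (kX0 b1 b2 t2) G g) Y L H)
    (fun Do L H b1 b2 t1 t2 =>
      if !(kS n1 b2 t2 Do (cdiv (2 * Do * b2 * t2) 1000000000000)
        (cdiv (b2 * (2 * t2 - 1000000)) 1000000)) then false
      else leafR n2 D1 b1 b2 t1 t2 Do Do L H)
    (fun m _ _ l r b1 b2 t1 t2 =>
      if 1000000 < (m : ℤ) then false else if l b1 m t1 t2 then r m b2 t1 t2 else false)
    (fun m _ _ l r b1 b2 t1 t2 =>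
      if (m : ℤ) < 1000000 then false else if l b1 b2 t1 m then r b1 b2 m t2 else false) T

/-! ### from `ChkT` -/

def tE (r2 AL : ℤ) : ℤ := if r2 = 0 then 0 else ((1000000 + AL) * 23000000) / (50 * r2)

def tMU (r2 : ℤ) : ℤ := if r2 = 0 then 0 else 23000000000000 / (25 * r2)

def tRun (r2 A X1 : ℤ) (H : ℕ) : Bool :=
  if A < 0 then false
  else if A < 1000000 then
    (if r2 = 0 then false
    else runOK 50 X1 X1 12500000 A X1 X1 (6980000 + cdiv (r2 * 625) 196) H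
      (fin2 50 X1 X1 12500000) 8 50)
  else runOK 50 X1 X1 12500000 A X1 X1 0 0 (fin2 50 X1 X1 12500000) 8 50

/-- last stage -/
def leafT (r2 y2 V : ℤ) (AL H : ℕ) : Bool :=
  if V < 1500000 then false
  else if 25000000000000 - 2 * y2 * 1000000 < 25 * ((AL : ℤ) * AL) then false
  else if (AL : ℤ) < 2 * tE r2 AL then false
  else tRun r2 (rA (V - 1500000 + tMU r2 + tE r2 AL)) ((AL * 25) / 2) H

/-- test `G/128 ≤ GS` -/
def tG (y1 r1 X0 : ℤ) (G : ℕ) : Bool :=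
  if G = 0 then true
  else if 1000000 + (3 * y1 * r1) / 4000000 <
    cdiv (eU G * (1000000 + X0)) 1000000 + cdiv ((2000000 + X0) * G) 512 + cdiv X0 2 then false
  else true

def tnn (r : ℤ) : ℤ := cdiv (25 * r) 48 - 1000000

def tT (r2 : ℤ) (G v : ℕ) : ℤ :=
  if v = 0 then kval G 0 0
  else if r2 = 0 then -1
  else if 2000000 < (v : ℤ) then -1
  else kval G v (if tnn r2 < 0 then 0 else tnn r2)

def tM (r1 X0 : ℤ) (G g : ℕ) : ℤ :=
  if G = 0 then -1 else kM2 0 12500000 X0 (tnn r1) G g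

def tvY (C Y0 Y : ℤ) : ℤ := Y / 2 + (C * (2 * Y0 - Y) * 1000000) / (Y0 * Y0)

def tV (C Y0 Y1 Y2 : ℤ) : ℤ := if tvY C Y0 Y1 ≤ tvY C Y0 Y2 then tvY C Y0 Y1 else tvY C Y0 Y2

def leafCT (r2 y1 y2 C : ℤ) (Y AL H : ℕ) : Bool :=
  if C < 0 then false
  else if Y = 0 then false
  else leafT r2 y2 (tV C Y y1 y2) AL H

def tS (r1 y2 Do u0 : ℤ) : Bool :=
  if 1000000 < u0 then false
  else if 3 * r1 * 1000000000000 < 6000000000000000000 +
    Do * (4 * (1000000 + u0) * (1000000 + y2) + 2000000000000 + y2 * 1000000) then false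
  else true

/-- the trees -/
inductive Tt where
  | T (G v Y AL H : ℕ)
  | M (G g Y AL H : ℕ)
  | S (Do AL H : ℕ)
  | B (m : ℕ) (l r : Tt)

/-- the checker -/
noncomputable def chkT (r1 r2 : ℤ) (T : Tt) : ℤ → ℤ → Bool :=
  Tt.rec (motive := fun _ => ℤ → ℤ → Bool)
    (fun G v Y AL H y1 y2 =>
      if !(tG y1 r1 y2 G) then false else leafCT r2 y1 y2 (tT r2 G v) Y AL H)
    (fun G g Y AL H y1 y2 =>
      if !(tG y1 r1 y2 G) then false else leafCT r2 y1 y2 (tM r1 y2 G g) Y AL H)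
    (fun Do AL H _ y2 =>
      if !(tS r1 y2 Do (cdiv (Do * y2) 1000000)) then false else leafT r2 y2 Do AL H)
    (fun m _ _ l r y1 y2 =>
      if l y1 m then r m y2 else false) T

end Pool.Agent.Lib.MP_172a45_an.F.H69
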