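import Pool.Agent.Lib.MP_172a45_an.L.Chain
import Pool.Agent.Lib.MP_172a45_an.F.H69.Def

set_option autoImplicit false

/-!
# Basic facts used by the soundness files of part L-b
-/

namespace Pool.Agent.Lib.MP_172a45_an.F.H69

open Finset Real
open Pool.Agent.Lib.MP_172a45_an.F.Fr
open Pool.Agent.Lib.MP_172a45_an.L

theorem fdiv_le0 (a b : ℤ) (hb : 0 < b) : ((a / b : ℤ) : ℝ) ≤ (a : ℝ) / b := by
  rw [le_div_iff₀ (by exact_mod_cast hb)]
  exact_mod_cast Int.ediv_mul_le a hb.ne'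

theorem le_cdiv0 (a b : ℤ) (hb : 0 < b) : (a : ℝ) / b ≤ ((cdiv a b : ℤ) : ℝ) := by
  have h1 := fdiv_le0 (-a) b hb
  unfold cdiv
  push_cast at h1 ⊢
  rw [neg_div] at h1
  linarith

theorem one_lt_at {a t : ℝ} (ha : 0 < a) (ht : 1 ≤ t) : 1 < (1 + a) * t := by
  have h1 : 0 < a * t := mul_pos ha (by linarith)
  linarith

section Frame

variable {M : ℕ} {a : ℝ} {ζ z : Fin (M + 1) → ℂ}

theorem t0_ge_one (h : Fr (M + 1) a ζ z) (hmax : ∀ k, ‖u a ζ k‖ ≤ ‖u a ζ 0‖) :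
    1 ≤ ‖u a ζ 0‖ := by
  by_contra hcon
  push Not at hcon
  have h4 : ∑ k, ‖u a ζ k‖ < ∑ _k : Fin (M + 1), (1 : ℝ) :=
    Finset.sum_lt_sum_of_nonempty univ_nonempty fun k _ => (hmax k).trans_lt hcon
  rw [h.mean] at h4
  simp at h4

theorem DS_ge0 (h : Fr (M + 1) a ζ z) : 0 ≤ DS a ζ := by
  unfold DS
  refine Finset.sum_nonneg fun k _ => ?_
  have := h.gl k.succ
  exact sub_nonneg.2 this

end Frame

end Pool.Agent.Lib.MP_172a45_an.F.H69
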