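import Pool.Agent.Lib.MP_172a45_an.F.H69.Run

set_option autoImplicit false

/-!
# Runs on frames

Type 1: bounded `t₀` (`ν = 1`).  Type 2: `ν = t₀/T ≥ 1`.
-/

namespace Pool.Agent.Lib.MP_172a45_an.F.H69

open Finset Real MeasureTheory
open Pool.Agent.Lib.MP_172a45_an.F.Fr
open Pool.Agent.Lib.MP_172a45_an.L

section Frame

variable {M : ℕ} {a : ℝ} {ζ z : Fin (M + 1) → ℂ}

theorem one_le_t0 (h : Fr (M + 1) a ζ z) (hmax : ∀ k, ‖u a ζ k‖ ≤ ‖u a ζ 0‖) :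
    1 ≤ ‖u a ζ 0‖ := by
  by_contra hcon
  push Not at hcon
  have h4 : ∑ k, ‖u a ζ k‖ < ∑ _k : Fin (M + 1), (1 : ℝ) :=
    Finset.sum_lt_sum_of_nonempty univ_nonempty fun k _ => (hmax k).trans_lt hcon
  rw [h.mean] at h4
  simp at h4

theorem pr_nonneg (a : ℝ) (ζ : Fin (M + 1) → ℂ) : 0 ≤ pr a ζ := by
  unfold pr
  positivity

theorem exists_c0 (h : Fr (M + 1) a ζ z) (hM : 0 < M) (hmax : ∀ k, ‖u a ζ k‖ ≤ ‖u a ζ 0‖) :
    ∃ c0 : ℝ, 1 ≤ c0 ∧ (c0 - 1) * (c0 - kap a ζ) = pr a ζ := by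
  have hκ1 := kap_le_one h hM hmax
  have hp := pr_nonneg a ζ
  set μ := 1 - kap a ζ with hμ
  have hμ0 : 0 ≤ μ := by linarith
  have h1 : 0 ≤ μ ^ 2 + 4 * pr a ζ := by positivity
  have h2 : μ ≤ √(μ ^ 2 + 4 * pr a ζ) := by
    refine Real.le_sqrt_of_sq_le ?_
    linarith
  refine ⟨1 + (√(μ ^ 2 + 4 * pr a ζ) - μ) / 2, by linarith only [h2], ?_⟩
  have h3 := Real.sq_sqrt h1
  have e : (1 + (√(μ ^ 2 + 4 * pr a ζ) - μ) / 2 - 1) *
      (1 + (√(μ ^ 2 + 4 * pr a ζ) - μ) / 2 - kap a ζ) =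
      (√(μ ^ 2 + 4 * pr a ζ) ^ 2 - μ ^ 2) / 4 := by
    rw [hμ]; ring
  rw [e, h3]
  ring

/-- `1 - κ = (t₀ - 1 + D_S)/M` -/
theorem mu_eq (h : Fr (M + 1) a ζ z) (hM : 0 < M) :
    1 - kap a ζ = (‖u a ζ 0‖ - 1 + DS a ζ) / M := by
  have hM0 : (0 : ℝ) < M := by exact_mod_cast hM
  have h2 := kap_eq h hM
  rw [eq_div_iff hM0.ne']
  linarith only [h2]

theorem DS_nn (h : Fr (M + 1) a ζ z) : 0 ≤ DS a ζ := by
  unfold DS
  refine Finset.sum_nonneg fun k _ => ?_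
  have := h.gl k.succ
  exact sub_nonneg.2 this

/-- `x ≤ a t₀ + a/2 - e` -/
theorem x_le (h : Fr (M + 1) a ζ z) (hM : 0 < M) (hmax : ∀ k, ‖u a ζ k‖ ≤ ‖u a ζ 0‖) {c0 e : ℝ}
    (hroot : (c0 - 1) * (c0 - kap a ζ) = pr a ζ)
    (he : e ≤ (a * (‖u a ζ 0‖ - 1) + (‖u a ζ 0‖ - 1 + DS a ζ)) / (2 * M)) :
    c0 - 1 ≤ a * ‖u a ζ 0‖ + a / 2 - e := by
  have hκ1 := kap_le_one h hM hmax
  have hM0 : (0 : ℝ) < M := by exact_mod_cast hM
  have h1 := root_le2 h hM hκ1 hroot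
  have h2 := mu_eq h hM
  have h3 : tm a ζ = (M + 1 - ‖u a ζ 0‖) / M := by
    unfold tm
    rw [mean_tail h]
  rw [h3] at h1
  have e1 : a * ((M + 1 - ‖u a ζ 0‖) / M) = a - a * (‖u a ζ 0‖ - 1) / M := by
    field_simp
    ring
  rw [e1] at h1
  have e2 : (a * (‖u a ζ 0‖ - 1) + (‖u a ζ 0‖ - 1 + DS a ζ)) / (2 * M) =
      (a * (‖u a ζ 0‖ - 1) / M + (‖u a ζ 0‖ - 1 + DS a ζ) / M) / 2 := by
    field_simp
  rw [e2, ← h2] at he
  linarith only [he, h1]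

/-- `x ≥ a (t₀ - 1) - μ` -/
theorem x_ge (h : Fr (M + 1) a ζ z) (hM : 0 < M) (hmax : ∀ k, ‖u a ζ k‖ ≤ ‖u a ζ 0‖) {c0 : ℝ}
    (hc1 : 1 ≤ c0) (hroot : (c0 - 1) * (c0 - kap a ζ) = pr a ζ) :
    a * (‖u a ζ 0‖ - 1) - (1 - kap a ζ) ≤ c0 - 1 := by
  have hκ1 := kap_le_one h hM hmax
  have hM0 : (0 : ℝ) < M := by exact_mod_cast hM
  have ha := h.a0
  have ht := one_le_t0 h hmax
  have h2 := tail_mean_le h hmax
  have h3 : ‖(∑ k : Fin M, ut a ζ k) / M‖ ≤ 1 := by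
    rw [norm_div, Complex.norm_natCast, div_le_one hM0]
    exact (norm_sum_le _ _).trans h2
  have h4 : ‖u a ζ 0‖ - 1 ≤ ‖u a ζ 0 - (∑ k : Fin M, ut a ζ k) / M‖ := by
    have := norm_sub_norm_le (u a ζ 0) ((∑ k : Fin M, ut a ζ k) / M)
    linarith only [h3, this]
  have h5 : a ^ 2 * (‖u a ζ 0‖ - 1) ^ 2 ≤ pr a ζ := by
    unfold pr
    refine mul_le_mul_of_nonneg_left ?_ (by positivity)
    have h6 : 0 ≤ ‖u a ζ 0‖ - 1 := by linarith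
    calc (‖u a ζ 0‖ - 1) ^ 2 = (‖u a ζ 0‖ - 1) * (‖u a ζ 0‖ - 1) := by ring
      _ ≤ ‖u a ζ 0‖ * ‖u a ζ 0 - (∑ k : Fin M, ut a ζ k) / M‖ :=
        mul_le_mul (by linarith) h4 h6 (norm_nonneg _)
  rw [← hroot] at h5
  by_contra hcon
  push Not at hcon
  have h7 : 0 ≤ c0 - 1 := by linarith
  have h8 : c0 - kap a ζ < a * (‖u a ζ 0‖ - 1) := by linarith
  have h9 : 0 ≤ c0 - kap a ζ := by linarith
  have h10 : (c0 - kap a ζ) * (c0 - kap a ζ) < (a * (‖u a ζ 0‖ - 1)) * (a * (‖u a ζ 0‖ - 1)) :=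
    mul_self_lt_mul_self h9 h8
  nlinarith only [h5, h10, hc1, hκ1]

/-- `D ≤ D_S + (1 - a) t₀ + 1` -/
theorem Dall_le (h : Fr (M + 1) a ζ z) : Dall a ζ ≤ DS a ζ + (1 - a) * ‖u a ζ 0‖ + 1 := by
  have ha := h.a0
  rw [Dall_eq]
  have e := norm_sub_norm_le ((a : ℂ) * u a ζ 0) 1
  rw [norm_one, norm_mul, Complex.norm_real, Real.norm_of_nonneg ha.le, norm_sub_rev] at e
  linarith

/-- `lam ≥ M μ - x` -/
theorem lamf_ge_G (h : Fr (M + 1) a ζ z) (hM : 0 < M) {c0 s X : ℝ} (hc1 : 1 ≤ c0)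
    (hs0 : 0 ≤ s) (hs1 : s < 1) (hX : c0 - 1 ≤ X) :
    ‖u a ζ 0‖ - 1 + DS a ζ - X * (1 + s * X)⁻¹ ≤ lamf a ζ c0 s := by
  have hX0 : 0 ≤ X := by linarith
  have h1 : ∀ k : Fin M, (1 - ‖vt a ζ k‖) ≤ (1 - ‖vt a ζ k‖) / TT ‖vt a ζ k‖ s := by
    intro k
    have hT := TT_pos (norm_nonneg (vt a ζ k)) hs0 hs1
    rw [le_div_iff₀ hT]
    have e : TT ‖vt a ζ k‖ s = 1 + s * (‖vt a ζ k‖ - 1) := by unfold TT; ring
    rw [e]
    nlinarith only [hs0, mul_nonneg hs0 (sq_nonneg (1 - ‖vt a ζ k‖))]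
  have h2 := Finset.sum_le_sum fun k (_ : k ∈ (univ : Finset (Fin M))) => h1 k
  have h4 : ∑ k : Fin M, (1 - ‖vt a ζ k‖) = ‖u a ζ 0‖ - 1 + DS a ζ := by
    have e1 := kap_eq h hM
    have hM0 : (0 : ℝ) < M := by exact_mod_cast hM
    have e2 : (M : ℝ) * kap a ζ = ∑ k : Fin M, ‖vt a ζ k‖ := by
      unfold kap; field_simp
    rw [Finset.sum_sub_distrib]
    simp only [Finset.sum_const, Finset.card_univ, Fintype.card_fin, nsmul_eq_mul, mul_one]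
    rw [← e2, e1]
    ring
  rw [h4] at h2
  have h5 : (c0 - 1) / TT c0 s ≤ X * (1 + s * X)⁻¹ := by
    have e : TT c0 s = 1 + s * (c0 - 1) := by unfold TT; ring
    have hT := TT_pos (by linarith : 0 ≤ c0) hs0 hs1
    rw [← div_eq_mul_inv, div_le_div_iff₀ hT (by positivity), e]
    nlinarith only [hX]
  unfold lamf
  linarith only [h2, h5]

/-- conclusion from a state at `s₁` -/
theorem fr_false (h : Fr (M + 1) a ζ z) (hM : 0 < M) (hmax : ∀ k, ‖u a ζ k‖ ≤ ‖u a ζ 0‖)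
    (hΔ : 8 ≤ Del a ζ) {c0 τ s1 x1 A hh : ℝ} (hc1 : 1 ≤ c0)
    (hroot : (c0 - 1) * (c0 - kap a ζ) = pr a ζ)
    (hτ0 : 0 ≤ τ) (hτ : ∀ k, ‖vt a ζ k‖ ≤ 1 + τ) (hs0 : 0 < s1) (hs1 : s1 < 1)
    (hw : 0 < s1 ^ 2 + s1 - 1) (hx1 : 0 ≤ x1) (hA : 0 ≤ A) (hA4 : A ≤ 4)
    (hx1a : x1 ≤ a * ‖u a ζ 0‖ + a / 2) (hF1 : A + 1 / 50 ≤ Gam a ζ c0)
    (hF2 : A + 1 / 50 ≤ (M + 1) * (1 - kap a ζ) - x1)
    (hI : Inv (qf a ζ c0) (lst τ x1) A s1 hh)
    (hend : 2 * s1 / (s1 ^ 2 + s1 - 1) * ((1 + τ) * c0) ≤ hh * TT c0 s1) : False := by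
  set F := min (Gam a ζ c0) ((M + 1) * (1 - kap a ζ) - x1) with hF
  have hcore := core h hM hmax hc1 hroot hτ0 hτ hs0 hs1 hw hx1 hA (min_le_left _ _ : F ≤ _)
    (min_le_right _ _ : F ≤ _) hI hend
  refine final h hM hmax hc1 hroot hΔ (F := F) (A := A) ?_ hA4 ?_ hcore
  · have := le_min hF1 hF2
    rw [← hF] at this
    linarith only [this]
  · have hκ1 := kap_le_one h hM hmax
    refine le_min ?_ ?_
    · have := Gam_ge1 h hM hroot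
      linarith only [hs0, hs1, hκ1, this]
    · have h1 := Dall_le h
      have h2 := mu_eq h hM
      have h3 : (M : ℝ) * (1 - kap a ζ) = ‖u a ζ 0‖ - 1 + DS a ζ := by
        have hM0 : (0 : ℝ) < M := by exact_mod_cast hM
        rw [h2]; field_simp
      have ha1 := h.a1
      have e : ((M : ℝ) + 1) * (1 - kap a ζ) = (‖u a ζ 0‖ - 1 + DS a ζ) + (1 - kap a ζ) := by
        rw [← h3]; ring
      rw [e]
      linarith only [hx1a, hκ1, h1, ha1]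

/-- the functions of a frame satisfy the hypotheses of a run -/
theorem runHyp (h : Fr (M + 1) a ζ z) {c0 ν : ℝ} (hc1 : 1 ≤ c0) {n X1 X2 TAU Mm D : ℤ}
    (hν : 1 ≤ ν) (hn : 0 < n) (hX1 : 0 ≤ X1) (hX2 : 0 ≤ X2) (hT : 0 ≤ TAU)
    (hlam : ∀ x : ℝ, 0 ≤ x → ν * x < 1 → ν * lamL ((X2 : ℝ) / 1000000) ((Mm : ℝ) / 1000000)
      ((D : ℝ) / 1000000) (ν * x) ≤ lamf a ζ c0 x)
    (hlam0 : ∀ x : ℝ, 0 ≤ x → x < 1 → 0 ≤ lamf a ζ c0 x) :
    RunHyp (qf a ζ c0) (lamf a ζ c0) ν n X1 X2 TAU Mm D where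
  hν := hν
  hn := hn
  hX1 := hX1
  hX2 := hX2
  hT := hT
  hq := fun _ h0 h1 => qf_deriv (by linarith) h0 h1
  hqc := qf_cont a ζ c0
  hq0 := fun _ h0 h1 => qf_nonneg (by linarith) h0 h1
  hlam := hlam
  hlam0 := hlam0

/-- `G = M μ - x ≤ 18/5` if `F` is small -/
theorem G_le (h : Fr (M + 1) a ζ z) (hM : 0 < M) (hmax : ∀ k, ‖u a ζ k‖ ≤ ‖u a ζ 0‖)
    {c0 x1 : ℝ} (hc1 : 1 ≤ c0) (hroot : (c0 - 1) * (c0 - kap a ζ) = pr a ζ)
    (hx1a : x1 ≤ a * ‖u a ζ 0‖ + a / 2)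
    (hF : Gam a ζ c0 < 51 / 50 ∨ (M + 1) * (1 - kap a ζ) - x1 < 51 / 50) :
    ‖u a ζ 0‖ - 1 + DS a ζ - (c0 - 1) ≤ 18 / 5 := by
  have hκ1 := kap_le_one h hM hmax
  have hκ0 : 0 ≤ kap a ζ := H69.kap_nonneg
  have ha1 := h.a1
  have h2 := mu_eq h hM
  have h3 : (M : ℝ) * (1 - kap a ζ) = ‖u a ζ 0‖ - 1 + DS a ζ := by
    have hM0 : (0 : ℝ) < M := by exact_mod_cast hM
    rw [h2]; field_simp
  have e : ((M : ℝ) + 1) * (1 - kap a ζ) = (‖u a ζ 0‖ - 1 + DS a ζ) + (1 - kap a ζ) := by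
    rw [← h3]; ring
  have h4 := x_ge h hM hmax hc1 hroot
  rcases hF with hF | hF
  · unfold Gam at hF
    rw [e] at hF
    linarith only [hκ1, hF]
  · rw [e] at hF
    linarith only [hx1a, ha1, h4, hF]

/-- **type 1** -/
theorem run1_false (h : Fr (M + 1) a ζ z) (hM : 0 < M) (hmax : ∀ k, ‖u a ζ k‖ ≤ ‖u a ζ 0‖)
    (hΔ : 8 ≤ Del a ζ) {n X1 X2 TAU A Mm D LAM Hm : ℤ} {n0 k : ℕ} {e : ℝ}
    (hrun : runOK n X1 X2 TAU A Mm D LAM Hm (fin1 n X2 TAU) n0 k = true)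
    (hn2 : 2 ≤ n) (hn0 : 0 < n0) (hHm : 0 ≤ Hm) (hX10 : 0 ≤ X1) (hX20 : 0 ≤ X2) (hT0 : 0 ≤ TAU)
    (hA0 : 0 ≤ A) (hA4 : A ≤ 4000000) (he0 : 0 ≤ e)
    (he : e ≤ (a * (‖u a ζ 0‖ - 1) + (‖u a ζ 0‖ - 1 + DS a ζ)) / (2 * M))
    (hF : (A : ℝ) / 1000000 + 1 / 50 ≤
      (‖u a ζ 0‖ - 1 + DS a ζ) * (1 + 1 / M) - a * ‖u a ζ 0‖ - a / 2 + e)
    (hG : a * ‖u a ζ 0‖ + a / 2 ≤ ‖u a ζ 0‖ - 1 + DS a ζ)
    (hX1 : (X1 : ℝ) / 1000000 ≤ a * ‖u a ζ 0‖ + a / 2 - e)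
    (hX2 : a * ‖u a ζ 0‖ + a / 2 - e ≤ (X2 : ℝ) / 1000000)
    (hτ : ‖u a ζ 0‖ - 1 ≤ (TAU : ℝ) / 1000000 ∨ a * ‖u a ζ 0‖ ≤ (TAU : ℝ) / 1000000)
    (hm : (Mm : ℝ) / 1000000 ≤ ‖u a ζ 0‖ - 1 + DS a ζ)
    (hD : (D : ℝ) / 1000000 ≤ Del a ζ + Real.log ‖u a ζ 0‖)
    (hLAM : A < 1000000 → 1000000 ≤ TAU ∧
      18 / 5 + 1 / n * (((X2 : ℝ) / 1000000) ^ 2 + M * ((TAU : ℝ) / 1000000) / (1 - 1 / n)) ≤
        (LAM : ℝ) / 1000000) : False := by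
  obtain ⟨c0, hc1, hroot⟩ := exists_c0 h hM hmax
  have hκ1 := kap_le_one h hM hmax
  have hM0 : (0 : ℝ) < M := by exact_mod_cast hM
  have ha0 := h.a0
  have ha1 := h.a1
  have ht := one_le_t0 h hmax
  have hn : 0 < n := by linarith only [hn2]
  have hnR : (0 : ℝ) < n := by exact_mod_cast hn
  have hn2R : (2 : ℝ) ≤ n := by exact_mod_cast hn2
  have hx := x_le h hM hmax hroot he
  have hx2 : c0 - 1 ≤ (X2 : ℝ) / 1000000 := hx.trans hX2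
  have hTR : (0 : ℝ) ≤ (TAU : ℝ) / 1000000 := by
    have : (0 : ℝ) ≤ TAU := by exact_mod_cast hT0
    positivity
  have hX1R : (0 : ℝ) ≤ (X1 : ℝ) / 1000000 := by
    have : (0 : ℝ) ≤ X1 := by exact_mod_cast hX10
    positivity
  have hX2R : (0 : ℝ) ≤ (X2 : ℝ) / 1000000 := by
    have : (0 : ℝ) ≤ X2 := by exact_mod_cast hX20
    positivity
  have hτ' : ∀ k, ‖vt a ζ k‖ ≤ 1 + (TAU : ℝ) / 1000000 := by
    intro k
    rcases hτ with h1 | h1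
    · have h2 : ‖vt a ζ k‖ ≤ ‖ut a ζ k‖ := h.gl k.succ
      have h3 : ‖ut a ζ k‖ ≤ ‖u a ζ 0‖ := hmax k.succ
      linarith only [h1, h2, h3]
    · have h2 : ‖vt a ζ k‖ ≤ 1 + a * ‖ut a ζ k‖ := by
        unfold vt
        refine (norm_sub_le _ _).trans ?_
        rw [norm_one, norm_mul, Complex.norm_real, Real.norm_of_nonneg ha0.le]
      have h3 : ‖ut a ζ k‖ ≤ ‖u a ζ 0‖ := hmax k.succ
      have := mul_le_mul_of_nonneg_left h3 ha0.le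
      linarith only [h1, h2, this]
  have hGx : c0 - 1 ≤ ‖u a ζ 0‖ - 1 + DS a ζ := by linarith only [he0, hG, hx]
  have R : RunHyp (qf a ζ c0) (lamf a ζ c0) 1 n X1 X2 TAU Mm D := by
    refine runHyp h hc1 le_rfl hn hX10 hX20 hT0 ?_ ?_
    · intro x hx0 hx1
      rw [one_mul] at hx1 ⊢
      rw [one_mul]
      exact lamf_ge h hM hc1 hx0 hx1 hx2 hm hD
    · intro x hx0 hx1
      have h1 := lamf_ge_G h hM hc1 hx0 hx1 (le_refl (c0 - 1))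
      have h2 : (c0 - 1) * (1 + x * (c0 - 1))⁻¹ ≤ c0 - 1 := by
        have h3 : 0 ≤ c0 - 1 := by linarith only [hc1]
        have h4 : (1 + x * (c0 - 1))⁻¹ ≤ 1 := by
          apply inv_le_one_of_one_le₀
          have := mul_nonneg hx0 h3
          linarith only [this]
        nlinarith only [hc1, h4]
      linarith only [he0, hG, hx, h1, h2]
  have hx1a : (X1 : ℝ) / 1000000 ≤ a * ‖u a ζ 0‖ + a / 2 := by linarith only [he0, hX1]
  have e1 : (M : ℝ) * (1 - kap a ζ) = ‖u a ζ 0‖ - 1 + DS a ζ := by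
    rw [mu_eq h hM]; field_simp
  have e2 : ((M : ℝ) + 1) * (1 - kap a ζ) = (‖u a ζ 0‖ - 1 + DS a ζ) * (1 + 1 / M) := by
    rw [mu_eq h hM]; field_simp
  have hF1 : (A : ℝ) / 1000000 + 1 / 50 ≤ Gam a ζ c0 := by
    unfold Gam
    rw [e2]
    linarith only [hF, hx]
  have hF2 : (A : ℝ) / 1000000 + 1 / 50 ≤ (M + 1) * (1 - kap a ζ) - (X1 : ℝ) / 1000000 := by
    rw [e2]
    linarith only [hF, hX1]
  have hAR : (0 : ℝ) ≤ (A : ℝ) / 1000000 := by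
    have : (0 : ℝ) ≤ A := by exact_mod_cast hA0
    positivity
  have hA4R : (A : ℝ) / 1000000 ≤ 4 := by
    rw [div_le_iff₀ (by norm_num)]
    have : (A : ℝ) ≤ 4000000 := by exact_mod_cast hA4
    linarith only [this]
  -- the level `A'`
  obtain ⟨A', hAA, hA'4, hG1, hG2, hΛ⟩ : ∃ A' : ℝ, (A : ℝ) / 1000000 ≤ A' ∧ A' ≤ 4 ∧
      A' + 1 / 50 ≤ Gam a ζ c0 ∧
      A' + 1 / 50 ≤ (M + 1) * (1 - kap a ζ) - (X1 : ℝ) / 1000000 ∧
      (1 ≤ A' ∨ ∀ x ∈ Set.Icc (0:ℝ) (1 / (n * 1)),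
        lamf a ζ c0 x ≤ 1 * ((LAM : ℝ) / 1000000)) := by
    by_cases hA1 : A < 1000000
    · by_cases hc : Gam a ζ c0 < 51 / 50 ∨ (M + 1) * (1 - kap a ζ) - (X1 : ℝ) / 1000000 < 51 / 50
      · refine ⟨(A : ℝ) / 1000000, le_rfl, hA4R, hF1, hF2, Or.inr ?_⟩
        intro x hx
        rw [mul_one] at hx
        obtain ⟨hT1, hL⟩ := hLAM hA1
        have hG' := G_le h hM hmax hc1 hroot hx1a hc
        have hx1 : x < 1 := by
          have : 1 / (n : ℝ) ≤ 1 / 2 := one_div_le_one_div_of_le (by norm_num) hn2R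
          linarith only [ha0, ha1, this, hx.2]
        have hT1R : (1 : ℝ) ≤ (TAU : ℝ) / 1000000 := by
          rw [le_div_iff₀ (by norm_num)]
          have : (1000000 : ℝ) ≤ TAU := by exact_mod_cast hT1
          linarith only [this]
        have h1 := lamf_le h hM hc1 hx.1 hx1 hκ1 hτ' hT1R
        rw [one_mul]
        refine le_trans ?_ hL
        refine h1.trans (add_le_add hG' ?_)
        have p1 : 0 < 1 - 1 / (n : ℝ) := by
          have : 1 / (n : ℝ) ≤ 1 / 2 := one_div_le_one_div_of_le (by norm_num) hn2R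
          linarith only [ha0, ha1, this]
        refine mul_le_mul hx.2 ?_ ?_ (by positivity)
        · refine add_le_add ?_ ?_
          · exact pow_le_pow_left₀ (by linarith only [hc1]) hx2 2
          · exact div_le_div_of_nonneg_left (by positivity) p1 (by linarith only [hx.2])
        · have : 0 < 1 - x := by linarith only [hx1]
          positivity
      · push Not at hc
        refine ⟨1, ?_, by norm_num, by linarith only [hc.1], by linarith only [hc.2], Or.inl le_rfl⟩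
        rw [div_le_one (by norm_num)]
        have : (A : ℝ) < 1000000 := by exact_mod_cast hA1
        linarith only [this]
    · push Not at hA1
      refine ⟨(A : ℝ) / 1000000, le_rfl, hA4R, hF1, hF2, Or.inl ?_⟩
      rw [le_div_iff₀ (by norm_num)]
      have : (1000000 : ℝ) ≤ A := by exact_mod_cast hA1
      linarith only [this]
  obtain ⟨j, G, hj0, hjn, hGG, hfin, hI⟩ := run_sound R hn2 hn0 hHm hrun hAA hΛ
  simp only [mul_one] at hI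
  have hjR : (0 : ℝ) < j := by exact_mod_cast hj0
  have hjnR : (j : ℝ) < n := by exact_mod_cast hjn
  have hs0 : (0:ℝ) < (j : ℝ) / n := by positivity
  have hs1 : (j : ℝ) / n < 1 := by rw [div_lt_one hnR]; exact hjnR
  unfold fin1 at hfin
  split_ifs at hfin with f1 f2
  push Not at f1 f2
  have f1R : (0 : ℝ) < (j : ℝ) * j + j * n - n * n := by exact_mod_cast f1
  have f2R : 2 * (j : ℝ) * (n * n) * ((1000000 + TAU) * (1000000 + X2)) ≤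
      G * (n * 1000000 + j * X2) * (j * j + j * n - n * n) := by exact_mod_cast f2
  have hw : 0 < ((j : ℝ) / n) ^ 2 + (j : ℝ) / n - 1 := by
    have e : ((j : ℝ) / n) ^ 2 + (j : ℝ) / n - 1 = (j * j + j * n - n * n) / (n * n) := by
      field_simp
    rw [e]
    positivity
  have hrl : rl 1 X1 TAU = lst ((TAU : ℝ) / 1000000) ((X1 : ℝ) / 1000000) := by
    unfold rl
    rw [one_mul, one_mul]
  rw [hrl] at hI
  refine fr_false h hM hmax hΔ hc1 hroot hTR hτ' hs0 hs1 hw hX1R (hAR.trans hAA) hA'4 hx1a hG1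
    hG2 hI ?_
  -- final test
  have hc0X : c0 ≤ 1 + (X2 : ℝ) / 1000000 := by linarith only [hX2, hx]
  have hTT : TT c0 ((j : ℝ) / n) = 1 + (j : ℝ) / n * (c0 - 1) := by unfold TT; ring
  have key : 2 * ((j : ℝ) / n) / (((j : ℝ) / n) ^ 2 + (j : ℝ) / n - 1) *
      ((1 + (TAU : ℝ) / 1000000) * (1 + (X2 : ℝ) / 1000000)) ≤
      (G : ℝ) / 1000000 * (1 + (j : ℝ) / n * ((X2 : ℝ) / 1000000)) := by
    rw [div_mul_eq_mul_div, div_le_iff₀ hw]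
    have e1 : 2 * ((j : ℝ) / n) * ((1 + (TAU : ℝ) / 1000000) * (1 + (X2 : ℝ) / 1000000)) =
        (2 * (j : ℝ) * (n * n) * ((1000000 + TAU) * (1000000 + X2))) /
          (n * n * n * (1000000 * 1000000)) := by
      field_simp
    have e2 : (G : ℝ) / 1000000 * (1 + (j : ℝ) / n * ((X2 : ℝ) / 1000000)) *
        (((j : ℝ) / n) ^ 2 + (j : ℝ) / n - 1) =
        (G * (n * 1000000 + j * X2) * (j * j + j * n - n * n)) /
          (n * n * n * (1000000 * 1000000)) := by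
      field_simp
    rw [e1, e2]
    exact div_le_div_of_nonneg_right f2R (by positivity)
  rw [hTT]
  -- `c₀/(1 + s x)` is monotone in `x`
  set s := (j : ℝ) / n with hs
  set K := 2 * s / (s ^ 2 + s - 1) * (1 + (TAU : ℝ) / 1000000) with hK
  have hK0 : 0 ≤ K := by positivity
  have hGr : (0 : ℝ) ≤ (G : ℝ) / 1000000 := by
    have : (0 : ℝ) ≤ G := by exact_mod_cast hGG
    positivity
  have key' : K * (1 + (X2 : ℝ) / 1000000) ≤
      (G : ℝ) / 1000000 * (1 + s * ((X2 : ℝ) / 1000000)) := by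
    rw [hK]; linarith only [key]
  have goal' : K * c0 ≤ (G : ℝ) / 1000000 * (1 + s * (c0 - 1)) := by
    set X := (X2 : ℝ) / 1000000 with hX
    set g := (G : ℝ) / 1000000 with hg
    set x := c0 - 1 with hxdef
    have hx0 : 0 ≤ x := by linarith only [hc1]
    have hc0' : c0 = 1 + x := by linarith only
    rw [hc0']
    have hp : 0 < 1 + s * X := by positivity
    have h1 : (1 + x) * (1 + s * X) ≤ (1 + X) * (1 + s * x) := by nlinarith only [ha0, ha1, hs1,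
        hc0X]
    have h2 : K * (1 + x) * (1 + s * X) ≤ g * (1 + s * x) * (1 + s * X) := by
      calc K * (1 + x) * (1 + s * X) = K * ((1 + x) * (1 + s * X)) := by ring
        _ ≤ K * ((1 + X) * (1 + s * x)) := mul_le_mul_of_nonneg_left h1 hK0
        _ = (K * (1 + X)) * (1 + s * x) := by ring
        _ ≤ (g * (1 + s * X)) * (1 + s * x) :=
          mul_le_mul_of_nonneg_right key' (by positivity)
        _ = _ := by ring
    exact le_of_mul_le_mul_right h2 hp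
  have e5 : 2 * s / (s ^ 2 + s - 1) * ((1 + (TAU : ℝ) / 1000000) * c0) = K * c0 := by
    rw [hK]; ring
  rw [e5]
  exact goal'

end Frame

end Pool.Agent.Lib.MP_172a45_an.F.H69
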