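import Pool.Agent.Lib.MP_172a45_an.F.H69.KndA
import Pool.Agent.Lib.MP_172a45_an.F.H69.Frm

set_option autoImplicit false

/-!
# Cells of part L-b, type 1: the last stage
-/

namespace Pool.Agent.Lib.MP_172a45_an.F.H69

open Finset Real
open Pool.Agent.Lib.MP_172a45_an.F.Fr
open Pool.Agent.Lib.MP_172a45_an.L

section Sound

variable {M : ℕ} {a : ℝ} {ζ z : Fin (M + 1) → ℂ} {n1 n2 D1 D2 b1 b2 t1 t2 : ℤ}

/-- bounds of `e` -/
theorem rE_sound (h : Fr (M + 1) a ζ z) (hM : 0 < M) (B : InB a ζ n1 n2 D1 D2 b1 b2 t1 t2)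
    {Mm : ℤ} (hMm0 : 0 ≤ Mm) (hMm : (Mm : ℝ) / 1000000 ≤ ‖u a ζ 0‖ - 1 + DS a ζ) :
    0 ≤ rE n2 b2 t1 Mm ∧ rE n2 b2 t1 Mm ≤ ((1000000 - b2) * (t1 + 500000)) / 1000000 ∧
    ((rE n2 b2 t1 Mm : ℤ) : ℝ) / 1000000 ≤
      (a * (‖u a ζ 0‖ - 1) + (‖u a ζ 0‖ - 1 + DS a ζ)) / (2 * M) := by
  have hM0 : (0 : ℝ) < M := by exact_mod_cast hM
  have hb21 := B.b21
  have ht10 := B.t10
  have ha0 := h.a0
  have ht1 := B.ht1
  have hea : 0 ≤ ((1000000 - b2) * (t1 + 500000)) / 1000000 :=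
    Int.ediv_nonneg (mul_nonneg (by linarith only [hb21]) (by linarith only [ht10])) (by norm_num)
  have ht1R : (1000000 : ℝ) ≤ t1 := by exact_mod_cast ht10
  have ht : 1 ≤ ‖u a ζ 0‖ := by
    have : (1:ℝ) ≤ (t1 : ℝ) / 1000000 := by rw [le_div_iff₀ (by norm_num)]; linarith only [ht1R]
    linarith only [ht1, ht1R]
  have hMmR : (0 : ℝ) ≤ (Mm : ℝ) / 1000000 := by
    have : (0 : ℝ) ≤ Mm := by exact_mod_cast hMm0
    positivity
  have hRHS : 0 ≤ (a * (‖u a ζ 0‖ - 1) + (‖u a ζ 0‖ - 1 + DS a ζ)) / (2 * M) := by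
    have : 0 ≤ a * (‖u a ζ 0‖ - 1) := mul_nonneg ha0.le (by linarith only [ht1, ht1R])
    have : 0 ≤ a * (‖u a ζ 0‖ - 1) + (‖u a ζ 0‖ - 1 + DS a ζ) := by linarith only [hMm, hMmR, this]
    positivity
  unfold rE
  by_cases hn : n2 = 0
  · rw [if_pos hn]
    refine ⟨le_rfl, hea, ?_⟩
    push_cast
    rw [zero_div]
    exact hRHS
  · rw [if_neg hn]
    have hn2 : (M : ℝ) + 1 ≤ n2 := by
      rcases B.hn2 with h1 | h1
      · exact absurd h1 hn
      · exact h1
    have hn2' : (0 : ℝ) < (n2 : ℝ) - 1 := by linarith only [hM0, hn2]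
    have hn2Z : 0 < n2 - 1 := by exact_mod_cast hn2'
    have he0 : 0 ≤ ((1000000 - b2) * (t1 - 1000000) / 1000000 + Mm) / (2 * (n2 - 1)) := by
      refine Int.ediv_nonneg (add_nonneg (Int.ediv_nonneg (mul_nonneg (by linarith only [hb21]) (by linarith only [ht10]))
        (by norm_num)) hMm0) (by linarith only [hn2Z])
    have hm : ∀ x : ℤ, x ≤ ((1000000 - b2) * (t1 - 1000000) / 1000000 + Mm) / (2 * (n2 - 1)) →
        (x : ℝ) / 1000000 ≤ (a * (‖u a ζ 0‖ - 1) + (‖u a ζ 0‖ - 1 + DS a ζ)) / (2 * M) := by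
      intro x hx
      have g1 := fdiv_le ((1000000 - b2) * (t1 - 1000000) / 1000000 + Mm) (2 * (n2 - 1))
        (by linarith only [hn2Z])
      have g2 := fdiv_le ((1000000 - b2) * (t1 - 1000000)) 1000000 (by norm_num)
      have hxR : (x : ℝ) ≤ (((((1000000 - b2) * (t1 - 1000000) / 1000000 + Mm) /
        (2 * (n2 - 1)) : ℤ)) : ℝ) := by exact_mod_cast hx
      push_cast at g1 g2 hxR
      have hb2 : (1000000 - (b2 : ℝ)) / 1000000 ≤ a := by
        have := B.hb2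
        have e : (1000000 - (b2 : ℝ)) / 1000000 = 1 - (b2 : ℝ) / 1000000 := by ring
        linarith only [this]
      have hb2' : (0 : ℝ) ≤ (1000000 - (b2 : ℝ)) / 1000000 := by
        have : (b2 : ℝ) ≤ 1000000 := by exact_mod_cast hb21
        apply div_nonneg (by linarith only [this]) (by norm_num)
      have g3 : (1000000 - (b2 : ℝ)) * (t1 - 1000000) / 1000000 / 1000000 ≤
          a * (‖u a ζ 0‖ - 1) := by
        have e : (1000000 - (b2 : ℝ)) * (t1 - 1000000) / 1000000 / 1000000 =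
            (1000000 - (b2 : ℝ)) / 1000000 * ((t1 : ℝ) / 1000000 - 1) := by ring
        rw [e]
        refine mul_le_mul hb2 (by linarith only [ht1]) ?_ ha0.le
        have : (1:ℝ) ≤ (t1 : ℝ) / 1000000 := by rw [le_div_iff₀ (by norm_num)]; linarith only [ht1R]
        linarith only [ht1R]
      have hnum : 0 ≤ a * (‖u a ζ 0‖ - 1) + (‖u a ζ 0‖ - 1 + DS a ζ) := by
        have : 0 ≤ a * (‖u a ζ 0‖ - 1) := mul_nonneg ha0.le (by linarith only [ht1, ht1R])
        linarith only [hMm, hMmR, this]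
      calc (x : ℝ) / 1000000 ≤ (((1000000 - (b2 : ℝ)) * (t1 - 1000000) / 1000000 + Mm) /
            (2 * (n2 - 1))) / 1000000 := by
            refine div_le_div_of_nonneg_right ?_ (by norm_num)
            refine hxR.trans (g1.trans ?_)
            exact div_le_div_of_nonneg_right (by linarith only [g2]) (by linarith only [hM0, hn2])
        _ = ((1000000 - (b2 : ℝ)) * (t1 - 1000000) / 1000000 / 1000000 + Mm / 1000000) /
            (2 * (n2 - 1)) := by ring
        _ ≤ (a * (‖u a ζ 0‖ - 1) + (‖u a ζ 0‖ - 1 + DS a ζ)) / (2 * (n2 - 1)) :=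
            div_le_div_of_nonneg_right (add_le_add g3 hMm) (by linarith only [hM0, hn2])
        _ ≤ (a * (‖u a ζ 0‖ - 1) + (‖u a ζ 0‖ - 1 + DS a ζ)) / (2 * M) :=
            div_le_div_of_nonneg_left hnum (by positivity) (by linarith only [hn2])
    split_ifs with hc
    · exact ⟨hea, le_rfl, hm _ hc⟩
    · push Not at hc
      exact ⟨he0, hc.le, hm _ le_rfl⟩

/-- **soundness of the last stage** -/
theorem leafR_sound (h : Fr (M + 1) a ζ z) (hM : 0 < M) (hmax : ∀ k, ‖u a ζ k‖ ≤ ‖u a ζ 0‖)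
    (hΔ : 8 ≤ Del a ζ) (B : InB a ζ n1 n2 D1 D2 b1 b2 t1 t2) {Dst V : ℤ} {L H : ℕ}
    (hDst : (Dst : ℝ) / 1000000 ≤ DS a ζ)
    (hV : (V : ℝ) / 1000000 ≤ (1 - a) * ‖u a ζ 0‖ + DS a ζ)
    (hok : leafR n2 D1 b1 b2 t1 t2 Dst V L H = true) : False := by
  have hM0 : (0 : ℝ) < M := by exact_mod_cast hM
  have ha0 := h.a0
  have ha1 := h.a1
  have ht := one_le_t0 h hmax
  unfold leafR at hok
  split_ifs at hok with c1 c2 c3
  push Not at c1 c2
  have hMm : (((t1 - 1000000 + Dst : ℤ)) : ℝ) / 1000000 ≤ ‖u a ζ 0‖ - 1 + DS a ζ := by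
    push_cast
    have e : ((t1 : ℝ) - 1000000 + Dst) / 1000000 = (t1 : ℝ) / 1000000 - 1 + Dst / 1000000 := by
      ring
    rw [e]
    have := B.ht1
    linarith only [hDst, this]
  have ht10 := B.t10
  have hMm0 : 0 ≤ t1 - 1000000 + Dst := by linarith only [c2, ht10]
  obtain ⟨Mm, hMmdef⟩ : ∃ Mm : ℤ, Mm = t1 - 1000000 + Dst := ⟨_, rfl⟩
  rw [← hMmdef] at hok hMm hMm0
  obtain ⟨he0, hea, he⟩ := rE_sound h hM B hMm0 hMm
  obtain ⟨e, hedef⟩ : ∃ e : ℤ, e = rE n2 b2 t1 Mm := ⟨_, rfl⟩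
  rw [← hedef] at hok he0 hea he
  have he0R : (0 : ℝ) ≤ (e : ℝ) / 1000000 := by
    have : (0 : ℝ) ≤ e := by exact_mod_cast he0
    positivity
  -- `D`
  have hlog : (L : ℝ) / 128 ≤ Real.log ‖u a ζ 0‖ := by
    by_cases hL : L = 0
    · rw [hL]; simp
      exact Real.log_nonneg ht
    · simp only [hL, not_false_eq_true, Bool.not_eq_eq_eq_not, Bool.not_true,
        Bool.and_eq_true, decide_eq_true_eq, not_and, not_lt, beq_eq_false_iff_ne,
        ne_eq, forall_const] at c3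
      rw [Real.le_log_iff_exp_le (by linarith only [ha0, ha1, ht])]
      have h1 := eU_sound L
      have h2 : ((eU L : ℤ) : ℝ) / 1000000 ≤ (t1 : ℝ) / 1000000 :=
        div_le_div_of_nonneg_right (by exact_mod_cast c3) (by norm_num)
      have := B.ht1
      linarith only [h1, h2, this]
  have hDel : ‖u a ζ 0‖ - 1 ≤ Del a ζ + Real.log ‖u a ζ 0‖ := by
    have h1 := sum_g h
    have h2 : ‖u a ζ 0‖ - 1 - Real.log ‖u a ζ 0‖ ≤
        ∑ k, (‖u a ζ k‖ - 1 - Real.log ‖u a ζ k‖) :=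
      Finset.single_le_sum (f := fun k => ‖u a ζ k‖ - 1 - Real.log ‖u a ζ k‖) (fun k _ => by
        have := Real.log_le_sub_one_of_pos (norm_pos_iff.2 (h.u_ne k))
        linarith only [this]) (Finset.mem_univ 0)
    linarith only [h1, h2]
  have hD : ((rD D1 t1 L : ℤ) : ℝ) / 1000000 ≤ Del a ζ + Real.log ‖u a ζ 0‖ := by
    unfold rD
    split_ifs with hc
    · push_cast
      have e1 : ((t1 : ℝ) - 1000000) / 1000000 = (t1 : ℝ) / 1000000 - 1 := by ring
      rw [e1]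
      have := B.ht1
      linarith only [hDel, this]
    · push_cast
      have g := fdiv_le ((L : ℤ) * 1000000) 128 (by norm_num)
      push_cast at g
      have e1 : ((D1 : ℝ) * 1000000 + (L : ℝ) * 1000000 / 128) / 1000000 = D1 + L / 128 := by
        ring
      have h1 := B.hD1
      have h2 : ((D1 : ℝ) * 1000000 + (((L : ℤ) * 1000000 / 128 : ℤ) : ℝ)) / 1000000 ≤
          D1 + L / 128 := by
        rw [← e1]
        exact div_le_div_of_nonneg_right (by linarith only [g]) (by norm_num)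
      linarith only [hlog, g, h1]
  -- `x₁`
  have ha1le : (1000000 - (b2 : ℝ)) / 1000000 ≤ a := by
    have := B.hb2
    have e : (1000000 - (b2 : ℝ)) / 1000000 = 1 - (b2 : ℝ) / 1000000 := by ring
    linarith only [this]
  have ha2le : a ≤ (1000000 - (b1 : ℝ)) / 1000000 := by
    have := B.hb1
    have e : (1000000 - (b1 : ℝ)) / 1000000 = 1 - (b1 : ℝ) / 1000000 := by ring
    linarith only [this]
  have hX1 : ((rX1 b2 t1 e : ℤ) : ℝ) / 1000000 ≤ a * ‖u a ζ 0‖ + a / 2 - (e : ℝ) / 1000000 := by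
    unfold rX1
    have g := fdiv_le ((1000000 - b2) * (t1 + 500000)) 1000000 (by norm_num)
    push_cast at g ⊢
    rw [sub_div]
    have g2 : (1000000 - (b2 : ℝ)) * (t1 + 500000) / 1000000 / 1000000 ≤
        a * (‖u a ζ 0‖ + 1 / 2) := by
      have e1 : (1000000 - (b2 : ℝ)) * (t1 + 500000) / 1000000 / 1000000 =
          (1000000 - (b2 : ℝ)) / 1000000 * ((t1 : ℝ) / 1000000 + 1 / 2) := by ring
      rw [e1]
      have h3 : (0:ℝ) ≤ (t1 : ℝ) / 1000000 + 1 / 2 := by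
        have : (1000000 : ℝ) ≤ t1 := by exact_mod_cast ht10
        positivity
      exact mul_le_mul ha1le (by linarith only [B.ht1]) h3 ha0.le
    have g3 := div_le_div_of_nonneg_right g (by norm_num : (0:ℝ) ≤ 1000000)
    linarith only [g, g2]
  have hX10 : 0 ≤ rX1 b2 t1 e := by unfold rX1; linarith only [hea]
  have hX2 : a * ‖u a ζ 0‖ + a / 2 - (e : ℝ) / 1000000 ≤ ((rX2 b1 t2 e : ℤ) : ℝ) / 1000000 := by
    unfold rX2
    have g := le_cdiv ((1000000 - b1) * (t2 + 500000)) 1000000 (by norm_num)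
    push_cast at g ⊢
    rw [sub_div]
    have g2 : a * (‖u a ζ 0‖ + 1 / 2) ≤
        (1000000 - (b1 : ℝ)) * (t2 + 500000) / 1000000 / 1000000 := by
      have e1 : (1000000 - (b1 : ℝ)) * (t2 + 500000) / 1000000 / 1000000 =
          (1000000 - (b1 : ℝ)) / 1000000 * ((t2 : ℝ) / 1000000 + 1 / 2) := by ring
      rw [e1]
      exact mul_le_mul ha2le (by linarith only [B.ht2]) (by linarith only [ha0, ha1,
          ht]) (by linarith only [ha0, ha2le])
    have g3 := div_le_div_of_nonneg_right g (by norm_num : (0:ℝ) ≤ 1000000)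
    linarith only [g, g2]
  have hX20 : 0 ≤ rX2 b1 t2 e := by
    have h1 : (0 : ℝ) ≤ ((rX2 b1 t2 e : ℤ) : ℝ) / 1000000 := by
      have h2 : (0 : ℝ) ≤ ((rX1 b2 t1 e : ℤ) : ℝ) := by exact_mod_cast hX10
      have h3 : (0 : ℝ) ≤ ((rX1 b2 t1 e : ℤ) : ℝ) / 1000000 := by positivity
      linarith only [hX1, hX2, h2]
    by_contra hcon
    push Not at hcon
    have h2 : ((rX2 b1 t2 e : ℤ) : ℝ) < 0 := by exact_mod_cast hcon
    have := div_neg_of_neg_of_pos h2 (by norm_num : (0:ℝ) < 1000000)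
    linarith only [h1, h2]
  -- `τ`
  have hg := le_cdiv ((1000000 - b1) * t2) 1000000 (by norm_num)
  have hat : a * ‖u a ζ 0‖ ≤ ((cdiv ((1000000 - b1) * t2) 1000000 : ℤ) : ℝ) / 1000000 := by
    push_cast at hg
    have e1 : (1000000 - (b1 : ℝ)) * t2 / 1000000 / 1000000 =
        (1000000 - (b1 : ℝ)) / 1000000 * ((t2 : ℝ) / 1000000) := by ring
    have h1 : a * ‖u a ζ 0‖ ≤ (1000000 - (b1 : ℝ)) / 1000000 * ((t2 : ℝ) / 1000000) :=
      mul_le_mul ha2le B.ht2 (by linarith only [ha0, ha1, ht]) (by linarith only [ha0, ha2le])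
    rw [← e1] at h1
    exact h1.trans (div_le_div_of_nonneg_right hg (by norm_num))
  have ht1' : ‖u a ζ 0‖ - 1 ≤ (((t2 - 1000000 : ℤ)) : ℝ) / 1000000 := by
    push_cast
    have e1 : ((t2 : ℝ) - 1000000) / 1000000 = (t2 : ℝ) / 1000000 - 1 := by ring
    rw [e1]
    linarith only [B.ht2]
  have hτ : ‖u a ζ 0‖ - 1 ≤ ((rTAU b1 t2 : ℤ) : ℝ) / 1000000 ∨
      a * ‖u a ζ 0‖ ≤ ((rTAU b1 t2 : ℤ) : ℝ) / 1000000 := by
    unfold rTAU
    split_ifs with hc
    · left; exact ht1'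
    · right; exact hat
  have hT0 : 0 ≤ rTAU b1 t2 := by
    have h1 : (0:ℝ) ≤ ((rTAU b1 t2 : ℤ) : ℝ) / 1000000 := by
      rcases hτ with h1 | h1
      · linarith only [ht, h1]
      · have : 0 ≤ a * ‖u a ζ 0‖ := by positivity
        linarith only [h1, this]
    by_contra hcon
    push Not at hcon
    have h2 : ((rTAU b1 t2 : ℤ) : ℝ) < 0 := by exact_mod_cast hcon
    have := div_neg_of_neg_of_pos h2 (by norm_num : (0:ℝ) < 1000000)
    linarith only [h1, h2]
  -- `F`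
  have hb1h := fdiv_le b1 2 (by norm_num)
  have hG : a * ‖u a ζ 0‖ + a / 2 ≤ ‖u a ζ 0‖ - 1 + DS a ζ := by
    have h1 : (0 : ℝ) ≤ (V : ℝ) - 1500000 + ((b1 / 2 : ℤ) : ℝ) := by exact_mod_cast c1
    push_cast at hb1h
    have h2 : (0 : ℝ) ≤ ((V : ℝ) - 1500000 + ((b1 : ℝ) / 2)) / 1000000 := by
      apply div_nonneg _ (by norm_num)
      linarith only [h1, hb1h]
    have e1 : ((V : ℝ) - 1500000 + ((b1 : ℝ) / 2)) / 1000000 =
        (V : ℝ) / 1000000 - 3 / 2 + (b1 : ℝ) / 1000000 / 2 := by ring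
    rw [e1] at h2
    have := B.hb1
    linarith only [hV, ha2le, h1, hb1h]
  have hF : ((rF n2 b1 Mm V e : ℤ) : ℝ) / 1000000 ≤
      (‖u a ζ 0‖ - 1 + DS a ζ) * (1 + 1 / M) - a * ‖u a ζ 0‖ - a / 2 + (e : ℝ) / 1000000 := by
    have hQ : ((if n2 = 0 then 0 else Mm / (n2 - 1) : ℤ) : ℝ) / 1000000 ≤
        (‖u a ζ 0‖ - 1 + DS a ζ) * (1 / M) := by
      have h0 : 0 ≤ (‖u a ζ 0‖ - 1 + DS a ζ) := by
        have : (0:ℝ) ≤ Mm := by exact_mod_cast hMm0
        have : (0:ℝ) ≤ (Mm : ℝ) / 1000000 := by positivity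
        linarith
      split_ifs with hn
      · push_cast
        rw [zero_div]
        positivity
      · have hn2 : (M : ℝ) + 1 ≤ n2 := by
          rcases B.hn2 with h1 | h1
          · exact absurd h1 hn
          · exact h1
        have hn2' : (0 : ℝ) < (n2 : ℝ) - 1 := by linarith only [hM0, hn2]
        have hn2Z : 0 < n2 - 1 := by exact_mod_cast hn2'
        have g := fdiv_le Mm (n2 - 1) hn2Z
        push_cast at g
        calc (((Mm / (n2 - 1) : ℤ)) : ℝ) / 1000000 ≤ (Mm : ℝ) / (n2 - 1) / 1000000 :=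
              div_le_div_of_nonneg_right g (by norm_num)
          _ = (Mm : ℝ) / 1000000 * (1 / (n2 - 1)) := by ring
          _ ≤ (‖u a ζ 0‖ - 1 + DS a ζ) * (1 / M) := by
              refine mul_le_mul hMm ?_ (by positivity) h0
              exact one_div_le_one_div_of_le hM0 (by linarith only [hn2])
    unfold rF
    push_cast at hQ hb1h ⊢
    have h1 : (((b1 / 2 : ℤ)) : ℝ) / 1000000 ≤ (b1 : ℝ) / 1000000 / 2 := by
      have := div_le_div_of_nonneg_right hb1h (by norm_num : (0:ℝ) ≤ 1000000)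
      linarith only [hb1h]
    have e1 : ∀ x y w : ℝ, ((V : ℝ) - 1500000 + x + y + w) / 1000000 =
        (V : ℝ) / 1000000 - 3 / 2 + x / 1000000 + y / 1000000 + w / 1000000 := by
      intro x y w; ring
    rw [e1]
    have := B.hb1
    have e2 : (‖u a ζ 0‖ - 1 + DS a ζ) * (1 + 1 / M) = (‖u a ζ 0‖ - 1 + DS a ζ) +
      (‖u a ζ 0‖ - 1 + DS a ζ) * (1 / M) := by ring
    rw [e2]
    linarith only [hV, ha2le, hQ, hb1h]
  have hA4 : rA (rF n2 b1 Mm V e) ≤ 4000000 := by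
    unfold rA
    split_ifs with hc
    · linarith only [hc]
    · norm_num
  have hAF : ((rA (rF n2 b1 Mm V e) : ℤ) : ℝ) / 1000000 + 1 / 50 ≤
      ((rF n2 b1 Mm V e : ℤ) : ℝ) / 1000000 := by
    unfold rA
    split_ifs with hc
    · push_cast
      linarith only
    · push Not at hc
      have : (3220000 : ℝ) ≤ ((rF n2 b1 Mm V e : ℤ) : ℝ) := by exact_mod_cast hc
      push_cast
      linarith only [this]
  have hF' := hAF.trans hF
  obtain ⟨A, hAdef⟩ : ∃ A : ℤ, A = rA (rF n2 b1 Mm V e) := ⟨_, rfl⟩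
  rw [← hAdef] at hA4 hF'
  unfold leafE rRun at hok
  rw [← hAdef] at hok
  by_cases c4 : A < 0
  · rw [if_pos c4] at hok
    exact Bool.noConfusion hok
  rw [if_neg c4] at hok
  push Not at c4
  by_cases c5 : A < 1000000
  · rw [if_pos c5] at hok
    by_cases c6 : n2 = 0
    · rw [if_pos c6] at hok
      exact Bool.noConfusion hok
    rw [if_neg c6] at hok
    by_cases c7 : rTAU b1 t2 < 1000000
    · rw [if_pos c7] at hok
      exact Bool.noConfusion hok
    rw [if_neg c7] at hok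
    push Not at c7
    refine run1_false h hM hmax hΔ (e := (e : ℝ) / 1000000) hok (by norm_num) (by norm_num)
      (by positivity) hX10 hX20 hT0 c4 hA4 he0R he hF' hG hX1 hX2 hτ hMm hD ?_
    intro _
    refine ⟨c7, ?_⟩
    have hn2 : (M : ℝ) + 1 ≤ n2 := by
      rcases B.hn2 with h1 | h1
      · exact absurd h1 c6
      · exact h1
    unfold rLAM
    have g1 := le_cdiv (cdiv (rX2 b1 t2 e * rX2 b1 t2 e) 1000000 +
      cdiv (25 * ((n2 - 1) * rTAU b1 t2)) 24) 25 (by norm_num)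
    have g2 := le_cdiv (rX2 b1 t2 e * rX2 b1 t2 e) 1000000 (by norm_num)
    have g3 := le_cdiv (25 * ((n2 - 1) * rTAU b1 t2)) 24 (by norm_num)
    push_cast at g1 g2 g3 ⊢
    set X2 := ((rX2 b1 t2 e : ℤ) : ℝ) with hX2def
    set T := ((rTAU b1 t2 : ℤ) : ℝ) with hTdef
    have hTR : (0 : ℝ) ≤ T := by
      rw [hTdef]; exact_mod_cast hT0
    have g4 : (M : ℝ) * T ≤ ((n2 : ℝ) - 1) * T := mul_le_mul_of_nonneg_right (by linarith only [hn2]) hTR
    have e1 : (1:ℝ) / 25 * ((X2 / 1000000) ^ 2 + M * (T / 1000000) / (1 - 1 / 25)) =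
        (X2 * X2 / 1000000 + 25 * (M * T) / 24) / 25 / 1000000 := by ring
    rw [e1]
    have g5 : (X2 * X2 / 1000000 + 25 * (M * T) / 24) / 25 ≤
        ((cdiv (cdiv (rX2 b1 t2 e * rX2 b1 t2 e) 1000000 +
          cdiv (25 * ((n2 - 1) * rTAU b1 t2)) 24) 25 : ℤ) : ℝ) := by
      refine le_trans ?_ g1
      refine div_le_div_of_nonneg_right ?_ (by norm_num)
      have : 25 * (M * T) / 24 ≤ 25 * (((n2 : ℝ) - 1) * T) / 24 := by linarith only [g4]
      linarith only [g2, g3, g4]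
    have g6 := div_le_div_of_nonneg_right g5 (by norm_num : (0:ℝ) ≤ 1000000)
    have e2 : ∀ w : ℝ, (3600000 + w) / 1000000 = 18 / 5 + w / 1000000 := by intro w; ring
    rw [e2]
    linarith only [g1, g2, g3, g4]
  · rw [if_neg c5] at hok
    push Not at c5
    refine run1_false h hM hmax hΔ (e := (e : ℝ) / 1000000) hok (by norm_num) (by norm_num)
      le_rfl hX10 hX20 hT0 c4 hA4 he0R he hF' hG hX1 hX2 hτ hMm hD ?_
    intro hc
    exact absurd hc (by linarith only [c5, hc])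

end Sound

end Pool.Agent.Lib.MP_172a45_an.F.H69
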