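import Pool.Agent.Lib.MP_172a45_an.F.H69.ChkA

set_option autoImplicit false

/-!
# Cells of part L-b, type 1: the tree and its soundness
-/

namespace Pool.Agent.Lib.MP_172a45_an.F.H69

open Finset Real
open Pool.Agent.Lib.MP_172a45_an.F.Fr
open Pool.Agent.Lib.MP_172a45_an.L

section Sound

variable {M : ℕ} {a : ℝ} {ζ z : Fin (M + 1) → ℂ} {n1 n2 D1 D2 b1 b2 t1 t2 : ℤ}

/-- soundness of `leafC` -/
theorem leafC_sound (h : Fr (M + 1) a ζ z) (hM : 0 < M) (hmax : ∀ k, ‖u a ζ k‖ ≤ ‖u a ζ 0‖)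
    (hΔ : 8 ≤ Del a ζ) (B : InB a ζ n1 n2 D1 D2 b1 b2 t1 t2) {C : ℤ} {Y L H : ℕ}
    (hC : (C : ℝ) / 1000000 ≤ (1 - a ^ 2) * ‖u a ζ 0‖ * DS a ζ)
    (hok : leafC n2 D1 b1 b2 t1 t2 C Y L H = true) : False := by
  unfold leafC at hok
  split_ifs at hok with c1 c2 c3
  push Not at c1 c2
  have ha0 := h.a0
  have ha1 := h.a1
  have ht1 := B.ht1
  have ht1R := B.t1R
  have hC0 : (0 : ℝ) ≤ (C : ℝ) / 1000000 := by
    have : (0 : ℝ) ≤ C := by exact_mod_cast c1
    positivity
  have hDS := DS_nn h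
  have hb : 0 < 1 - a := by linarith only [ha1]
  have ht0 : 0 < ‖u a ζ 0‖ := by linarith only [ha0, ha1, ht1, ht1R]
  have g1 := le_cdiv (b2 * (2000000 - b2) * t2) 1000000000000 (by norm_num)
  have hyR : (0 : ℝ) < ((ky2 b2 t2 : ℤ) : ℝ) := by exact_mod_cast c2
  have hyy : (1 - a ^ 2) * ‖u a ζ 0‖ ≤ ((ky2 b2 t2 : ℤ) : ℝ) / 1000000 := by
    unfold ky2
    push_cast at g1
    have g2 := div_le_div_of_nonneg_right g1 (by norm_num : (0:ℝ) ≤ 1000000)
    refine le_trans ?_ g2
    have e1 : (b2 : ℝ) * (2000000 - b2) * t2 / 1000000000000 / 1000000 =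
        ((b2 : ℝ) / 1000000) * (2 - (b2 : ℝ) / 1000000) * ((t2 : ℝ) / 1000000) := by ring
    rw [e1]
    have e2 : (1 - a ^ 2) = (1 - a) * (2 - (1 - a)) := by ring
    rw [e2]
    have h2 := B.hb2
    have h3 := B.b2R
    refine mul_le_mul ?_ B.ht2 ht0.le ?_
    · have h4 := mul_nonneg (by linarith only [h2] : 0 ≤ (b2 : ℝ) / 1000000 - (1 - a))
        (by linarith only [ha0, h3] : 0 ≤ 2 - (b2 : ℝ) / 1000000 - (1 - a))
      linarith only [h4]
    · have : 0 ≤ (b2 : ℝ) / 1000000 := by linarith only [ha1, h2]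
      have : 0 ≤ 2 - (b2 : ℝ) / 1000000 := by linarith only [ha0, ha1, h3]
      positivity
  refine leafR_sound h hM hmax hΔ B ?_ ?_ hok
  · -- `D*`
    have g2 := fdiv_le (C * 1000000) (ky2 b2 t2) c2
    push_cast at g2
    have h1 : (C : ℝ) / 1000000 ≤ ((ky2 b2 t2 : ℤ) : ℝ) / 1000000 * DS a ζ :=
      hC.trans (mul_le_mul_of_nonneg_right hyy hDS)
    have h2 : (C : ℝ) * 1000000 / ((ky2 b2 t2 : ℤ) : ℝ) / 1000000 ≤ DS a ζ := by
      rw [div_div, div_le_iff₀ (by positivity)]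
      have h3 := mul_le_mul_of_nonneg_right h1 (by norm_num : (0:ℝ) ≤ 1000000 * 1000000)
      have e1 : (C : ℝ) / 1000000 * (1000000 * 1000000) = C * 1000000 := by ring
      have e2 : ((ky2 b2 t2 : ℤ) : ℝ) / 1000000 * DS a ζ * (1000000 * 1000000) =
          DS a ζ * (((ky2 b2 t2 : ℤ) : ℝ) * 1000000) := by ring
      rw [e1, e2] at h3
      exact h3
    exact (div_le_div_of_nonneg_right g2 (by norm_num)).trans h2
  · -- `V`
    have hY0 : (0 : ℤ) < (Y : ℤ) := by
      have : 0 < Y := Nat.pos_of_ne_zero c3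
      exact_mod_cast this
    have hY0R : (0 : ℝ) < (Y : ℝ) / 1000000 := by
      have : (0 : ℝ) < Y := by exact_mod_cast hY0
      positivity
    obtain ⟨W, hW⟩ : ∃ W : ℝ, W = (1 - a) * ‖u a ζ 0‖ := ⟨_, rfl⟩
    have hW0 : 0 < W := by rw [hW]; positivity
    have hW1 : ((((b1 * t1) / 1000000 : ℤ)) : ℝ) / 1000000 ≤ W := by
      have g := fdiv_le (b1 * t1) 1000000 (by norm_num)
      push_cast at g
      have h1 := div_le_div_of_nonneg_right g (by norm_num : (0:ℝ) ≤ 1000000)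
      refine h1.trans ?_
      have e1 : (b1 : ℝ) * t1 / 1000000 / 1000000 = (b1 : ℝ) / 1000000 * (t1 / 1000000) := by ring
      rw [e1, hW]
      exact mul_le_mul B.hb1 ht1 (by linarith only [ha0, ha1, ht1R]) hb.le
    have hW2 : W ≤ ((cdiv (b2 * t2) 1000000 : ℤ) : ℝ) / 1000000 := by
      have g := le_cdiv (b2 * t2) 1000000 (by norm_num)
      push_cast at g
      have h1 := div_le_div_of_nonneg_right g (by norm_num : (0:ℝ) ≤ 1000000)
      refine le_trans ?_ h1
      have e1 : (b2 : ℝ) * t2 / 1000000 / 1000000 = (b2 : ℝ) / 1000000 * (t2 / 1000000) := by ring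
      rw [e1, hW]
      exact mul_le_mul B.hb2 B.ht2 ht0.le (by linarith only [ha1, B.hb2])
    have key := kvY_mono (Cp := (C * 1000000) / (2000000 - b1)) (Y0 := (Y : ℤ)) hY0 hW1 hW2
    push_cast at key
    refine key.trans ?_
    rw [← hW]
    -- `C''/W ≤ DS`
    have hb1' : b1 ≤ 1000000 := by
      have h1 : (b1 : ℝ) / 1000000 ≤ 1 := by linarith only [ha0, B.hb1]
      rw [div_le_one (by norm_num)] at h1
      exact_mod_cast h1
    have g3 := fdiv_le (C * 1000000) (2000000 - b1) (by linarith only [hb1'])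
    obtain ⟨Cp, hCp⟩ : ∃ Cp : ℝ, Cp = (((C * 1000000) / (2000000 - b1) : ℤ) : ℝ) / 1000000 :=
      ⟨_, rfl⟩
    have hCp0 : 0 ≤ Cp := by
      have : 0 ≤ (C * 1000000) / (2000000 - b1) := Int.ediv_nonneg (by positivity) (by linarith only [hb1'])
      have : (0 : ℝ) ≤ (((C * 1000000) / (2000000 - b1) : ℤ) : ℝ) := by exact_mod_cast this
      rw [hCp]; positivity
    have hd : (0 : ℝ) < 2 - (b1 : ℝ) / 1000000 := by
      have : (b1 : ℝ) / 1000000 ≤ 1 := by
        rw [div_le_one (by norm_num)]; exact_mod_cast hb1'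
      linarith only [ha0, ha1, this]
    have hCp1 : Cp ≤ (C : ℝ) / 1000000 / (2 - (b1 : ℝ) / 1000000) := by
      push_cast at g3
      rw [hCp]
      refine (div_le_div_of_nonneg_right g3 (by norm_num)).trans (le_of_eq ?_)
      have e8 : (2000000 : ℝ) - b1 = 1000000 * (2 - (b1 : ℝ) / 1000000) := by ring
      rw [e8]
      field_simp
    have hDSW : Cp ≤ W * DS a ζ := by
      have h1 : (C : ℝ) / 1000000 ≤ (2 - (b1 : ℝ) / 1000000) * (W * DS a ζ) := by
        refine hC.trans ?_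
        have e1 : (1 - a ^ 2) * ‖u a ζ 0‖ * DS a ζ = (1 + a) * (W * DS a ζ) := by
          rw [hW]; ring
        rw [e1]
        exact mul_le_mul_of_nonneg_right (by linarith only [B.hb1]) (by positivity)
      refine hCp1.trans ?_
      rw [div_le_iff₀ hd]
      linarith only [h1]
    push_cast at hCp
    rw [← hCp]
    obtain ⟨y0, hy0⟩ : ∃ y0 : ℝ, y0 = (Y : ℝ) / 1000000 := ⟨_, rfl⟩
    rw [← hy0] at hY0R ⊢
    -- tangent of `1/W`
    have h5 : Cp * (2 * y0 - W) / y0 ^ 2 ≤ Cp / W := by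
      rw [div_le_div_iff₀ (by positivity) hW0]
      have : 0 ≤ Cp * (y0 - W) ^ 2 := by positivity
      linarith only [this]
    have h6 : Cp / W ≤ DS a ζ := by
      rw [div_le_iff₀ hW0]
      linarith only [hDSW]
    linarith only [h5, h6]

/-- **soundness of the checker** -/
theorem chk_sound (h : Fr (M + 1) a ζ z) (hM : 0 < M) (hmax : ∀ k, ‖u a ζ k‖ ≤ ‖u a ζ 0‖)
    (hΔ : 8 ≤ Del a ζ) : ∀ (T : Tr) (b1 b2 t1 t2 : ℤ), InB a ζ n1 n2 D1 D2 b1 b2 t1 t2 →
      chk n1 n2 D1 D2 T b1 b2 t1 t2 = true → False := by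
  intro T
  induction T with
  | T G v Y L H =>
    intro b1 b2 t1 t2 B hok
    change (if !(kG n1 b1 (kX0 b1 b2 t2) G) then false
      else leafC n2 D1 b1 b2 t1 t2 (kT n2 b1 b2 t1 G v) Y L H) = true at hok
    split_ifs at hok with c1
    have c1' : kG n1 b1 (kX0 b1 b2 t2) G = true := by simpa using c1
    exact leafC_sound h hM hmax hΔ B (kT_sound h hmax B (kG_sound h hmax B c1')) hok
  | D G v Y L H U =>
    intro b1 b2 t1 t2 B hok
    change (if !(kG n1 b1 (kX0 b1 b2 t2) G) then false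
      else leafC n2 D1 b1 b2 t1 t2 (kD D2 t1 G v U) Y L H) = true at hok
    split_ifs at hok with c1
    have c1' : kG n1 b1 (kX0 b1 b2 t2) G = true := by simpa using c1
    exact leafC_sound h hM hmax hΔ B (kD_sound h hmax B (kG_sound h hmax B c1')) hok
  | M G g Y L H =>
    intro b1 b2 t1 t2 B hok
    change (if !(kG n1 b1 (kX0 b1 b2 t2) G) then false
      else leafC n2 D1 b1 b2 t1 t2 (kM n1 b1 b2 t1 (kX0 b1 b2 t2) G g) Y L H) = true at hok
    split_ifs at hok with c1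
    have c1' : kG n1 b1 (kX0 b1 b2 t2) G = true := by simpa using c1
    exact leafC_sound h hM hmax hΔ B (kM_sound h hmax B c1') hok
  | S Do L H =>
    intro b1 b2 t1 t2 B hok
    change (if !(kS n1 b2 t2 Do (cdiv (2 * Do * b2 * t2) 1000000000000)
        (cdiv (b2 * (2 * t2 - 1000000)) 1000000)) then false
      else leafR n2 D1 b1 b2 t1 t2 Do Do L H) = true at hok
    split_ifs at hok with c1
    have c1' : kS n1 b2 t2 Do (cdiv (2 * Do * b2 * t2) 1000000000000)
        (cdiv (b2 * (2 * t2 - 1000000)) 1000000) = true := by simpa using c1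
    have hD := kS_sound h hmax B c1'
    refine leafR_sound h hM hmax hΔ B (Dst := (Do : ℤ)) (V := (Do : ℤ)) (by push_cast; exact hD)
      ?_ hok
    push_cast
    have : 0 ≤ (1 - a) * ‖u a ζ 0‖ := mul_nonneg (by linarith only [h.a1]) (norm_nonneg _)
    linarith only [hD, this]
  | B m l r ihl ihr =>
    intro b1 b2 t1 t2 B hok
    change (if 1000000 < (m : ℤ) then false
      else if chk n1 n2 D1 D2 l b1 m t1 t2 then chk n1 n2 D1 D2 r m b2 t1 t2 else false) =
        true at hok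
    split_ifs at hok with c1 c2
    push Not at c1
    rcases le_total (1 - a) ((m : ℝ) / 1000000) with h1 | h1
    · exact ihl b1 m t1 t2 { B with hb2 := by push_cast; exact h1, b21 := c1 } c2
    · exact ihr m b2 t1 t2 { B with hb1 := by push_cast; exact h1, b10 := by positivity } hok
  | X m l r ihl ihr =>
    intro b1 b2 t1 t2 B hok
    change (if (m : ℤ) < 1000000 then false
      else if chk n1 n2 D1 D2 l b1 b2 t1 m then chk n1 n2 D1 D2 r b1 b2 m t2 else false) =
        true at hok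
    split_ifs at hok with c1 c2
    push Not at c1
    rcases le_total ‖u a ζ 0‖ ((m : ℝ) / 1000000) with h1 | h1
    · exact ihl b1 b2 t1 m { B with ht2 := by push_cast; exact h1 } c2
    · exact ihr b1 b2 m t2 { B with ht1 := by push_cast; exact h1, t10 := c1 } hok

end Sound

end Pool.Agent.Lib.MP_172a45_an.F.H69
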