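import Pool.Agent.Lib.MP_172a45_an.F.H69.KndA

set_option autoImplicit false

/-!
# Part L-b, `t₀ ≥ 25/2`: the box and the bounds of `D_S`

Variables `y = (1 - a²) t₀ ∈ [y1, y2]`, `R = N/t₀ ∈ [r1, r2]` (`r2 = 0`: no upper bound), scale `10⁶`.
-/

namespace Pool.Agent.Lib.MP_172a45_an.F.H69

open Finset Real
open Pool.Agent.Lib.MP_172a45_an.F.Fr
open Pool.Agent.Lib.MP_172a45_an.L

/-- the frame lies in the box -/
structure InT {M : ℕ} (a : ℝ) (ζ : Fin (M + 1) → ℂ) (y1 y2 r1 r2 : ℤ) : Prop where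
  hy1 : (y1 : ℝ) / 1000000 ≤ (1 - a ^ 2) * ‖u a ζ 0‖
  hy2 : (1 - a ^ 2) * ‖u a ζ 0‖ ≤ (y2 : ℝ) / 1000000
  hr1 : (r1 : ℝ) / 1000000 * ‖u a ζ 0‖ ≤ M + 1
  hr2 : r2 = 0 ∨ (M : ℝ) + 1 ≤ (r2 : ℝ) / 1000000 * ‖u a ζ 0‖
  ht : 25 / 2 ≤ ‖u a ζ 0‖
  y10 : 0 ≤ y1
  r10 : 1000000 ≤ r1

section Sound

variable {M : ℕ} {a : ℝ} {ζ z : Fin (M + 1) → ℂ} {y1 y2 r1 r2 : ℤ}

theorem InT.t0 (B : InT a ζ y1 y2 r1 r2) : 0 < ‖u a ζ 0‖ := by linarith only [B.ht]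

theorem InT.a2 (h : Fr (M + 1) a ζ z) (B : InT a ζ y1 y2 r1 r2) :
    1 - 2 * ((y2 : ℝ) / 1000000) / 25 ≤ a ^ 2 := by
  have h1 := B.hy2
  have h2 := B.ht
  have h3 : (1 - a ^ 2) * (25 / 2) ≤ (1 - a ^ 2) * ‖u a ζ 0‖ :=
    mul_le_mul_of_nonneg_left h2 h.m_pos.le
  linarith only [h1, h3]

/-- `(3/4) y R ≤ A₀` -/
theorem A0_T (h : Fr (M + 1) a ζ z) (B : InT a ζ y1 y2 r1 r2) :
    3 / 4 * ((y1 : ℝ) / 1000000) * ((r1 : ℝ) / 1000000) ≤
      (1 - a) * ((r1 : ℝ) / 1000000 * ‖u a ζ 0‖) * (2 + 2 * a - a ^ 2) / 2 ∧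
    3 / 4 * ((1 - a ^ 2) * ‖u a ζ 0‖) * ((r1 : ℝ) / 1000000) ≤
      (1 - a) * ((r1 : ℝ) / 1000000 * ‖u a ζ 0‖) * (2 + 2 * a - a ^ 2) / 2 := by
  have ha0 := h.a0
  have ha1 := h.a1
  have ht0 := B.t0
  have hr1 : (0 : ℝ) ≤ (r1 : ℝ) / 1000000 := by
    have : (1000000 : ℝ) ≤ r1 := by exact_mod_cast B.r10
    positivity
  obtain ⟨t, htdef⟩ : ∃ t : ℝ, t = ‖u a ζ 0‖ := ⟨_, rfl⟩
  rw [← htdef] at ht0 ⊢
  have h2 : 3 / 4 * ((1 - a ^ 2) * t) * ((r1 : ℝ) / 1000000) ≤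
      (1 - a) * ((r1 : ℝ) / 1000000 * t) * (2 + 2 * a - a ^ 2) / 2 := by
    have e1 : (1 - a) * ((r1 : ℝ) / 1000000 * t) * (2 + 2 * a - a ^ 2) / 2 -
        3 / 4 * ((1 - a ^ 2) * t) * ((r1 : ℝ) / 1000000) =
        (1 - a) * ((r1 : ℝ) / 1000000) * t * ((1 + a - 2 * a ^ 2) / 4) := by ring
    have h3 : 0 ≤ (1 + a - 2 * a ^ 2) / 4 := by
      have := mul_nonneg (by linarith only [ha1] : 0 ≤ 1 - a) (by linarith only [ha0,
          ha1] : 0 ≤ 1 + 2 * a)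
      linarith only [this]
    have h4 : 0 ≤ (1 - a) * ((r1 : ℝ) / 1000000) * t * ((1 + a - 2 * a ^ 2) / 4) := by
      have : 0 ≤ 1 - a := by linarith only [ha1]
      positivity
    linarith only [h4]
  refine ⟨le_trans ?_ h2, h2⟩
  refine mul_le_mul_of_nonneg_right ?_ hr1
  have := B.hy1
  rw [← htdef] at this
  linarith only [this]

theorem N_ge (h : Fr (M + 1) a ζ z) (B : InT a ζ y1 y2 r1 r2) :
    (1 - a) * ((r1 : ℝ) / 1000000 * ‖u a ζ 0‖) * (2 + 2 * a - a ^ 2) / 2 ≤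
      (1 - a) * (M + 1) * (2 + 2 * a - a ^ 2) / 2 := by
  have ha0 := h.a0
  have ha1 := h.a1
  have h1 := B.hr1
  have h3 : 0 ≤ (1 - a) * (2 + 2 * a - a ^ 2) / 2 := by
    have : 0 ≤ 2 + 2 * a - a ^ 2 := by
      have : a ^ 2 ≤ 1 := pow_le_one₀ ha0.le ha1.le
      linarith only [ha0, ha1, this]
    have : 0 ≤ 1 - a := by linarith only [ha1]
    positivity
  have h4 := mul_le_mul_of_nonneg_left h1 h3
  linarith only [h4]

/-- the inequality behind `tG` -/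
theorem tG_ineq (h : Fr (M + 1) a ζ z) (B : InT a ζ y1 y2 r1 r2) {X0 : ℤ} {G : ℕ}
    (hG : G ≠ 0) (hk : tG y1 r1 X0 G = true) :
    ((eU G : ℤ) : ℝ) / 1000000 * (1 + (X0 : ℝ) / 1000000) +
      1 / 2 * ((1 + (X0 : ℝ) / 1000000 / 2) * ((G : ℝ) / 128)) ≤
    1 + (1 - a) * ((r1 : ℝ) / 1000000 * ‖u a ζ 0‖) * (2 + 2 * a - a ^ 2) / 2 -
      1 / 2 * ((X0 : ℝ) / 1000000) := by
  unfold tG at hk
  rw [if_neg hG] at hk
  split_ifs at hk with c2
  push Not at c2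
  have g1 := fdiv_le0 (3 * y1 * r1) 4000000 (by norm_num)
  have g2 := le_cdiv0 (eU G * (1000000 + X0)) 1000000 (by norm_num)
  have g3 := le_cdiv0 ((2000000 + X0) * G) 512 (by norm_num)
  have g4 := le_cdiv0 X0 2 (by norm_num)
  have c2R : ((cdiv (eU G * (1000000 + X0)) 1000000 : ℤ) : ℝ) +
      ((cdiv ((2000000 + X0) * G) 512 : ℤ) : ℝ) + ((cdiv X0 2 : ℤ) : ℝ) ≤
      1000000 + ((3 * y1 * r1 / 4000000 : ℤ) : ℝ) := by
    exact_mod_cast c2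
  push_cast at g1 g2 g3 g4 c2R
  have hA := (A0_T h B).1
  have e0 : 3 * (y1 : ℝ) * r1 / 4000000 / 1000000 =
      3 / 4 * ((y1 : ℝ) / 1000000) * ((r1 : ℝ) / 1000000) := by ring
  have e3 : ((eU G : ℤ) : ℝ) / 1000000 * (1 + (X0 : ℝ) / 1000000) +
      1 / 2 * ((1 + (X0 : ℝ) / 1000000 / 2) * ((G : ℝ) / 128)) + 1 / 2 * ((X0 : ℝ) / 1000000) =
      (((eU G : ℤ) : ℝ) * (1000000 + X0) / 1000000 + (2000000 + X0) * G / 512 + X0 / 2) /
        1000000 := by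
    ring
  have h5 : (((eU G : ℤ) : ℝ) * (1000000 + X0) / 1000000 + (2000000 + X0) * G / 512 + X0 / 2) /
        1000000 ≤ (1000000 + 3 * (y1 : ℝ) * r1 / 4000000) / 1000000 :=
    div_le_div_of_nonneg_right (by linarith only [c2R, g1, g2, g3, g4]) (by norm_num)
  have e4 : (1000000 + 3 * (y1 : ℝ) * r1 / 4000000) / 1000000 =
      1 + 3 * (y1 : ℝ) * r1 / 4000000 / 1000000 := by ring
  rw [e4, e0] at h5
  linarith only [c2R, g1, g2, g3, g4, hA]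

theorem X0_T (h : Fr (M + 1) a ζ z) (B : InT a ζ y1 y2 r1 r2) :
    (1 - a ^ 2) * ‖u a ζ 0‖ - (1 - a) ≤ (y2 : ℝ) / 1000000 := by
  linarith only [B.hy2, h.a1]

theorem y2_nonneg (h : Fr (M + 1) a ζ z) (B : InT a ζ y1 y2 r1 r2) : (0:ℝ) ≤ (y2 : ℝ) / 1000000 := by
  have h1 := B.hy2
  have h2 := mul_nonneg h.m_pos.le (norm_nonneg (u a ζ 0))
  linarith only [h1, h2]

/-- soundness of `tG` -/
theorem tG_sound (h : Fr (M + 1) a ζ z) (hmax : ∀ k, ‖u a ζ k‖ ≤ ‖u a ζ 0‖)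
    (B : InT a ζ y1 y2 r1 r2) {G : ℕ} (hk : tG y1 r1 y2 G = true) : (G : ℝ) / 128 ≤ GS a ζ := by
  by_cases hG : G = 0
  · rw [hG]; simp
    exact L.GS_nonneg h
  refine GS_box h hmax (X0_T h B) (y2_nonneg h B) (eU_sound G) ((tG_ineq h B hG hk).trans ?_)
  have := N_ge h B
  linarith only [this]

/-- `n` -/
theorem tnn_sound (h : Fr (M + 1) a ζ z) (B : InT a ζ y1 y2 r1 r2) {r : ℤ} {x : ℝ} (hr : 0 ≤ r)
    (hx : ((tnn r : ℤ) : ℝ) / 1000000 ≤ x) :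
    a * ((r : ℝ) / 1000000 * ‖u a ζ 0‖) ≤ (x + 1) * ((1 + a) * ‖u a ζ 0‖ - 1) := by
  have g := le_cdiv0 (25 * r) 48 (by norm_num)
  unfold tnn at hx
  push_cast at g hx
  have ha0 := h.a0
  have ha1 := h.a1
  have ht := B.ht
  obtain ⟨t, htdef⟩ : ∃ t : ℝ, t = ‖u a ζ 0‖ := ⟨_, rfl⟩
  rw [← htdef] at ht ⊢
  have hrR : (0 : ℝ) ≤ (r : ℝ) / 1000000 := by
    have : (0 : ℝ) ≤ r := by exact_mod_cast hr
    positivity
  have g2 := div_le_div_of_nonneg_right g (by norm_num : (0:ℝ) ≤ 1000000)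
  have e1 : ∀ w : ℝ, (w - 1000000) / 1000000 = w / 1000000 - 1 := by intro w; ring
  rw [e1] at hx
  have h1 : 25 / 48 * ((r : ℝ) / 1000000) ≤ x + 1 := by
    have e2 : 25 * (r : ℝ) / 48 / 1000000 = 25 / 48 * ((r : ℝ) / 1000000) := by ring
    rw [e2] at g2
    linarith only [g, hx]
  have h2 : 0 ≤ (1 + a) * t - 1 := by
    have : 0 ≤ a * t := by positivity
    linarith only [ha0, ha1, ht, this]
  have h3 : a * t ≤ 25 / 48 * ((1 + a) * t - 1) := by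
    have : a * t ≤ 1 * t := mul_le_mul_of_nonneg_right ha1.le (by linarith only [ha0, ha1, ht])
    linarith only [ht, this]
  have h4 := mul_le_mul_of_nonneg_left h3 hrR
  have h5 := mul_le_mul_of_nonneg_right h1 h2
  linarith only [h4, h5]

/-- soundness of kind T -/
theorem tT_sound (h : Fr (M + 1) a ζ z) (hmax : ∀ k, ‖u a ζ k‖ ≤ ‖u a ζ 0‖)
    (B : InT a ζ y1 y2 r1 r2) {G v : ℕ} (hG : (G : ℝ) / 128 ≤ GS a ζ) :
    ((tT r2 G v : ℤ) : ℝ) / 1000000 ≤ (1 - a ^ 2) * ‖u a ζ 0‖ * DS a ζ := by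
  have hy := y_nonneg h
  have ha0 := h.a0
  have ht := B.ht
  unfold tT
  split_ifs with c0 c1 c2 c3
  · have hat : 1 < (1 + a) * ‖u a ζ 0‖ := one_lt_at ha0 (by linarith only [ht])
    have key := DS_T h hmax (v := 0) (G := (G : ℝ) / 128)
      (n := max (a * (M + 1) / ((1 + a) * ‖u a ζ 0‖ - 1)) 0) le_rfl (by norm_num) (by linarith only [hat])
      (le_max_right _ _) (by
        have p : 0 < (1 + a) * ‖u a ζ 0‖ - 1 := by linarith only [hat]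
        have h1 := le_max_left (a * (M + 1) / ((1 + a) * ‖u a ζ 0‖ - 1)) 0
        rw [div_le_iff₀ p] at h1
        linarith only [hat, h1]) hG
    have h2 := kval_le G 0 0
    push_cast at h2
    simp only [zero_div, sub_zero, add_zero, one_mul, ne_eq, OfNat.ofNat_ne_zero,
      not_false_eq_true, zero_pow, mul_zero] at h2 key
    exact h2.trans key
  · exact neg_case hy
  · exact neg_case hy
  all_goals
    push Not at c2
    have c2R : (v : ℝ) ≤ 2000000 := by exact_mod_cast c2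
    have hr2 : (M : ℝ) + 1 ≤ (r2 : ℝ) / 1000000 * ‖u a ζ 0‖ := by
      rcases B.hr2 with h1 | h1
      · exact absurd h1 c1
      · exact h1
    have hr20 : 0 ≤ r2 := by
      by_contra hcon
      push Not at hcon
      have h2 : (r2 : ℝ) ≤ 0 := by exact_mod_cast hcon.le
      have h3 : (r2 : ℝ) / 1000000 * ‖u a ζ 0‖ ≤ 0 :=
        mul_nonpos_of_nonpos_of_nonneg (div_nonpos_of_nonpos_of_nonneg h2 (by norm_num))
          (norm_nonneg _)
      have : (0:ℝ) ≤ M := by positivity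
      linarith only [hr2, h3]
    have hvt : 1 + (v : ℝ) / 1000000 ≤ (1 + a) * ‖u a ζ 0‖ := by
      have : 0 ≤ a * ‖u a ζ 0‖ := by positivity
      linarith only [ht, c2R, this]
  · have hx : ((tnn r2 : ℤ) : ℝ) / 1000000 ≤ 0 := by
      have : ((tnn r2 : ℤ) : ℝ) ≤ 0 := by exact_mod_cast c3.le
      exact div_nonpos_of_nonpos_of_nonneg this (by norm_num)
    have hnn := tnn_sound h B hr20 hx
    have key := DS_T h hmax (v := (v : ℝ) / 1000000) (G := (G : ℝ) / 128) (n := 0) (by positivity)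
      (by linarith only [c2R]) hvt le_rfl
      (le_trans (mul_le_mul_of_nonneg_left hr2 h.a0.le) hnn) hG
    have := kval_le G v 0
    push_cast at this
    simp only [zero_div, zero_mul, sub_zero] at this key
    exact this.trans key
  · push Not at c3
    have hx0 : (0:ℝ) ≤ ((tnn r2 : ℤ) : ℝ) / 1000000 := by
      have : (0 : ℝ) ≤ ((tnn r2 : ℤ) : ℝ) := by exact_mod_cast c3
      positivity
    have hnn := tnn_sound h B hr20 le_rfl
    have key := DS_T h hmax (v := (v : ℝ) / 1000000) (G := (G : ℝ) / 128)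
      (n := ((tnn r2 : ℤ) : ℝ) / 1000000) (by positivity)
      (by linarith only [c2R]) hvt hx0
      (le_trans (mul_le_mul_of_nonneg_left hr2 h.a0.le) hnn) hG
    exact (kval_le G v _).trans key

/-- soundness of kind M -/
theorem tM_sound (h : Fr (M + 1) a ζ z) (hmax : ∀ k, ‖u a ζ k‖ ≤ ‖u a ζ 0‖)
    (B : InT a ζ y1 y2 r1 r2) {G g : ℕ} (hk : tG y1 r1 y2 G = true) :
    ((tM r1 y2 G g : ℤ) : ℝ) / 1000000 ≤ (1 - a ^ 2) * ‖u a ζ 0‖ * DS a ζ := by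
  have hy := y_nonneg h
  have ha0 := h.a0
  have ht := B.ht
  unfold tM
  split_ifs with c2
  · exact neg_case hy
  have hr1Z := B.r10
  have hr1R : (1 : ℝ) ≤ (r1 : ℝ) / 1000000 := by
    rw [le_div_iff₀ (by norm_num)]
    have : (1000000 : ℝ) ≤ r1 := by exact_mod_cast hr1Z
    linarith only [this]
  have hnn := tnn_sound h B (by linarith only [hr1Z] : 0 ≤ r1) le_rfl
  obtain ⟨nn, hnndef⟩ : ∃ nn : ℤ, nn = tnn r1 := ⟨_, rfl⟩
  rw [← hnndef] at hnn ⊢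
  have hX0 := X0_T h B
  have hX00 := y2_nonneg h B
  have hin := tG_ineq h B c2 hk
  unfold kM2
  split_ifs with d1 d2 d3 d4 d5 d6
  · exact neg_case hy
  · exact neg_case hy
  · exact neg_case hy
  · exact neg_case hy
  · exact neg_case hy
  · exact neg_case hy
  push Not at d1 d2 d3 d5 d6
  have d4' : g = 0 ∨ 64 ≤ g := by
    by_cases hg : g = 0
    · left; exact hg
    · right
      simp only [hg, not_false_eq_true, Bool.not_eq_eq_eq_not, Bool.not_true, Bool.and_eq_true,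
        decide_eq_true_eq, not_and, not_lt, beq_eq_false_iff_ne, ne_eq, forall_const] at d4
      exact d4
  have hnnR : (0 : ℝ) < nn := by exact_mod_cast d1
  obtain ⟨nr, hnr⟩ : ∃ nr : ℝ, nr = (nn : ℝ) / 1000000 := ⟨_, rfl⟩
  obtain ⟨Gr, hGr⟩ : ∃ Gr : ℝ, Gr = (G : ℝ) / 128 := ⟨_, rfl⟩
  obtain ⟨gr, hgr⟩ : ∃ gr : ℝ, gr = (g : ℝ) / 128 := ⟨_, rfl⟩
  obtain ⟨Xr, hXr⟩ : ∃ Xr : ℝ, Xr = (y2 : ℝ) / 1000000 := ⟨_, rfl⟩
  have hXr0 : 0 ≤ Xr := by rw [hXr]; exact hX00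
  have hnr0 : 0 < nr := by rw [hnr]; positivity
  have hE := eU_sound G
  rw [← hnr] at hnn
  rw [← hXr] at hX0 hin
  rw [← hGr] at hin hE
  have hm : 0 ≤ 1 / 2 * (1 + Xr / 2) * (Gr - 1) + 1 / 2 * Xr - 1 := by
    have d2R : (0 : ℝ) ≤ (2000000 + y2) * ((G : ℝ) - 128) + 256 * y2 - 512000000 := by
      exact_mod_cast d2
    have e1 : 1 / 2 * (1 + Xr / 2) * (Gr - 1) + 1 / 2 * Xr - 1 =
        ((2000000 + y2) * ((G : ℝ) - 128) + 256 * y2 - 512000000) / 512000000 := by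
      rw [hXr, hGr]; ring
    rw [e1]
    positivity
  have hP : (2 * gr * Gr - gr ^ 2) * 16384 = 2 * g * G - g * g := by
    rw [hgr, hGr]; ring
  have hPn : 2 * gr * Gr - gr ^ 2 ≤ nr := by
    have d3R : (2 * (g : ℝ) * G - g * g) * 1000000 ≤ nn * 16384 := by exact_mod_cast d3
    rw [← hP] at d3R
    rw [hnr, le_div_iff₀ (by norm_num)]
    linarith only [d3R]
  have hg0 : gr = 0 ∨ 1 ≤ 2 * gr := by
    rcases d4' with h1 | h1
    · left; rw [hgr, h1]; simp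
    · right
      have : (64 : ℝ) ≤ g := by exact_mod_cast h1
      rw [hgr]; linarith only [this]
  have hgn : gr ≤ nr := by
    have d5R : (g : ℝ) * 1000000 ≤ nn * 128 := by exact_mod_cast d5
    rw [hnr, hgr, div_le_div_iff₀ (by norm_num) (by norm_num)]
    linarith only [d5R]
  have hgr0 : 0 ≤ gr := by rw [hgr]; positivity
  have hvt : 1 + 2 * gr / nr ≤ (1 + a) * ‖u a ζ 0‖ := by
    have h2 : 2 * gr / nr ≤ 2 := by
      rw [div_le_iff₀ hnr0]; linarith only [hgn]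
    have : 0 ≤ a * ‖u a ζ 0‖ := by positivity
    linarith only [ht, h2, this]
  have key := DS_M h hmax (X0 := Xr) (g0 := gr) (g1 := Gr) (n1 := nr)
    (E := ((eU G : ℤ) : ℝ) / 1000000) (N1 := (r1 : ℝ) / 1000000 * ‖u a ζ 0‖) (by positivity)
    B.hr1 hX0 hXr0 hE hin hm hnr0 hnn hPn hg0 hgn hgr0 hvt
  refine le_trans ?_ key
  have g1 := fdiv_le0 ((G : ℤ) * 1000000) 128 (by norm_num)
  have g2 := fdiv_le0 ((2 * (g : ℤ) * G - g * g) * 1000000000000) (16384 * nn) (by linarith only [d1])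
  push_cast at g1 g2 ⊢
  have e1 : Gr + (2 * gr * Gr - gr ^ 2) / nr = ((G : ℝ) * 1000000 / 128 +
      (2 * (g : ℝ) * G - g * g) * 1000000000000 / (16384 * nn)) / 1000000 := by
    rw [← hP, hnr, hGr]
    field_simp
    ring
  rw [e1]
  exact div_le_div_of_nonneg_right (by linarith only [g1, g2]) (by norm_num)

/-- the tangent -/
theorem tvY_mono {C Y0 : ℤ} (hY0 : 0 < Y0) {Y1 Y2 : ℤ} {Y : ℝ}
    (h1 : (Y1 : ℝ) / 1000000 ≤ Y) (h2 : Y ≤ (Y2 : ℝ) / 1000000) :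
    ((tV C Y0 Y1 Y2 : ℤ) : ℝ) / 1000000 ≤
      Y / 2 + (C : ℝ) / 1000000 * (2 * ((Y0 : ℝ) / 1000000) - Y) / ((Y0 : ℝ) / 1000000) ^ 2 := by
  have hY0R : (0 : ℝ) < Y0 := by exact_mod_cast hY0
  have hv : ∀ W : ℤ, ((tvY C Y0 W : ℤ) : ℝ) / 1000000 ≤ (W : ℝ) / 1000000 / 2 +
      (C : ℝ) / 1000000 * (2 * ((Y0 : ℝ) / 1000000) - (W : ℝ) / 1000000) /
        ((Y0 : ℝ) / 1000000) ^ 2 := by
    intro W
    have g := fdiv_le0 (C * (2 * Y0 - W) * 1000000) (Y0 * Y0) (by positivity)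
    have g' := fdiv_le0 W 2 (by norm_num)
    unfold tvY
    push_cast at g g' ⊢
    have e1 : (W : ℝ) / 1000000 / 2 +
      (C : ℝ) / 1000000 * (2 * ((Y0 : ℝ) / 1000000) - (W : ℝ) / 1000000) /
        ((Y0 : ℝ) / 1000000) ^ 2 = (W / 2 + C * (2 * Y0 - W) * 1000000 / (Y0 * Y0)) / 1000000 := by
      field_simp
    rw [e1]
    exact div_le_div_of_nonneg_right (by linarith only [g, g']) (by norm_num)
  obtain ⟨c, hc⟩ : ∃ c : ℝ, c = (C : ℝ) / 1000000 := ⟨_, rfl⟩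
  obtain ⟨y0, hy0⟩ : ∃ y0 : ℝ, y0 = (Y0 : ℝ) / 1000000 := ⟨_, rfl⟩
  have hy00 : 0 < y0 := by rw [hy0]; positivity
  rw [← hc, ← hy0] at hv ⊢
  have hk1 : ((tV C Y0 Y1 Y2 : ℤ) : ℝ) ≤ ((tvY C Y0 Y1 : ℤ) : ℝ) := by
    unfold tV
    split_ifs with hc
    · exact le_rfl
    · push Not at hc
      exact_mod_cast hc.le
  have hk2 : ((tV C Y0 Y1 Y2 : ℤ) : ℝ) ≤ ((tvY C Y0 Y2 : ℤ) : ℝ) := by
    unfold tV
    split_ifs with hc
    · exact_mod_cast hc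
    · exact le_rfl
  have m1 := (div_le_div_of_nonneg_right hk1 (by norm_num : (0:ℝ) ≤ 1000000)).trans (hv Y1)
  have m2 := (div_le_div_of_nonneg_right hk2 (by norm_num : (0:ℝ) ≤ 1000000)).trans (hv Y2)
  have e : ∀ W : ℝ, W / 2 + c * (2 * y0 - W) / y0 ^ 2 = 2 * c / y0 + W * (1 / 2 - c / y0 ^ 2) := by
    intro W; field_simp; ring
  rw [e] at m1 m2 ⊢
  rcases le_total 0 (1 / 2 - c / y0 ^ 2) with hs | hs
  · have := mul_le_mul_of_nonneg_right h1 hs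
    linarith only [m1, this]
  · have := mul_le_mul_of_nonpos_right h2 hs
    linarith only [m2, this]

/-- soundness of kind S -/
theorem tS_sound (h : Fr (M + 1) a ζ z) (hmax : ∀ k, ‖u a ζ k‖ ≤ ‖u a ζ 0‖)
    (B : InT a ζ y1 y2 r1 r2) {Do : ℕ}
    (hk : tS r1 y2 Do (cdiv (Do * y2) 1000000) = true) : (Do : ℝ) / 1000000 ≤ DS a ζ := by
  have g1 := le_cdiv0 ((Do : ℤ) * y2) 1000000 (by norm_num)
  obtain ⟨u0, hu0⟩ : ∃ u0 : ℤ, u0 = cdiv (Do * y2) 1000000 := ⟨_, rfl⟩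
  rw [← hu0] at hk g1
  unfold tS at hk
  split_ifs at hk with c1 c2
  push Not at c1 c2
  have c1R : (u0 : ℝ) ≤ 1000000 := by exact_mod_cast c1
  have c2R : 6000000000000000000 +
    (Do : ℝ) * (4 * (1000000 + u0) * (1000000 + y2) + 2000000000000 + y2 * 1000000) ≤
    3 * (r1 : ℝ) * 1000000000000 := by exact_mod_cast c2
  push_cast at g1
  have ha0 := h.a0
  have ha1 := h.a1
  have ht := B.ht
  obtain ⟨y, hy⟩ : ∃ y : ℝ, y = (1 - a ^ 2) * ‖u a ζ 0‖ := ⟨_, rfl⟩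
  obtain ⟨d, hd⟩ : ∃ d : ℝ, d = (Do : ℝ) / 1000000 := ⟨_, rfl⟩
  obtain ⟨w, hw⟩ : ∃ w : ℝ, w = (u0 : ℝ) / 1000000 := ⟨_, rfl⟩
  obtain ⟨Y2, hY2⟩ : ∃ Y2 : ℝ, Y2 = (y2 : ℝ) / 1000000 := ⟨_, rfl⟩
  obtain ⟨R1, hR1⟩ : ∃ R1 : ℝ, R1 = (r1 : ℝ) / 1000000 := ⟨_, rfl⟩
  have hyp : 0 < y := by rw [hy]; exact mul_pos h.m_pos (by linarith only [ha0, ha1, ht])
  have hyY : y ≤ Y2 := by rw [hy, hY2]; exact B.hy2
  have hd0 : 0 ≤ d := by rw [hd]; positivity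
  have hw1 : w ≤ 1 := by rw [hw, div_le_one (by norm_num)]; exact c1R
  have hdw : d * Y2 ≤ w := by
    have e1 : d * Y2 = (Do : ℝ) * y2 / 1000000 / 1000000 := by rw [hd, hY2]; ring
    rw [e1, hw]
    exact div_le_div_of_nonneg_right g1 (by norm_num)
  have hu : d * y ≤ w := (mul_le_mul_of_nonneg_left hyY hd0).trans hdw
  have hu00 : 0 ≤ d * y := by positivity
  have hw0 : 0 ≤ w := hu00.trans hu
  have hcond : 3 / 2 + d * ((1 + w) * (1 + Y2) + 1 / 2 + Y2 / 4) ≤ 3 / 4 * R1 := by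
    have e1 : 3 / 2 + d * ((1 + w) * (1 + Y2) + 1 / 2 + Y2 / 4) =
        (6000000000000000000 + (Do : ℝ) * (4 * (1000000 + u0) * (1000000 + y2) +
          2000000000000 + y2 * 1000000)) / 4000000000000000000 := by
      rw [hd, hw, hY2]; ring
    have e2 : 3 / 4 * R1 = 3 * (r1 : ℝ) * 1000000000000 / 4000000000000000000 := by
      rw [hR1]; ring
    rw [e1, e2]
    exact div_le_div_of_nonneg_right c2R (by norm_num)
  have hexp : Real.exp (d * y) ≤ 1 + d * y * (1 + w) := by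
    have h1 : |d * y| ≤ 1 := by rw [abs_of_nonneg hu00]; linarith only [c1R, hw, hu]
    have h2 := Real.abs_exp_sub_one_sub_id_le h1
    have h3 := (abs_le.1 h2).2
    have h4 : (d * y) ^ 2 ≤ d * y * w := by
      rw [sq]
      exact mul_le_mul_of_nonneg_left hu hu00
    linarith only [h3, h4]
  have hA := (A0_T h B).2
  have hN := N_ge h B
  rw [← hy, ← hR1] at hA
  rw [← hR1] at hN
  have hG : d * y ≤ GS a ζ := by
    refine GS_box h hmax (X0 := y) (by rw [← hy]; linarith only [ha1]) hyp.le hexp ?_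
    have h5 : (1 + w) * (1 + y) + 1 / 2 + y / 4 ≤ (1 + w) * (1 + Y2) + 1 / 2 + Y2 / 4 := by
      have : (1 + w) * (1 + y) ≤ (1 + w) * (1 + Y2) :=
        mul_le_mul_of_nonneg_left (by linarith only [hyY]) (by linarith only [ha0, ha1, hu, hu00])
      linarith only [hyY, this]
    have h6 : d * ((1 + w) * (1 + y) + 1 / 2 + y / 4) ≤
        d * ((1 + w) * (1 + Y2) + 1 / 2 + Y2 / 4) := mul_le_mul_of_nonneg_left h5 hd0
    have h7 : y * (3 / 2 + d * ((1 + w) * (1 + y) + 1 / 2 + y / 4)) ≤ y * (3 / 4 * R1) :=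
      mul_le_mul_of_nonneg_left (by linarith only [hcond, h6]) hyp.le
    have e1 : (1 + d * y * (1 + w)) * (1 + y) + 1 / 2 * ((1 + y / 2) * (d * y)) + 1 / 2 * y =
        1 + y * (3 / 2 + d * ((1 + w) * (1 + y) + 1 / 2 + y / 4)) := by ring
    linarith only [hA, hN, h7]
  have hat : 1 < (1 + a) * ‖u a ζ 0‖ := one_lt_at ha0 (by linarith only [ha0, ha1, ht])
  have key := DS_T h hmax (v := 0) (G := d * y) (n := max (a * (M + 1) / ((1 + a) * ‖u a ζ 0‖ - 1)) 0)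
    le_rfl (by norm_num) (by linarith only [hat]) (le_max_right _ _) (by
      have p : 0 < (1 + a) * ‖u a ζ 0‖ - 1 := by linarith only [hat]
      have h1 := le_max_left (a * (M + 1) / ((1 + a) * ‖u a ζ 0‖ - 1)) 0
      rw [div_le_iff₀ p] at h1
      linarith only [hat, h1]) hG
  rw [← hy] at key
  have key' : y * d ≤ y * DS a ζ := by linarith only [key]
  rw [← hd]
  exact le_of_mul_le_mul_left key' hyp

end Sound

end Pool.Agent.Lib.MP_172a45_an.F.H69
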