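import Pool.Agent.Lib.MP_172a45_an.F.H69.Typ2
import Pool.Agent.Lib.MP_172a45_an.F.H69.KndT

set_option autoImplicit false

/-!
# Part L-b, `t₀ ≥ 25/2`: the last stage, the tree and its soundness
-/

namespace Pool.Agent.Lib.MP_172a45_an.F.H69

open Finset Real
open Pool.Agent.Lib.MP_172a45_an.F.Fr
open Pool.Agent.Lib.MP_172a45_an.L

section Sound

variable {M : ℕ} {a : ℝ} {ζ z : Fin (M + 1) → ℂ} {y1 y2 r1 r2 : ℤ}

/-- **soundness of the last stage** -/
theorem leafT_sound (h : Fr (M + 1) a ζ z) (hM : 0 < M) (hmax : ∀ k, ‖u a ζ k‖ ≤ ‖u a ζ 0‖)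
    (hΔ : 8 ≤ Del a ζ) (B : InT a ζ y1 y2 r1 r2) {V : ℤ} {AL H : ℕ}
    (hV : (V : ℝ) / 1000000 ≤ (1 - a) * ‖u a ζ 0‖ + DS a ζ)
    (hok : leafT r2 y2 V AL H = true) : False := by
  have hM0 : (0 : ℝ) < M := by exact_mod_cast hM
  have ha0 := h.a0
  have ha1 := h.a1
  have ht := B.ht
  have hDS := DS_nn h
  unfold leafT at hok
  split_ifs at hok with c1 c2 c3
  push Not at c1 c2 c3
  obtain ⟨α, hα⟩ : ∃ α : ℝ, α = (AL : ℝ) / 1000000 := ⟨_, rfl⟩
  have hα0 : 0 ≤ α := by rw [hα]; positivity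
  -- `α ≤ a`
  have hαa : α ≤ a := by
    have h1 : 25 * ((AL : ℝ) * AL) ≤ 25000000000000 - 2 * (y2 : ℝ) * 1000000 := by
      exact_mod_cast c2
    have h2 := B.a2 h
    have h3 : α ^ 2 ≤ a ^ 2 := by
      have e1 : α ^ 2 = 25 * ((AL : ℝ) * AL) / 25000000000000 := by rw [hα]; ring
      have e2 : 1 - 2 * ((y2 : ℝ) / 1000000) / 25 =
          (25000000000000 - 2 * (y2 : ℝ) * 1000000) / 25000000000000 := by ring
      rw [e1]
      rw [e2] at h2
      exact (div_le_div_of_nonneg_right h1 (by norm_num)).trans h2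
    exact le_of_sq_le_sq h3 ha0.le
  obtain ⟨e, he⟩ : ∃ e : ℤ, e = tE r2 AL := ⟨_, rfl⟩
  rw [← he] at hok c3
  obtain ⟨t, htdef⟩ : ∃ t : ℝ, t = ‖u a ζ 0‖ := ⟨_, rfl⟩
  have ht' : 25 / 2 ≤ t := by rw [htdef]; exact ht
  have ht0 : 0 < t := by linarith only [ha0, ha1, ht, htdef]
  -- `(23/25)/R ≤ (t₀ - 1)/M`
  have hr2 : r2 ≠ 0 → 0 < r2 ∧ (M : ℝ) + 1 ≤ (r2 : ℝ) / 1000000 * t := by
    intro hr
    have h1 : (M : ℝ) + 1 ≤ (r2 : ℝ) / 1000000 * t := by
      rcases B.hr2 with h1 | h1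
      · exact absurd h1 hr
      · rw [htdef]; exact h1
    refine ⟨?_, h1⟩
    by_contra hcon
    push Not at hcon
    have h2 : (r2 : ℝ) ≤ 0 := by exact_mod_cast hcon
    have h3 : (r2 : ℝ) / 1000000 * t ≤ 0 :=
      mul_nonpos_of_nonpos_of_nonneg (div_nonpos_of_nonpos_of_nonneg h2 (by norm_num)) ht0.le
    linarith only [hM0, ha0, ha1, h1, h3]
  have hmu : ∀ c : ℝ, 0 ≤ c → r2 ≠ 0 →
      c * (23 / 25) / ((r2 : ℝ) / 1000000) ≤ c * (t - 1) / M := by
    intro c hc hr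
    obtain ⟨h1, h2⟩ := hr2 hr
    have h1R : (0 : ℝ) < (r2 : ℝ) / 1000000 := by
      have : (0 : ℝ) < r2 := by exact_mod_cast h1
      positivity
    rw [div_le_div_iff₀ h1R hM0]
    have h3 : (M : ℝ) ≤ (r2 : ℝ) / 1000000 * t := by linarith only [ha0, ha1, h2]
    have h4 : c * (23 / 25) * M ≤ c * (23 / 25) * ((r2 : ℝ) / 1000000 * t) :=
      mul_le_mul_of_nonneg_left h3 (by positivity)
    have h5 : 23 / 25 * t ≤ t - 1 := by linarith only [ht, htdef]
    have h6 : c * ((r2 : ℝ) / 1000000) * (23 / 25 * t) ≤ c * ((r2 : ℝ) / 1000000) * (t - 1) :=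
      mul_le_mul_of_nonneg_left h5 (by positivity)
    linarith only [h4, h6]
  have he0 : 0 ≤ e := by
    rw [he]
    unfold tE
    split_ifs with hr
    · exact le_rfl
    · have := (hr2 hr).1
      exact Int.ediv_nonneg (by positivity) (by linarith only [this])
  have he0R : (0 : ℝ) ≤ (e : ℝ) / 1000000 := by
    have : (0 : ℝ) ≤ e := by exact_mod_cast he0
    positivity
  have heb : (e : ℝ) / 1000000 ≤ (1 + α) * (t - 1) / (2 * M) := by
    rw [he]
    unfold tE
    split_ifs with hr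
    · push_cast
      rw [zero_div]
      have : 0 ≤ t - 1 := by linarith only [ha0, ha1, ht, htdef]
      positivity
    · obtain ⟨h1, h2⟩ := hr2 hr
      have h1R : (0 : ℝ) < (r2 : ℝ) := by exact_mod_cast h1
      have g := fdiv_le ((1000000 + (AL : ℤ)) * 23000000) (50 * r2) (by linarith only [h1])
      push_cast at g
      have g2 := div_le_div_of_nonneg_right g (by norm_num : (0:ℝ) ≤ 1000000)
      have g3 := hmu ((1 + α) / 2) (by positivity) hr
      refine g2.trans ?_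
      have e1 : (1000000 + (AL : ℝ)) * 23000000 / (50 * r2) / 1000000 =
          (1 + α) / 2 * (23 / 25) / ((r2 : ℝ) / 1000000) := by
        rw [hα]; field_simp; ring
      have e2 : (1 + α) * (t - 1) / (2 * M) = (1 + α) / 2 * (t - 1) / M := by
        field_simp
      rw [e1, e2]
      exact g3
  have hMU : ((tMU r2 : ℤ) : ℝ) / 1000000 ≤ (t - 1) / M := by
    unfold tMU
    split_ifs with hr
    · push_cast
      rw [zero_div]
      have : 0 ≤ t - 1 := by linarith only [ha0, ha1, ht, htdef]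
      positivity
    · obtain ⟨h1, h2⟩ := hr2 hr
      have h1R : (0 : ℝ) < (r2 : ℝ) := by exact_mod_cast h1
      have g := fdiv_le 23000000000000 (25 * r2) (by linarith only [h1])
      push_cast at g
      have g2 := div_le_div_of_nonneg_right g (by norm_num : (0:ℝ) ≤ 1000000)
      have g3 := hmu 1 (by norm_num) hr
      refine g2.trans ?_
      have e1 : (23000000000000 : ℝ) / (25 * r2) / 1000000 =
          1 * (23 / 25) / ((r2 : ℝ) / 1000000) := by
        field_simp; ring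
      rw [e1]
      rw [one_mul] at g3 ⊢
      rw [one_mul] at g3
      exact g3
  have hα2e : 2 * ((e : ℝ) / 1000000) ≤ α := by
    have h1 : 2 * (e : ℝ) ≤ AL := by exact_mod_cast c3
    rw [hα]
    linarith only [h1]
  have c1R : (1500000 : ℝ) ≤ V := by exact_mod_cast c1
  have hV' : 3 / 2 ≤ (V : ℝ) / 1000000 := by linarith only [c1R]
  rw [← htdef] at hV
  have hG : a * t + a / 2 ≤ t - 1 + DS a ζ := by linarith only [ha1, hV, c1R]
  have hF : ((V - 1500000 + tMU r2 + e : ℤ) : ℝ) / 1000000 ≤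
      (t - 1 + DS a ζ) * (1 + 1 / M) - a * t - a / 2 + (e : ℝ) / 1000000 := by
    push_cast
    have e1 : ((V : ℝ) - 1500000 + ((tMU r2 : ℤ) : ℝ) + e) / 1000000 =
        (V : ℝ) / 1000000 - 3 / 2 + ((tMU r2 : ℤ) : ℝ) / 1000000 + (e : ℝ) / 1000000 := by ring
    have e2 : (t - 1 + DS a ζ) * (1 + 1 / M) = (t - 1 + DS a ζ) + (t - 1) / M + DS a ζ / M := by
      ring
    rw [e1, e2]
    have h3 : 0 ≤ DS a ζ / M := by positivity
    linarith only [ha1, hV, hMU, h3]
  obtain ⟨F, hFdef⟩ : ∃ F : ℤ, F = V - 1500000 + tMU r2 + e := ⟨_, rfl⟩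
  rw [← hFdef] at hok hF
  have hA4 : rA F ≤ 4000000 := by
    unfold rA
    split_ifs with hc
    · linarith only [hc]
    · norm_num
  have hAF : ((rA F : ℤ) : ℝ) / 1000000 + 1 / 50 ≤ (F : ℝ) / 1000000 := by
    unfold rA
    split_ifs with hc
    · push_cast
      linarith only
    · push Not at hc
      have : (3220000 : ℝ) ≤ (F : ℝ) := by exact_mod_cast hc
      push_cast
      linarith only [this]
  have hF' := hAF.trans hF
  obtain ⟨A, hAdef⟩ : ∃ A : ℤ, A = rA F := ⟨_, rfl⟩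
  rw [← hAdef] at hA4 hF' hok
  obtain ⟨X1, hX1def⟩ : ∃ X1 : ℤ, X1 = ((AL : ℤ) * 25) / 2 := ⟨_, rfl⟩
  rw [← hX1def] at hok
  have hX10 : 0 ≤ X1 := by
    rw [hX1def]
    exact Int.ediv_nonneg (by positivity) (by norm_num)
  have hX1R : (X1 : ℝ) / 1000000 ≤ 25 / 2 * α := by
    have g := fdiv_le ((AL : ℤ) * 25) 2 (by norm_num)
    rw [← hX1def] at g
    push_cast at g
    have g2 := div_le_div_of_nonneg_right g (by norm_num : (0:ℝ) ≤ 1000000)
    refine g2.trans (le_of_eq ?_)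
    rw [hα]; ring
  have hX1 : t / (25 / 2) * ((X1 : ℝ) / 1000000) ≤ a * t + a / 2 - (e : ℝ) / 1000000 := by
    have h1 : t / (25 / 2) * ((X1 : ℝ) / 1000000) ≤ t / (25 / 2) * (25 / 2 * α) :=
      mul_le_mul_of_nonneg_left hX1R (by positivity)
    have e1 : t / (25 / 2) * (25 / 2 * α) = α * t := by field_simp
    rw [e1] at h1
    have h2 : α * t ≤ a * t := mul_le_mul_of_nonneg_right hαa ht0.le
    linarith only [hαa, hα2e, h1, h2]
  have hee : (e : ℝ) / 1000000 ≤ (a * (t - 1) + (t - 1 + DS a ζ)) / (2 * M) := by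
    refine heb.trans ?_
    refine div_le_div_of_nonneg_right ?_ (by positivity)
    have : α * (t - 1) ≤ a * (t - 1) := mul_le_mul_of_nonneg_right hαa (by linarith only [ha0,
        ha1, ht, htdef])
    linarith only [hDS, this]
  have hτ : t - 1 ≤ t / (25 / 2) * (((12500000 : ℤ) : ℝ) / 1000000) ∨
      a * t ≤ t / (25 / 2) * (((12500000 : ℤ) : ℝ) / 1000000) := by
    left
    push_cast
    have e1 : t / (25 / 2) * (12500000 / 1000000) = t := by ring
    rw [e1]
    linarith only [ha0, ha1]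
  rw [htdef] at hF' hG hX1 hee hτ
  unfold tRun at hok
  by_cases c4 : A < 0
  · rw [if_pos c4] at hok
    exact Bool.noConfusion hok
  rw [if_neg c4] at hok
  push Not at c4
  by_cases c5 : A < 1000000
  · rw [if_pos c5] at hok
    by_cases c6 : r2 = 0
    · rw [if_pos c6] at hok
      exact Bool.noConfusion hok
    rw [if_neg c6] at hok
    refine run2_false h hM hmax hΔ ht (e := (e : ℝ) / 1000000) (R2 := (r2 : ℝ) / 1000000) hok
      (by norm_num) (by norm_num) (by positivity) hX10 hX10 (by norm_num) c4 hA4 he0R hee hF' hG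
      hX1 (Or.inl ⟨rfl, rfl⟩) hτ le_rfl ?_
    intro _
    have h1 := (hr2 c6).2
    rw [htdef] at h1
    refine ⟨by linarith only [ha0, ha1, h1], ?_⟩
    have g := le_cdiv (r2 * 625) 196 (by norm_num)
    push_cast at g ⊢
    have g2 := div_le_div_of_nonneg_right g (by norm_num : (0:ℝ) ≤ 1000000)
    have e1 : (18 : ℝ) / 5 + 1 / 50 * (169 + (r2 : ℝ) / 1000000 * (625 / 4) / (1 - 1 / 50)) =
        698 / 100 + (r2 : ℝ) * 625 / 196 / 1000000 := by ring
    have e2 : ∀ w : ℝ, (6980000 + w) / 1000000 = 698 / 100 + w / 1000000 := by intro w; ring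
    rw [e1, e2]
    linarith only [g]
  · rw [if_neg c5] at hok
    push Not at c5
    refine run2_false h hM hmax hΔ ht (e := (e : ℝ) / 1000000) (R2 := 0) hok
      (by norm_num) (by norm_num) le_rfl hX10 hX10 (by norm_num) c4 hA4 he0R hee hF' hG
      hX1 (Or.inl ⟨rfl, rfl⟩) hτ le_rfl ?_
    intro hc
    exact absurd hc (by linarith only [c5, hc])

/-- soundness of `leafCT` -/
theorem leafCT_sound (h : Fr (M + 1) a ζ z) (hM : 0 < M) (hmax : ∀ k, ‖u a ζ k‖ ≤ ‖u a ζ 0‖)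
    (hΔ : 8 ≤ Del a ζ) (B : InT a ζ y1 y2 r1 r2) {C : ℤ} {Y AL H : ℕ}
    (hC : (C : ℝ) / 1000000 ≤ (1 - a ^ 2) * ‖u a ζ 0‖ * DS a ζ)
    (hok : leafCT r2 y1 y2 C Y AL H = true) : False := by
  unfold leafCT at hok
  split_ifs at hok with c1 c2
  push Not at c1
  have ha0 := h.a0
  have ha1 := h.a1
  have ht := B.ht
  have hC0 : (0 : ℝ) ≤ (C : ℝ) / 1000000 := by
    have : (0 : ℝ) ≤ C := by exact_mod_cast c1
    positivity
  refine leafT_sound h hM hmax hΔ B ?_ hok
  have hY0 : (0 : ℤ) < (Y : ℤ) := by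
    have : 0 < Y := Nat.pos_of_ne_zero c2
    exact_mod_cast this
  have key := tvY_mono (C := C) (Y0 := (Y : ℤ)) hY0 B.hy1 B.hy2
  refine key.trans ?_
  obtain ⟨y, hy⟩ : ∃ y : ℝ, y = (1 - a ^ 2) * ‖u a ζ 0‖ := ⟨_, rfl⟩
  obtain ⟨c, hc⟩ : ∃ c : ℝ, c = (C : ℝ) / 1000000 := ⟨_, rfl⟩
  obtain ⟨y0, hy0⟩ : ∃ y0 : ℝ, y0 = ((Y : ℤ) : ℝ) / 1000000 := ⟨_, rfl⟩
  rw [← hy, ← hc, ← hy0]
  rw [← hc, ← hy] at hC
  rw [← hc] at hC0
  have hyp : 0 < y := by rw [hy]; exact mul_pos h.m_pos (by linarith only [ha0, ha1, ht])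
  have hy00 : 0 < y0 := by
    have : (0 : ℝ) < ((Y : ℤ) : ℝ) := by exact_mod_cast hY0
    rw [hy0]; positivity
  have h5 : c * (2 * y0 - y) / y0 ^ 2 ≤ c / y := by
    rw [div_le_div_iff₀ (by positivity) hyp]
    have : 0 ≤ c * (y0 - y) ^ 2 := by positivity
    linarith only [this]
  have h6 : c / y ≤ DS a ζ := by
    rw [div_le_iff₀ hyp]
    linarith only [hC]
  have h7 : y / 2 ≤ (1 - a) * ‖u a ζ 0‖ := by
    have e1 : (1 - a) * ‖u a ζ 0‖ - y / 2 = (1 - a) ^ 2 * ‖u a ζ 0‖ / 2 := by rw [hy]; ring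
    have : 0 ≤ (1 - a) ^ 2 * ‖u a ζ 0‖ / 2 := by positivity
    linarith only [hy, this]
  linarith only [h5, h6, h7]

/-- **soundness of the checker** -/
theorem chkT_sound (h : Fr (M + 1) a ζ z) (hM : 0 < M) (hmax : ∀ k, ‖u a ζ k‖ ≤ ‖u a ζ 0‖)
    (hΔ : 8 ≤ Del a ζ) : ∀ (T : Tt) (y1 y2 : ℤ), InT a ζ y1 y2 r1 r2 →
      chkT r1 r2 T y1 y2 = true → False := by
  intro T
  induction T with
  | T G v Y AL H =>
    intro y1 y2 B hok
    change (if !(tG y1 r1 y2 G) then false else leafCT r2 y1 y2 (tT r2 G v) Y AL H) = true at hok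
    split_ifs at hok with c1
    have c1' : tG y1 r1 y2 G = true := by simpa using c1
    exact leafCT_sound h hM hmax hΔ B (tT_sound h hmax B (tG_sound h hmax B c1')) hok
  | M G g Y AL H =>
    intro y1 y2 B hok
    change (if !(tG y1 r1 y2 G) then false else leafCT r2 y1 y2 (tM r1 y2 G g) Y AL H) = true at hok
    split_ifs at hok with c1
    have c1' : tG y1 r1 y2 G = true := by simpa using c1
    exact leafCT_sound h hM hmax hΔ B (tM_sound h hmax B c1') hok
  | S Do AL H =>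
    intro y1 y2 B hok
    change (if !(tS r1 y2 Do (cdiv (Do * y2) 1000000)) then false
      else leafT r2 y2 Do AL H) = true at hok
    split_ifs at hok with c1
    have c1' : tS r1 y2 Do (cdiv (Do * y2) 1000000) = true := by simpa using c1
    have hD := tS_sound h hmax B c1'
    refine leafT_sound h hM hmax hΔ B (V := (Do : ℤ)) ?_ hok
    push_cast
    have : 0 ≤ (1 - a) * ‖u a ζ 0‖ := mul_nonneg (by linarith only [h.a1]) (norm_nonneg _)
    linarith only [hD, this]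
  | B m l r ihl ihr =>
    intro y1 y2 B hok
    change (if chkT r1 r2 l y1 m then chkT r1 r2 r m y2 else false) = true at hok
    split_ifs at hok with c2
    rcases le_total ((1 - a ^ 2) * ‖u a ζ 0‖) ((m : ℝ) / 1000000) with h1 | h1
    · exact ihl y1 m { B with hy2 := by push_cast; exact h1 } c2
    · exact ihr m y2 { B with hy1 := by push_cast; exact h1, y10 := by positivity } hok

end Sound

end Pool.Agent.Lib.MP_172a45_an.F.H69
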