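import Pool.Agent.Lib.MP_172a45_an.F.H69.Phase

set_option autoImplicit false

/-!
# The phase loss near `s = 1`, without logarithm

`(s² + s - 1) ∑ e_k H_k ≤ Th (H' - P')` for `H = ∏ D̄`, `D̄ = T - s (1 - s) e / Th`, `P = ∏ T`.
-/

namespace Pool.Agent.Lib.MP_172a45_an.F.H69

open Finset Filter Topology

variable {M : ℕ}

/-- the majorant `D̄ = T - s (1 - s) e / Th` of `‖1 - s + s v‖` -/
noncomputable def Db (Th : ℝ) (v : ℂ) (s : ℝ) : ℝ :=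
  (1 - s + s * ‖v‖) - s * (1 - s) * ((‖v‖ - v.re) / Th)

theorem norm_le_Db {Th : ℝ} {v : ℂ} {s : ℝ} (h1 : 1 ≤ Th) (hv : ‖v‖ ≤ Th) (hs0 : 0 ≤ s)
    (hs1 : s ≤ 1) : ‖1 - s + s * v‖ ≤ Db Th v s := by
  have hc := norm_nonneg v
  have hx := abs_le.1 (Complex.abs_re_le_norm v)
  have hTh : 0 < Th := by linarith
  set c := ‖v‖ with hcd
  set e := c - v.re with he
  have he0 : 0 ≤ e := by rw [he]; linarith
  have he2 : e ≤ 2 * c := by rw [he]; linarith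
  set T := 1 - s + s * c with hT
  have hT0 : 0 ≤ T := by rw [hT]; nlinarith only [hs1, hs0, hc, mul_nonneg hs0 hc]
  have hTT : T ≤ Th := by rw [hT]; nlinarith only [h1, hs1, hs0, hv]
  have h4 : 4 * (s * (1 - s) * c) ≤ T ^ 2 := by
    rw [hT]; nlinarith only [sq_nonneg (1 - s - s * c)]
  have hss : 0 ≤ s * (1 - s) := mul_nonneg hs0 (by linarith)
  have h5 : s * (1 - s) * e ≤ T ^ 2 / 2 := by
    have := mul_le_mul_of_nonneg_left he2 hss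
    nlinarith only [h4, this]
  have h6 : s * (1 - s) * (e / Th) ≤ T / 2 := by
    rw [← mul_div_assoc, div_le_iff₀ hTh]
    refine h5.trans ?_
    nlinarith only [hT0, hTT]
  have hsq := norm_seg_sq v s
  unfold Db
  rw [← hcd, ← he, ← hT]
  refine le_of_sq_le_sq ?_ (by linarith only [hT0, h6])
  rw [hsq, ← hcd, ← he, ← hT]
  have h7 : T * (e / Th) ≤ e := by
    rw [← mul_div_assoc, div_le_iff₀ hTh]
    nlinarith
  have h8 : 2 * (s * (1 - s)) * (T * (e / Th)) ≤ 2 * (s * (1 - s)) * e :=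
    mul_le_mul_of_nonneg_left h7 (by linarith only [hss])
  nlinarith only [h8, sq_nonneg (s * (1 - s) * (e / Th))]

theorem Db_nonneg {Th : ℝ} {v : ℂ} {s : ℝ} (h1 : 1 ≤ Th) (hv : ‖v‖ ≤ Th) (hs0 : 0 ≤ s)
    (hs1 : s ≤ 1) : 0 ≤ Db Th v s := (norm_nonneg _).trans (norm_le_Db h1 hv hs0 hs1)

theorem Db_le {Th : ℝ} {v : ℂ} {s : ℝ} (h1 : 1 ≤ Th) (hs0 : 0 ≤ s) (hs1 : s ≤ 1) :
    Db Th v s ≤ 1 - s + s * ‖v‖ := by
  unfold Db
  have : 0 ≤ s * (1 - s) * ((‖v‖ - v.re) / Th) :=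
    mul_nonneg (mul_nonneg hs0 (by linarith))
      (div_nonneg (by linarith [Complex.re_le_norm v]) (by linarith))
  linarith

theorem Db_one {Th : ℝ} {v : ℂ} : Db Th v 1 = 1 - (1:ℝ) + (1:ℝ) * ‖v‖ := by
  unfold Db; ring

/-- the pointwise inequality -/
theorem late_pointwise {Th : ℝ} (v : Fin M → ℂ) {s : ℝ} (h1 : 1 ≤ Th) (hv : ∀ k, ‖v k‖ ≤ Th)
    (hV : 0 ≤ ∑ k, (1 - ‖v k‖)) (hs0 : 0 ≤ s) (hs1 : s ≤ 1) :
    (s ^ 2 + s - 1) * (∑ k, (‖v k‖ - (v k).re) * ∏ l ∈ univ.erase k, Db Th (v l) s) ≤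
      Th * ((∑ k, (∏ l ∈ univ.erase k, Db Th (v l) s) *
          (-(1 - ‖v k‖) - (1 - 2 * s) * ((‖v k‖ - (v k).re) / Th))) -
        ∑ k, (∏ l ∈ univ.erase k, (1 - s + s * ‖v l‖)) * (-(1 - ‖v k‖))) := by
  have hTh : 0 < Th := by linarith
  set H := ∏ l, Db Th (v l) s with hH
  set P := ∏ l, (1 - s + s * ‖v l‖) with hP
  set Hk : Fin M → ℝ := fun k => ∏ l ∈ univ.erase k, Db Th (v l) s with hHk
  set Pk : Fin M → ℝ := fun k => ∏ l ∈ univ.erase k, (1 - s + s * ‖v l‖) with hPk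
  set e : Fin M → ℝ := fun k => ‖v k‖ - (v k).re with he
  have he0 : ∀ k, 0 ≤ e k := fun k => by rw [he]; simp only; linarith [Complex.re_le_norm (v k)]
  have hD0 : ∀ k, 0 ≤ Db Th (v k) s := fun k => Db_nonneg h1 (hv k) hs0 hs1
  have hDT : ∀ k, Db Th (v k) s ≤ 1 - s + s * ‖v k‖ := fun k => Db_le h1 hs0 hs1
  have hHk0 : ∀ k, 0 ≤ Hk k := fun k => Finset.prod_nonneg fun l _ => hD0 l
  have hHPk : ∀ k, Hk k ≤ Pk k := fun k =>
    Finset.prod_le_prod (fun l _ => hD0 l) fun l _ => hDT l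
  have hHP : H ≤ P := Finset.prod_le_prod (fun l _ => hD0 l) fun l _ => hDT l
  have hH1 : ∀ k, H = Db Th (v k) s * Hk k := fun k =>
    (Finset.mul_prod_erase univ (fun l => Db Th (v l) s) (Finset.mem_univ k)).symm
  have hP1 : ∀ k, P = (1 - s + s * ‖v k‖) * Pk k := fun k =>
    (Finset.mul_prod_erase univ (fun l => 1 - s + s * ‖v l‖) (Finset.mem_univ k)).symm
  -- the algebra, index by index
  have key : ∀ k, (1 - ‖v k‖) * (Pk k - Hk k) = (1 - ‖v k‖) * (P - H) +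
      s * (1 - ‖v k‖) ^ 2 * (Pk k - Hk k) - s * (1 - s) / Th * ((1 - ‖v k‖) * (e k * Hk k)) := by
    intro k
    rw [hH1 k, hP1 k]
    unfold Db
    have : ‖v k‖ - (v k).re = e k := rfl
    rw [this]
    field_simp
    ring
  have hsum : -(s * (1 - s) / Th * ∑ k, e k * Hk k) ≤ ∑ k, (1 - ‖v k‖) * (Pk k - Hk k) := by
    simp only [key]
    rw [Finset.sum_sub_distrib, Finset.sum_add_distrib, ← Finset.sum_mul, ← Finset.mul_sum]
    have g1 : 0 ≤ (∑ k, (1 - ‖v k‖)) * (P - H) := mul_nonneg hV (by linarith)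
    have g2 : 0 ≤ ∑ k, s * (1 - ‖v k‖) ^ 2 * (Pk k - Hk k) :=
      Finset.sum_nonneg fun k _ => mul_nonneg (mul_nonneg hs0 (sq_nonneg _))
        (by linarith [hHPk k])
    have g3 : ∑ k, (1 - ‖v k‖) * (e k * Hk k) ≤ ∑ k, e k * Hk k := by
      refine Finset.sum_le_sum fun k _ => ?_
      have := mul_nonneg (he0 k) (hHk0 k)
      have := mul_nonneg (norm_nonneg (v k)) this
      nlinarith only [this]
    have g4 : 0 ≤ s * (1 - s) / Th := div_nonneg (mul_nonneg hs0 (by linarith)) hTh.le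
    have g5 := mul_le_mul_of_nonneg_left g3 g4
    linarith only [g1, g2, g5]
  have e1 : ∑ k, Hk k * (-(1 - ‖v k‖) - (1 - 2 * s) * (e k / Th)) =
      -(∑ k, (1 - ‖v k‖) * Hk k) - (1 - 2 * s) / Th * ∑ k, e k * Hk k := by
    rw [Finset.mul_sum, ← Finset.sum_neg_distrib, ← Finset.sum_sub_distrib]
    exact Finset.sum_congr rfl fun k _ => by ring
  have e2 : ∑ k, Pk k * (-(1 - ‖v k‖)) = -(∑ k, (1 - ‖v k‖) * Pk k) := by
    rw [← Finset.sum_neg_distrib]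
    exact Finset.sum_congr rfl fun k _ => by ring
  have e3 : ∑ k, (1 - ‖v k‖) * (Pk k - Hk k) =
      (∑ k, (1 - ‖v k‖) * Pk k) - ∑ k, (1 - ‖v k‖) * Hk k := by
    rw [← Finset.sum_sub_distrib]
    exact Finset.sum_congr rfl fun k _ => by ring
  change (s ^ 2 + s - 1) * (∑ k, e k * Hk k) ≤
    Th * ((∑ k, Hk k * (-(1 - ‖v k‖) - (1 - 2 * s) * (e k / Th))) - ∑ k, Pk k * (-(1 - ‖v k‖)))
  rw [e1, e2]
  rw [e3] at hsum
  have h9 := mul_le_mul_of_nonneg_left hsum hTh.le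
  have e4 : Th * -(s * (1 - s) / Th * ∑ k, e k * Hk k) = -(s * (1 - s) * ∑ k, e k * Hk k) := by
    field_simp
  have e5 : Th * (-(∑ k, (1 - ‖v k‖) * Hk k) - (1 - 2 * s) / Th * (∑ k, e k * Hk k) -
      -(∑ k, (1 - ‖v k‖) * Pk k)) =
      Th * ((∑ k, (1 - ‖v k‖) * Pk k) - ∑ k, (1 - ‖v k‖) * Hk k) -
        (1 - 2 * s) * ∑ k, e k * Hk k := by
    field_simp
    ring
  rw [e5]
  rw [e4] at h9
  linarith only [h9]

theorem hasDeriv_H {Th : ℝ} (v : Fin M → ℂ) (s : ℝ) :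
    HasDerivAt (fun s => ∏ l, Db Th (v l) s)
      (∑ k, (∏ l ∈ univ.erase k, Db Th (v l) s) *
          (-(1 - ‖v k‖) - (1 - 2 * s) * ((‖v k‖ - (v k).re) / Th))) s := by
  have h : ∀ k ∈ (univ : Finset (Fin M)), HasDerivAt (fun s => Db Th (v k) s)
      (-(1 - ‖v k‖) - (1 - 2 * s) * ((‖v k‖ - (v k).re) / Th)) s := by
    intro k _
    unfold Db
    have h1 : HasDerivAt (fun s : ℝ => 1 - s + s * ‖v k‖) (-1 + 1 * ‖v k‖) s :=
      ((hasDerivAt_id s).const_sub 1).add ((hasDerivAt_id s).mul_const _)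
    have h2 : HasDerivAt (fun s : ℝ => s * (1 - s)) (1 * (1 - s) + s * (-1)) s :=
      (hasDerivAt_id s).mul ((hasDerivAt_id s).const_sub 1)
    exact (h1.sub (h2.mul_const ((‖v k‖ - (v k).re) / Th))).congr_deriv (by ring)
  have := HasDerivAt.fun_finsetProd h
  simpa only [smul_eq_mul] using this

theorem hasDeriv_P (v : Fin M → ℂ) (s : ℝ) :
    HasDerivAt (fun s => ∏ l, (1 - s + s * ‖v l‖))
      (∑ k, (∏ l ∈ univ.erase k, (1 - s + s * ‖v l‖)) * (-(1 - ‖v k‖))) s := by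
  have h : ∀ k ∈ (univ : Finset (Fin M)), HasDerivAt (fun s => 1 - s + s * ‖v k‖)
      (-(1 - ‖v k‖)) s := by
    intro k _
    have h1 : HasDerivAt (fun s : ℝ => 1 - s + s * ‖v k‖) (-1 + 1 * ‖v k‖) s :=
      ((hasDerivAt_id s).const_sub 1).add ((hasDerivAt_id s).mul_const _)
    exact h1.congr_deriv (by ring)
  have := HasDerivAt.fun_finsetProd h
  simpa only [smul_eq_mul] using this

/-- the derivative `H' - P'` -/
noncomputable def HP (Th : ℝ) (v : Fin M → ℂ) (s : ℝ) : ℝ :=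
  (∑ k, (∏ l ∈ univ.erase k, Db Th (v l) s) *
          (-(1 - ‖v k‖) - (1 - 2 * s) * ((‖v k‖ - (v k).re) / Th))) -
        ∑ k, (∏ l ∈ univ.erase k, (1 - s + s * ‖v l‖)) * (-(1 - ‖v k‖))

theorem HP_cont (Th : ℝ) (v : Fin M → ℂ) : Continuous (HP Th v) := by
  unfold HP Db
  fun_prop

theorem int_HP {Th s1 : ℝ} (v : Fin M → ℂ) (h1 : 1 ≤ Th) (hv : ∀ k, ‖v k‖ ≤ Th)
    (hs0 : 0 ≤ s1) (hs1 : s1 ≤ 1) :
    ∫ s in s1..1, HP Th v s ≤ ∏ k, (1 - s1 + s1 * ‖v k‖) := by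
  have h := intervalIntegral.integral_eq_sub_of_hasDerivAt
    (f := fun s => (∏ l, Db Th (v l) s) - ∏ l, (1 - s + s * ‖v l‖)) (f' := HP Th v)
    (a := s1) (b := 1) (fun s _ => (hasDeriv_H v s).sub (hasDeriv_P v s))
    ((HP_cont Th v).intervalIntegrable _ _)
  rw [h]
  have e1 : ∏ l, Db Th (v l) 1 = ∏ l, (1 - (1:ℝ) + (1:ℝ) * ‖v l‖) :=
    Finset.prod_congr rfl fun l _ => Db_one
  have e2 : 0 ≤ ∏ l, Db Th (v l) s1 := Finset.prod_nonneg fun l _ => Db_nonneg h1 (hv l) hs0 hs1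
  rw [e1]
  linarith

/-- the late loss at one point -/
theorem late_le {Th c0 κ s s1 : ℝ} (v0 : ℂ) (v : Fin M → ℂ) (h1 : 1 ≤ Th)
    (hv : ∀ k, ‖v k‖ ≤ Th) (hV : 0 ≤ ∑ k, (1 - ‖v k‖)) (hs1 : 0 < s1)
    (hw : 0 < s1 ^ 2 + s1 - 1) (hs : s1 ≤ s) (hs' : s ≤ 1) (hκ0 : 0 ≤ κ) (hκ1 : κ ≤ 1)
    (hc1 : 1 ≤ c0) (hv0 : ‖v0‖ ≤ c0) :
    2 * s * (κ / (1 - s + s * κ)) * ‖1 - s + s * v0‖ *
        (∑ k, (‖v k‖ - (v k).re) * ∏ l ∈ univ.erase k, ‖1 - s + s * v l‖) ≤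
      2 * s1 / (s1 ^ 2 + s1 - 1) * (Th * c0) * HP Th v s := by
  have hs0 : 0 ≤ s := by linarith
  have hTh : 0 < Th := by linarith
  set E := ∑ k, (‖v k‖ - (v k).re) * ∏ l ∈ univ.erase k, Db Th (v l) s with hE
  have hE0 : 0 ≤ E := Finset.sum_nonneg fun k _ => mul_nonneg (by linarith [Complex.re_le_norm (v k)])
    (Finset.prod_nonneg fun l _ => Db_nonneg h1 (hv l) hs0 hs')
  have hEle : (∑ k, (‖v k‖ - (v k).re) * ∏ l ∈ univ.erase k, ‖1 - s + s * v l‖) ≤ E := by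
    refine Finset.sum_le_sum fun k _ => ?_
    refine mul_le_mul_of_nonneg_left ?_ (by linarith [Complex.re_le_norm (v k)])
    exact Finset.prod_le_prod (fun _ _ => norm_nonneg _) fun l _ => norm_le_Db h1 (hv l) hs0 hs'
  have hEn : 0 ≤ (∑ k, (‖v k‖ - (v k).re) * ∏ l ∈ univ.erase k, ‖1 - s + s * v l‖) :=
    Finset.sum_nonneg fun k _ => mul_nonneg (by linarith [Complex.re_le_norm (v k)])
      (Finset.prod_nonneg fun _ _ => norm_nonneg _)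
  have hp := late_pointwise v h1 hv hV hs0 hs'
  have hw' : 0 < s ^ 2 + s - 1 := by nlinarith only [hw, hs, hs1]
  have hHP : (s ^ 2 + s - 1) * E ≤ Th * HP Th v s := hp
  have hκ' : κ / (1 - s + s * κ) ≤ 1 := by
    rcases eq_or_lt_of_le (show 0 ≤ 1 - s + s * κ by nlinarith only [hs', hs0, hκ0, mul_nonneg hs0 hκ0]) with h | h
    · rw [← h]; simp
    · rw [div_le_one h]
      nlinarith only [hs', hκ1]
  have hκ'' : 0 ≤ κ / (1 - s + s * κ) :=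
    div_nonneg hκ0 (by nlinarith only [hs', hs0, hκ0, mul_nonneg hs0 hκ0])
  have hd0 : ‖1 - s + s * v0‖ ≤ c0 := by
    refine (norm_seg_le v0 hs0 hs').trans ?_
    nlinarith only [hs1, hv0, hs, hs', hc1]
  have e1 : 2 * s * (κ / (1 - s + s * κ)) * ‖1 - s + s * v0‖ *
        (∑ k, (‖v k‖ - (v k).re) * ∏ l ∈ univ.erase k, ‖1 - s + s * v l‖) ≤
      2 * s * 1 * c0 * E := by
    refine mul_le_mul ?_ hEle hEn (by positivity)
    refine mul_le_mul ?_ hd0 (norm_nonneg _) (by positivity)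
    exact mul_le_mul_of_nonneg_left hκ' (by positivity)
  refine e1.trans ?_
  have e2 : 2 * s * 1 * c0 * E * (s1 ^ 2 + s1 - 1) ≤ 2 * s1 * c0 * ((s ^ 2 + s - 1) * E) := by
    have h3 : s * (s1 ^ 2 + s1 - 1) ≤ s1 * (s ^ 2 + s - 1) := by
      nlinarith only [hs, hs0, hs1, mul_nonneg (sub_nonneg.2 hs) (mul_nonneg hs0 hs1.le)]
    have h4 : 0 ≤ 2 * c0 * E := by positivity
    nlinarith only [h3, h4, mul_le_mul_of_nonneg_left h3 h4]
  have e3 : 2 * s1 * c0 * ((s ^ 2 + s - 1) * E) ≤ 2 * s1 * c0 * (Th * HP Th v s) :=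
    mul_le_mul_of_nonneg_left hHP (by positivity)
  have e4 : 2 * s1 / (s1 ^ 2 + s1 - 1) * (Th * c0) * HP Th v s =
      (2 * s1 * c0 * (Th * HP Th v s)) / (s1 ^ 2 + s1 - 1) := by
    field_simp
  rw [e4, le_div_iff₀ hw]
  linarith only [e2, e3]

/-- **The phase lemma with the late part**. -/
theorem phase_lemma2 (hM : 0 < M) (v0 : ℂ) (v : Fin M → ℂ) {κ c0 τ s1 : ℝ}
    (hκ : (M : ℝ) * κ = ∑ k, ‖v k‖) (hκ1 : κ ≤ 1) (hc0 : 1 ≤ c0)
    (hpr : (c0 - 1) * (c0 - κ) = ‖1 - v0‖ * ‖v0 - (∑ k, v k) / M‖)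
    (hτ0 : 0 ≤ τ) (hτ : ∀ k, ‖v k‖ ≤ 1 + τ) (hs0 : 0 < s1) (hs1 : s1 < 1)
    (hw : 0 < s1 ^ 2 + s1 - 1)
    (ℓ : ℝ → ℝ)
    (hℓi : IntervalIntegrable (fun s => ((1 - s + s * c0) * ∏ k, (1 - s + s * ‖v k‖)) * ℓ s)
      MeasureTheory.volume 0 s1)
    (hℓ : ∀ s ∈ Set.Ioc (0:ℝ) s1,
      (∀ R ∈ Set.Icc (0:ℝ) 1, (1 - R) * (κ * (1 + s * τ) / ((1 - s + s * κ) * (1 - s)) * (1 + R) -
        s * ((c0 - 1) * (c0 - κ)) / (1 - s + s * c0)) ≤ ℓ s) ∨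
      2 * (κ / (1 - s + s * κ)) * ∑ k, s * (‖v k‖ - (v k).re) / (1 - s + s * ‖v k‖) ≤ ℓ s) :
    ((M + 1) * (1 - κ) - (c0 - 1)) *
        (∫ s in (0:ℝ)..1, (1 - s + s * c0) * ∏ k, (1 - s + s * ‖v k‖)) -
      (∫ s in (0:ℝ)..s1, ((1 - s + s * c0) * ∏ k, (1 - s + s * ‖v k‖)) * ℓ s) -
      2 * s1 / (s1 ^ 2 + s1 - 1) * ((1 + τ) * c0) * ∏ k, (1 - s1 + s1 * ‖v k‖) ≤
      1 - XXS v0 v := by
  classical
  have hM0 : (0 : ℝ) < M := by exact_mod_cast hM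
  have hκ0 : 0 ≤ κ := by
    have : 0 ≤ (M : ℝ) * κ := by rw [hκ]; exact Finset.sum_nonneg fun k _ => norm_nonneg _
    exact nonneg_of_mul_nonneg_right this hM0
  have hmn : ‖(∑ k, v k) / M‖ ≤ κ := by
    rw [norm_div, Complex.norm_natCast, div_le_iff₀ hM0]
    refine (norm_sum_le _ _).trans (le_of_eq ?_)
    rw [← hκ]; ring
  have hv0 := norm_v0_le hκ1 hc0 hmn hpr
  have hV : 0 ≤ ∑ k, (1 - ‖v k‖) := by
    rw [Finset.sum_sub_distrib, ← hκ]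
    simp only [Finset.sum_const, Finset.card_univ, Fintype.card_fin, nsmul_eq_mul, mul_one]
    nlinarith only [hκ1]
  set K := 2 * s1 / (s1 ^ 2 + s1 - 1) with hK
  have hK0 : 0 ≤ K := by positivity
  set q : ℝ → ℝ := fun s => (1 - s + s * c0) * ∏ k, (1 - s + s * ‖v k‖) with hq
  set L : ℝ → ℝ := fun s => if s ≤ s1 then q s * ℓ s else K * ((1 + τ) * c0) * HP (1 + τ) v s
    with hL
  have hLi1 : IntervalIntegrable L MeasureTheory.volume 0 s1 := by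
    refine hℓi.congr ?_
    rw [Set.uIoc_of_le hs0.le]
    intro s hs
    rw [hL]
    simp only
    rw [if_pos hs.2]
  have hHPi : IntervalIntegrable (fun s => K * ((1 + τ) * c0) * HP (1 + τ) v s)
      MeasureTheory.volume s1 1 :=
    ((HP_cont (1 + τ) v).const_mul _).intervalIntegrable _ _
  have hLi2 : IntervalIntegrable L MeasureTheory.volume s1 1 := by
    refine hHPi.congr ?_
    rw [Set.uIoc_of_le hs1.le]
    intro s hs
    rw [hL]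
    simp only
    rw [if_neg (not_le.2 hs.1)]
  have hLint : ∫ s in (0:ℝ)..1, L s ≤ (∫ s in (0:ℝ)..s1, q s * ℓ s) +
      K * ((1 + τ) * c0) * ∏ k, (1 - s1 + s1 * ‖v k‖) := by
    rw [← intervalIntegral.integral_add_adjacent_intervals hLi1 hLi2]
    refine add_le_add (le_of_eq ?_) ?_
    · refine intervalIntegral.integral_congr_ae ?_
      rw [Set.uIoc_of_le hs0.le]
      filter_upwards with s hs
      rw [hL]
      simp only
      rw [if_pos hs.2]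
    · have e1 : ∫ s in s1..1, L s = ∫ s in s1..1, K * ((1 + τ) * c0) * HP (1 + τ) v s := by
        refine intervalIntegral.integral_congr_ae ?_
        rw [Set.uIoc_of_le hs1.le]
        filter_upwards with s hs
        rw [hL]
        simp only
        rw [if_neg (not_le.2 hs.1)]
      rw [e1, intervalIntegral.integral_const_mul]
      refine mul_le_mul_of_nonneg_left ?_ (by positivity)
      exact int_HP v (by linarith only [hτ0]) hτ hs0.le hs1.le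
  have key := pl_gen hM v0 v hκ hκ1 hc0 hpr L (hLi1.trans hLi2) ?_
  · linarith only [hLint, key]
  · intro s hs
    have hT : ∀ k, 0 < 1 - s + s * ‖v k‖ := fun k => by
      nlinarith only [mul_nonneg hs.1.le (norm_nonneg (v k)), hs.2]
    have hP : 0 < ∏ k, (1 - s + s * ‖v k‖) := Finset.prod_pos fun k _ => hT k
    have hT0 : 0 < 1 - s + s * c0 := by nlinarith only [hs0, hs1, hc0, hs.1, hs.2]
    have hq0 : 0 ≤ (1 - s + s * c0) * ∏ k, (1 - s + s * ‖v k‖) := mul_nonneg hT0.le hP.le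
    rcases le_or_gt s s1 with hss | hss
    · have eL : L s = q s * ℓ s := by rw [hL]; simp only; rw [if_pos hss]
      rw [eL]
      rcases hℓ s ⟨hs.1, hss⟩ with h | h
      · refine (loss_le v0 v (pr := ‖1 - v0‖ * ‖v0 - (∑ k, v k) / M‖) hs hκ0 hv0 hτ hc0).trans ?_
        refine mul_le_mul_of_nonneg_left ?_ hq0
        rw [← hpr]
        refine h _ ⟨div_nonneg (Finset.prod_nonneg fun _ _ => norm_nonneg _) hP.le, ?_⟩
        rw [div_le_one hP]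
        exact Finset.prod_le_prod (fun _ _ => norm_nonneg _) fun k _ =>
          norm_seg_le (v k) hs.1.le hs.2.le
      · refine (loss_le' v0 v (pr := ‖1 - v0‖ * ‖v0 - (∑ k, v k) / M‖) hs hκ0 hv0 hc0
          (mul_nonneg (norm_nonneg _) (norm_nonneg _))).trans ?_
        exact mul_le_mul_of_nonneg_left h hq0
    · have eL : L s = K * ((1 + τ) * c0) * HP (1 + τ) v s := by
        rw [hL]; simp only; rw [if_neg (not_le.2 hss)]
      rw [eL]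
      have h1 := late_le (Th := 1 + τ) (κ := κ) (c0 := c0) (s := s) (s1 := s1) v0 v (by linarith) hτ
        hV hs0 hw hss.le hs.2.le hκ0 hκ1 hc0 hv0
      have h2 : 0 ≤ s * (‖1 - v0‖ * ‖v0 - (∑ k, v k) / M‖) *
          ((∏ k, (1 - s + s * ‖v k‖)) - ∏ k, ‖1 - s + s * v k‖) := by
        refine mul_nonneg (mul_nonneg hs.1.le (mul_nonneg (norm_nonneg _) (norm_nonneg _)))
          (sub_nonneg.2 ?_)
        exact Finset.prod_le_prod (fun _ _ => norm_nonneg _) fun k _ =>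
          norm_seg_le (v k) hs.1.le hs.2.le
      linarith only [h1, h2]

/-- **The phase lemma for frames, with the late part.**  The pointwise loss is only needed on
`[0, s1]` (`s1² + s1 > 1`); the rest costs `2 s1/(s1² + s1 - 1) (1 + τ) c₀ ∏_S T(s1)`. -/
theorem frame_phase2 {a : ℝ} {ζ z : Fin (M + 1) → ℂ} (h : Fr (M + 1) a ζ z) (hM : 0 < M)
    (hmax : ∀ k, ‖Fr.u a ζ k‖ ≤ ‖Fr.u a ζ 0‖) {c0 τ s1 : ℝ} (hc1 : 1 ≤ c0)
    (hroot : (c0 - 1) * (c0 - Fr.kap a ζ) = Fr.pr a ζ)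
    (hτ0 : 0 ≤ τ) (hτ : ∀ k, ‖Fr.vt a ζ k‖ ≤ 1 + τ) (hs0 : 0 < s1) (hs1 : s1 < 1)
    (hw : 0 < s1 ^ 2 + s1 - 1) (ℓ : ℝ → ℝ)
    (hℓi : IntervalIntegrable (fun s => (TT c0 s * ∏ k, TT ‖Fr.vt a ζ k‖ s) * ℓ s)
      MeasureTheory.volume 0 s1)
    (hℓ : ∀ s ∈ Set.Ioc (0:ℝ) s1,
      (∃ B, 0 < B ∧ Fr.kap a ζ * (1 + s * τ) / (TT (Fr.kap a ζ) s * (1 - s)) ≤ B ∧
        (max (2 * B - s * Fr.pr a ζ / TT c0 s) 0) ^ 2 ≤ 4 * B * ℓ s) ∨
      2 * (Fr.kap a ζ / TT (Fr.kap a ζ) s) *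
        ∑ k, s * (‖Fr.vt a ζ k‖ - (Fr.vt a ζ k).re) / TT ‖Fr.vt a ζ k‖ s ≤ ℓ s) :
    ((M + 1) * (1 - Fr.kap a ζ) - (c0 - 1)) *
        (∫ s in (0:ℝ)..1, TT c0 s * ∏ k, TT ‖Fr.vt a ζ k‖ s) -
      (∫ s in (0:ℝ)..s1, (TT c0 s * ∏ k, TT ‖Fr.vt a ζ k‖ s) * ℓ s) -
      2 * s1 / (s1 ^ 2 + s1 - 1) * ((1 + τ) * c0) * ∏ k, TT ‖Fr.vt a ζ k‖ s1 ≤
      a * ∏ k, ‖Fr.u a ζ k‖ := by
  have hM0 : (0 : ℝ) < M := by exact_mod_cast hM
  have hMc : (M : ℂ) ≠ 0 := by exact_mod_cast hM.ne'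
  have ha := h.a0
  have hκ0 : 0 ≤ Fr.kap a ζ := kap_nonneg
  have hκ1 := kap_le_one h hM hmax
  have hκ : (M : ℝ) * Fr.kap a ζ = ∑ k, ‖Fr.vt a ζ k‖ := by
    unfold Fr.kap
    field_simp
  have hpr : (c0 - 1) * (c0 - Fr.kap a ζ) = ‖(1 : ℂ) - (1 - (a : ℂ) * Fr.u a ζ 0)‖ *
      ‖(1 - (a : ℂ) * Fr.u a ζ 0) - (∑ k, Fr.vt a ζ k) / M‖ := by
    rw [hroot]
    have f0 : (∑ k, Fr.vt a ζ k) / (M : ℂ) = 1 - (a : ℂ) * ((∑ k, Fr.ut a ζ k) / M) := by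
      unfold Fr.vt
      rw [Finset.sum_sub_distrib, ← Finset.mul_sum]
      simp only [Finset.sum_const, Finset.card_univ, Fintype.card_fin, nsmul_eq_mul, mul_one]
      field_simp
    have f1 : (1 : ℂ) - (1 - (a : ℂ) * Fr.u a ζ 0) = a * Fr.u a ζ 0 := by ring
    have f2 : (1 - (a : ℂ) * Fr.u a ζ 0) - (1 - (a : ℂ) * ((∑ k, Fr.ut a ζ k) / M)) =
        -(a * (Fr.u a ζ 0 - (∑ k, Fr.ut a ζ k) / M)) := by ring
    rw [f0, f1, f2, norm_neg, norm_mul, norm_mul, Complex.norm_real, Real.norm_of_nonneg ha.le]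
    unfold Fr.pr
    ring
  have key := phase_lemma2 hM (1 - (a : ℂ) * Fr.u a ζ 0) (Fr.vt a ζ) hκ hκ1 hc1 hpr hτ0 hτ hs0 hs1
    hw ℓ hℓi ?_
  · have h1 := critXXS h hM hmax
    have h2 : XXS (1 - (a : ℂ) * Fr.u a ζ 0) (fun k => 1 - (a : ℂ) * Fr.ut a ζ k) =
        XXS (1 - (a : ℂ) * Fr.u a ζ 0) (Fr.vt a ζ) := rfl
    rw [h2] at h1
    unfold TT
    linarith only [key, h1]
  · intro s hs
    rcases hℓ s hs with ⟨B, hB0, hB, hq⟩ | h1
    · left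
      intro R hR
      unfold TT at hB hq
      rw [hroot]
      have h2 : (1 - R) * (Fr.kap a ζ * (1 + s * τ) / ((1 - s + s * Fr.kap a ζ) * (1 - s)) *
          (1 + R) - s * Fr.pr a ζ / (1 - s + s * c0)) ≤
          (1 - R) * (B * (1 + R) - s * Fr.pr a ζ / (1 - s + s * c0)) := by
        refine mul_le_mul_of_nonneg_left ?_ (by linarith only [hR.2])
        have := mul_le_mul_of_nonneg_right hB (by linarith [hR.1] : 0 ≤ 1 + R)
        linarith only [this]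
      refine h2.trans ((quad_le hB0 hR.2).trans ?_)
      rw [div_le_iff₀ (by positivity)]
      linarith only [hq]
    · right; exact h1

end Pool.Agent.Lib.MP_172a45_an.F.H69
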