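import Pool.Agent.Lib.MP_172a45_an.F.Pprime

set_option autoImplicit false

/-!
# The phase lemma for the hybrid functional `XX_S`

`1 - XX_S ≥ ∫ q (Γ_S - ℓ)` with a pointwise phase loss `ℓ` that does not contain the phases.
-/

namespace Pool.Agent.Lib.MP_172a45_an.F.H69

open Finset Filter Topology

/-! ### LEMMA sigma -/

theorem sigma_le {ι : Type} [DecidableEq ι] (s : Finset ι) (r : ι → ℝ)
    (h0 : ∀ k ∈ s, 0 ≤ r k) (h1 : ∀ k ∈ s, r k ≤ 1) :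
    ∑ k ∈ s, (1 - r k ^ 2) * ∏ l ∈ s.erase k, r l ≤ 1 - (∏ k ∈ s, r k) ^ 2 := by
  induction s using Finset.induction_on with
  | empty => simp
  | insert i s hi ih =>
    rw [Finset.sum_insert hi, Finset.prod_insert hi, Finset.erase_insert hi]
    have e : ∀ k ∈ s, (1 - r k ^ 2) * ∏ l ∈ (insert i s).erase k, r l =
        r i * ((1 - r k ^ 2) * ∏ l ∈ s.erase k, r l) := by
      intro k hk
      have hne : i ≠ k := by rintro rfl; exact hi hk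
      rw [Finset.erase_insert_of_ne hne, Finset.prod_insert (by
        intro h; exact hi (Finset.mem_of_mem_erase h))]
      ring
    rw [Finset.sum_congr rfl e, ← Finset.mul_sum]
    have ih' := ih (fun k hk => h0 k (Finset.mem_insert_of_mem hk))
      (fun k hk => h1 k (Finset.mem_insert_of_mem hk))
    have hP0 : 0 ≤ ∏ k ∈ s, r k :=
      Finset.prod_nonneg fun k hk => h0 k (Finset.mem_insert_of_mem hk)
    have hP1 : ∏ k ∈ s, r k ≤ 1 :=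
      Finset.prod_le_one (fun k hk => h0 k (Finset.mem_insert_of_mem hk))
        (fun k hk => h1 k (Finset.mem_insert_of_mem hk))
    have hr0 := h0 i (Finset.mem_insert_self i s)
    have hr1 := h1 i (Finset.mem_insert_self i s)
    generalize (∏ k ∈ s, r k) = P at *
    generalize (∑ k ∈ s, (1 - r k ^ 2) * ∏ l ∈ s.erase k, r l) = F at *
    have h2 : r i * F ≤ r i * (1 - P ^ 2) := mul_le_mul_of_nonneg_left ih' hr0
    have h3 : 0 ≤ (1 - r i) * (1 - P) * (1 - r i * P) :=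
      mul_nonneg (mul_nonneg (by linarith) (by linarith)) (by nlinarith only [hr1, hr0, hP1])
    nlinarith only [h2, h3]

/-! ### The pair sum with weights -/

theorem norm_sub_sq_eq (v w : ℂ) :
    ‖v - w‖ ^ 2 = ‖v‖ ^ 2 + ‖w‖ ^ 2 - 2 * (v.re * w.re + v.im * w.im) := by
  simp only [← Complex.normSq_eq_norm_sq, Complex.normSq_apply, Complex.sub_re, Complex.sub_im]
  ring

theorem pair_pos {M : ℕ} (v : Fin M → ℂ) (d : Fin M → ℝ) (hd : ∀ k, 0 < d k) :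
    ∑ k, ∑ j, ‖v k - v j‖ ^ 2 * ∏ l ∈ (univ.erase k).erase j, d l ≤
      ∑ k, ∑ j, (‖v k‖ - ‖v j‖) ^ 2 * ∏ l ∈ (univ.erase k).erase j, d l +
      2 * (∑ k, (‖v k‖ - (v k).re) * ∏ l ∈ univ.erase k, d l) *
        ∑ j, (‖v j‖ + (v j).re) / d j := by
  set D := ∏ l, d l with hD
  have hD0 : 0 < D := Finset.prod_pos fun k _ => hd k
  have e1 : ∀ k, ∏ l ∈ univ.erase k, d l = D * (d k)⁻¹ := by
    intro k
    rw [hD, ← Finset.mul_prod_erase univ d (Finset.mem_univ k)]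
    have := (hd k).ne'
    field_simp
  have e2 : ∀ k j, k ≠ j → ∏ l ∈ (univ.erase k).erase j, d l = D * ((d k)⁻¹ * (d j)⁻¹) := by
    intro k j hkj
    have h1 : j ∈ univ.erase k := Finset.mem_erase.2 ⟨hkj.symm, Finset.mem_univ _⟩
    have h2 := Finset.mul_prod_erase (univ.erase k) d h1
    rw [e1] at h2
    have := (hd k).ne'
    have := (hd j).ne'
    field_simp
    field_simp at h2
    linarith
  have e3 : ∀ k j, ‖v k - v j‖ ^ 2 * ∏ l ∈ (univ.erase k).erase j, d l =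
      D * (((d k)⁻¹ * (d j)⁻¹) * (‖v k‖ ^ 2 + ‖v j‖ ^ 2 -
        2 * ((v k).re * (v j).re + (v k).im * (v j).im))) := by
    intro k j
    rw [← norm_sub_sq_eq]
    rcases eq_or_ne k j with rfl | h
    · simp
    · rw [e2 k j h]; ring
  have e4 : ∀ k j, (‖v k‖ - ‖v j‖) ^ 2 * ∏ l ∈ (univ.erase k).erase j, d l =
      D * (((d k)⁻¹ * (d j)⁻¹) * (‖v k‖ ^ 2 + ‖v j‖ ^ 2 - 2 * (‖v k‖ * ‖v j‖))) := by
    intro k j
    rcases eq_or_ne k j with rfl | h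
    · have : ‖v k‖ ^ 2 + ‖v k‖ ^ 2 - 2 * (‖v k‖ * ‖v k‖) = 0 := by ring
      rw [this]; simp
    · rw [e2 k j h]; ring
  simp only [e1, e3, e4]
  set W := ∑ k, (d k)⁻¹ with hW
  set S2 := ∑ k, (d k)⁻¹ * ‖v k‖ ^ 2 with hS2
  set X := ∑ k, (d k)⁻¹ * (v k).re with hX
  set Y := ∑ k, (d k)⁻¹ * (v k).im with hY
  set C := ∑ k, (d k)⁻¹ * ‖v k‖ with hC
  have f1 : ∑ k, ∑ j, D * (((d k)⁻¹ * (d j)⁻¹) * (‖v k‖ ^ 2 + ‖v j‖ ^ 2 -
        2 * ((v k).re * (v j).re + (v k).im * (v j).im))) =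
      D * (2 * W * S2 - 2 * (X ^ 2 + Y ^ 2)) := by
    have : ∀ k j, D * (((d k)⁻¹ * (d j)⁻¹) * (‖v k‖ ^ 2 + ‖v j‖ ^ 2 -
        2 * ((v k).re * (v j).re + (v k).im * (v j).im))) =
        D * ((d k)⁻¹ * ‖v k‖ ^ 2) * (d j)⁻¹ + D * (d k)⁻¹ * ((d j)⁻¹ * ‖v j‖ ^ 2) -
        2 * D * ((d k)⁻¹ * (v k).re) * ((d j)⁻¹ * (v j).re) -
        2 * D * ((d k)⁻¹ * (v k).im) * ((d j)⁻¹ * (v j).im) := fun k j => by ring
    simp only [this, Finset.sum_sub_distrib, Finset.sum_add_distrib, ← Finset.mul_sum,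
      ← Finset.sum_mul]
    rw [← hW, ← hS2, ← hX, ← hY]
    ring
  have f2 : ∑ k, ∑ j, D * (((d k)⁻¹ * (d j)⁻¹) * (‖v k‖ ^ 2 + ‖v j‖ ^ 2 -
        2 * (‖v k‖ * ‖v j‖))) =
      D * (2 * W * S2 - 2 * C ^ 2) := by
    have : ∀ k j, D * (((d k)⁻¹ * (d j)⁻¹) * (‖v k‖ ^ 2 + ‖v j‖ ^ 2 -
        2 * (‖v k‖ * ‖v j‖))) =
        D * ((d k)⁻¹ * ‖v k‖ ^ 2) * (d j)⁻¹ + D * (d k)⁻¹ * ((d j)⁻¹ * ‖v j‖ ^ 2) -
        2 * D * ((d k)⁻¹ * ‖v k‖) * ((d j)⁻¹ * ‖v j‖) := fun k j => by ring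
    simp only [this, Finset.sum_sub_distrib, Finset.sum_add_distrib, ← Finset.mul_sum,
      ← Finset.sum_mul]
    rw [← hW, ← hS2, ← hC]
    ring
  have f3 : ∑ k, (‖v k‖ - (v k).re) * (D * (d k)⁻¹) = D * (C - X) := by
    have : ∀ k, (‖v k‖ - (v k).re) * (D * (d k)⁻¹) =
        D * ((d k)⁻¹ * ‖v k‖) - D * ((d k)⁻¹ * (v k).re) := fun k => by ring
    simp only [this, Finset.sum_sub_distrib, ← Finset.mul_sum]
    rw [← hX, ← hC]
    ring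
  have f4 : ∑ j, (‖v j‖ + (v j).re) / d j = C + X := by
    rw [hC, hX, ← Finset.sum_add_distrib]
    exact Finset.sum_congr rfl fun j _ => by rw [div_eq_mul_inv]; ring
  rw [f1, f2, f3, f4]
  have : 0 ≤ D * (2 * Y ^ 2) := by positivity
  nlinarith only [this]

/-- `(c + x) T ≤ 2 c d` -/
theorem cx_le {c x s d : ℝ} (hs0 : 0 ≤ s) (hs1 : s ≤ 1) (hx : |x| ≤ c) (hd0 : 0 ≤ d)
    (hd : d ^ 2 = (1 - s + s * c) ^ 2 - 2 * s * (1 - s) * (c - x)) :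
    (c + x) * (1 - s + s * c) ≤ 2 * c * d := by
  have hc : 0 ≤ c := (abs_nonneg x).trans hx
  obtain ⟨h1, h2⟩ := abs_le.1 hx
  apply le_of_sq_le_sq _ (by positivity)
  have h3 : 0 ≤ s * (1 - s) := mul_nonneg hs0 (by linarith)
  have h4 : 4 * (s * (1 - s)) * c ≤ (1 - s + s * c) ^ 2 := by nlinarith only [sq_nonneg (1 - s - s * c)]
  have h5 : 8 * c ^ 2 * (s * (1 - s)) ≤ (3 * c + x) * (1 - s + s * c) ^ 2 := by
    have h6 : (3 * c + x) * (4 * (s * (1 - s)) * c) ≤ (3 * c + x) * (1 - s + s * c) ^ 2 :=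
      mul_le_mul_of_nonneg_left h4 (by linarith)
    have h7 : 0 ≤ (s * (1 - s)) * c * (c + x) := mul_nonneg (mul_nonneg h3 hc) (by linarith)
    nlinarith only [h6, h7]
  have h8 : 0 ≤ (c - x) * ((3 * c + x) * (1 - s + s * c) ^ 2 - 8 * c ^ 2 * (s * (1 - s))) :=
    mul_nonneg (by linarith) (by linarith)
  have h9 : (2 * c * d) ^ 2 = 4 * c ^ 2 * d ^ 2 := by ring
  rw [h9, hd]
  nlinarith only [h8]

/-- tangent line of the concave function `c/(1 - s + s c)` -/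
theorem jensen_aux {c κ s : ℝ} (hs0 : 0 ≤ s) (hs1 : s < 1) (hc : 0 ≤ c) (hκ : 0 ≤ κ) :
    c / (1 - s + s * c) ≤ κ / (1 - s + s * κ) + (1 - s) / (1 - s + s * κ) ^ 2 * (c - κ) := by
  have h1 : 0 < 1 - s + s * c := by nlinarith only [hs1, hs0, hc, mul_nonneg hs0 hc]
  have h2 : 0 < 1 - s + s * κ := by nlinarith only [hs1, hs0, hκ, mul_nonneg hs0 hκ]
  have h3 : κ / (1 - s + s * κ) + (1 - s) / (1 - s + s * κ) ^ 2 * (c - κ) - c / (1 - s + s * c) =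
      s * (1 - s) * (c - κ) ^ 2 / ((1 - s + s * κ) ^ 2 * (1 - s + s * c)) := by
    obtain ⟨A, hA⟩ : ∃ A, A = 1 - s + s * κ := ⟨_, rfl⟩
    obtain ⟨B, hB⟩ : ∃ B, B = 1 - s + s * c := ⟨_, rfl⟩
    rw [← hA, ← hB]
    have hA0 : A ≠ 0 := by rw [hA]; exact h2.ne'
    have hB0 : B ≠ 0 := by rw [hB]; exact h1.ne'
    field_simp
    rw [hA, hB]
    ring
  have h4 : 0 ≤ s * (1 - s) * (c - κ) ^ 2 / ((1 - s + s * κ) ^ 2 * (1 - s + s * c)) := by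
    have : 0 ≤ 1 - s := by linarith
    positivity
  linarith only [h3, h4]

theorem jensen {M : ℕ} {c : Fin M → ℝ} {κ s : ℝ} (hs0 : 0 ≤ s) (hs1 : s < 1)
    (hc : ∀ k, 0 ≤ c k) (hκ0 : 0 ≤ κ) (hκ : (M : ℝ) * κ = ∑ k, c k) :
    ∑ k, c k / (1 - s + s * c k) ≤ M * (κ / (1 - s + s * κ)) := by
  have h1 : ∑ k, c k / (1 - s + s * c k) ≤
      ∑ k, (κ / (1 - s + s * κ) + (1 - s) / (1 - s + s * κ) ^ 2 * (c k - κ)) :=
    Finset.sum_le_sum fun k _ => jensen_aux hs0 hs1 (hc k) hκ0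
  refine h1.trans (le_of_eq ?_)
  rw [Finset.sum_add_distrib, ← Finset.mul_sum, Finset.sum_sub_distrib, ← hκ]
  simp

/-- the pair sum for `d k = ‖1 - s + s v k‖` -/
theorem pair_le {M : ℕ} (v : Fin M → ℂ) {κ s : ℝ} (hs0 : 0 ≤ s) (hs1 : s < 1)
    (hκ0 : 0 ≤ κ) (hκ : (M : ℝ) * κ = ∑ k, ‖v k‖) :
    ∑ k, ∑ j, ‖v k - v j‖ ^ 2 * ∏ l ∈ (univ.erase k).erase j, ‖1 - s + s * v l‖ ≤
      ∑ k, ∑ j, (‖v k‖ - ‖v j‖) ^ 2 * ∏ l ∈ (univ.erase k).erase j, ‖1 - s + s * v l‖ +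
      4 * M * (κ / (1 - s + s * κ)) *
        ∑ k, (‖v k‖ - (v k).re) * ∏ l ∈ univ.erase k, ‖1 - s + s * v l‖ := by
  set g : ℝ → ℝ := fun ε =>
    ∑ k, ∑ j, (‖v k‖ - ‖v j‖) ^ 2 * ∏ l ∈ (univ.erase k).erase j, (‖1 - s + s * v l‖ + ε) +
      4 * M * (κ / (1 - s + s * κ)) *
        ∑ k, (‖v k‖ - (v k).re) * ∏ l ∈ univ.erase k, (‖1 - s + s * v l‖ + ε) -
    ∑ k, ∑ j, ‖v k - v j‖ ^ 2 * ∏ l ∈ (univ.erase k).erase j, (‖1 - s + s * v l‖ + ε) with hg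
  have hcont : Continuous g := by
    rw [hg]
    fun_prop
  have hpos : ∀ ε ∈ Set.Ioi (0:ℝ), 0 ≤ g ε := by
    intro ε hε
    have hε' : (0:ℝ) < ε := hε
    have h1 := pair_pos v (fun l => ‖1 - s + s * v l‖ + ε) fun l =>
      add_pos_of_nonneg_of_pos (norm_nonneg _) hε'
    have h2 : ∑ j, (‖v j‖ + (v j).re) / (‖1 - s + s * v j‖ + ε) ≤
        2 * (M * (κ / (1 - s + s * κ))) := by
      refine le_trans ?_ (mul_le_mul_of_nonneg_left (jensen hs0 hs1 (fun k => norm_nonneg (v k))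
        hκ0 hκ) (by norm_num : (0:ℝ) ≤ 2))
      rw [Finset.mul_sum]
      refine Finset.sum_le_sum fun j _ => ?_
      have h3 : 0 < 1 - s + s * ‖v j‖ := by nlinarith only [hs1, hs0, mul_nonneg hs0 (norm_nonneg (v j))]
      rw [div_le_iff₀ (add_pos_of_nonneg_of_pos (norm_nonneg _) hε')]
      have h4 := cx_le hs0 hs1.le (Complex.abs_re_le_norm (v j)) (norm_nonneg (1 - s + s * v j))
        (norm_seg_sq (v j) s)
      have h5 : ‖v j‖ + (v j).re ≤ 2 * ‖v j‖ * ‖1 - s + s * v j‖ / (1 - s + s * ‖v j‖) := by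
        rw [le_div_iff₀ h3]; exact h4
      refine h5.trans ?_
      have h6 : 2 * ‖v j‖ * ‖1 - s + s * v j‖ / (1 - s + s * ‖v j‖) =
          2 * (‖v j‖ / (1 - s + s * ‖v j‖)) * ‖1 - s + s * v j‖ := by ring
      rw [h6]
      refine mul_le_mul_of_nonneg_left (by linarith only [hε']) (by positivity)
    have h3 : 0 ≤ ∑ k, (‖v k‖ - (v k).re) * ∏ l ∈ univ.erase k, (‖1 - s + s * v l‖ + ε) := by
      refine Finset.sum_nonneg fun k _ => mul_nonneg ?_ (Finset.prod_nonneg fun l _ => ?_)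
      · linarith only [Complex.re_le_norm (v k)]
      · linarith only [hε', norm_nonneg (1 - s + s * v l)]
    have h4 := mul_le_mul_of_nonneg_left h2
      (mul_nonneg (by norm_num : (0:ℝ) ≤ 2) h3)
    rw [hg]
    simp only
    nlinarith only [h1, h4]
  have h0 : 0 ≤ g 0 := by
    have ht : Tendsto g (𝓝[>] 0) (𝓝 (g 0)) := hcont.continuousAt.continuousWithinAt
    exact ge_of_tendsto ht (eventually_nhdsWithin_of_forall hpos)
  rw [hg] at h0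
  simp only [add_zero] at h0
  linarith only [h0]

/-! ### The hybrid functional -/

/-- the hybrid functional of `v0, v` (`v = 1 - a u`) -/
noncomputable def XXS {M : ℕ} (v0 : ℂ) (v : Fin M → ℂ) : ℝ :=
  ‖(∑ k, v k) / M‖ * (‖v0‖ * ∏ k, ‖v k‖) +
    ∫ s in (0:ℝ)..1, s * (‖1 - v0‖ * ‖v0 - (∑ k, v k) / M‖ * ∏ k, ‖1 - s + s * v k‖ +
      ‖1 - s + s * v0‖ / (2 * M) * ∑ k, ∑ j, ‖v k - v j‖ ^ 2 *
        ∏ l ∈ (univ.erase k).erase j, ‖1 - s + s * v l‖)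

theorem norm_seg_le (v : ℂ) {s : ℝ} (hs0 : 0 ≤ s) (hs1 : s ≤ 1) :
    ‖1 - s + s * v‖ ≤ 1 - s + s * ‖v‖ := by
  refine (norm_add_le _ _).trans ?_
  have e : (1 : ℂ) - s = ((1 - s : ℝ) : ℂ) := by push_cast; ring
  rw [e, norm_mul, Complex.norm_real, Complex.norm_real, Real.norm_of_nonneg (by linarith),
    Real.norm_of_nonneg hs0]

/-- the reflected index dominates -/
theorem norm_v0_le {v0 m : ℂ} {κ c0 : ℝ} (hκ1 : κ ≤ 1) (hc0 : 1 ≤ c0) (hm : ‖m‖ ≤ κ)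
    (hpr : (c0 - 1) * (c0 - κ) = ‖1 - v0‖ * ‖v0 - m‖) : ‖v0‖ ≤ c0 := by
  by_contra hcon
  push Not at hcon
  have h1 : ‖v0‖ - 1 ≤ ‖1 - v0‖ := by
    have := norm_sub_norm_le v0 1
    rw [norm_one, norm_sub_rev] at this
    exact this
  have h2 : ‖v0‖ - κ ≤ ‖v0 - m‖ := by
    have := norm_sub_norm_le v0 m
    linarith
  have h3 : (‖v0‖ - 1) * (‖v0‖ - κ) ≤ ‖1 - v0‖ * ‖v0 - m‖ :=
    mul_le_mul h1 h2 (by linarith) (norm_nonneg _)
  nlinarith only [hpr, h3, hκ1, hcon, hc0]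

variable {M : ℕ}

/-- general form: any integrable majorant `L` of the pointwise phase loss -/
theorem pl_gen (hM : 0 < M) (v0 : ℂ) (v : Fin M → ℂ) {κ c0 : ℝ}
    (hκ : (M : ℝ) * κ = ∑ k, ‖v k‖) (hκ1 : κ ≤ 1) (hc0 : 1 ≤ c0)
    (hpr : (c0 - 1) * (c0 - κ) = ‖1 - v0‖ * ‖v0 - (∑ k, v k) / M‖)
    (L : ℝ → ℝ) (hLi : IntervalIntegrable L MeasureTheory.volume 0 1)
    (hL : ∀ s ∈ Set.Ioo (0:ℝ) 1,
      2 * s * (κ / (1 - s + s * κ)) * ‖1 - s + s * v0‖ *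
        (∑ k, (‖v k‖ - (v k).re) * ∏ l ∈ univ.erase k, ‖1 - s + s * v l‖) -
      s * (‖1 - v0‖ * ‖v0 - (∑ k, v k) / M‖) *
        ((∏ k, (1 - s + s * ‖v k‖)) - ∏ k, ‖1 - s + s * v k‖) ≤ L s) :
    ((M + 1) * (1 - κ) - (c0 - 1)) *
        (∫ s in (0:ℝ)..1, (1 - s + s * c0) * ∏ k, (1 - s + s * ‖v k‖)) -
      ∫ s in (0:ℝ)..1, L s ≤ 1 - XXS v0 v := by
  have hM0 : (0 : ℝ) < M := by exact_mod_cast hM
  have hκ0 : 0 ≤ κ := by
    have : 0 ≤ (M : ℝ) * κ := by rw [hκ]; exact Finset.sum_nonneg fun k _ => norm_nonneg _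
    exact nonneg_of_mul_nonneg_right this hM0
  have hmn : ‖(∑ k, v k) / M‖ ≤ κ := by
    rw [norm_div, Complex.norm_natCast, div_le_iff₀ hM0]
    refine (norm_sum_le _ _).trans (le_of_eq ?_)
    rw [← hκ]; ring
  have hv0 := norm_v0_le hκ1 hc0 hmn hpr
  have hreal := XXS_real hM c0 (fun k => ‖v k‖) κ hκ
  set pr := ‖1 - v0‖ * ‖v0 - (∑ k, v k) / M‖ with hprd
  have hpr0 : 0 ≤ pr := mul_nonneg (norm_nonneg _) (norm_nonneg _)
  rw [hpr] at hreal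
  set G : ℝ → ℝ := fun s => s * (pr * ∏ k, (1 - s + s * ‖v k‖) +
        (1 - s + s * c0) / (2 * M) * ∑ k, ∑ j, (‖v k‖ - ‖v j‖) ^ 2 *
          ∏ l ∈ (univ.erase k).erase j, (1 - s + s * ‖v l‖)) with hG
  set H : ℝ → ℝ := fun s => s * (pr * ∏ k, ‖1 - s + s * v k‖ +
      ‖1 - s + s * v0‖ / (2 * M) * ∑ k, ∑ j, ‖v k - v j‖ ^ 2 *
        ∏ l ∈ (univ.erase k).erase j, ‖1 - s + s * v l‖) with hH
  have hGc : Continuous G := by rw [hG]; fun_prop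
  have hHc : Continuous H := by rw [hH]; fun_prop
  have hint : ∫ s in (0:ℝ)..1, H s ≤ (∫ s in (0:ℝ)..1, G s) + ∫ s in (0:ℝ)..1, L s := by
    rw [← intervalIntegral.integral_add (hGc.intervalIntegrable _ _) hLi]
    refine intervalIntegral.integral_mono_on_of_le_Ioo zero_le_one (hHc.intervalIntegrable _ _)
      ((hGc.intervalIntegrable _ _).add hLi) ?_
    intro s hs
    have hs0 : 0 ≤ s := hs.1.le
    have hs1 : s < 1 := hs.2
    have h1 := hL s hs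
    have h2 := pair_le v hs0 hs1 hκ0 hκ
    have hd0 : ‖1 - s + s * v0‖ ≤ 1 - s + s * c0 := by
      refine (norm_seg_le v0 hs0 hs1.le).trans ?_
      nlinarith only [hv0, hs0]
    have hTk : ∀ k, ‖1 - s + s * v k‖ ≤ 1 - s + s * ‖v k‖ := fun k => norm_seg_le (v k) hs0 hs1.le
    have h3 : ∑ k, ∑ j, (‖v k‖ - ‖v j‖) ^ 2 * ∏ l ∈ (univ.erase k).erase j, ‖1 - s + s * v l‖ ≤
        ∑ k, ∑ j, (‖v k‖ - ‖v j‖) ^ 2 *
          ∏ l ∈ (univ.erase k).erase j, (1 - s + s * ‖v l‖) := by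
      refine Finset.sum_le_sum fun k _ => Finset.sum_le_sum fun j _ => ?_
      refine mul_le_mul_of_nonneg_left ?_ (sq_nonneg _)
      exact Finset.prod_le_prod (fun _ _ => norm_nonneg _) fun l _ => hTk l
    have hS0 : 0 ≤ ∑ k, ∑ j, (‖v k‖ - ‖v j‖) ^ 2 *
        ∏ l ∈ (univ.erase k).erase j, ‖1 - s + s * v l‖ :=
      Finset.sum_nonneg fun k _ => Finset.sum_nonneg fun j _ =>
        mul_nonneg (sq_nonneg _) (Finset.prod_nonneg fun _ _ => norm_nonneg _)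
    have h4 : ‖1 - s + s * v0‖ / (2 * M) * ∑ k, ∑ j, ‖v k - v j‖ ^ 2 *
        ∏ l ∈ (univ.erase k).erase j, ‖1 - s + s * v l‖ ≤
        (1 - s + s * c0) / (2 * M) * ∑ k, ∑ j, (‖v k‖ - ‖v j‖) ^ 2 *
          ∏ l ∈ (univ.erase k).erase j, (1 - s + s * ‖v l‖) +
        2 * (κ / (1 - s + s * κ)) * ‖1 - s + s * v0‖ *
          (∑ k, (‖v k‖ - (v k).re) * ∏ l ∈ univ.erase k, ‖1 - s + s * v l‖) := by
      have h5 := mul_le_mul_of_nonneg_left h2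
        (div_nonneg (norm_nonneg (1 - s + s * v0)) (by positivity : (0:ℝ) ≤ 2 * M))
      have h6 : ‖1 - s + s * v0‖ / (2 * M) * ∑ k, ∑ j, (‖v k‖ - ‖v j‖) ^ 2 *
          ∏ l ∈ (univ.erase k).erase j, ‖1 - s + s * v l‖ ≤
          (1 - s + s * c0) / (2 * M) * ∑ k, ∑ j, (‖v k‖ - ‖v j‖) ^ 2 *
          ∏ l ∈ (univ.erase k).erase j, (1 - s + s * ‖v l‖) := by
        refine mul_le_mul ?_ h3 hS0 ?_
        · exact div_le_div_of_nonneg_right hd0 (by positivity)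
        · exact div_nonneg (by nlinarith only [hc0, hs0]) (by positivity)
      have h7 : ‖1 - s + s * v0‖ / (2 * M) * (4 * M * (κ / (1 - s + s * κ)) *
          ∑ k, (‖v k‖ - (v k).re) * ∏ l ∈ univ.erase k, ‖1 - s + s * v l‖) =
          2 * (κ / (1 - s + s * κ)) * ‖1 - s + s * v0‖ *
          (∑ k, (‖v k‖ - (v k).re) * ∏ l ∈ univ.erase k, ‖1 - s + s * v l‖) := by
        field_simp
        ring
      rw [mul_add, h7] at h5
      linarith only [h5, h6]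
    rw [hG, hH]
    simp only
    have h8 := mul_le_mul_of_nonneg_left h4 hs0
    nlinarith only [h1, h8]
  have hfirst : ‖(∑ k, v k) / M‖ * (‖v0‖ * ∏ k, ‖v k‖) ≤ κ * (c0 * ∏ k, ‖v k‖) := by
    have hp : 0 ≤ ∏ k, ‖v k‖ := Finset.prod_nonneg fun _ _ => norm_nonneg _
    refine mul_le_mul hmn (mul_le_mul_of_nonneg_right hv0 hp) (by positivity) hκ0
  unfold XXS
  rw [← hprd]
  change _ ≤ 1 - (_ + ∫ s in (0:ℝ)..1, H s)
  linarith only [hreal, hint, hfirst]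

/-- pointwise phase loss, first form -/
theorem loss_le (v0 : ℂ) (v : Fin M → ℂ) {κ c0 s τ pr : ℝ} (hs : s ∈ Set.Ioo (0:ℝ) 1)
    (hκ0 : 0 ≤ κ) (hv0 : ‖v0‖ ≤ c0) (hτ : ∀ k, ‖v k‖ ≤ 1 + τ) (hc0 : 1 ≤ c0) :
    2 * s * (κ / (1 - s + s * κ)) * ‖1 - s + s * v0‖ *
        (∑ k, (‖v k‖ - (v k).re) * ∏ l ∈ univ.erase k, ‖1 - s + s * v l‖) -
      s * pr * ((∏ k, (1 - s + s * ‖v k‖)) - ∏ k, ‖1 - s + s * v k‖) ≤
    ((1 - s + s * c0) * ∏ k, (1 - s + s * ‖v k‖)) *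
      ((1 - (∏ k, ‖1 - s + s * v k‖) / ∏ k, (1 - s + s * ‖v k‖)) *
        (κ * (1 + s * τ) / ((1 - s + s * κ) * (1 - s)) *
          (1 + (∏ k, ‖1 - s + s * v k‖) / ∏ k, (1 - s + s * ‖v k‖)) -
          s * pr / (1 - s + s * c0))) := by
  obtain ⟨hs0, hs1⟩ := hs
  have hT : ∀ k, 0 < 1 - s + s * ‖v k‖ := fun k => by
    nlinarith only [hs1, hs0, mul_nonneg hs0.le (norm_nonneg (v k))]
  have hP : 0 < ∏ k, (1 - s + s * ‖v k‖) := Finset.prod_pos fun k _ => hT k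
  set P := ∏ k, (1 - s + s * ‖v k‖) with hPd
  set r : Fin M → ℝ := fun k => ‖1 - s + s * v k‖ / (1 - s + s * ‖v k‖) with hr
  have hr0 : ∀ k, 0 ≤ r k := fun k => div_nonneg (norm_nonneg _) (hT k).le
  have hr1 : ∀ k, r k ≤ 1 := fun k => by
    rw [hr]; simp only
    rw [div_le_one (hT k)]
    exact norm_seg_le (v k) hs0.le hs1.le
  have hd : ∀ k, ‖1 - s + s * v k‖ = (1 - s + s * ‖v k‖) * r k := fun k => by
    rw [hr]; simp only
    rw [mul_div_cancel₀ _ (hT k).ne']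
  have hprod : ∏ k, ‖1 - s + s * v k‖ = P * ∏ k, r k := by
    rw [hPd, ← Finset.prod_mul_distrib]
    exact Finset.prod_congr rfl fun k _ => hd k
  set R := ∏ k, r k with hRd
  have hR0 : 0 ≤ R := Finset.prod_nonneg fun k _ => hr0 k
  have hR1 : R ≤ 1 := Finset.prod_le_one (fun k _ => hr0 k) fun k _ => hr1 k
  have hRq : (∏ k, ‖1 - s + s * v k‖) / P = R := by
    rw [hprod, mul_div_cancel_left₀ _ hP.ne']
  rw [hRq, hprod]
  -- the sum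
  have hsum : 2 * s * (∑ k, (‖v k‖ - (v k).re) * ∏ l ∈ univ.erase k, ‖1 - s + s * v l‖) ≤
      P * ((1 + s * τ) / (1 - s) * (1 - R ^ 2)) := by
    have h1s : 0 < 1 - s := by linarith
    have e1 : ∀ k, 2 * s * ((‖v k‖ - (v k).re) * ∏ l ∈ univ.erase k, ‖1 - s + s * v l‖) =
        P * ((1 - s + s * ‖v k‖) / (1 - s) * ((1 - r k ^ 2) * ∏ l ∈ univ.erase k, r l)) := by
      intro k
      have h1 := norm_seg_sq (v k) s
      have h2 : 2 * s * (‖v k‖ - (v k).re) = (1 - s + s * ‖v k‖) ^ 2 * (1 - r k ^ 2) / (1 - s) := by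
        rw [eq_div_iff h1s.ne']
        have h3 : ((1 - s + s * ‖v k‖) * r k) ^ 2 = (1 - s + s * ‖v k‖) ^ 2 -
            2 * s * (1 - s) * (‖v k‖ - (v k).re) := by rw [← hd, h1]
        linear_combination h3
      have h4 : ∏ l ∈ univ.erase k, ‖1 - s + s * v l‖ =
          (∏ l ∈ univ.erase k, (1 - s + s * ‖v l‖)) * ∏ l ∈ univ.erase k, r l := by
        rw [← Finset.prod_mul_distrib]
        exact Finset.prod_congr rfl fun l _ => hd l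
      have h5 : P = (1 - s + s * ‖v k‖) * ∏ l ∈ univ.erase k, (1 - s + s * ‖v l‖) := by
        exact (Finset.mul_prod_erase univ (fun k => 1 - s + s * ‖v k‖) (Finset.mem_univ k)).symm
      rw [h4, h5, ← mul_assoc, h2]
      ring
    rw [Finset.mul_sum, Finset.sum_congr rfl fun k _ => e1 k, ← Finset.mul_sum]
    refine mul_le_mul_of_nonneg_left ?_ hP.le
    have h6 : ∑ k, (1 - s + s * ‖v k‖) / (1 - s) * ((1 - r k ^ 2) * ∏ l ∈ univ.erase k, r l) ≤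
        ∑ k, (1 + s * τ) / (1 - s) * ((1 - r k ^ 2) * ∏ l ∈ univ.erase k, r l) := by
      refine Finset.sum_le_sum fun k _ => ?_
      refine mul_le_mul_of_nonneg_right ?_ ?_
      · refine div_le_div_of_nonneg_right ?_ h1s.le
        nlinarith only [hs0, hτ k]
      · refine mul_nonneg ?_ (Finset.prod_nonneg fun l _ => hr0 l)
        nlinarith only [hs0, hs1, hr0 k, hr1 k]
    refine h6.trans ?_
    rw [← Finset.mul_sum]
    rcases Nat.eq_zero_or_pos M with hM | hM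
    · subst hM
      have : R = 1 := by rw [hRd]; simp
      rw [this]; simp
    · have hτ0 : 0 ≤ 1 + s * τ := by
        have h7 := hτ ⟨0, hM⟩
        have h8 := norm_nonneg (v ⟨0, hM⟩)
        nlinarith only [hM, hs1, hs0, h7, h8]
      exact mul_le_mul_of_nonneg_left (sigma_le univ r (fun k _ => hr0 k) fun k _ => hr1 k)
        (div_nonneg hτ0 h1s.le)
  have hT0 : 0 < 1 - s + s * c0 := by nlinarith only [hs0, hs1, hc0]
  have hd0 : ‖1 - s + s * v0‖ ≤ 1 - s + s * c0 := by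
    refine (norm_seg_le v0 hs0.le hs1.le).trans ?_
    nlinarith only [hv0, hs0]
  have hTκ : 0 < 1 - s + s * κ := by nlinarith only [hs1, hs0, hκ0, mul_nonneg hs0.le hκ0]
  have hK : 0 ≤ κ / (1 - s + s * κ) := div_nonneg hκ0 hTκ.le
  have hE0 : 0 ≤ ∑ k, (‖v k‖ - (v k).re) * ∏ l ∈ univ.erase k, ‖1 - s + s * v l‖ :=
    Finset.sum_nonneg fun k _ => mul_nonneg (by linarith only [Complex.re_le_norm (v k)])
      (Finset.prod_nonneg fun _ _ => norm_nonneg _)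
  have h9 : 2 * s * (κ / (1 - s + s * κ)) * ‖1 - s + s * v0‖ *
        (∑ k, (‖v k‖ - (v k).re) * ∏ l ∈ univ.erase k, ‖1 - s + s * v l‖) ≤
      (κ / (1 - s + s * κ)) * (1 - s + s * c0) * (P * ((1 + s * τ) / (1 - s) * (1 - R ^ 2))) := by
    calc 2 * s * (κ / (1 - s + s * κ)) * ‖1 - s + s * v0‖ *
        (∑ k, (‖v k‖ - (v k).re) * ∏ l ∈ univ.erase k, ‖1 - s + s * v l‖) =
        ((κ / (1 - s + s * κ)) * ‖1 - s + s * v0‖) *
        (2 * s * (∑ k, (‖v k‖ - (v k).re) * ∏ l ∈ univ.erase k, ‖1 - s + s * v l‖)) := by ring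
      _ ≤ ((κ / (1 - s + s * κ)) * (1 - s + s * c0)) *
          (P * ((1 + s * τ) / (1 - s) * (1 - R ^ 2))) := by
        refine mul_le_mul (mul_le_mul_of_nonneg_left hd0 hK) hsum ?_ (mul_nonneg hK hT0.le)
        exact mul_nonneg (by linarith only [hs0]) hE0
      _ = _ := by ring
  have h10 : (κ / (1 - s + s * κ)) * (1 - s + s * c0) *
        (P * ((1 + s * τ) / (1 - s) * (1 - R ^ 2))) - s * pr * (P - P * R) =
      (1 - s + s * c0) * P * ((1 - R) *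
        (κ * (1 + s * τ) / ((1 - s + s * κ) * (1 - s)) * (1 + R) -
          s * pr / (1 - s + s * c0))) := by
    have h1s : (1 : ℝ) - s ≠ 0 := by linarith only [hs1]
    obtain ⟨A, hA⟩ : ∃ A, A = 1 - s + s * κ := ⟨_, rfl⟩
    obtain ⟨B, hB⟩ : ∃ B, B = 1 - s + s * c0 := ⟨_, rfl⟩
    obtain ⟨S, hS⟩ : ∃ S, S = 1 - s := ⟨_, rfl⟩
    rw [← hA, ← hB, ← hS]
    have hA0 : A ≠ 0 := by rw [hA]; exact hTκ.ne'
    have hB0 : B ≠ 0 := by rw [hB]; exact hT0.ne'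
    have hS0 : S ≠ 0 := by rw [hS]; exact h1s
    field_simp
    ring
  linarith only [h9, h10]

/-- pointwise phase loss, second form (near `s = 1`) -/
theorem loss_le' (v0 : ℂ) (v : Fin M → ℂ) {κ c0 s pr : ℝ} (hs : s ∈ Set.Ioo (0:ℝ) 1)
    (hκ0 : 0 ≤ κ) (hv0 : ‖v0‖ ≤ c0) (hc0 : 1 ≤ c0) (hpr : 0 ≤ pr) :
    2 * s * (κ / (1 - s + s * κ)) * ‖1 - s + s * v0‖ *
        (∑ k, (‖v k‖ - (v k).re) * ∏ l ∈ univ.erase k, ‖1 - s + s * v l‖) -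
      s * pr * ((∏ k, (1 - s + s * ‖v k‖)) - ∏ k, ‖1 - s + s * v k‖) ≤
    ((1 - s + s * c0) * ∏ k, (1 - s + s * ‖v k‖)) *
      (2 * (κ / (1 - s + s * κ)) * ∑ k, s * (‖v k‖ - (v k).re) / (1 - s + s * ‖v k‖)) := by
  obtain ⟨hs0, hs1⟩ := hs
  have hT : ∀ k, 0 < 1 - s + s * ‖v k‖ := fun k => by
    nlinarith only [hs1, hs0, mul_nonneg hs0.le (norm_nonneg (v k))]
  have hle : ∀ k, ‖1 - s + s * v k‖ ≤ 1 - s + s * ‖v k‖ := fun k =>
    norm_seg_le (v k) hs0.le hs1.le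
  have h1 : 0 ≤ s * pr * ((∏ k, (1 - s + s * ‖v k‖)) - ∏ k, ‖1 - s + s * v k‖) := by
    refine mul_nonneg (mul_nonneg hs0.le hpr) (sub_nonneg.2 ?_)
    exact Finset.prod_le_prod (fun _ _ => norm_nonneg _) fun k _ => hle k
  have hTκ : 0 < 1 - s + s * κ := by nlinarith only [hs1, hs0, hκ0, mul_nonneg hs0.le hκ0]
  have hK : 0 ≤ κ / (1 - s + s * κ) := div_nonneg hκ0 hTκ.le
  have hT0 : 0 < 1 - s + s * c0 := by nlinarith only [hs0, hs1, hc0]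
  have hd0 : ‖1 - s + s * v0‖ ≤ 1 - s + s * c0 := by
    refine (norm_seg_le v0 hs0.le hs1.le).trans ?_
    nlinarith only [hv0, hs0]
  have h2 : ∑ k, (‖v k‖ - (v k).re) * ∏ l ∈ univ.erase k, ‖1 - s + s * v l‖ ≤
      (∏ k, (1 - s + s * ‖v k‖)) * ∑ k, (‖v k‖ - (v k).re) / (1 - s + s * ‖v k‖) := by
    rw [Finset.mul_sum]
    refine Finset.sum_le_sum fun k _ => ?_
    have h3 : (∏ k, (1 - s + s * ‖v k‖)) * ((‖v k‖ - (v k).re) / (1 - s + s * ‖v k‖)) =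
        (‖v k‖ - (v k).re) * ∏ l ∈ univ.erase k, (1 - s + s * ‖v l‖) := by
      rw [← Finset.mul_prod_erase univ _ (Finset.mem_univ k)]
      have := (hT k).ne'
      field_simp
    rw [h3]
    refine mul_le_mul_of_nonneg_left ?_ (by linarith [Complex.re_le_norm (v k)])
    exact Finset.prod_le_prod (fun _ _ => norm_nonneg _) fun l _ => hle l
  have hE0 : 0 ≤ ∑ k, (‖v k‖ - (v k).re) * ∏ l ∈ univ.erase k, ‖1 - s + s * v l‖ :=
    Finset.sum_nonneg fun k _ => mul_nonneg (by linarith [Complex.re_le_norm (v k)])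
      (Finset.prod_nonneg fun _ _ => norm_nonneg _)
  have h4 : 2 * s * (κ / (1 - s + s * κ)) * ‖1 - s + s * v0‖ *
        (∑ k, (‖v k‖ - (v k).re) * ∏ l ∈ univ.erase k, ‖1 - s + s * v l‖) ≤
      2 * s * (κ / (1 - s + s * κ)) * (1 - s + s * c0) *
        ((∏ k, (1 - s + s * ‖v k‖)) * ∑ k, (‖v k‖ - (v k).re) / (1 - s + s * ‖v k‖)) := by
    refine mul_le_mul (mul_le_mul_of_nonneg_left hd0 (by positivity)) h2 hE0 (by positivity)
  have h5 : ∑ k, s * (‖v k‖ - (v k).re) / (1 - s + s * ‖v k‖) =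
      s * ∑ k, (‖v k‖ - (v k).re) / (1 - s + s * ‖v k‖) := by
    rw [Finset.mul_sum]
    exact Finset.sum_congr rfl fun k _ => by ring
  rw [h5]
  calc _ ≤ 2 * s * (κ / (1 - s + s * κ)) * (1 - s + s * c0) *
        ((∏ k, (1 - s + s * ‖v k‖)) * ∑ k, (‖v k‖ - (v k).re) / (1 - s + s * ‖v k‖)) := by
        linarith only [h1, h4]
    _ = _ := by ring

/-- `(1 - R)(B(1 + R) - A) ≤ (2B - A)⁺²/(4B)` -/
theorem quad_le {A B R : ℝ} (hB : 0 < B) (hR1 : R ≤ 1) :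
    (1 - R) * (B * (1 + R) - A) ≤ (max (2 * B - A) 0) ^ 2 / (4 * B) := by
  rw [le_div_iff₀ (by positivity)]
  rcases le_total (2 * B - A) 0 with h | h
  · rw [max_eq_right h]
    have h1 : B * (1 + R) - A ≤ 0 := by nlinarith only [h, hB, hR1]
    have h2 : (1 - R) * (B * (1 + R) - A) ≤ 0 :=
      mul_nonpos_of_nonneg_of_nonpos (by linarith) h1
    nlinarith only [hB, h2]
  · rw [max_eq_left h]
    nlinarith only [sq_nonneg (2 * B - A - 2 * B * (1 - R))]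

/-- **The phase lemma**: `∫ q (Γ - ℓ) ≤ 1 - XX_S` for every `ℓ` that dominates, at each `s`, one of
the two forms of the phase loss -/
theorem phase_lemma (hM : 0 < M) (v0 : ℂ) (v : Fin M → ℂ) {κ c0 τ : ℝ}
    (hκ : (M : ℝ) * κ = ∑ k, ‖v k‖) (hκ1 : κ ≤ 1) (hc0 : 1 ≤ c0)
    (hpr : (c0 - 1) * (c0 - κ) = ‖1 - v0‖ * ‖v0 - (∑ k, v k) / M‖)
    (hτ : ∀ k, ‖v k‖ ≤ 1 + τ)
    (ℓ : ℝ → ℝ)
    (hℓi : IntervalIntegrable (fun s => ((1 - s + s * c0) * ∏ k, (1 - s + s * ‖v k‖)) * ℓ s)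
      MeasureTheory.volume 0 1)
    (hℓ : ∀ s ∈ Set.Ioo (0:ℝ) 1,
      (∀ R ∈ Set.Icc (0:ℝ) 1, (1 - R) * (κ * (1 + s * τ) / ((1 - s + s * κ) * (1 - s)) * (1 + R) -
        s * ((c0 - 1) * (c0 - κ)) / (1 - s + s * c0)) ≤ ℓ s) ∨
      2 * (κ / (1 - s + s * κ)) * ∑ k, s * (‖v k‖ - (v k).re) / (1 - s + s * ‖v k‖) ≤ ℓ s) :
    ((M + 1) * (1 - κ) - (c0 - 1)) *
        (∫ s in (0:ℝ)..1, (1 - s + s * c0) * ∏ k, (1 - s + s * ‖v k‖)) -
      (∫ s in (0:ℝ)..1, ((1 - s + s * c0) * ∏ k, (1 - s + s * ‖v k‖)) * ℓ s) ≤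
      1 - XXS v0 v := by
  have hM0 : (0 : ℝ) < M := by exact_mod_cast hM
  have hκ0 : 0 ≤ κ := by
    have : 0 ≤ (M : ℝ) * κ := by rw [hκ]; exact Finset.sum_nonneg fun k _ => norm_nonneg _
    exact nonneg_of_mul_nonneg_right this hM0
  have hmn : ‖(∑ k, v k) / M‖ ≤ κ := by
    rw [norm_div, Complex.norm_natCast, div_le_iff₀ hM0]
    refine (norm_sum_le _ _).trans (le_of_eq ?_)
    rw [← hκ]; ring
  have hv0 := norm_v0_le hκ1 hc0 hmn hpr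
  refine pl_gen hM v0 v hκ hκ1 hc0 hpr _ hℓi fun s hs => ?_
  have hT : ∀ k, 0 < 1 - s + s * ‖v k‖ := fun k => by
    nlinarith only [mul_nonneg hs.1.le (norm_nonneg (v k)), hs.2]
  have hP : 0 < ∏ k, (1 - s + s * ‖v k‖) := Finset.prod_pos fun k _ => hT k
  have hT0 : 0 < 1 - s + s * c0 := by nlinarith only [hc0, hs.1, hs.2]
  have hq : 0 ≤ (1 - s + s * c0) * ∏ k, (1 - s + s * ‖v k‖) := mul_nonneg hT0.le hP.le
  rcases hℓ s hs with h | h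
  · refine (loss_le v0 v (pr := ‖1 - v0‖ * ‖v0 - (∑ k, v k) / M‖) hs hκ0 hv0 hτ hc0).trans ?_
    refine mul_le_mul_of_nonneg_left ?_ hq
    rw [← hpr]
    refine h _ ⟨div_nonneg (Finset.prod_nonneg fun _ _ => norm_nonneg _) hP.le, ?_⟩
    rw [div_le_one hP]
    exact Finset.prod_le_prod (fun _ _ => norm_nonneg _) fun k _ =>
      norm_seg_le (v k) hs.1.le hs.2.le
  · refine (loss_le' v0 v (pr := ‖1 - v0‖ * ‖v0 - (∑ k, v k) / M‖) hs hκ0 hv0 hc0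
      (mul_nonneg (norm_nonneg _) (norm_nonneg _))).trans ?_
    exact mul_le_mul_of_nonneg_left h hq

/-! ### Application to frames -/

/-- the hybrid criterion in terms of `XXS` -/
theorem critXXS {a : ℝ} {ζ z : Fin (M + 1) → ℂ} (h : Fr (M + 1) a ζ z) (hM : 0 < M)
    (hmax : ∀ k, ‖Fr.u a ζ k‖ ≤ ‖Fr.u a ζ 0‖) :
    1 ≤ XXS (1 - (a : ℂ) * Fr.u a ζ 0) (fun k => 1 - (a : ℂ) * Fr.ut a ζ k) +
      a * ∏ k, ‖Fr.u a ζ k‖ := by
  have h1 := h.critS hM hmax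
  have hMc : (M : ℂ) ≠ 0 := by exact_mod_cast hM.ne'
  have ha := h.a0
  have e1 : (∑ k, (1 - (a : ℂ) * Fr.ut a ζ k)) / M = 1 - (a : ℂ) * ((∑ k, Fr.ut a ζ k) / M) := by
    rw [Finset.sum_sub_distrib, ← Finset.mul_sum]
    simp only [Finset.sum_const, Finset.card_univ, Fintype.card_fin, nsmul_eq_mul, mul_one]
    field_simp
  have e2 : ‖(1 : ℂ) - (1 - (a : ℂ) * Fr.u a ζ 0)‖ *
      ‖(1 - (a : ℂ) * Fr.u a ζ 0) - (1 - (a : ℂ) * ((∑ k, Fr.ut a ζ k) / M))‖ =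
      a ^ 2 * (‖Fr.u a ζ 0‖ * ‖Fr.u a ζ 0 - (∑ k, Fr.ut a ζ k) / M‖) := by
    have f1 : (1 : ℂ) - (1 - (a : ℂ) * Fr.u a ζ 0) = a * Fr.u a ζ 0 := by ring
    have f2 : (1 - (a : ℂ) * Fr.u a ζ 0) - (1 - (a : ℂ) * ((∑ k, Fr.ut a ζ k) / M)) =
        -(a * (Fr.u a ζ 0 - (∑ k, Fr.ut a ζ k) / M)) := by ring
    rw [f1, f2, norm_neg, norm_mul, norm_mul, Complex.norm_real, Real.norm_of_nonneg ha.le]
    ring
  have e3 : ∀ (s : ℝ) (w : ℂ), (1 : ℂ) - s + s * (1 - a * w) = 1 - s * a * w := fun s w => by ring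
  have e4 : ∀ k j, ‖(1 - (a : ℂ) * Fr.ut a ζ k) - (1 - (a : ℂ) * Fr.ut a ζ j)‖ ^ 2 =
      a ^ 2 * ‖Fr.ut a ζ k - Fr.ut a ζ j‖ ^ 2 := fun k j => by
    have f : (1 - (a : ℂ) * Fr.ut a ζ k) - (1 - (a : ℂ) * Fr.ut a ζ j) =
        -(a * (Fr.ut a ζ k - Fr.ut a ζ j)) := by ring
    rw [f, norm_neg, norm_mul, Complex.norm_real, Real.norm_of_nonneg ha.le, mul_pow]
  have e5 : XXS (1 - (a : ℂ) * Fr.u a ζ 0) (fun k => 1 - (a : ℂ) * Fr.ut a ζ k) =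
      ‖1 - (a : ℂ) * ((∑ k, Fr.ut a ζ k) / M)‖ *
        (‖1 - (a : ℂ) * Fr.u a ζ 0‖ * ∏ k, ‖1 - (a : ℂ) * Fr.ut a ζ k‖) +
      ∫ s in (0:ℝ)..1, s * (a ^ 2 * (‖Fr.u a ζ 0‖ * ‖Fr.u a ζ 0 - (∑ k, Fr.ut a ζ k) / M‖) *
          ∏ k, ‖1 - (s : ℂ) * a * Fr.ut a ζ k‖ +
        ‖1 - (s : ℂ) * a * Fr.u a ζ 0‖ / (2 * M) *
          (a ^ 2 * ∑ k, ∑ j, ‖Fr.ut a ζ k - Fr.ut a ζ j‖ ^ 2 *
          ∏ l ∈ (univ.erase k).erase j, ‖1 - (s : ℂ) * a * Fr.ut a ζ l‖)) := by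
    unfold XXS
    rw [e1, e2]
    simp only [e3, e4]
    congr 1
    refine intervalIntegral.integral_congr fun s _ => ?_
    congr 3
    rw [Finset.mul_sum]
    refine Finset.sum_congr rfl fun k _ => ?_
    rw [Finset.mul_sum]
    exact Finset.sum_congr rfl fun j _ => by ring
  rw [e5]
  linarith only [h1]

/-- the mean of the tail is at most one -/
theorem tail_mean_le {a : ℝ} {ζ z : Fin (M + 1) → ℂ} (h : Fr (M + 1) a ζ z)
    (hmax : ∀ k, ‖Fr.u a ζ k‖ ≤ ‖Fr.u a ζ 0‖) : ∑ k, ‖Fr.ut a ζ k‖ ≤ M := by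
  have h2 := h.mean
  rw [Fin.sum_univ_succ] at h2
  have h3 : (1 : ℝ) ≤ ‖Fr.u a ζ 0‖ := by
    by_contra hcon
    push Not at hcon
    have h4 : ∑ k, ‖Fr.u a ζ k‖ < ∑ _k : Fin (M + 1), (1 : ℝ) :=
      Finset.sum_lt_sum_of_nonempty univ_nonempty fun k _ => (hmax k).trans_lt hcon
    rw [h.mean] at h4
    simp at h4
  push_cast at h2
  unfold Fr.ut
  linarith

theorem kap_nonneg {a : ℝ} {ζ : Fin (M + 1) → ℂ} : 0 ≤ Fr.kap a ζ := by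
  unfold Fr.kap
  positivity

theorem kap_le_one {a : ℝ} {ζ z : Fin (M + 1) → ℂ} (h : Fr (M + 1) a ζ z) (hM : 0 < M)
    (hmax : ∀ k, ‖Fr.u a ζ k‖ ≤ ‖Fr.u a ζ 0‖) : Fr.kap a ζ ≤ 1 := by
  have hM0 : (0 : ℝ) < M := by exact_mod_cast hM
  unfold Fr.kap
  rw [div_le_one hM0]
  refine le_trans (Finset.sum_le_sum fun k _ => ?_) (tail_mean_le h hmax)
  unfold Fr.vt Fr.ut
  exact h.gl k.succ

/-- `e/T ≤ 2/s` -/
theorem e_div_le (v : ℂ) {s : ℝ} (hs : s ∈ Set.Ioo (0:ℝ) 1) :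
    s * (‖v‖ - v.re) / (1 - s + s * ‖v‖) ≤ 2 := by
  have hT : 0 < 1 - s + s * ‖v‖ := by nlinarith only [mul_nonneg hs.1.le (norm_nonneg v), hs.2]
  rw [div_le_iff₀ hT]
  have h1 := (abs_le.1 (Complex.abs_re_le_norm v)).1
  have h2 : s * (‖v‖ - v.re) ≤ s * (2 * ‖v‖) := mul_le_mul_of_nonneg_left (by linarith) hs.1.le
  nlinarith only [h2, hs.2]

/-- **The phase lemma for frames.**  `A = s pr/T₀`, `B ≥ κ T*/(T_κ (1 - s))`, `T* = 1 + s τ`;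
the loss `ℓ` must dominate `(2B - A)⁺²/(4B)`, or the phase sum, or `4M`, at every `s`. -/
theorem frame_phase {a : ℝ} {ζ z : Fin (M + 1) → ℂ} (h : Fr (M + 1) a ζ z) (hM : 0 < M)
    (hmax : ∀ k, ‖Fr.u a ζ k‖ ≤ ‖Fr.u a ζ 0‖) {c0 τ : ℝ} (hc1 : 1 ≤ c0)
    (hroot : (c0 - 1) * (c0 - Fr.kap a ζ) = Fr.pr a ζ)
    (hτ : ∀ k, ‖Fr.vt a ζ k‖ ≤ 1 + τ) (ℓ : ℝ → ℝ)
    (hℓi : IntervalIntegrable (fun s => (TT c0 s * ∏ k, TT ‖Fr.vt a ζ k‖ s) * ℓ s)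
      MeasureTheory.volume 0 1)
    (hℓ : ∀ s ∈ Set.Ioo (0:ℝ) 1,
      (∃ B, 0 < B ∧ Fr.kap a ζ * (1 + s * τ) / (TT (Fr.kap a ζ) s * (1 - s)) ≤ B ∧
        (max (2 * B - s * Fr.pr a ζ / TT c0 s) 0) ^ 2 ≤ 4 * B * ℓ s) ∨
      2 * (Fr.kap a ζ / TT (Fr.kap a ζ) s) *
        ∑ k, s * (‖Fr.vt a ζ k‖ - (Fr.vt a ζ k).re) / TT ‖Fr.vt a ζ k‖ s ≤ ℓ s ∨
      4 * (M : ℝ) ≤ ℓ s) :
    ((M + 1) * (1 - Fr.kap a ζ) - (c0 - 1)) *
        (∫ s in (0:ℝ)..1, TT c0 s * ∏ k, TT ‖Fr.vt a ζ k‖ s) -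
      (∫ s in (0:ℝ)..1, (TT c0 s * ∏ k, TT ‖Fr.vt a ζ k‖ s) * ℓ s) ≤
      a * ∏ k, ‖Fr.u a ζ k‖ := by
  have hM0 : (0 : ℝ) < M := by exact_mod_cast hM
  have hMc : (M : ℂ) ≠ 0 := by exact_mod_cast hM.ne'
  have ha := h.a0
  have hκ0 : 0 ≤ Fr.kap a ζ := kap_nonneg
  have hκ1 := kap_le_one h hM hmax
  have hκ : (M : ℝ) * Fr.kap a ζ = ∑ k, ‖Fr.vt a ζ k‖ := by
    unfold Fr.kap
    field_simp
  have hpr : (c0 - 1) * (c0 - Fr.kap a ζ) = ‖(1 : ℂ) - (1 - (a : ℂ) * Fr.u a ζ 0)‖ *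
      ‖(1 - (a : ℂ) * Fr.u a ζ 0) - (∑ k, Fr.vt a ζ k) / M‖ := by
    rw [hroot]
    have f0 : (∑ k, Fr.vt a ζ k) / (M : ℂ) = 1 - (a : ℂ) * ((∑ k, Fr.ut a ζ k) / M) := by
      unfold Fr.vt
      rw [Finset.sum_sub_distrib, ← Finset.mul_sum]
      simp only [Finset.sum_const, Finset.card_univ, Fintype.card_fin, nsmul_eq_mul, mul_one]
      field_simp
    have f1 : (1 : ℂ) - (1 - (a : ℂ) * Fr.u a ζ 0) = a * Fr.u a ζ 0 := by ring
    have f2 : (1 - (a : ℂ) * Fr.u a ζ 0) - (1 - (a : ℂ) * ((∑ k, Fr.ut a ζ k) / M)) =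
        -(a * (Fr.u a ζ 0 - (∑ k, Fr.ut a ζ k) / M)) := by ring
    rw [f0, f1, f2, norm_neg, norm_mul, norm_mul, Complex.norm_real, Real.norm_of_nonneg ha.le]
    unfold Fr.pr
    ring
  have key := phase_lemma hM (1 - (a : ℂ) * Fr.u a ζ 0) (Fr.vt a ζ) hκ hκ1 hc1 hpr hτ ℓ hℓi ?_
  · have h1 := critXXS h hM hmax
    have h2 : XXS (1 - (a : ℂ) * Fr.u a ζ 0) (fun k => 1 - (a : ℂ) * Fr.ut a ζ k) =
        XXS (1 - (a : ℂ) * Fr.u a ζ 0) (Fr.vt a ζ) := rfl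
    rw [h2] at h1
    unfold TT
    linarith only [key, h1]
  · intro s hs
    have hTκ : 0 < 1 - s + s * Fr.kap a ζ := by
      nlinarith only [hκ0, mul_nonneg hs.1.le hκ0, hs.2]
    rcases hℓ s hs with ⟨B, hB0, hB, hq⟩ | h1 | h1
    · left
      intro R hR
      unfold TT at hB hq
      rw [hroot]
      have h2 : (1 - R) * (Fr.kap a ζ * (1 + s * τ) / ((1 - s + s * Fr.kap a ζ) * (1 - s)) *
          (1 + R) - s * Fr.pr a ζ / (1 - s + s * c0)) ≤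
          (1 - R) * (B * (1 + R) - s * Fr.pr a ζ / (1 - s + s * c0)) := by
        refine mul_le_mul_of_nonneg_left ?_ (by linarith only [hR.2])
        have := mul_le_mul_of_nonneg_right hB (by linarith only [hR.1] : 0 ≤ 1 + R)
        linarith only [this]
      refine h2.trans ((quad_le hB0 hR.2).trans ?_)
      rw [div_le_iff₀ (by positivity)]
      linarith only [hq]
    · right; exact h1
    · right
      refine le_trans ?_ h1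
      have h2 : ∑ k, s * (‖Fr.vt a ζ k‖ - (Fr.vt a ζ k).re) / (1 - s + s * ‖Fr.vt a ζ k‖) ≤
          ∑ _k : Fin M, (2 : ℝ) := Finset.sum_le_sum fun k _ => e_div_le (Fr.vt a ζ k) hs
      simp only [Finset.sum_const, Finset.card_univ, Fintype.card_fin, nsmul_eq_mul] at h2
      have h3 : Fr.kap a ζ / (1 - s + s * Fr.kap a ζ) ≤ 1 := by
        rw [div_le_one hTκ]
        nlinarith only [hκ1, hs.1, hs.2]
      have h4 : 0 ≤ Fr.kap a ζ / (1 - s + s * Fr.kap a ζ) := div_nonneg hκ0 hTκ.le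
      have h5 : 2 * (Fr.kap a ζ / (1 - s + s * Fr.kap a ζ)) *
          ∑ k, s * (‖Fr.vt a ζ k‖ - (Fr.vt a ζ k).re) / (1 - s + s * ‖Fr.vt a ζ k‖) ≤
          2 * (Fr.kap a ζ / (1 - s + s * Fr.kap a ζ)) * (M * 2) :=
        mul_le_mul_of_nonneg_left h2 (by positivity)
      refine h5.trans ?_
      nlinarith only [h3]

end Pool.Agent.Lib.MP_172a45_an.F.H69
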