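import Pool.Agent.Lib.MP_172a45_an.F.H69.Step
import Pool.Agent.Lib.MP_172a45_an.F.H69.Late
import Pool.Agent.Lib.MP_172a45_an.L.Chain
import Pool.Agent.Lib.MP_172a45_an.L.F0q

set_option autoImplicit false

/-!
# The core of part L-b

`q = T(c₀) ∏ T(c_k)`, `lam = -q'/q`, bounds of `lam`, the loss `lst τ x₁`, and the conclusion
`(F - A) ∫ q ≤ a ∏ t` from a state at `s₁`.
-/

namespace Pool.Agent.Lib.MP_172a45_an.F.H69

open Finset Real MeasureTheory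
open Pool.Agent.Lib.MP_172a45_an.F.Fr
open Pool.Agent.Lib.MP_172a45_an.L

/-! ### The loss -/

/-- `B = (1 + s τ)/(1 - s)` -/
noncomputable def Bf (τ s : ℝ) : ℝ := (1 + s * τ) / (1 - s)

/-- `g = s x²/(1 + s x)` -/
noncomputable def gf (x s : ℝ) : ℝ := s * x ^ 2 / (1 + s * x)

/-- `L(B, g) = (2B - g)₊²/(4B)` -/
noncomputable def Lf (B g : ℝ) : ℝ := (max (2 * B - g) 0) ^ 2 / (4 * B)

/-- the loss -/
noncomputable def lst (τ x s : ℝ) : ℝ := Lf (Bf τ s) (gf x s)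

theorem Bf_pos {τ s : ℝ} (hτ : 0 ≤ τ) (hs0 : 0 ≤ s) (hs1 : s < 1) : 0 < Bf τ s := by
  unfold Bf
  have : 0 ≤ s * τ := mul_nonneg hs0 hτ
  exact div_pos (by linarith) (by linarith)

theorem gf_nonneg {x s : ℝ} (hx : 0 ≤ x) (hs : 0 ≤ s) : 0 ≤ gf x s := by
  unfold gf; positivity

theorem Lf_nonneg {B g : ℝ} (hB : 0 ≤ B) : 0 ≤ Lf B g := by
  unfold Lf; positivity

theorem Lf_mono {B B' g : ℝ} (hB : 0 < B) (hBB : B ≤ B') (hg : 0 ≤ g) : Lf B g ≤ Lf B' g := by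
  unfold Lf
  have hB' : 0 < B' := lt_of_lt_of_le hB hBB
  rcases le_total (2 * B) g with h | h
  · rw [max_eq_right (by linarith)]
    simp only [ne_eq, OfNat.ofNat_ne_zero, not_false_eq_true, zero_pow, zero_div]
    positivity
  · rw [max_eq_left (by linarith), max_eq_left (by linarith),
      div_le_div_iff₀ (by positivity) (by positivity)]
    have h1 : 0 ≤ (B' - B) * (4 * B * B' - g ^ 2) := by
      refine mul_nonneg (by linarith) ?_
      nlinarith only [hB, hBB, h, hg]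
    nlinarith only [h1]

theorem Lf_anti {B g g' : ℝ} (hB : 0 < B) (hg : g ≤ g') : Lf B g' ≤ Lf B g := by
  unfold Lf
  refine div_le_div_of_nonneg_right ?_ (by positivity)
  exact pow_le_pow_left₀ (le_max_right _ _) (max_le_max (by linarith) le_rfl) 2

/-- `L(B, g) ≤ L(B, g') + (g' - g)` for `0 ≤ g ≤ g'` -/
theorem Lf_lip {B g g' : ℝ} (hB : 0 < B) (hg0 : 0 ≤ g) (hg : g ≤ g') :
    Lf B g ≤ Lf B g' + (g' - g) := by
  unfold Lf
  rcases le_total (2 * B) g with h | h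
  · rw [max_eq_right (by linarith)]
    have : 0 ≤ (max (2 * B - g') 0) ^ 2 / (4 * B) := by positivity
    simp only [ne_eq, OfNat.ofNat_ne_zero, not_false_eq_true, zero_pow, zero_div]
    linarith
  · rw [max_eq_left (by linarith : (0:ℝ) ≤ 2 * B - g)]
    have h4 : (0:ℝ) < 4 * B := by linarith
    rcases le_total (2 * B) g' with h' | h'
    · rw [max_eq_right (by linarith)]
      simp only [ne_eq, OfNat.ofNat_ne_zero, not_false_eq_true, zero_pow, zero_div, zero_add]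
      rw [div_le_iff₀ h4]
      nlinarith only [hB, hg, h', hg0, h]
    · rw [max_eq_left (by linarith : (0:ℝ) ≤ 2 * B - g')]
      rw [← sub_le_iff_le_add', ← sub_div, div_le_iff₀ h4]
      nlinarith only [hg0, hg]

theorem titu {a b c d : ℝ} (hc : 0 < c) (hd : 0 < d) :
    (a + b) ^ 2 / (c + d) ≤ a ^ 2 / c + b ^ 2 / d := by
  rw [div_add_div _ _ hc.ne' hd.ne', div_le_div_iff₀ (by positivity) (by positivity)]
  nlinarith only [sq_nonneg (a * d - b * c), mul_pos hc hd]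

/-- joint convexity -/
theorem Lf_conv {B0 B1 B g0 g1 g θ : ℝ} (hθ0 : 0 ≤ θ) (hθ1 : θ ≤ 1) (hB0 : 0 < B0) (hB1 : 0 < B1)
    (hB : 0 < B) (hBle : B ≤ (1 - θ) * B0 + θ * B1) (hg : (1 - θ) * g0 + θ * g1 ≤ g)
    (hg0 : 0 ≤ g0) (hg1 : 0 ≤ g1) :
    Lf B g ≤ (1 - θ) * Lf B0 g0 + θ * Lf B1 g1 := by
  have h1 : Lf B g ≤ Lf B ((1 - θ) * g0 + θ * g1) := Lf_anti hB hg
  have h2 := Lf_mono hB hBle (g := (1 - θ) * g0 + θ * g1) (by
    have : 0 ≤ 1 - θ := by linarith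
    positivity)
  refine h1.trans (h2.trans ?_)
  rcases eq_or_lt_of_le hθ0 with h0 | h0
  · rw [← h0]; simp
  rcases eq_or_lt_of_le hθ1 with h0' | h0'
  · rw [h0']; simp
  have h3 : 0 < 1 - θ := by linarith
  unfold Lf
  set w0 := max (2 * B0 - g0) 0 with hw0
  set w1 := max (2 * B1 - g1) 0 with hw1
  have e1 : max (2 * ((1 - θ) * B0 + θ * B1) - ((1 - θ) * g0 + θ * g1)) 0 ≤
      (1 - θ) * w0 + θ * w1 := by
    refine max_le ?_ ?_
    · have a1 := mul_le_mul_of_nonneg_left (le_max_left (2 * B0 - g0) 0) h3.le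
      have a2 := mul_le_mul_of_nonneg_left (le_max_left (2 * B1 - g1) 0) h0.le
      linarith
    · have a1 : 0 ≤ w0 := le_max_right _ _
      have a2 : 0 ≤ w1 := le_max_right _ _
      positivity
  have e2 : (max (2 * ((1 - θ) * B0 + θ * B1) - ((1 - θ) * g0 + θ * g1)) 0) ^ 2 /
      (4 * ((1 - θ) * B0 + θ * B1)) ≤
      ((1 - θ) * w0 + θ * w1) ^ 2 / ((1 - θ) * (4 * B0) + θ * (4 * B1)) := by
    have : 4 * ((1 - θ) * B0 + θ * B1) = (1 - θ) * (4 * B0) + θ * (4 * B1) := by ring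
    rw [this]
    refine div_le_div_of_nonneg_right ?_ (by positivity)
    exact pow_le_pow_left₀ (le_max_right _ _) e1 2
  refine e2.trans ((titu (by positivity) (by positivity)).trans (le_of_eq ?_))
  field_simp

/-- chord of `B` -/
theorem Bf_chord {τ s0 s1 s θ : ℝ} (hτ : 0 ≤ τ) (hθ0 : 0 ≤ θ) (hθ1 : θ ≤ 1)
    (h01 : s0 ≤ s1) (h1 : s1 < 1) (hs : s = (1 - θ) * s0 + θ * s1) :
    Bf τ s ≤ (1 - θ) * Bf τ s0 + θ * Bf τ s1 := by
  have e : ∀ x : ℝ, x < 1 → Bf τ x = (1 + τ) * (1 - x)⁻¹ - τ := by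
    intro x hx
    unfold Bf
    have : 1 - x ≠ 0 := by linarith
    field_simp
    ring
  have hs1 : s < 1 := by rw [hs]; nlinarith only [h1, hθ1, h01]
  rw [e s hs1, e s0 (by linarith), e s1 h1]
  have p0 : 0 < 1 - s0 := by linarith
  have p1 : 0 < 1 - s1 := by linarith
  have p2 : 0 < 1 - s := by linarith
  have key : (1 - s)⁻¹ ≤ (1 - θ) * (1 - s0)⁻¹ + θ * (1 - s1)⁻¹ := by
    have e3 : (1 - θ) * (1 - s0)⁻¹ + θ * (1 - s1)⁻¹ =
        ((1 - θ) * (1 - s1) + θ * (1 - s0)) / ((1 - s0) * (1 - s1)) := by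
      field_simp
    rw [e3, inv_eq_one_div, div_le_div_iff₀ p2 (by positivity), hs]
    have : 0 ≤ θ * (1 - θ) * (s0 - s1) ^ 2 := by
      have : 0 ≤ 1 - θ := by linarith
      positivity
    nlinarith only [this]
  have := mul_le_mul_of_nonneg_left key (by linarith : 0 ≤ 1 + τ)
  nlinarith only [this]

/-- `g = x - x/(1 + s x)` -/
theorem gf_eq {x s : ℝ} (hx : 0 ≤ x) (hs : 0 ≤ s) : gf x s = x - x * (1 + s * x)⁻¹ := by
  unfold gf
  have : 1 + s * x ≠ 0 := by positivity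
  field_simp
  ring

theorem inv_chord {x s0 s1 s θ : ℝ} (hx : 0 ≤ x) (hθ0 : 0 ≤ θ) (hθ1 : θ ≤ 1) (h0 : 0 ≤ s0)
    (h01 : s0 ≤ s1) (hs : s = (1 - θ) * s0 + θ * s1) :
    x * (1 + s * x)⁻¹ ≤ (1 - θ) * (x * (1 + s0 * x)⁻¹) + θ * (x * (1 + s1 * x)⁻¹) := by
  have h1 : 0 ≤ s1 := h0.trans h01
  have h2 : 0 ≤ 1 - θ := by linarith
  have hs0 : 0 ≤ s := by rw [hs]; positivity
  have p0 : 0 < 1 + s0 * x := by positivity
  have p1 : 0 < 1 + s1 * x := by positivity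
  have p2 : 0 < 1 + s * x := by positivity
  have key : (1 + s * x)⁻¹ ≤ (1 - θ) * (1 + s0 * x)⁻¹ + θ * (1 + s1 * x)⁻¹ := by
    have e3 : (1 - θ) * (1 + s0 * x)⁻¹ + θ * (1 + s1 * x)⁻¹ =
        ((1 - θ) * (1 + s1 * x) + θ * (1 + s0 * x)) / ((1 + s0 * x) * (1 + s1 * x)) := by
      field_simp
    rw [e3, inv_eq_one_div, div_le_div_iff₀ p2 (by positivity), hs]
    have : 0 ≤ θ * (1 - θ) * ((s0 - s1) * x) ^ 2 := by positivity
    nlinarith only [this]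
  have := mul_le_mul_of_nonneg_left key hx
  nlinarith only [this]

theorem gf_chord {x s0 s1 s θ : ℝ} (hx : 0 ≤ x) (hθ0 : 0 ≤ θ) (hθ1 : θ ≤ 1) (h0 : 0 ≤ s0)
    (h01 : s0 ≤ s1) (hs : s = (1 - θ) * s0 + θ * s1) :
    (1 - θ) * gf x s0 + θ * gf x s1 ≤ gf x s := by
  have h1 : 0 ≤ s1 := h0.trans h01
  have h2 : 0 ≤ 1 - θ := by linarith
  have hs0 : 0 ≤ s := by rw [hs]; positivity
  rw [gf_eq hx h0, gf_eq hx h1, gf_eq hx hs0]
  have := inv_chord hx hθ0 hθ1 h0 h01 hs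
  nlinarith only [this]

theorem gf_mono {x x' s : ℝ} (hx : 0 ≤ x) (hxx : x ≤ x') (hs : 0 ≤ s) : gf x s ≤ gf x' s := by
  unfold gf
  have hx' : 0 ≤ x' := hx.trans hxx
  rw [div_le_div_iff₀ (by positivity) (by positivity)]
  have h1 : x ^ 2 ≤ x' ^ 2 := pow_le_pow_left₀ hx hxx 2
  have h2 : x * (x * x') ≤ x' * (x * x') := mul_le_mul_of_nonneg_right hxx (by positivity)
  nlinarith only [h1, hs, h2, mul_le_mul_of_nonneg_left h1 hs,
      mul_le_mul_of_nonneg_left h2 (sq_nonneg s)]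

theorem gf_sub_le {x x' s : ℝ} (hx : 0 ≤ x) (hxx : x ≤ x') (hs : 0 ≤ s) :
    gf x' s - gf x s ≤ x' - x := by
  have hx' : 0 ≤ x' := hx.trans hxx
  rw [gf_eq hx hs, gf_eq hx' hs]
  have : x * (1 + s * x)⁻¹ ≤ x' * (1 + s * x')⁻¹ := by
    rw [← div_eq_mul_inv, ← div_eq_mul_inv, div_le_div_iff₀ (by positivity) (by positivity)]
    nlinarith only [hxx]
  linarith only [this]

/-- the chord bound of the loss -/
theorem lst_chord {τ x s0 s1 s θ L0 L1 : ℝ} (hτ : 0 ≤ τ) (hx : 0 ≤ x) (hθ0 : 0 ≤ θ) (hθ1 : θ ≤ 1)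
    (h0 : 0 ≤ s0) (h01 : s0 ≤ s1) (h1 : s1 < 1) (hs : s = (1 - θ) * s0 + θ * s1)
    (hL0 : lst τ x s0 ≤ L0) (hL1 : lst τ x s1 ≤ L1) :
    lst τ x s ≤ (1 - θ) * L0 + θ * L1 := by
  have h2 : 0 ≤ 1 - θ := by linarith
  have hs0 : 0 ≤ s := by
    rw [hs]
    have : 0 ≤ s1 := h0.trans h01
    positivity
  have hs1 : s < 1 := by rw [hs]; nlinarith only [h1, hθ1, h01]
  have := Lf_conv hθ0 hθ1 (Bf_pos hτ h0 (by linarith)) (Bf_pos hτ (h0.trans h01) h1)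
    (Bf_pos hτ hs0 hs1) (Bf_chord hτ hθ0 hθ1 h01 h1 hs) (gf_chord hx hθ0 hθ1 h0 h01 hs)
    (gf_nonneg hx h0) (gf_nonneg hx (h0.trans h01))
  have a1 := mul_le_mul_of_nonneg_left hL0 h2
  have a2 := mul_le_mul_of_nonneg_left hL1 hθ0
  unfold lst at *
  linarith

theorem lst_cont {τ x : ℝ} (hτ : 0 ≤ τ) (hx : 0 ≤ x) {s1 : ℝ} (hs1 : s1 < 1) :
    ContinuousOn (lst τ x) (Set.Icc 0 s1) := by
  unfold lst Lf Bf gf
  have h1 : ∀ s ∈ Set.Icc (0:ℝ) s1, 1 - s ≠ 0 := fun s hs => by linarith [hs.2]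
  have h2 : ∀ s ∈ Set.Icc (0:ℝ) s1, 1 + s * x ≠ 0 := fun s hs => by
    have := mul_nonneg hs.1 hx
    linarith
  have h3 : ∀ s ∈ Set.Icc (0:ℝ) s1, 4 * ((1 + s * τ) / (1 - s)) ≠ 0 := fun s hs => by
    have := Bf_pos hτ hs.1 (lt_of_le_of_lt hs.2 hs1)
    unfold Bf at this
    positivity
  have c1 : ContinuousOn (fun s : ℝ => (1 + s * τ) / (1 - s)) (Set.Icc 0 s1) :=
    ContinuousOn.div (by fun_prop) (by fun_prop) h1
  have c2 : ContinuousOn (fun s : ℝ => s * x ^ 2 / (1 + s * x)) (Set.Icc 0 s1) :=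
    ContinuousOn.div (by fun_prop) (by fun_prop) h2
  refine ContinuousOn.div ?_ (continuousOn_const.mul c1) h3
  refine ContinuousOn.pow ?_ 2
  exact ContinuousOn.sup ((continuousOn_const.mul c1).sub c2) continuousOn_const

/-! ### The function `q` -/

section Frame

variable {M : ℕ} {a : ℝ} {ζ z : Fin (M + 1) → ℂ}

/-- `q` -/
noncomputable def qf (a : ℝ) (ζ : Fin (M + 1) → ℂ) (c0 s : ℝ) : ℝ :=
  TT c0 s * ∏ k, TT ‖vt a ζ k‖ s

/-- `lam = -q'/q` -/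
noncomputable def lamf (a : ℝ) (ζ : Fin (M + 1) → ℂ) (c0 s : ℝ) : ℝ :=
  -((c0 - 1) / TT c0 s) + ∑ k : Fin M, (1 - ‖vt a ζ k‖) / TT ‖vt a ζ k‖ s

theorem TT_pos {c s : ℝ} (hc : 0 ≤ c) (hs0 : 0 ≤ s) (hs1 : s < 1) : 0 < TT c s := by
  unfold TT
  have := mul_nonneg hs0 hc
  linarith

theorem TT_deriv (c s : ℝ) : HasDerivAt (TT c) (c - 1) s := by
  unfold TT
  have := ((hasDerivAt_const s (1:ℝ)).sub (hasDerivAt_id s)).add
    ((hasDerivAt_id s).mul_const c)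
  refine this.congr_deriv ?_
  simp
  ring

theorem qf_nonneg {c0 s : ℝ} (hc0 : 0 ≤ c0) (hs0 : 0 ≤ s) (hs1 : s < 1) : 0 ≤ qf a ζ c0 s :=
  mul_nonneg (TT_pos hc0 hs0 hs1).le
    (Finset.prod_nonneg fun _ _ => (TT_pos (norm_nonneg _) hs0 hs1).le)

theorem qf_cont (a : ℝ) (ζ : Fin (M + 1) → ℂ) (c0 : ℝ) : Continuous (qf a ζ c0) :=
  (TT_cont c0).mul (continuous_finsetProd _ fun _ _ => TT_cont _)

theorem qf_deriv {c0 s : ℝ} (hc0 : 0 ≤ c0) (hs0 : 0 ≤ s) (hs1 : s < 1) :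
    HasDerivAt (qf a ζ c0) (-(lamf a ζ c0 s) * qf a ζ c0 s) s := by
  have hP : HasDerivAt (fun s : ℝ => ∏ k : Fin M, TT ‖vt a ζ k‖ s)
      (∑ k : Fin M, (∏ j ∈ univ.erase k, TT ‖vt a ζ j‖ s) • (‖vt a ζ k‖ - 1)) s := by
    have := HasDerivAt.finsetProd (u := (univ : Finset (Fin M)))
      (f := fun k s => TT ‖vt a ζ k‖ s) (f' := fun k => ‖vt a ζ k‖ - 1) (x := s)
      fun k _ => TT_deriv _ _
    refine this.congr_of_eventuallyEq ?_
    filter_upwards with x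
    simp
  have hq := (TT_deriv c0 s).mul hP
  refine hq.congr_deriv ?_
  have e1 : ∀ k : Fin M, (∏ j ∈ univ.erase k, TT ‖vt a ζ j‖ s) • (‖vt a ζ k‖ - 1) =
      (∏ j, TT ‖vt a ζ j‖ s) * ((‖vt a ζ k‖ - 1) / TT ‖vt a ζ k‖ s) := by
    intro k
    have hk := (TT_pos (norm_nonneg (vt a ζ k)) hs0 hs1).ne'
    rw [← Finset.mul_prod_erase univ (fun j => TT ‖vt a ζ j‖ s) (mem_univ k), smul_eq_mul]
    field_simp
  have e2 : ∑ k : Fin M, (∏ j ∈ univ.erase k, TT ‖vt a ζ j‖ s) • (‖vt a ζ k‖ - 1) =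
      -((∏ j, TT ‖vt a ζ j‖ s) * ∑ k : Fin M, (1 - ‖vt a ζ k‖) / TT ‖vt a ζ k‖ s) := by
    rw [Finset.sum_congr rfl fun k _ => e1 k, ← Finset.mul_sum, ← mul_neg, ← Finset.sum_neg_distrib]
    congr 1
    refine Finset.sum_congr rfl fun k _ => ?_
    rw [← neg_div, neg_sub]
  rw [e2]
  have h0 := (TT_pos hc0 hs0 hs1).ne'
  unfold lamf qf
  field_simp
  ring

/-- lower bound of `lam` -/
theorem lamf_ge (h : Fr (M + 1) a ζ z) (hM : 0 < M) {c0 s m D X : ℝ} (hc1 : 1 ≤ c0)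
    (hs0 : 0 ≤ s) (hs1 : s < 1) (hX : c0 - 1 ≤ X)
    (hm : m ≤ ‖u a ζ 0‖ - 1 + DS a ζ) (hD : D ≤ Del a ζ + Real.log ‖u a ζ 0‖) :
    -(X * (1 + s * X)⁻¹) + m * (1 - s) + s * D ≤ lamf a ζ c0 s := by
  have hX0 : 0 ≤ X := by linarith
  -- the tail
  have h1 : ∀ k : Fin M, (1 - ‖vt a ζ k‖) + s * gg1 (max ‖vt a ζ k‖ (1 / 2)) ≤
      (1 - ‖vt a ζ k‖) / TT ‖vt a ζ k‖ s := by
    intro k
    have hT := TT_pos (norm_nonneg (vt a ζ k)) hs0 hs1
    have hk := key_W (norm_nonneg (vt a ζ k)) hs0 hs1.le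
    rw [le_div_iff₀ hT]
    have e : TT ‖vt a ζ k‖ s = 1 + s * (‖vt a ζ k‖ - 1) := by unfold TT; ring
    rw [e]
    have := mul_le_mul_of_nonneg_left hk hs0
    nlinarith only [this]
  have h2 := Finset.sum_le_sum fun k (_ : k ∈ (univ : Finset (Fin M))) => h1 k
  rw [Finset.sum_add_distrib, ← Finset.mul_sum] at h2
  have h3 := sum_tail_g h
  have h4 : ∑ k : Fin M, (1 - ‖vt a ζ k‖) = ‖u a ζ 0‖ - 1 + DS a ζ := by
    have e1 := kap_eq h hM
    have hM0 : (0 : ℝ) < M := by exact_mod_cast hM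
    have e2 : (M : ℝ) * kap a ζ = ∑ k : Fin M, ‖vt a ζ k‖ := by
      unfold kap; field_simp
    rw [Finset.sum_sub_distrib]
    simp only [Finset.sum_const, Finset.card_univ, Fintype.card_fin, nsmul_eq_mul, mul_one]
    rw [← e2, e1]
    ring
  rw [h4] at h2
  -- the first factor
  have h5 : (c0 - 1) / TT c0 s ≤ X * (1 + s * X)⁻¹ := by
    have e : TT c0 s = 1 + s * (c0 - 1) := by unfold TT; ring
    have hT := TT_pos (by linarith only [hc1] : 0 ≤ c0) hs0 hs1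
    rw [← div_eq_mul_inv, div_le_div_iff₀ hT (by positivity), e]
    nlinarith only [hX]
  have h6 : gg1 ‖u a ζ 0‖ = ‖u a ζ 0‖ - 1 - Real.log ‖u a ζ 0‖ := rfl
  have h7 := mul_le_mul_of_nonneg_left h3 hs0
  have h8 := mul_le_mul_of_nonneg_right hm (by linarith only [hs1] : 0 ≤ 1 - s)
  have h9 := mul_le_mul_of_nonneg_left hD hs0
  unfold lamf
  rw [h6] at h7
  nlinarith only [h2, h5, h7, h8, h9]

/-- upper bound of `lam` -/
theorem lamf_le (h : Fr (M + 1) a ζ z) (hM : 0 < M) {c0 s τ : ℝ} (hc1 : 1 ≤ c0)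
    (hs0 : 0 ≤ s) (hs1 : s < 1) (hκ1 : kap a ζ ≤ 1) (hτ : ∀ k, ‖vt a ζ k‖ ≤ 1 + τ) (hτ1 : 1 ≤ τ) :
    lamf a ζ c0 s ≤ ‖u a ζ 0‖ - 1 + DS a ζ - (c0 - 1) +
      s * ((c0 - 1) ^ 2 + M * τ / (1 - s)) := by
  have p : 0 < 1 - s := by linarith
  have h1 : ∀ k : Fin M, (1 - ‖vt a ζ k‖) / TT ‖vt a ζ k‖ s ≤
      (1 - ‖vt a ζ k‖) + s * ((1 + (τ - 1) * ‖vt a ζ k‖) / (1 - s)) := by
    intro k
    have hc := norm_nonneg (vt a ζ k)
    have hT := TT_pos hc hs0 hs1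
    have hT1 : 1 - s ≤ TT ‖vt a ζ k‖ s := by
      unfold TT
      have := mul_nonneg hs0 hc
      linarith
    have e : (1 - ‖vt a ζ k‖) / TT ‖vt a ζ k‖ s =
        (1 - ‖vt a ζ k‖) + s * ((1 - ‖vt a ζ k‖) ^ 2 / TT ‖vt a ζ k‖ s) := by
      field_simp
      unfold TT
      ring
    rw [e]
    have h2 : (1 - ‖vt a ζ k‖) ^ 2 ≤ 1 + (τ - 1) * ‖vt a ζ k‖ := by
      nlinarith only [hc, hτ k]
    have h3 : 0 ≤ 1 + (τ - 1) * ‖vt a ζ k‖ := by
      have : 0 ≤ (τ - 1) * ‖vt a ζ k‖ := mul_nonneg (by linarith) hc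
      linarith
    have h4 : (1 - ‖vt a ζ k‖) ^ 2 / TT ‖vt a ζ k‖ s ≤ (1 + (τ - 1) * ‖vt a ζ k‖) / (1 - s) :=
      div_le_div₀ h3 h2 p hT1
    have := mul_le_mul_of_nonneg_left h4 hs0
    linarith only [this]
  have h2 := Finset.sum_le_sum fun k (_ : k ∈ (univ : Finset (Fin M))) => h1 k
  rw [Finset.sum_add_distrib, ← Finset.mul_sum, ← Finset.sum_div] at h2
  have hM0 : (0 : ℝ) < M := by exact_mod_cast hM
  have e2 : (M : ℝ) * kap a ζ = ∑ k : Fin M, ‖vt a ζ k‖ := by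
    unfold kap; field_simp
  have h4 : ∑ k : Fin M, (1 - ‖vt a ζ k‖) = ‖u a ζ 0‖ - 1 + DS a ζ := by
    have e1 := kap_eq h hM
    rw [Finset.sum_sub_distrib]
    simp only [Finset.sum_const, Finset.card_univ, Fintype.card_fin, nsmul_eq_mul, mul_one]
    rw [← e2, e1]
    ring
  have h5 : ∑ k : Fin M, (1 + (τ - 1) * ‖vt a ζ k‖) ≤ M * τ := by
    rw [Finset.sum_add_distrib, ← Finset.mul_sum, ← e2]
    simp only [Finset.sum_const, Finset.card_univ, Fintype.card_fin, nsmul_eq_mul, mul_one]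
    have : (τ - 1) * ((M : ℝ) * kap a ζ) ≤ (τ - 1) * ((M : ℝ) * 1) :=
      mul_le_mul_of_nonneg_left (mul_le_mul_of_nonneg_left hκ1 hM0.le) (by linarith only [hτ1])
    linarith
  rw [h4] at h2
  have h6 : s * ((∑ k : Fin M, (1 + (τ - 1) * ‖vt a ζ k‖)) / (1 - s)) ≤ s * (M * τ / (1 - s)) :=
    mul_le_mul_of_nonneg_left (div_le_div_of_nonneg_right h5 p.le) hs0
  have h7 : -((c0 - 1) / TT c0 s) ≤ -(c0 - 1) + s * (c0 - 1) ^ 2 := by
    have e : TT c0 s = 1 + s * (c0 - 1) := by unfold TT; ring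
    have hT := TT_pos (by linarith only [hc1] : 0 ≤ c0) hs0 hs1
    have h8 : (c0 - 1) - s * (c0 - 1) ^ 2 ≤ (c0 - 1) / TT c0 s := by
      rw [le_div_iff₀ hT, e]
      have : 0 ≤ (c0 - 1) ^ 3 * s ^ 2 := by
        have : 0 ≤ c0 - 1 := by linarith only [hc1]
        positivity
      nlinarith only [this]
    linarith only [h8]
  unfold lamf
  nlinarith only [h2, h6, h7]

/-- **core**: from a state at `s₁` -/
theorem core (h : Fr (M + 1) a ζ z) (hM : 0 < M)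
    (hmax : ∀ k, ‖u a ζ k‖ ≤ ‖u a ζ 0‖) {c0 τ s1 x1 F A hh : ℝ} (hc1 : 1 ≤ c0)
    (hroot : (c0 - 1) * (c0 - kap a ζ) = pr a ζ)
    (hτ0 : 0 ≤ τ) (hτ : ∀ k, ‖vt a ζ k‖ ≤ 1 + τ) (hs0 : 0 < s1) (hs1 : s1 < 1)
    (hw : 0 < s1 ^ 2 + s1 - 1) (hx1 : 0 ≤ x1) (hA : 0 ≤ A) (hF1 : F ≤ Gam a ζ c0)
    (hF2 : F ≤ (M + 1) * (1 - kap a ζ) - x1) (hI : Inv (qf a ζ c0) (lst τ x1) A s1 hh)
    (hend : 2 * s1 / (s1 ^ 2 + s1 - 1) * ((1 + τ) * c0) ≤ hh * TT c0 s1) :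
    (F - A) * (∫ s in (0:ℝ)..1, qf a ζ c0 s) ≤ a * ∏ k, ‖u a ζ k‖ := by
  have hκ1 := kap_le_one h hM hmax
  have hκ0 : 0 ≤ kap a ζ := kap_nonneg
  have hc0 : 0 ≤ c0 := by linarith only [hc1, hs0, hs1]
  set x := c0 - 1 with hx
  have hx0 : 0 ≤ x := by linarith only [hc1]
  set xh := max x x1 with hxh
  have hxx : x ≤ xh := le_max_left _ _
  have hx1x : x1 ≤ xh := le_max_right _ _
  have hlc := lst_cont hτ0 hx1 hs1
  have hqc := qf_cont a ζ c0
  set ℓ : ℝ → ℝ := fun s => lst τ x1 s + (xh - x) with hℓdef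
  have hℓc : ContinuousOn ℓ (Set.Icc 0 s1) := hlc.add continuousOn_const
  have key := frame_phase2 h hM hmax hc1 hroot hτ0 hτ hs0 hs1 hw ℓ
    ((hqc.continuousOn.mul hℓc).intervalIntegrable_of_Icc hs0.le) ?_
  · -- conclusion
    have hΓ : F ≤ Gam a ζ c0 - (xh - x) := by
      rcases le_total x x1 with h1 | h1
      · have : xh = x1 := max_eq_right h1
        rw [this]
        unfold Gam
        linarith only [hF2]
      · have : xh = x := max_eq_left h1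
        rw [this]
        linarith only [hF1]
    have e0 : ((M : ℝ) + 1) * (1 - kap a ζ) - (c0 - 1) = Gam a ζ c0 := rfl
    rw [e0] at key
    have i1 : IntervalIntegrable (qf a ζ c0) volume 0 s1 := hqc.intervalIntegrable _ _
    have i2 : IntervalIntegrable (qf a ζ c0) volume s1 1 := hqc.intervalIntegrable _ _
    have esplit := intervalIntegral.integral_add_adjacent_intervals i1 i2
    have j1 : 0 ≤ ∫ s in s1..1, qf a ζ c0 s := by
      refine intervalIntegral.integral_nonneg hs1.le fun s hs => ?_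
      refine mul_nonneg ?_ (Finset.prod_nonneg fun k _ => ?_)
      · unfold TT
        have := mul_nonneg (hs0.le.trans hs.1) hc0
        linarith only [this, hs.2]
      · unfold TT
        have := mul_nonneg (hs0.le.trans hs.1) (norm_nonneg (vt a ζ k))
        linarith only [this, hs.2]
    have eq1 : ∫ s in (0:ℝ)..s1, (TT c0 s * ∏ k, TT ‖vt a ζ k‖ s) * ℓ s =
        (A + (xh - x)) * (∫ s in (0:ℝ)..s1, qf a ζ c0 s) -
        ∫ s in (0:ℝ)..s1, qf a ζ c0 s * (A - lst τ x1 s) := by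
      have i3 : IntervalIntegrable (fun s => qf a ζ c0 s * (A - lst τ x1 s)) volume 0 s1 :=
        (hqc.continuousOn.mul (continuousOn_const.sub hlc)).intervalIntegrable_of_Icc hs0.le
      have i4 : IntervalIntegrable (fun s => (A + (xh - x)) * qf a ζ c0 s) volume 0 s1 :=
        i1.const_mul _
      rw [← intervalIntegral.integral_const_mul, ← intervalIntegral.integral_sub i4 i3]
      refine intervalIntegral.integral_congr fun s _ => ?_
      simp only [hℓdef, qf]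
      ring
    have eq2 : (∫ s in (0:ℝ)..1, TT c0 s * ∏ k, TT ‖vt a ζ k‖ s) =
        ∫ s in (0:ℝ)..1, qf a ζ c0 s := rfl
    rw [eq1, eq2, ← esplit] at key
    rw [← esplit]
    unfold Inv at hI
    have hP : 0 ≤ ∏ k, TT ‖vt a ζ k‖ s1 :=
      Finset.prod_nonneg fun _ _ => (TT_pos (norm_nonneg _) hs0.le hs1).le
    have hlate : 2 * s1 / (s1 ^ 2 + s1 - 1) * ((1 + τ) * c0) * ∏ k, TT ‖vt a ζ k‖ s1 ≤
        qf a ζ c0 s1 * hh := by
      have := mul_le_mul_of_nonneg_right hend hP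
      unfold qf
      linarith only [this]
    have j0 : 0 ≤ ∫ s in (0:ℝ)..s1, qf a ζ c0 s := by
      refine intervalIntegral.integral_nonneg hs0.le fun s hs => ?_
      exact qf_nonneg hc0 hs.1 (lt_of_le_of_lt hs.2 hs1)
    have k0 := mul_le_mul_of_nonneg_right hΓ j0
    have k1 : (F - A) * (∫ s in s1..1, qf a ζ c0 s) ≤ Gam a ζ c0 * ∫ s in s1..1, qf a ζ c0 s :=
      mul_le_mul_of_nonneg_right (by linarith only [hA, hF1]) j1
    nlinarith only [hI, key, hlate, k0, k1]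
  · intro s hs
    have hs01 : 0 ≤ s := hs.1.le
    have hs11 : s < 1 := lt_of_le_of_lt hs.2 hs1
    left
    have hB := Bf_pos hτ0 hs01 hs11
    refine ⟨Bf τ s, hB, ?_, ?_⟩
    · unfold Bf
      have hT : 0 < TT (kap a ζ) s := TT_pos hκ0 hs01 hs11
      have hTκ : kap a ζ ≤ TT (kap a ζ) s := by
        unfold TT
        nlinarith only [hs0, hs1, hκ1, hs11]
      rw [div_le_div_iff₀ (by have : 0 < 1 - s := by linarith
                              positivity) (by linarith)]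
      have h1 : 0 ≤ (1 + s * τ) * (1 - s) := mul_nonneg (by positivity) (by linarith)
      have := mul_le_mul_of_nonneg_right hTκ h1
      nlinarith only [this]
    · have hpr : gf x s ≤ s * pr a ζ / TT c0 s := by
        have e : TT c0 s = 1 + s * x := by unfold TT; rw [hx]; ring
        rw [e, ← hroot]
        unfold gf
        refine div_le_div_of_nonneg_right ?_ (by positivity)
        refine mul_le_mul_of_nonneg_left ?_ hs01
        have : c0 - kap a ζ = x + (1 - kap a ζ) := by rw [hx]; ring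
        rw [this]
        nlinarith only [hc1, hκ1]
      have h1 : (max (2 * Bf τ s - s * pr a ζ / TT c0 s) 0) ^ 2 ≤
          (max (2 * Bf τ s - gf x s) 0) ^ 2 :=
        pow_le_pow_left₀ (le_max_right _ _) (max_le_max (by linarith) le_rfl) 2
      have h2 : (max (2 * Bf τ s - gf x s) 0) ^ 2 = 4 * Bf τ s * Lf (Bf τ s) (gf x s) := by
        unfold Lf
        field_simp
      have h3 : Lf (Bf τ s) (gf x s) ≤ ℓ s := by
        have a1 := Lf_lip hB (gf_nonneg hx0 hs01) (gf_mono hx0 hxx hs01)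
        have a2 := gf_sub_le hx0 hxx hs01
        have a3 := Lf_anti (B := Bf τ s) hB (gf_mono hx1 hx1x hs01)
        simp only [hℓdef, lst]
        linarith only [a1, a2, a3]
      calc (max (2 * Bf τ s - s * pr a ζ / TT c0 s) 0) ^ 2 ≤
          4 * Bf τ s * Lf (Bf τ s) (gf x s) := h1.trans h2.le
        _ ≤ 4 * Bf τ s * ℓ s := mul_le_mul_of_nonneg_left h3 (by positivity)

/-- `∫ q ≥ 1/(1 + Δ + D)` -/
theorem J_ge' (h : Fr (M + 1) a ζ z) (hM : 0 < M)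
    (hmax : ∀ k, ‖u a ζ k‖ ≤ ‖u a ζ 0‖) {c0 : ℝ} (hc1 : 1 ≤ c0)
    (hroot : (c0 - 1) * (c0 - kap a ζ) = pr a ζ) (hΔ : 0 ≤ Del a ζ) :
    1 / (Del a ζ + Dall a ζ + 1) ≤ ∫ s in (0:ℝ)..1, qf a ζ c0 s := by
  have hD := Dall_nonneg h
  have hE : 0 ≤ Del a ζ + Dall a ζ := by linarith
  have h1 := int_rpow hE
  have hc : Continuous fun s : ℝ => (1 - s) ^ (Del a ζ + Dall a ζ) :=
    (continuous_const.sub continuous_id).rpow_const fun s => Or.inr hE
  have h2 : ∫ s in (0:ℝ)..1, (1 - s) ^ (Del a ζ + Dall a ζ) ≤ ∫ s in (0:ℝ)..1, qf a ζ c0 s := by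
    refine intervalIntegral.integral_mono_on_of_le_Ioo zero_le_one (hc.intervalIntegrable _ _)
      ((qf_cont a ζ c0).intervalIntegrable _ _) fun s hs => ?_
    refine le_trans ?_ (q_ge h hM hmax hc1 hroot hs.1.le hs.2)
    have p : 0 < 1 - s := by linarith [hs.2]
    rw [Real.rpow_add p]
    refine mul_le_mul_of_nonneg_right ?_ (Real.rpow_nonneg p.le _)
    rw [Real.rpow_def_of_pos p]
    rw [Real.exp_le_exp]
    have := Real.log_le_sub_one_of_pos p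
    nlinarith only [hΔ, this]
  rw [← h1]
  exact h2

/-- **the final contradiction** -/
theorem final (h : Fr (M + 1) a ζ z) (hM : 0 < M)
    (hmax : ∀ k, ‖u a ζ k‖ ≤ ‖u a ζ 0‖) {c0 F A : ℝ} (hc1 : 1 ≤ c0)
    (hroot : (c0 - 1) * (c0 - kap a ζ) = pr a ζ) (hΔ : 8 ≤ Del a ζ) (hFA : 1 / 50 ≤ F - A)
    (hA : A ≤ 4) (hF : Dall a ζ - 5 / 2 ≤ F)
    (hcore : (F - A) * (∫ s in (0:ℝ)..1, qf a ζ c0 s) ≤ a * ∏ k, ‖u a ζ k‖) : False := by
  have hJ := J_ge' h hM hmax hc1 hroot (by linarith only [hΔ])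
  have hD := Dall_nonneg h
  rw [h.prod_t] at hcore
  have ha := h.a1
  have ha0 := h.a0
  have hFA0 : 0 < F - A := by linarith only [hFA, ha, ha0]
  have hden : 0 < Del a ζ + Dall a ζ + 1 := by linarith only [hΔ, hD, ha, ha0]
  have h1 : (F - A) * (1 / (Del a ζ + Dall a ζ + 1)) ≤ a * Real.exp (-Del a ζ) :=
    (mul_le_mul_of_nonneg_left hJ hFA0.le).trans hcore
  have h2 : a * Real.exp (-Del a ζ) < Real.exp (-Del a ζ) := by
    have := Real.exp_pos (-Del a ζ)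
    nlinarith only [ha, this]
  have h3 : (F - A) < Real.exp (-Del a ζ) * (Del a ζ + Dall a ζ + 1) := by
    have := lt_of_le_of_lt h1 h2
    rw [mul_one_div, div_lt_iff₀ hden] at this
    exact this
  have h4 : (F - A) * Real.exp (Del a ζ) < Del a ζ + Dall a ζ + 1 := by
    have h5 := mul_lt_mul_of_pos_right h3 (Real.exp_pos (Del a ζ))
    have e : Real.exp (-Del a ζ) * (Del a ζ + Dall a ζ + 1) * Real.exp (Del a ζ) =
        Del a ζ + Dall a ζ + 1 := by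
      have : Real.exp (-Del a ζ) * Real.exp (Del a ζ) = 1 := by
        rw [← Real.exp_add]; simp
      calc _ = (Real.exp (-Del a ζ) * Real.exp (Del a ζ)) * (Del a ζ + Dall a ζ + 1) := by ring
        _ = _ := by rw [this, one_mul]
    rw [e] at h5
    exact h5
  have h8 : (2900 : ℝ) * (1 + (Del a ζ - 8)) ≤ Real.exp (Del a ζ) := by
    have e1 : Real.exp (Del a ζ) = Real.exp 8 * Real.exp (Del a ζ - 8) := by
      rw [← Real.exp_add]; congr 1; ring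
    have e2 : (2900 : ℝ) ≤ Real.exp 8 := by
      have e3 : Real.exp 8 = Real.exp 1 ^ 8 := by
        rw [← Real.exp_nat_mul]; norm_num
      rw [e3]
      have e4 : (2.7182818283 : ℝ) ^ 8 ≤ Real.exp 1 ^ 8 :=
        pow_le_pow_left₀ (by norm_num) Real.exp_one_gt_d9.le 8
      refine le_trans ?_ e4
      norm_num
    have e5 := Real.add_one_le_exp (Del a ζ - 8)
    rw [e1]
    have e6 : (0:ℝ) ≤ 1 + (Del a ζ - 8) := by linarith only [hΔ, ha, ha0]
    calc (2900 : ℝ) * (1 + (Del a ζ - 8)) ≤ Real.exp 8 * (1 + (Del a ζ - 8)) :=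
          mul_le_mul_of_nonneg_right e2 e6
      _ ≤ Real.exp 8 * Real.exp (Del a ζ - 8) :=
          mul_le_mul_of_nonneg_left (by linarith only [e5]) (Real.exp_pos 8).le
  rcases le_total (Dall a ζ) 40 with h9 | h9
  · have : 1 / 50 * (2900 * (1 + (Del a ζ - 8))) ≤ (F - A) * Real.exp (Del a ζ) :=
      mul_le_mul hFA h8 (by linarith only [hΔ, ha, ha0]) hFA0.le
    linarith only [hΔ, ha, ha0, h4, h9, this]
  · have h10 : Dall a ζ / 2 ≤ F - A := by linarith only [hA, hF, ha, ha0, h9]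
    have : Dall a ζ / 2 * (2900 * (1 + (Del a ζ - 8))) ≤ (F - A) * Real.exp (Del a ζ) :=
      mul_le_mul h10 h8 (by linarith only [hΔ, ha, ha0]) hFA0.le
    nlinarith only [ha, ha0, h4, h9, this, hΔ, hD]

end Frame

end Pool.Agent.Lib.MP_172a45_an.F.H69
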