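import Pool.Agent.Lib.MP_172a45_an.F.H69.Base

set_option autoImplicit false

/-!
# Lower bounds of `D_S` used by the cells of part L-b

All in the form `C ≤ (1 - a²) t₀ D_S`.
-/

namespace Pool.Agent.Lib.MP_172a45_an.F.H69

open Finset Real
open Pool.Agent.Lib.MP_172a45_an.F.Fr
open Pool.Agent.Lib.MP_172a45_an.L

/-- `log z ≤ (z - 1/z)/2` -/
theorem log_le_half {z : ℝ} (hz : 1 ≤ z) : Real.log z ≤ (z - z⁻¹) / 2 := by
  have h0 : 0 < z := by linarith only [hz]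
  have h1 := Real.self_le_sinh_iff.2 (Real.log_nonneg hz)
  rw [Real.sinh_eq, Real.exp_log h0, Real.exp_neg, Real.exp_log h0] at h1
  exact h1

/-- `z ψ(z) ≤ (z - 1)²/2` -/
theorem z_psi_le {z : ℝ} (hz : 1 ≤ z) : z * psi z ≤ (z - 1) ^ 2 / 2 := by
  have h0 : 0 < z := by linarith
  have h1 := log_le_half hz
  unfold psi
  have h2 := mul_le_mul_of_nonneg_left h1 h0.le
  have e1 : z * ((z - z⁻¹) / 2) = (z ^ 2 - 1) / 2 := by field_simp
  have e2 : z * (Real.log z - 1 + z⁻¹) = z * Real.log z - z + 1 := by field_simp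
  rw [e1] at h2
  rw [e2]
  have e3 : (z - 1) ^ 2 / 2 = (z ^ 2 - 1) / 2 - z + 1 := by ring
  rw [e3]
  linarith only [h2]

section Frame

variable {M : ℕ} {a : ℝ} {ζ z : Fin (M + 1) → ℂ}

/-- first moment form -/
theorem DS_T (h : Fr (M + 1) a ζ z) (hmax : ∀ k, ‖u a ζ k‖ ≤ ‖u a ζ 0‖) {v G n : ℝ}
    (hv0 : 0 ≤ v) (hv2 : v ≤ 2) (hvt : 1 + v ≤ (1 + a) * ‖u a ζ 0‖) (hn0 : 0 ≤ n)
    (hn : a * (M + 1) ≤ (n + 1) * ((1 + a) * ‖u a ζ 0‖ - 1)) (hG : G ≤ GS a ζ) :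
    (1 + v) * G - n * v ^ 2 / 4 ≤ (1 - a ^ 2) * ‖u a ζ 0‖ * DS a ζ := by
  have ha0 := h.a0
  have ha1 := h.a1
  have ht := t0_ge_one h hmax
  have hx := h.m_pos
  set t := ‖u a ζ 0‖ with htdef
  have h1a : 1 < (1 + a) * t := one_lt_at ha0 ht
  have hb : 0 < 1 - a := by linarith
  have hTb : 1 - a < (1 - a ^ 2) * t := by
    have e : (1 - a ^ 2) * t = (1 - a) * ((1 + a) * t) := by ring
    rw [e]
    have := mul_lt_mul_of_pos_left h1a hb
    linarith only [this]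
  have hT0 : 0 < (1 - a ^ 2) * t := by linarith
  have key := DS_ge_T h (T := (1 - a ^ 2) * t) (z := 1 + v) (G := G) (fun k => by
      have : ‖ut a ζ k‖ ≤ t := hmax k.succ
      exact mul_le_mul_of_nonneg_left this hx.le) hTb (by linarith) (by linarith)
    (by
      have e : (1 - a ^ 2) * t = (1 - a) * ((1 + a) * t) := by ring
      rw [e]
      have := mul_le_mul_of_nonneg_left hvt hb.le
      linarith) hG
  rw [← htdef] at key
  have e1 : (1 - a ^ 2) * (M + 1 - t) - M * (1 - a) =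
      (1 - a) * (a * (M + 1) - ((1 + a) * t - 1)) := by ring
  have e2 : (1 - a ^ 2) * t - (1 - a) = (1 - a) * ((1 + a) * t - 1) := by ring
  have p1 : 0 < (1 + a) * t - 1 := by linarith only [h1a]
  have e3 : ((1 - a ^ 2) * (M + 1 - t) - M * (1 - a)) / ((1 - a ^ 2) * t - (1 - a)) =
      (a * (M + 1) - ((1 + a) * t - 1)) / ((1 + a) * t - 1) := by
    rw [e1, e2, mul_div_mul_left _ _ hb.ne']
  have h4 : (a * (M + 1) - ((1 + a) * t - 1)) / ((1 + a) * t - 1) ≤ n := by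
    rw [div_le_iff₀ p1]
    linarith only [hn]
  have h5 := z_psi_le (by linarith only [hv0] : (1:ℝ) ≤ 1 + v)
  have h6 : 0 ≤ (1 + v) * psi (1 + v) :=
    mul_nonneg (by linarith only [hv0, ha0, ha1]) (psi_nonneg (by linarith only [hv0, ha0, ha1]))
  have h7 : (1 + v) * psi (1 + v) * (((1 - a ^ 2) * (M + 1 - t) - M * (1 - a)) /
      ((1 - a ^ 2) * t - (1 - a))) ≤ v ^ 2 / 2 * n := by
    rw [e3]
    have h8 : (1 + v) * psi (1 + v) ≤ v ^ 2 / 2 := by
      have : (1 + v - 1) ^ 2 / 2 = v ^ 2 / 2 := by ring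
      rw [this] at h5; exact h5
    calc (1 + v) * psi (1 + v) * ((a * (M + 1) - ((1 + a) * t - 1)) / ((1 + a) * t - 1)) ≤
        (1 + v) * psi (1 + v) * n := mul_le_mul_of_nonneg_left h4 h6
      _ ≤ v ^ 2 / 2 * n := mul_le_mul_of_nonneg_right h8 hn0
  have h9 := mul_le_mul_of_nonneg_left key hT0.le
  refine le_trans ?_ h9
  have e4 : (1 - a ^ 2) * t * ((1 + v) / ((1 - a ^ 2) * t) * (G - 1 / 2 * (psi (1 + v) *
      (((1 - a ^ 2) * (M + 1 - t) - M * (1 - a)) / ((1 - a ^ 2) * t - (1 - a)))))) =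
      (1 + v) * G - 1 / 2 * ((1 + v) * psi (1 + v) *
      (((1 - a ^ 2) * (M + 1 - t) - M * (1 - a)) / ((1 - a ^ 2) * t - (1 - a)))) := by
    field_simp
  rw [e4]
  linarith only [h7]

/-- `G ≤ GS`, with `κ₁ = 1 + X₀/2` -/
theorem GS_box (h : Fr (M + 1) a ζ z) (hmax : ∀ k, ‖u a ζ k‖ ≤ ‖u a ζ 0‖) {X0 G E : ℝ}
    (hX0 : (1 - a ^ 2) * ‖u a ζ 0‖ - (1 - a) ≤ X0) (hX00 : 0 ≤ X0) (hE : Real.exp G ≤ E)
    (hG : E * (1 + X0) + 1 / 2 * ((1 + X0 / 2) * G) ≤
      1 + (1 - a) * (M + 1) * (2 + 2 * a - a ^ 2) / 2 - 1 / 2 * X0) : G ≤ GS a ζ := by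
  have hx := h.m_pos
  refine GS_ge' h (X0 := X0) (X := X0) (κ1 := 1 + X0 / 2) hX0 hX00 (fun k => ?_) ?_ (by positivity)
    (le_trans (add_le_add ?_ le_rfl) hG)
  · have : ‖u a ζ k.succ‖ ≤ ‖u a ζ 0‖ := hmax k.succ
    have := mul_le_mul_of_nonneg_left this hx.le
    linarith only [hX0, this]
  · -- `X ≤ (1 + X/2) log (1 + X)`
    have h1 : (0:ℝ) < 1 + X0 := by linarith only [hX00]
    have h2 : 2 * X0 / (X0 + 2) ≤ Real.log (1 + X0) := Real.le_log_one_add_of_nonneg hX00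
    have h3 := mul_le_mul_of_nonneg_left h2 (by linarith only [hX00] : 0 ≤ 1 + X0 / 2)
    refine le_trans (le_of_eq ?_) h3
    field_simp
    ring
  · exact mul_le_mul_of_nonneg_right hE (by linarith only [hX00])

/-- the real inequality of the monotone form -/
theorem mono_aux {g0 g1 n1 n ν L P : ℝ} (hν : 1 ≤ ν) (hL : 1 - ν⁻¹ ≤ L) (hn1 : 0 < n1)
    (hn : n = (n1 + 1) * ν - 1) (hP : P = 2 * g0 * g1 - g0 ^ 2) (hPn : P ≤ n1)
    (hg0 : g0 = 0 ∨ 1 ≤ 2 * g0) :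
    g1 + P / n1 ≤ g1 + L + (2 * g0 * (g1 + L) - g0 ^ 2) / n := by
  have hν0 : 0 < ν := by linarith only [hν]
  have hL0 : 0 ≤ L := by
    have : ν⁻¹ ≤ 1 := inv_le_one_of_one_le₀ hν
    linarith only [hL, this]
  rcases hg0 with hg | hg
  · have : P = 0 := by rw [hP, hg]; ring
    rw [this, hg]
    simp
    exact hL0
  have hnn : n1 ≤ n := by
    rw [hn]
    have := mul_nonneg (by linarith only [hn1] : 0 ≤ n1 + 1) (by linarith : 0 ≤ ν - 1)
    linarith
  have hn0 : 0 < n := by linarith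
  -- `P/n1 - P/n = P (n - n1)/(n n1)`
  have e1 : (2 * g0 * (g1 + L) - g0 ^ 2) / n = P / n + 2 * g0 * L / n := by
    rw [hP]; ring
  rw [e1]
  have e2 : P / n1 = P / n + P * (n - n1) / (n * n1) := by
    field_simp
    ring
  rw [e2]
  have h1 : P * (n - n1) / (n * n1) ≤ (n - n1) / n := by
    rw [div_le_div_iff₀ (by positivity) hn0]
    have h0 : P * ((n - n1) * n) ≤ n1 * ((n - n1) * n) :=
      mul_le_mul_of_nonneg_right hPn (mul_nonneg (by linarith only [hnn]) hn0.le)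
    calc P * (n - n1) * n = P * ((n - n1) * n) := by ring
      _ ≤ n1 * ((n - n1) * n) := h0
      _ = (n - n1) * (n * n1) := by ring
  have h2 : (n - n1) / n ≤ L + 2 * g0 * L / n := by
    rw [div_le_iff₀ hn0]
    have e3 : (L + 2 * g0 * L / n) * n = L * (n + 2 * g0) := by field_simp
    rw [e3]
    have h3 : (1 - ν⁻¹) * (n + 2 * g0) ≤ L * (n + 2 * g0) :=
      mul_le_mul_of_nonneg_right hL (by linarith only [hn1, hg, hnn])
    refine le_trans ?_ h3
    have h4 : (1 - ν⁻¹) * ((n1 + 1) * ν) ≤ (1 - ν⁻¹) * (n + 2 * g0) := by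
      refine mul_le_mul_of_nonneg_left ?_ ?_
      · rw [hn]; linarith only [hg]
      · have : ν⁻¹ ≤ 1 := inv_le_one_of_one_le₀ hν
        linarith only [this]
    refine le_trans (le_of_eq ?_) h4
    rw [hn]
    field_simp
    ring
  linarith only [h1, h2]

/-- monotone form: all `N ≥ N₁` -/
theorem DS_M (h : Fr (M + 1) a ζ z) (hmax : ∀ k, ‖u a ζ k‖ ≤ ‖u a ζ 0‖) {X0 g0 g1 n1 E N1 : ℝ}
    (hN1 : 0 < N1) (hN : N1 ≤ M + 1)
    (hX0 : (1 - a ^ 2) * ‖u a ζ 0‖ - (1 - a) ≤ X0) (hX00 : 0 ≤ X0) (hE : Real.exp g1 ≤ E)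
    (hG : E * (1 + X0) + 1 / 2 * ((1 + X0 / 2) * g1) ≤
      1 + (1 - a) * N1 * (2 + 2 * a - a ^ 2) / 2 - 1 / 2 * X0)
    (hm : 0 ≤ 1 / 2 * (1 + X0 / 2) * (g1 - 1) + 1 / 2 * X0 - 1) (hn1 : 0 < n1)
    (hn : a * N1 ≤ (n1 + 1) * ((1 + a) * ‖u a ζ 0‖ - 1))
    (hPn : 2 * g0 * g1 - g0 ^ 2 ≤ n1)
    (hg0 : g0 = 0 ∨ 1 ≤ 2 * g0) (hgn : g0 ≤ n1) (hg00 : 0 ≤ g0)
    (hvt : 1 + 2 * g0 / n1 ≤ (1 + a) * ‖u a ζ 0‖) :
    g1 + (2 * g0 * g1 - g0 ^ 2) / n1 ≤ (1 - a ^ 2) * ‖u a ζ 0‖ * DS a ζ := by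
  have ha0 := h.a0
  have ha1 := h.a1
  have ht := t0_ge_one h hmax
  have hx := h.m_pos
  set t := ‖u a ζ 0‖ with htdef
  have h1a : 1 < (1 + a) * t := one_lt_at ha0 ht
  obtain ⟨ν, hν⟩ : ∃ ν : ℝ, ν = (M + 1) / N1 := ⟨_, rfl⟩
  have hν1 : 1 ≤ ν := by rw [hν, le_div_iff₀ hN1]; linarith only [hN]
  have hν0 : 0 < ν := by linarith only [ha0, ha1, hν1]
  have hνN : ν * N1 = M + 1 := by rw [hν]; field_simp
  have hL := Real.one_sub_inv_le_log_of_pos hν0
  have hL2 := Real.log_le_sub_one_of_pos hν0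
  set L := Real.log ν with hLdef
  have hL0 : 0 ≤ L := Real.log_nonneg hν1
  -- `g₁ + L ≤ GS`
  have hGS : g1 + L ≤ GS a ζ := by
    refine GS_box h hmax (E := ν * E) hX0 hX00 ?_ ?_
    · rw [Real.exp_add, hLdef, Real.exp_log hν0, mul_comm]
      exact mul_le_mul_of_nonneg_left hE hν0.le
    · rw [← hνN]
      have h1 := mul_le_mul_of_nonneg_left hG hν0.le
      have h2 := mul_nonneg (by linarith only [hν1] : 0 ≤ ν - 1) hm
      have h3 : 1 / 2 * (1 + X0 / 2) * L ≤ 1 / 2 * (1 + X0 / 2) * (ν - 1) :=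
        mul_le_mul_of_nonneg_left hL2 (by positivity)
      linarith only [h1, h2, h3]
  obtain ⟨n, hndef⟩ : ∃ n : ℝ, n = (n1 + 1) * ν - 1 := ⟨_, rfl⟩
  have hnn : n1 ≤ n := by
    rw [hndef]
    have := mul_nonneg (by linarith only [hn1, ha0,
        ha1] : 0 ≤ n1 + 1) (by linarith only [hν1] : 0 ≤ ν - 1)
    linarith only [this]
  have hn0 : 0 < n := by linarith only [hn1, hnn]
  have hv : 2 * g0 / n ≤ 2 * g0 / n1 :=
    div_le_div_of_nonneg_left (by positivity) hn1 hnn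
  have hv2 : 2 * g0 / n1 ≤ 2 := by
    rw [div_le_iff₀ hn1]; linarith only [hgn]
  have key := DS_T h hmax (v := 2 * g0 / n) (G := g1 + L) (n := n) (by positivity) (by linarith only [hv, hv2])
    (by rw [← htdef]; linarith only [hvt, hv]) hn0.le (by
      rw [← htdef, ← hνN, hndef]
      have := mul_le_mul_of_nonneg_left hn hν0.le
      linarith only [this]) hGS
  rw [← htdef] at key
  refine le_trans ?_ key
  have h5 := mono_aux hν1 hL hn1 hndef rfl hPn hg0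
  refine h5.trans (le_of_eq ?_)
  field_simp
  ring

/-! ### `Δ` form -/

/-- `(t - 1)² g(t₀) ≤ (t₀ - 1)² g(t)` for `1 ≤ t ≤ t₀` -/
theorem gg1_ratio {t t0 : ℝ} (h1 : 1 ≤ t) (h2 : t ≤ t0) :
    (t - 1) ^ 2 * gg1 t0 ≤ (t0 - 1) ^ 2 * gg1 t := by
  rcases eq_or_lt_of_le h1 with h | h
  · rw [← h]
    unfold gg1
    simp
  have hanti : AntitoneOn (fun y => gg1 y / (y - 1) ^ 2) (Set.Icc t t0) := by
    have hd : ∀ y : ℝ, 1 < y → HasDerivAt (fun y => gg1 y / (y - 1) ^ 2)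
        (((1 - y⁻¹) * (y - 1) ^ 2 - gg1 y * (2 * (y - 1))) / ((y - 1) ^ 2) ^ 2) y := by
      intro y hy
      have hy0 : y ≠ 0 := by linarith
      have a1 : HasDerivAt gg1 (1 - y⁻¹) y := by
        have := ((hasDerivAt_id y).sub_const 1).sub (Real.hasDerivAt_log hy0)
        exact this
      have a2 : HasDerivAt (fun y : ℝ => (y - 1) ^ 2) (2 * (y - 1)) y := by
        have := ((hasDerivAt_id y).sub_const 1).pow 2
        refine this.congr_deriv ?_
        simp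
      have := a1.div a2 (by
        have : 0 < y - 1 := by linarith
        positivity)
      exact this
    refine antitoneOn_of_deriv_nonpos (convex_Icc t t0) ?_ ?_ ?_
    · intro y hy
      exact (hd y (lt_of_lt_of_le h hy.1)).continuousAt.continuousWithinAt
    · intro y hy
      rw [interior_Icc] at hy
      exact (hd y (h.trans hy.1)).differentiableAt.differentiableWithinAt
    · intro y hy
      rw [interior_Icc] at hy
      have hy1 : 1 < y := h.trans hy.1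
      rw [(hd y hy1).deriv]
      refine div_nonpos_of_nonpos_of_nonneg ?_ (by positivity)
      have h3 := log_le_half hy1.le
      have hy0 : 0 < y := by linarith
      have e1 : (1 - y⁻¹) * (y - 1) ^ 2 - gg1 y * (2 * (y - 1)) =
          (y - 1) * ((1 - y⁻¹) * (y - 1) - 2 * gg1 y) := by ring
      rw [e1]
      refine mul_nonpos_of_nonneg_of_nonpos (by linarith only [hy1]) ?_
      unfold gg1
      have e2 : (1 - y⁻¹) * (y - 1) = y - 2 + y⁻¹ := by field_simp; ring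
      rw [e2]
      linarith only [h3]
  have h3 := hanti (Set.left_mem_Icc.2 h2) (Set.right_mem_Icc.2 h2) h2
  simp only at h3
  have p1 : 0 < (t - 1) ^ 2 := by
    have : 0 < t - 1 := by linarith
    positivity
  have p2 : 0 < (t0 - 1) ^ 2 := by
    have : 0 < t0 - 1 := by linarith
    positivity
  rw [div_le_div_iff₀ p2 p1] at h3
  linarith

/-- the polynomial inequality -/
theorem poly_D {z w t : ℝ} (hw : 1 ≤ w) (hwz : w ≤ z) (ht : 1 ≤ t)
    (hz : z * (t + 1) ≤ 3 * t - 1) :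
    z ^ 3 * (w - 1) ^ 2 * (t - 1) ^ 2 ≤ (z - 1) ^ 2 * (w * t - z) ^ 2 * w := by
  set K : ℝ → ℝ := fun w => -((z - 1) ^ 2 * t ^ 2 * w ^ 2) +
    ((t - 1) ^ 2 * z ^ 3 - (z - 1) ^ 2 * z * t * (t - 2)) * w - (t - 1) ^ 2 * z ^ 2 with hK
  have hz1 : 1 ≤ z := hw.trans hwz
  have e1 : (z - 1) ^ 2 * (w * t - z) ^ 2 * w - z ^ 3 * (w - 1) ^ 2 * (t - 1) ^ 2 =
      (z - w) * K w := by
    simp only [hK]; ring
  have k1 : K 1 = (z - 1) * (t - z) ^ 2 := by simp only [hK]; ring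
  have kz : K z = z ^ 2 * (z - 1) * (t - 1) * (3 * t - 1 - z * (t + 1)) := by
    simp only [hK]; ring
  have k1n : 0 ≤ K 1 := by
    rw [k1]; exact mul_nonneg (by linarith only [hw, hwz]) (sq_nonneg _)
  have kzn : 0 ≤ K z := by
    rw [kz]
    have : 0 ≤ z - 1 := by linarith only [hw, hwz]
    have : 0 ≤ t - 1 := by linarith only [ht]
    have : 0 ≤ 3 * t - 1 - z * (t + 1) := by linarith only [hz]
    positivity
  rcases eq_or_lt_of_le hz1 with h | h
  · have : w = 1 := le_antisymm (by rw [h]; exact hwz) hw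
    rw [this, ← h]
    simp
  have e2 : (z - 1) * K w = (z - w) * K 1 + (w - 1) * K z +
      (z - 1) ^ 2 * t ^ 2 * (w - 1) * (z - w) * (z - 1) := by
    simp only [hK]; ring
  have h3 : 0 ≤ (z - 1) * K w := by
    rw [e2]
    have a1 : 0 ≤ z - w := by linarith only [hwz]
    have a2 : 0 ≤ w - 1 := by linarith only [hw]
    have a3 : 0 ≤ z - 1 := by linarith only [h]
    positivity
  have h4 : 0 ≤ K w := by
    by_contra hcon
    push Not at hcon
    have := mul_neg_of_pos_of_neg (by linarith only [h] : 0 < z - 1) hcon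
    linarith only [h3, this]
  have h5 := mul_nonneg (by linarith only [hwz] : 0 ≤ z - w) h4
  linarith only [h5]

/-- `ψ(z t/t₀) ≤ (z-1)²/(2z) · g(t)/g(t₀)` -/
theorem psi_D {z t t0 s : ℝ} (hz1 : 1 ≤ z) (ht0 : 1 < t0) (htt : t ≤ t0)
    (hw : 1 ≤ z * t / t0) (hz : z * (t0 + 1) ≤ 3 * t0 - 1)
    (hs : (z - 1) ^ 2 ≤ 2 * z * gg1 t0 * s) :
    psi (z * t / t0) ≤ s * gg1 t := by
  have h00 : 0 < t0 := by linarith
  have hz0 : 0 < z := by linarith
  obtain ⟨w, hwdef⟩ : ∃ w : ℝ, w = z * t / t0 := ⟨_, rfl⟩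
  rw [← hwdef] at hw ⊢
  have hw0 : 0 < w := by linarith
  have htw : z * t = w * t0 := by rw [hwdef]; field_simp
  have hwz : w ≤ z := by
    rw [hwdef, div_le_iff₀ h00]
    exact mul_le_mul_of_nonneg_left htt hz0.le
  have ht1 : 1 ≤ t := by
    -- `z ≤ t₀`
    have hzt : z ≤ t0 := by
      have h1 : z * (t0 + 1) ≤ t0 * (t0 + 1) := by linarith only [hz, sq_nonneg (t0 - 1)]
      exact le_of_mul_le_mul_right h1 (by linarith)
    have : z * 1 ≤ z * t := by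
      rw [htw, mul_one]
      have : 1 * t0 ≤ w * t0 := mul_le_mul_of_nonneg_right hw h00.le
      linarith
    exact le_of_mul_le_mul_left this hz0
  have p := poly_D hw hwz ht0.le hz
  have e : w * t0 - z = z * (t - 1) := by rw [← htw]; ring
  rw [e] at p
  -- `z (w-1)² (t0-1)² ≤ (z-1)² (t-1)² w`
  have p' : z * ((w - 1) ^ 2 * (t0 - 1) ^ 2) ≤ (z - 1) ^ 2 * (t - 1) ^ 2 * w := by
    have hz2 : 0 < z ^ 2 := by positivity
    have e1 : z ^ 3 * (w - 1) ^ 2 * (t0 - 1) ^ 2 = z ^ 2 * (z * ((w - 1) ^ 2 * (t0 - 1) ^ 2)) := by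
      ring
    have e2 : (z - 1) ^ 2 * (z * (t - 1)) ^ 2 * w = z ^ 2 * ((z - 1) ^ 2 * (t - 1) ^ 2 * w) := by
      ring
    rw [e1, e2] at p
    exact le_of_mul_le_mul_left p hz2
  have hr := gg1_ratio ht1 htt
  have hψ := z_psi_le hw
  have hg0 : 0 ≤ gg1 t0 := gg1_nonneg h00
  have hgt : 0 ≤ gg1 t := gg1_nonneg (by linarith only [ht1])
  have hT : 0 < (t0 - 1) ^ 2 := by
    have : 0 < t0 - 1 := by linarith only [ht0]
    positivity
  -- multiply everything by `2 z w (t0-1)²`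
  have k1 : 2 * z * (t0 - 1) ^ 2 * (w * psi w) ≤ z * ((w - 1) ^ 2 * (t0 - 1) ^ 2) := by
    have := mul_le_mul_of_nonneg_left hψ (by positivity : 0 ≤ 2 * z * (t0 - 1) ^ 2)
    refine this.trans (le_of_eq ?_)
    ring
  have k2 : (z - 1) ^ 2 * (t - 1) ^ 2 * w ≤ 2 * z * s * w * ((t0 - 1) ^ 2 * gg1 t) := by
    have h1 : (z - 1) ^ 2 * ((t - 1) ^ 2 * w) ≤ 2 * z * gg1 t0 * s * ((t - 1) ^ 2 * w) :=
      mul_le_mul_of_nonneg_right hs (by positivity)
    have hs0 : 0 ≤ 2 * z * s * w ∨ (z - 1) ^ 2 * (t - 1) ^ 2 * w = 0 := by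
      by_cases hcs : 0 ≤ s
      · left; positivity
      · right
        push Not at hcs
        have : 2 * z * gg1 t0 * s ≤ 0 :=
          mul_nonpos_of_nonneg_of_nonpos (by positivity) hcs.le
        have : (z - 1) ^ 2 = 0 := le_antisymm (hs.trans this) (sq_nonneg _)
        rw [this]; simp
    rcases hs0 with h2 | h2
    · have h3 := mul_le_mul_of_nonneg_left hr h2
      calc (z - 1) ^ 2 * (t - 1) ^ 2 * w = (z - 1) ^ 2 * ((t - 1) ^ 2 * w) := by ring
        _ ≤ 2 * z * gg1 t0 * s * ((t - 1) ^ 2 * w) := h1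
        _ = 2 * z * s * w * ((t - 1) ^ 2 * gg1 t0) := by ring
        _ ≤ 2 * z * s * w * ((t0 - 1) ^ 2 * gg1 t) := h3
    · -- then `z = 1` or `t = 1`
      rw [h2]
      by_cases hcs : 0 ≤ s
      · positivity
      · push Not at hcs
        have h4 : 2 * z * gg1 t0 * s ≤ 0 :=
          mul_nonpos_of_nonneg_of_nonpos (by positivity) hcs.le
        have h5 : 2 * z * gg1 t0 * s = 0 := le_antisymm h4 ((sq_nonneg _).trans hs)
        have h6 : gg1 t0 = 0 := by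
          have h7 : gg1 t0 * (2 * z * s) = 0 := by linarith only [h5, h4]
          rcases mul_eq_zero.1 h7 with h8 | h8
          · exact h8
          · exfalso
            have : 2 * z * s < 0 := mul_neg_of_pos_of_neg (by positivity) hcs
            linarith only [h8, this]
        exfalso
        have h9 := Real.log_lt_sub_one_of_pos h00 (by linarith only [ht0] : t0 ≠ 1)
        unfold gg1 at h6
        linarith only [h6, h9]
  have k3 : (2 * z * (t0 - 1) ^ 2 * w) * psi w ≤ (2 * z * (t0 - 1) ^ 2 * w) * (s * gg1 t) := by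
    calc (2 * z * (t0 - 1) ^ 2 * w) * psi w = 2 * z * (t0 - 1) ^ 2 * (w * psi w) := by ring
      _ ≤ z * ((w - 1) ^ 2 * (t0 - 1) ^ 2) := k1
      _ ≤ (z - 1) ^ 2 * (t - 1) ^ 2 * w := p'
      _ ≤ 2 * z * s * w * ((t0 - 1) ^ 2 * gg1 t) := k2
      _ = (2 * z * (t0 - 1) ^ 2 * w) * (s * gg1 t) := by ring
  exact le_of_mul_le_mul_left k3 (by positivity)

/-- `Δ` form -/
theorem DS_D (h : Fr (M + 1) a ζ z) (hmax : ∀ k, ‖u a ζ k‖ ≤ ‖u a ζ 0‖) {v G n : ℝ}
    (hv0 : 0 ≤ v) (ht1 : 1 < ‖u a ζ 0‖) (hvt : v * (‖u a ζ 0‖ + 1) ≤ 2 * (‖u a ζ 0‖ - 1))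
    (hn : Del a ζ ≤ (n + 1) * gg1 ‖u a ζ 0‖) (hG : G ≤ GS a ζ) :
    (1 + v) * G - n * v ^ 2 / 4 ≤ (1 - a ^ 2) * ‖u a ζ 0‖ * DS a ζ := by
  have hx := h.m_pos
  have hcopy : ‖u a ζ 0‖ = ‖u a ζ 0‖ := rfl
  obtain ⟨t, htdef⟩ : ∃ t : ℝ, t = ‖u a ζ 0‖ := ⟨_, rfl⟩
  rw [← htdef] at ht1 hvt hn ⊢
  have ht0 : 0 < t := by linarith
  have hg : 0 < gg1 t := by
    have := Real.log_lt_sub_one_of_pos ht0 (by linarith : t ≠ 1)
    unfold gg1
    linarith
  have hT0 : 0 < (1 - a ^ 2) * t := by positivity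
  obtain ⟨s, hs⟩ : ∃ s : ℝ, s = v ^ 2 / (2 * (1 + v) * gg1 t) := ⟨_, rfl⟩
  have hs0 : 0 ≤ s := by rw [hs]; positivity
  have hs' : (1 + v - 1) ^ 2 ≤ 2 * (1 + v) * gg1 t * s := by
    rw [hs]
    refine le_of_eq ?_
    field_simp
    ring
  have hsum : ∑ k : Fin M, gg1 ‖ut a ζ k‖ ≤ n * gg1 t := by
    have h1 := sum_g h
    rw [Fin.sum_univ_succ, ← htdef] at h1
    have h2 : ∑ k : Fin M, gg1 ‖ut a ζ k‖ =
        ∑ k : Fin M, (‖u a ζ k.succ‖ - 1 - Real.log ‖u a ζ k.succ‖) := rfl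
    have h3 : gg1 t = t - 1 - Real.log t := rfl
    rw [h2]
    have e : (n + 1) * gg1 t = n * gg1 t + gg1 t := by ring
    rw [e] at hn
    linarith only [hn, h1, h3]
  have key := DS_ge h (l := (1 + v) / ((1 - a ^ 2) * t)) (Ψ := s * (n * gg1 t)) (G := G)
    (by positivity) hG (by
      refine le_trans ?_ (mul_le_mul_of_nonneg_left hsum hs0)
      rw [Finset.mul_sum]
      refine Finset.sum_le_sum fun k _ => ?_
      have e : (1 + v) / ((1 - a ^ 2) * t) * (1 - a ^ 2) * ‖ut a ζ k‖ =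
          (1 + v) * ‖ut a ζ k‖ / t := by field_simp
      rw [e]
      have hk : ‖ut a ζ k‖ ≤ t := by rw [htdef]; exact hmax k.succ
      unfold psip
      split_ifs with hw
      · exact psi_D (by linarith only [hv0]) ht1 hk hw (by linarith only [hvt]) hs'
      · have : 0 < ‖ut a ζ k‖ := norm_pos_iff.2 (h.u_ne k.succ)
        exact mul_nonneg hs0 (gg1_nonneg this))
  have h9 := mul_le_mul_of_nonneg_left key hT0.le
  refine le_trans (le_of_eq ?_) h9
  rw [hs]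
  field_simp
  ring

/-- small `b` form (`v = 0`): `D° ≤ D_S` -/
theorem DS_S (h : Fr (M + 1) a ζ z) (hmax : ∀ k, ‖u a ζ k‖ ≤ ‖u a ζ 0‖) {b2 t2 N1 Do u0 X0 : ℝ}
    (hb : 1 - a ≤ b2) (hb2 : b2 ≤ 1) (ht : ‖u a ζ 0‖ ≤ t2) (hN : N1 ≤ M + 1) (hDo : 0 ≤ Do)
    (hu0 : 2 * Do * b2 * t2 ≤ u0) (hu1 : u0 ≤ 1) (hX0 : b2 * (2 * t2 - 1) ≤ X0)
    (hk : 3 * (2 * t2 - 1) + 2 * t2 * (1 + u0) * Do * (3 + 5 / 2 * X0) ≤ N1 * (3 - b2 ^ 2)) :
    Do ≤ DS a ζ := by
  have ha0 := h.a0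
  have ha1 := h.a1
  have hx := h.m_pos
  have ht1 := t0_ge_one h hmax
  obtain ⟨t, htdef⟩ : ∃ t : ℝ, t = ‖u a ζ 0‖ := ⟨_, rfl⟩
  rw [← htdef] at ht ht1
  obtain ⟨b, hbdef⟩ : ∃ b : ℝ, b = 1 - a := ⟨_, rfl⟩
  rw [← hbdef] at hb
  have hb0 : 0 < b := by linarith only [ha1, hbdef]
  have ht0 : 0 < t := by linarith only [ha0, ha1, ht1]
  obtain ⟨y, hy⟩ : ∃ y : ℝ, y = (1 - a ^ 2) * t := ⟨_, rfl⟩
  have hy0 : 0 < y := by rw [hy]; positivity
  have hyb : y = b * (2 - b) * t := by rw [hy, hbdef]; ring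
  have hyle : y ≤ 2 * b * t := by
    rw [hyb]
    have : 0 < b * b * t := by positivity
    linarith only [this]
  -- `u = D° y`
  have hu : Do * y ≤ 2 * Do * b * t := by
    have := mul_le_mul_of_nonneg_left hyle hDo
    linarith only [this]
  have hbt : b * t ≤ b2 * t2 := mul_le_mul hb ht ht0.le (by linarith only [ha1, hb, hbdef])
  have huu : 2 * Do * b * t ≤ u0 := by
    have := mul_le_mul_of_nonneg_left hbt (by linarith only [hDo] : 0 ≤ 2 * Do)
    linarith only [hu0, this]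
  have hu00 : 0 ≤ u0 := by
    have : 0 ≤ 2 * Do * b * t := by positivity
    linarith only [huu, this]
  have hX : y - b ≤ X0 := by
    have h1 : y - b ≤ b * (2 * t - 1) := by linarith only [hyle]
    have h2 : b * (2 * t - 1) ≤ b2 * (2 * t2 - 1) :=
      mul_le_mul hb (by linarith only [ht]) (by linarith only [ha0, ha1,
          ht1]) (by linarith only [ha1, hb, hbdef])
    linarith only [hX0, hyle, h2]
  have hyb0 : 0 ≤ y - b := by
    have h1 : 1 ≤ (2 - b) * t := by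
      have := mul_nonneg (by linarith only [ha0, hbdef] : 0 ≤ 1 - b) (by linarith only [ha0, ha1,
          ht1] : 0 ≤ t)
      linarith only [ht1, this]
    have := mul_le_mul_of_nonneg_left h1 hb0.le
    rw [hyb]
    linarith only [this]
  -- `e^u ≤ 1 + u (1 + u₀)`
  have hDy0 : 0 ≤ Do * y := mul_nonneg hDo hy0.le
  have hexp : Real.exp (Do * y) ≤ 1 + Do * y * (1 + u0) := by
    have h1 : |Do * y| ≤ 1 := by
      rw [abs_of_nonneg hDy0]; linarith only [hu1, hu, huu]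
    have h2 := Real.abs_exp_sub_one_sub_id_le h1
    have h3 := (abs_le.1 h2).2
    have h4 : (Do * y) ^ 2 ≤ Do * y * u0 := by
      rw [sq]
      exact mul_le_mul_of_nonneg_left (by linarith only [hu, huu]) hDy0
    linarith only [h3, h4]
  have hG : Do * y ≤ GS a ζ := by
    refine GS_box h hmax (X0 := y - b) ?_ hyb0 hexp ?_
    · rw [← htdef, ← hy, ← hbdef]
    · have e1 : (2 + 2 * a - a ^ 2) = 3 - b ^ 2 := by rw [hbdef]; ring
      rw [e1, ← hbdef]
      have h1 : N1 * (3 - b2 ^ 2) ≤ (M + 1) * (3 - b ^ 2) := by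
        have h2 : b ^ 2 ≤ b2 ^ 2 := pow_le_pow_left₀ hb0.le hb 2
        have h3 : b2 ^ 2 ≤ 1 := pow_le_one₀ (hb0.le.trans hb) hb2
        exact mul_le_mul hN (by linarith only [h2]) (by linarith only [ha0, ha1,
            h3]) (by linarith only [ha0, ha1])
      have h4 : b * (N1 * (3 - b2 ^ 2)) ≤ b * ((M + 1) * (3 - b ^ 2)) :=
        mul_le_mul_of_nonneg_left h1 hb0.le
      have h5 := mul_le_mul_of_nonneg_left hk hb0.le
      -- left side
      have h6 : b * (3 * (2 * t - 1)) ≤ b * (3 * (2 * t2 - 1)) :=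
        mul_le_mul_of_nonneg_left (by linarith only [ht]) hb0.le
      have h7 : Do * y * (1 + u0) * (3 + 5 / 2 * (y - b)) ≤
          b * (2 * t2 * (1 + u0) * Do * (3 + 5 / 2 * X0)) := by
        have h8 : Do * y ≤ 2 * Do * b * t2 := by
          have : 2 * Do * b * t ≤ 2 * Do * b * t2 :=
            mul_le_mul_of_nonneg_left ht (by positivity)
          linarith only [hu, this]
        have h9 : Do * y * (1 + u0) ≤ 2 * Do * b * t2 * (1 + u0) :=
          mul_le_mul_of_nonneg_right h8 (by linarith only [ha0, ha1, hu00])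
        have h10 : Do * y * (1 + u0) * (3 + 5 / 2 * (y - b)) ≤
            2 * Do * b * t2 * (1 + u0) * (3 + 5 / 2 * X0) :=
          mul_le_mul h9 (by linarith only [hX]) (by linarith only [ha0, ha1, hbdef, hy0])
            (by
              have : 0 ≤ t2 := by linarith only [ha0, ha1, ht1, ht]
              have : 0 ≤ 1 + u0 := by linarith only [ha0, ha1, hu00]
              positivity)
        linarith only [h10]
      have h11 : y - b ≤ b * (2 * t - 1) := by linarith only [hyle]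
      have h12 : 0 ≤ Do * y * u0 := mul_nonneg hDy0 hu00
      have h13 : 0 ≤ Do * y * u0 * (y - b) := mul_nonneg h12 hyb0
      linarith only [hyle, h4, h5, h6, h7, h12, h13]
  have key := DS_T h hmax (v := 0) (G := Do * y) (n := max (a * (M + 1) / ((1 + a) * t - 1)) 0)
    le_rfl (by norm_num) (by rw [← htdef, add_zero]; exact (one_lt_at ha0 ht1).le)
    (le_max_right _ _) (by
      rw [← htdef]
      have p : 0 < (1 + a) * t - 1 := sub_pos.2 (one_lt_at ha0 ht1)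
      have h1 := le_max_left (a * (M + 1) / ((1 + a) * t - 1)) 0
      rw [div_le_iff₀ p] at h1
      linarith only [p, h1]) hG
  rw [← htdef, ← hy] at key
  have key' : y * Do ≤ y * DS a ζ := by linarith only [key]
  exact le_of_mul_le_mul_left key' hy0

end Frame

end Pool.Agent.Lib.MP_172a45_an.F.H69
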