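import Pool.Agent.Lib.MP_172a45_an.F.H69.Ds

set_option autoImplicit false

/-!
# Cells of part L-b, type 1: the box and the bounds of `D_S`

Scale `10⁶`; `n1 ≤ N ≤ n2` (`n2 = 0`: no upper bound), `D1 ≤ Δ ≤ D2` (`D2 = 0`: no upper bound).
-/

namespace Pool.Agent.Lib.MP_172a45_an.F.H69

open Finset Real
open Pool.Agent.Lib.MP_172a45_an.F.Fr
open Pool.Agent.Lib.MP_172a45_an.L

/-! ### Exponentials -/

theorem exp128_le : Real.exp (1 / 128) ≤ 1007843098 / 10 ^ 9 := by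
  have h := Real.exp_bound' (x := 1 / 128) (by norm_num) (by norm_num) (n := 4) (by norm_num)
  refine h.trans ?_
  norm_num [Finset.sum_range_succ, Nat.factorial]

theorem le_exp128 : 1007843097 / 10 ^ 9 ≤ Real.exp (1 / 128) := by
  have h := Real.sum_le_exp_of_nonneg (x := 1 / 128) (by norm_num) 5
  refine le_trans ?_ h
  norm_num [Finset.sum_range_succ, Nat.factorial]

theorem eU_sound (G : ℕ) : Real.exp ((G : ℝ) / 128) ≤ ((eU G : ℤ) : ℝ) / 1000000 := by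
  have h1 : Real.exp ((G : ℝ) / 128) = Real.exp (1 / 128) ^ G := by
    rw [← Real.exp_nat_mul]; congr 1; ring
  have h2 : Real.exp (1 / 128) ^ G ≤ (1007843098 / 10 ^ 9) ^ G :=
    pow_le_pow_left₀ (Real.exp_pos _).le exp128_le G
  rw [h1]
  refine h2.trans ?_
  rw [div_pow, ← pow_mul]
  unfold eU
  rw [le_div_iff₀ (by norm_num)]
  have h3 := Nat.lt_div_mul_add (a := 1007843098 ^ G * 1000000) (b := 10 ^ (9 * G))
    (by positivity)
  have h4 : ((1007843098 ^ G * 1000000 : ℕ) : ℝ) <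
      (((1007843098 ^ G * 1000000 / 10 ^ (9 * G)) * 10 ^ (9 * G) + 10 ^ (9 * G) : ℕ) : ℝ) := by
    exact_mod_cast h3
  have p : (0:ℝ) < 10 ^ (9 * G) := by positivity
  rw [div_mul_eq_mul_div, div_le_iff₀ p]
  obtain ⟨m, hm⟩ : ∃ m : ℕ, m = 1007843098 ^ G * 1000000 / 10 ^ (9 * G) := ⟨_, rfl⟩
  rw [← hm] at h4 ⊢
  push_cast at h4 ⊢
  rw [add_mul, one_mul]
  exact h4.le

theorem eL_sound (G : ℕ) : ((eL G : ℤ) : ℝ) / 1000000 ≤ Real.exp ((G : ℝ) / 128) := by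
  have h1 : Real.exp ((G : ℝ) / 128) = Real.exp (1 / 128) ^ G := by
    rw [← Real.exp_nat_mul]; congr 1; ring
  have h2 : (1007843097 / 10 ^ 9) ^ G ≤ Real.exp (1 / 128) ^ G :=
    pow_le_pow_left₀ (by norm_num) le_exp128 G
  rw [h1]
  refine le_trans ?_ h2
  rw [div_pow, ← pow_mul]
  unfold eL
  rw [div_le_iff₀ (by norm_num)]
  have h3 := Nat.div_mul_le_self (1007843097 ^ G * 1000000) (10 ^ (9 * G))
  have h4 : (((1007843097 ^ G * 1000000 / 10 ^ (9 * G)) * 10 ^ (9 * G) : ℕ) : ℝ) ≤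
      ((1007843097 ^ G * 1000000 : ℕ) : ℝ) := by exact_mod_cast h3
  have p : (0:ℝ) < 10 ^ (9 * G) := by positivity
  rw [div_mul_eq_mul_div, le_div_iff₀ p]
  obtain ⟨m, hm⟩ : ∃ m : ℕ, m = 1007843097 ^ G * 1000000 / 10 ^ (9 * G) := ⟨_, rfl⟩
  rw [← hm] at h4 ⊢
  push_cast at h4 ⊢
  exact h4

/-! ### The box -/

/-- the frame lies in the box -/
structure InB {M : ℕ} (a : ℝ) (ζ : Fin (M + 1) → ℂ) (n1 n2 D1 D2 b1 b2 t1 t2 : ℤ) : Prop where
  hb1 : (b1 : ℝ) / 1000000 ≤ 1 - a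
  hb2 : 1 - a ≤ (b2 : ℝ) / 1000000
  ht1 : (t1 : ℝ) / 1000000 ≤ ‖u a ζ 0‖
  ht2 : ‖u a ζ 0‖ ≤ (t2 : ℝ) / 1000000
  hn1 : (n1 : ℝ) ≤ M + 1
  hn2 : n2 = 0 ∨ (M : ℝ) + 1 ≤ n2
  hD1 : (D1 : ℝ) ≤ Del a ζ
  hD2 : D2 = 0 ∨ Del a ζ ≤ D2
  b10 : 0 ≤ b1
  b21 : b2 ≤ 1000000
  t10 : 1000000 ≤ t1
  n10 : 2 ≤ n1

section Sound

variable {M : ℕ} {a : ℝ} {ζ z : Fin (M + 1) → ℂ} {n1 n2 D1 D2 b1 b2 t1 t2 : ℤ}

theorem InB.t1R (B : InB a ζ n1 n2 D1 D2 b1 b2 t1 t2) : (1:ℝ) ≤ (t1 : ℝ) / 1000000 := by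
  rw [le_div_iff₀ (by norm_num)]
  have : (1000000 : ℝ) ≤ t1 := by exact_mod_cast B.t10
  linarith

theorem InB.b1R (B : InB a ζ n1 n2 D1 D2 b1 b2 t1 t2) : (0:ℝ) ≤ (b1 : ℝ) / 1000000 := by
  have : (0 : ℝ) ≤ b1 := by exact_mod_cast B.b10
  positivity

theorem InB.b2R (B : InB a ζ n1 n2 D1 D2 b1 b2 t1 t2) : (b2 : ℝ) / 1000000 ≤ 1 := by
  rw [div_le_one (by norm_num)]
  exact_mod_cast B.b21

theorem kX0_sound (h : Fr (M + 1) a ζ z) (B : InB a ζ n1 n2 D1 D2 b1 b2 t1 t2) :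
    (1 - a ^ 2) * ‖u a ζ 0‖ - (1 - a) ≤ ((kX0 b1 b2 t2 : ℤ) : ℝ) / 1000000 := by
  have g := le_cdiv0 (b2 * ((2000000 - b1) * t2 - 1000000000000)) 1000000000000 (by norm_num)
  have ha1 := h.a1
  have ha0 := h.a0
  unfold kX0
  push_cast at g
  have h1 := B.hb1
  have h2 := B.hb2
  have h3 := B.ht1
  have h4 := B.ht2
  have h5 := B.t1R
  have h6 := B.b1R
  set t := ‖u a ζ 0‖ with htdef
  set b1r := (b1 : ℝ) / 1000000 with hb1r
  set b2r := (b2 : ℝ) / 1000000 with hb2r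
  set t2r := (t2 : ℝ) / 1000000 with ht2r
  have e1 : (b2 : ℝ) * ((2000000 - b1) * t2 - 1000000000000) / 1000000000000 / 1000000 =
      b2r * ((2 - b1r) * t2r - 1) := by
    rw [hb1r, hb2r, ht2r]; ring
  have g2 := div_le_div_of_nonneg_right g (by norm_num : (0:ℝ) ≤ 1000000)
  rw [e1] at g2
  refine le_trans ?_ g2
  have e2 : (1 - a ^ 2) * t - (1 - a) = (1 - a) * ((1 + a) * t - 1) := by ring
  rw [e2]
  have h7 : 1 ≤ (1 + a) * t := (one_lt_at ha0 (h5.trans h3)).le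
  have h8 : (1 + a) * t ≤ (2 - b1r) * t2r := mul_le_mul (by linarith only [h1]) h4 (by linarith only [ha1, ha0, h5, h3]) (by linarith only [ha1, ha0, h1])
  exact mul_le_mul h2 (by linarith only [h8]) (by linarith only [h7]) (by linarith only [ha1, h2])

theorem cub_mono {x y : ℝ} (hx : 0 ≤ x) (hxy : x ≤ y) (hy : y ≤ 1) :
    x * (3 - x ^ 2) ≤ y * (3 - y ^ 2) := by
  have h1 : 0 ≤ (y - x) * (3 - (x ^ 2 + x * y + y ^ 2)) := by
    refine mul_nonneg (by linarith) ?_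
    have h2 : x ≤ 1 := hxy.trans hy
    have h3 : 0 ≤ y := hx.trans hxy
    have h4 : x ^ 2 ≤ 1 := pow_le_one₀ hx h2
    have h5 : y ^ 2 ≤ 1 := pow_le_one₀ h3 hy
    have h6 : x * y ≤ 1 := mul_le_one₀ h2 h3 hy
    linarith
  linarith

/-- the inequality behind `kG` -/
theorem kG_ineq (h : Fr (M + 1) a ζ z) (B : InB a ζ n1 n2 D1 D2 b1 b2 t1 t2) {X0 : ℤ} {G : ℕ}
    (hG : G ≠ 0) (hk : kG n1 b1 X0 G = true) :
    ((eU G : ℤ) : ℝ) / 1000000 * (1 + (X0 : ℝ) / 1000000) +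
      1 / 2 * ((1 + (X0 : ℝ) / 1000000 / 2) * ((G : ℝ) / 128)) ≤
    1 + (1 - a) * n1 * (2 + 2 * a - a ^ 2) / 2 - 1 / 2 * ((X0 : ℝ) / 1000000) := by
  unfold kG at hk
  rw [if_neg hG] at hk
  split_ifs at hk with c1 c2
  push Not at c1 c2
  have g1 := fdiv_le0 (b1 * n1 * (3000000000000 - b1 * b1)) 2000000000000 (by norm_num)
  have g2 := le_cdiv0 (eU G * (1000000 + X0)) 1000000 (by norm_num)
  have g3 := le_cdiv0 ((2000000 + X0) * G) 512 (by norm_num)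
  have g4 := le_cdiv0 X0 2 (by norm_num)
  have c2R : ((cdiv (eU G * (1000000 + X0)) 1000000 : ℤ) : ℝ) +
      ((cdiv ((2000000 + X0) * G) 512 : ℤ) : ℝ) + ((cdiv X0 2 : ℤ) : ℝ) ≤
      1000000 + ((b1 * n1 * (3000000000000 - b1 * b1) / 2000000000000 : ℤ) : ℝ) := by
    exact_mod_cast c2
  push_cast at g1 g2 g3 g4 c2R
  have ha1 := h.a1
  have ha0 := h.a0
  -- the right side
  have hA : (b1 : ℝ) * n1 * (3000000000000 - b1 * b1) / 2000000000000 / 1000000 ≤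
      (1 - a) * n1 * (2 + 2 * a - a ^ 2) / 2 := by
    have e1 : (b1 : ℝ) * n1 * (3000000000000 - b1 * b1) / 2000000000000 / 1000000 =
        n1 / 2 * (((b1 : ℝ) / 1000000) * (3 - ((b1 : ℝ) / 1000000) ^ 2)) := by
      ring
    have e2 : (1 - a) * n1 * (2 + 2 * a - a ^ 2) / 2 =
        n1 / 2 * ((1 - a) * (3 - (1 - a) ^ 2)) := by ring
    rw [e1, e2]
    have h1 := cub_mono B.b1R B.hb1 (by linarith only [ha0])
    have h2 : (0 : ℝ) ≤ (n1 : ℝ) / 2 := by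
      have : (2 : ℝ) ≤ n1 := by exact_mod_cast B.n10
      linarith only [ha1, ha0, this]
    exact mul_le_mul_of_nonneg_left h1 h2
  have e3 : ((eU G : ℤ) : ℝ) / 1000000 * (1 + (X0 : ℝ) / 1000000) +
      1 / 2 * ((1 + (X0 : ℝ) / 1000000 / 2) * ((G : ℝ) / 128)) + 1 / 2 * ((X0 : ℝ) / 1000000) =
      (((eU G : ℤ) : ℝ) * (1000000 + X0) / 1000000 + (2000000 + X0) * G / 512 + X0 / 2) /
        1000000 := by
    field_simp
    ring
  have h5 : (((eU G : ℤ) : ℝ) * (1000000 + X0) / 1000000 + (2000000 + X0) * G / 512 + X0 / 2) /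
        1000000 ≤ (1000000 + (b1 : ℝ) * n1 * (3000000000000 - b1 * b1) / 2000000000000) /
        1000000 := div_le_div_of_nonneg_right (by linarith only [c2R, g1, g2, g3, g4]) (by norm_num)
  have e4 : (1000000 + (b1 : ℝ) * n1 * (3000000000000 - b1 * b1) / 2000000000000) / 1000000 =
      1 + (b1 : ℝ) * n1 * (3000000000000 - b1 * b1) / 2000000000000 / 1000000 := by ring
  rw [e4] at h5
  linarith only [c2R, g1, g2, g3, g4, hA]

theorem kG_X0 {X0 : ℤ} {G : ℕ} (hk : kG n1 b1 X0 G = true) : 0 ≤ X0 := by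
  unfold kG at hk
  split_ifs at hk with c1 <;> linarith only [c1]

/-- soundness of `kG` -/
theorem kG_sound (h : Fr (M + 1) a ζ z) (hmax : ∀ k, ‖u a ζ k‖ ≤ ‖u a ζ 0‖)
    (B : InB a ζ n1 n2 D1 D2 b1 b2 t1 t2) {G : ℕ}
    (hk : kG n1 b1 (kX0 b1 b2 t2) G = true) : (G : ℝ) / 128 ≤ GS a ζ := by
  by_cases hG : G = 0
  · rw [hG]; simp
    exact L.GS_nonneg h
  have hX0 := kX0_sound h B
  have hX00 : (0:ℝ) ≤ ((kX0 b1 b2 t2 : ℤ) : ℝ) / 1000000 := by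
    have : (0 : ℝ) ≤ ((kX0 b1 b2 t2 : ℤ) : ℝ) := by exact_mod_cast kG_X0 hk
    positivity
  refine GS_box h hmax hX0 hX00 (eU_sound G) ((kG_ineq h B hG hk).trans ?_)
  have h1 := B.hn1
  have ha1 := h.a1
  have ha0 := h.a0
  have h2 : (1 - a) * n1 * (2 + 2 * a - a ^ 2) / 2 ≤
      (1 - a) * (M + 1) * (2 + 2 * a - a ^ 2) / 2 := by
    have h3 : 0 ≤ (1 - a) * (2 + 2 * a - a ^ 2) / 2 := by
      have : 0 ≤ 2 + 2 * a - a ^ 2 := by
        have : a ^ 2 ≤ 1 := pow_le_one₀ ha0.le ha1.le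
        linarith only [ha1, ha0, this]
      have : 0 ≤ 1 - a := by linarith only [ha1]
      positivity
    have := mul_le_mul_of_nonneg_left h1 h3
    linarith only [this]
  linarith only [h2]

/-- the algebra of `n` -/
theorem nn_aux {a α t t1 n c p : ℝ} (ha0 : 0 < a) (haα : a ≤ α) (ht : t1 ≤ t) (ht1 : 1 ≤ t1)
    (hc : 0 ≤ c) (hp : p ≤ (1 + α) * t1 - 1) (h : α * n ≤ c * p) :
    a * n ≤ c * ((1 + a) * t - 1) := by
  have hα : 0 < α := by linarith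
  have h1 : a * ((1 + α) * t1 - 1) ≤ α * ((1 + a) * t1 - 1) := by
    have := mul_nonneg (by linarith : 0 ≤ α - a) (by linarith : 0 ≤ t1 - 1)
    linarith
  have h2 : c * p ≤ c * ((1 + α) * t1 - 1) := mul_le_mul_of_nonneg_left hp hc
  have h3 : a * (α * n) ≤ a * (c * ((1 + α) * t1 - 1)) :=
    mul_le_mul_of_nonneg_left (h.trans h2) ha0.le
  have h4 : c * (a * ((1 + α) * t1 - 1)) ≤ c * (α * ((1 + a) * t1 - 1)) :=
    mul_le_mul_of_nonneg_left h1 hc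
  have h5 : α * (a * n) ≤ α * (c * ((1 + a) * t1 - 1)) := by linarith only [h3, h4]
  have h6 := le_of_mul_le_mul_left h5 hα
  refine h6.trans (mul_le_mul_of_nonneg_left ?_ hc)
  have : (1 + a) * t1 ≤ (1 + a) * t := mul_le_mul_of_nonneg_left ht (by linarith)
  linarith

theorem knn_sound (h : Fr (M + 1) a ζ z) (B : InB a ζ n1 n2 D1 D2 b1 b2 t1 t2) {n : ℤ}
    (hn : 0 ≤ n) (hden : 0 < kden b1 t1) {x : ℝ} (hx : ((knn n b1 (kden b1 t1) : ℤ) : ℝ) / 1000000 ≤ x) :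
    a * n ≤ (x + 1) * ((1 + a) * ‖u a ζ 0‖ - 1) := by
  have g1 := fdiv_le0 ((2000000 - b1) * t1) 1000000 (by norm_num)
  have g2 := le_cdiv0 ((1000000 - b1) * n * 1000000) (kden b1 t1) hden
  have hdenR : (0 : ℝ) < ((kden b1 t1 : ℤ) : ℝ) := by exact_mod_cast hden
  have ha1 := h.a1
  have ha0 := h.a0
  have hb1 := B.hb1
  have hb10 := B.b1R
  have hnR : (0 : ℝ) ≤ n := by exact_mod_cast hn
  unfold knn at hx
  push_cast at g1 g2 hx
  have e0 : ∀ w : ℝ, (w - 1000000) / 1000000 = w / 1000000 - 1 := by intro w; ring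
  rw [e0] at hx
  obtain ⟨α, hα⟩ : ∃ α : ℝ, α = 1 - (b1 : ℝ) / 1000000 := ⟨_, rfl⟩
  obtain ⟨p, hp⟩ : ∃ p : ℝ, p = ((kden b1 t1 : ℤ) : ℝ) / 1000000 := ⟨_, rfl⟩
  have hp0 : 0 < p := by rw [hp]; positivity
  have hα0 : 0 < α := by rw [hα]; linarith only [ha0, hb1]
  have hc : α * n / p ≤ x + 1 := by
    have e1 : α * n / p = (1000000 - (b1 : ℝ)) * n * 1000000 / ((kden b1 t1 : ℤ) : ℝ) / 1000000 := by
      rw [hα, hp]; field_simp
    rw [e1]
    have := div_le_div_of_nonneg_right g2 (by norm_num : (0:ℝ) ≤ 1000000)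
    linarith only [g2, hx]
  have hc0 : 0 ≤ x + 1 := le_trans (by positivity) hc
  refine nn_aux (α := α) (p := p) ha0 (by rw [hα]; linarith only [hb1]) B.ht1 B.t1R hc0 ?_ ?_
  · rw [hp]
    unfold kden
    push_cast
    rw [e0, hα]
    have e2 : (1 + (1 - (b1 : ℝ) / 1000000)) * ((t1 : ℝ) / 1000000) =
        (2000000 - (b1 : ℝ)) * t1 / 1000000 / 1000000 := by ring
    rw [e2]
    have := div_le_div_of_nonneg_right g1 (by norm_num : (0:ℝ) ≤ 1000000)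
    linarith only [g1]
  · rw [div_le_iff₀ hp0] at hc
    exact hc

/-- `kval` -/
theorem kval_le (G v : ℕ) (nn : ℤ) : ((kval G v nn : ℤ) : ℝ) / 1000000 ≤
    (1 + (v : ℝ) / 1000000) * ((G : ℝ) / 128) -
      (nn : ℝ) / 1000000 * ((v : ℝ) / 1000000) ^ 2 / 4 := by
  have g1 := fdiv_le0 ((1000000 + (v : ℤ)) * G) 128 (by norm_num)
  have g2 := le_cdiv0 (nn * ((v : ℤ) * v)) 4000000000000 (by norm_num)
  unfold kval
  push_cast at g1 g2 ⊢
  have e1 : (1 + (v : ℝ) / 1000000) * ((G : ℝ) / 128) -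
      (nn : ℝ) / 1000000 * ((v : ℝ) / 1000000) ^ 2 / 4 =
      ((1000000 + (v : ℝ)) * G / 128 - nn * (v * v) / 4000000000000) / 1000000 := by
    ring
  rw [e1]
  exact div_le_div_of_nonneg_right (by linarith only [g1, g2]) (by norm_num)

theorem neg_case {x : ℝ} (hx : 0 ≤ x) : (((-1 : ℤ)) : ℝ) / 1000000 ≤ x := by
  push_cast
  linarith only [hx]

theorem v_box (h : Fr (M + 1) a ζ z) (B : InB a ζ n1 n2 D1 D2 b1 b2 t1 t2) {w : ℝ}
    (hc : 1000000 + w ≤ ((((2000000 - b2) * t1) / 1000000 : ℤ) : ℝ)) :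
    1 + w / 1000000 ≤ (1 + a) * ‖u a ζ 0‖ := by
  have g := fdiv_le0 ((2000000 - b2) * t1) 1000000 (by norm_num)
  push_cast at g hc
  have ha0 := h.a0
  have h1 : (2 - (b2 : ℝ) / 1000000) * ((t1 : ℝ) / 1000000) ≤ (1 + a) * ‖u a ζ 0‖ :=
    mul_le_mul (by linarith only [B.hb2]) B.ht1 (by linarith only [B.t1R]) (by linarith only [ha0])
  have e1 : (2 - (b2 : ℝ) / 1000000) * ((t1 : ℝ) / 1000000) =
      (2000000 - (b2 : ℝ)) * t1 / 1000000 / 1000000 := by ring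
  rw [e1] at h1
  have h2 : (1000000 + w) / 1000000 ≤ (2000000 - (b2 : ℝ)) * t1 / 1000000 / 1000000 :=
    div_le_div_of_nonneg_right (by linarith only [hc, g]) (by norm_num)
  have e2 : (1000000 + w) / 1000000 = 1 + w / 1000000 := by ring
  rw [e2] at h2
  linarith only [hc, g, h1]

theorem y_nonneg (h : Fr (M + 1) a ζ z) : 0 ≤ (1 - a ^ 2) * ‖u a ζ 0‖ * DS a ζ :=
  mul_nonneg (mul_nonneg h.m_pos.le (norm_nonneg _)) (DS_ge0 h)

/-- soundness of kind T -/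
theorem kT_sound (h : Fr (M + 1) a ζ z) (hmax : ∀ k, ‖u a ζ k‖ ≤ ‖u a ζ 0‖)
    (B : InB a ζ n1 n2 D1 D2 b1 b2 t1 t2) {G v : ℕ} (hG : (G : ℝ) / 128 ≤ GS a ζ) :
    ((kT n2 b1 b2 t1 G v : ℤ) : ℝ) / 1000000 ≤ (1 - a ^ 2) * ‖u a ζ 0‖ * DS a ζ := by
  have hy := y_nonneg h
  unfold kT
  split_ifs with c0 c1 c2
  · have ha0 := h.a0
    have ht := t0_ge_one h hmax
    have hat : 1 < (1 + a) * ‖u a ζ 0‖ := one_lt_at ha0 ht
    have key := DS_T h hmax (v := 0) (G := (G : ℝ) / 128)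
      (n := max (a * (M + 1) / ((1 + a) * ‖u a ζ 0‖ - 1)) 0) le_rfl (by norm_num) (by linarith only [hat])
      (le_max_right _ _) (by
        have p : 0 < (1 + a) * ‖u a ζ 0‖ - 1 := by linarith only [hat]
        have h1 := le_max_left (a * (M + 1) / ((1 + a) * ‖u a ζ 0‖ - 1)) 0
        rw [div_le_iff₀ p] at h1
        linarith only [hat, h1]) hG
    have h2 := kval_le G 0 0
    push_cast at h2
    simp only [zero_div, zero_mul, sub_zero, add_zero, one_mul, ne_eq, OfNat.ofNat_ne_zero,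
      not_false_eq_true, zero_pow, mul_zero] at h2 key
    exact h2.trans key
  · exact neg_case hy
  · exact neg_case hy
  push Not at c2
  have hn2 : (M : ℝ) + 1 ≤ n2 := by
    rcases B.hn2 with h1 | h1
    · exact absurd h1 c1
    · exact h1
  have hn20 : 0 ≤ n2 := by
    have : (0 : ℝ) ≤ n2 := by
      have : (0:ℝ) ≤ M := by positivity
      linarith only [hn2]
    exact_mod_cast this
  unfold kT2
  split_ifs with c3 c4 c5
  · exact neg_case hy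
  · exact neg_case hy
  all_goals
    push Not at c3 c4
    have c3R : (v : ℝ) ≤ 2000000 := by exact_mod_cast c3
    have c4R : 1000000 + (v : ℝ) ≤ ((((2000000 - b2) * t1) / 1000000 : ℤ) : ℝ) := by
      exact_mod_cast c4
  · -- `nn < 0`, use `0`
    have hx : ((knn n2 b1 (kden b1 t1) : ℤ) : ℝ) / 1000000 ≤ 0 := by
      have : ((knn n2 b1 (kden b1 t1) : ℤ) : ℝ) ≤ 0 := by exact_mod_cast c5.le
      exact div_nonpos_of_nonpos_of_nonneg this (by norm_num)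
    have hnn := knn_sound h B hn20 c2 hx
    have key := DS_T h hmax (v := (v : ℝ) / 1000000) (G := (G : ℝ) / 128) (n := 0) (by positivity)
      (by linarith only [c3R]) (v_box h B c4R) le_rfl
      (le_trans (mul_le_mul_of_nonneg_left hn2 h.a0.le) hnn) hG
    have := kval_le G v 0
    push_cast at this
    simp only [zero_div, zero_mul, sub_zero] at this key
    exact this.trans key
  · push Not at c5
    have hx0 : (0:ℝ) ≤ ((knn n2 b1 (kden b1 t1) : ℤ) : ℝ) / 1000000 := by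
      have : (0 : ℝ) ≤ ((knn n2 b1 (kden b1 t1) : ℤ) : ℝ) := by exact_mod_cast c5
      positivity
    have hnn := knn_sound h B hn20 c2 le_rfl
    have key := DS_T h hmax (v := (v : ℝ) / 1000000) (G := (G : ℝ) / 128)
      (n := ((knn n2 b1 (kden b1 t1) : ℤ) : ℝ) / 1000000) (by positivity)
      (by linarith only [c3R]) (v_box h B c4R) hx0
      (le_trans (mul_le_mul_of_nonneg_left hn2 h.a0.le) hnn) hG
    exact (kval_le G v _).trans key

theorem gg1_mono {x y : ℝ} (hx : 1 ≤ x) (hxy : x ≤ y) : gg1 x ≤ gg1 y := by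
  have hx0 : 0 < x := by linarith
  have hy0 : 0 < y := by linarith
  have h1 : Real.log (y / x) ≤ y / x - 1 := Real.log_le_sub_one_of_pos (by positivity)
  rw [Real.log_div hy0.ne' hx0.ne'] at h1
  have h2 : y / x - 1 ≤ y - x := by
    have e : y / x - 1 = (y - x) / x := by field_simp
    rw [e]
    exact div_le_self (by linarith only [hxy]) hx
  unfold gg1
  linarith only [h1, h2]

/-- soundness of kind D -/
theorem kD_sound (h : Fr (M + 1) a ζ z) (hmax : ∀ k, ‖u a ζ k‖ ≤ ‖u a ζ 0‖)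
    (B : InB a ζ n1 n2 D1 D2 b1 b2 t1 t2) {G v U : ℕ} (hG : (G : ℝ) / 128 ≤ GS a ζ) :
    ((kD D2 t1 G v U : ℤ) : ℝ) / 1000000 ≤ (1 - a ^ 2) * ‖u a ζ 0‖ * DS a ζ := by
  have hy := y_nonneg h
  unfold kD
  split_ifs with c1 c2 c3
  · exact neg_case hy
  · exact neg_case hy
  · exact neg_case hy
  push Not at c2 c3
  have hD2 : Del a ζ ≤ D2 := by
    rcases B.hD2 with h1 | h1
    · exact absurd h1 c1
    · exact h1
  unfold kD2
  split_ifs with c4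
  · exact neg_case hy
  push Not at c4
  have ht1 := B.ht1
  have ht1R := B.t1R
  obtain ⟨t1r, ht1r⟩ : ∃ t1r : ℝ, t1r = (t1 : ℝ) / 1000000 := ⟨_, rfl⟩
  rw [← ht1r] at ht1 ht1R
  have ht1pos : 0 < t1r := by linarith only [ht1R]
  -- `g(t₁) ≥ gl`
  have hlog : Real.log t1r ≤ (U : ℝ) / 128 := by
    rw [Real.log_le_iff_le_exp ht1pos, ht1r]
    have h1 := eL_sound U
    have h2 : (t1 : ℝ) / 1000000 ≤ ((eL U : ℤ) : ℝ) / 1000000 :=
      div_le_div_of_nonneg_right (by exact_mod_cast c2) (by norm_num)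
    exact h2.trans h1
  have g1 := le_cdiv0 ((U : ℤ) * 1000000) 128 (by norm_num)
  push_cast at g1
  have hgl : ((kgl t1 U : ℤ) : ℝ) / 1000000 ≤ gg1 t1r := by
    unfold kgl gg1
    push_cast
    have e1 : ((t1 : ℝ) - 1000000 - ((cdiv ((U : ℤ) * 1000000) 128 : ℤ) : ℝ)) / 1000000 =
        t1r - 1 - ((cdiv ((U : ℤ) * 1000000) 128 : ℤ) : ℝ) / 1000000 := by
      rw [ht1r]; ring
    rw [e1]
    have h2 : (U : ℝ) * 1000000 / 128 / 1000000 ≤
        ((cdiv ((U : ℤ) * 1000000) 128 : ℤ) : ℝ) / 1000000 :=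
      div_le_div_of_nonneg_right g1 (by norm_num)
    have e2 : (U : ℝ) * 1000000 / 128 / 1000000 = (U : ℝ) / 128 := by ring
    rw [e2] at h2
    linarith only [hlog, g1]
  have hglR : (0 : ℝ) < ((kgl t1 U : ℤ) : ℝ) := by exact_mod_cast c3
  have hgt : ((kgl t1 U : ℤ) : ℝ) / 1000000 ≤ gg1 ‖u a ζ 0‖ := hgl.trans (gg1_mono ht1R ht1)
  have ht1' : 1 < t1r := by
    by_contra hcon
    push Not at hcon
    have h3 : t1r = 1 := le_antisymm hcon ht1R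
    have h4 : gg1 t1r = 0 := by rw [h3]; unfold gg1; simp
    rw [h4] at hgl
    have : 0 < ((kgl t1 U : ℤ) : ℝ) / 1000000 := by positivity
    linarith only [hgl, hglR]
  have c4R : (v : ℝ) * (t1 + 1000000) ≤ 2 * (t1 - 1000000) * 1000000 := by exact_mod_cast c4
  obtain ⟨vr, hvr⟩ : ∃ vr : ℝ, vr = (v : ℝ) / 1000000 := ⟨_, rfl⟩
  have hv0 : 0 ≤ vr := by rw [hvr]; positivity
  have hv1 : vr * (t1r + 1) ≤ 2 * (t1r - 1) := by
    have e1 : vr * (t1r + 1) = (v : ℝ) * (t1 + 1000000) / 1000000000000 := by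
      rw [hvr, ht1r]; ring
    have e2 : 2 * (t1r - 1) = 2 * (t1 - 1000000) * 1000000 / 1000000000000 := by
      rw [ht1r]; ring
    rw [e1, e2]
    exact div_le_div_of_nonneg_right c4R (by norm_num)
  have hv2 : vr < 2 := by
    by_contra hcon
    push Not at hcon
    have : 2 * (t1r + 1) ≤ vr * (t1r + 1) := mul_le_mul_of_nonneg_right hcon (by linarith only [ht1'])
    linarith only [hv1, this]
  have hvt : vr * (‖u a ζ 0‖ + 1) ≤ 2 * (‖u a ζ 0‖ - 1) := by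
    have : 0 ≤ (2 - vr) * (‖u a ζ 0‖ - t1r) := mul_nonneg (by linarith only [hv2]) (by linarith only [ht1])
    linarith only [hv1, this]
  have g2 := le_cdiv0 (D2 * 1000000000000) (kgl t1 U) c3
  push_cast at g2
  obtain ⟨x, hx⟩ : ∃ x : ℝ,
      x = ((cdiv (D2 * 1000000000000) (kgl t1 U) - 1000000 : ℤ) : ℝ) / 1000000 := ⟨_, rfl⟩
  have hD0 : (0 : ℝ) ≤ D2 := by
    have h1 := B.hD1
    have h2 : 0 ≤ Del a ζ := by
      have h3 := sum_g h
      rw [← h3]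
      refine Finset.sum_nonneg fun k _ => ?_
      have := Real.log_le_sub_one_of_pos (norm_pos_iff.2 (h.u_ne k))
      linarith only [this]
    linarith only [hD2, h2]
  have hx1 : (D2 : ℝ) ≤ (x + 1) * (((kgl t1 U : ℤ) : ℝ) / 1000000) := by
    have e1 : (x + 1) * (((kgl t1 U : ℤ) : ℝ) / 1000000) =
        ((cdiv (D2 * 1000000000000) (kgl t1 U) : ℤ) : ℝ) * ((kgl t1 U : ℤ) : ℝ) /
          1000000000000 := by
      rw [hx]; push_cast; ring
    rw [e1, le_div_iff₀ (by norm_num)]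
    rw [div_le_iff₀ hglR] at g2
    exact g2
  have hx10 : 0 ≤ x + 1 := by
    by_contra hcon
    push Not at hcon
    have : (x + 1) * (((kgl t1 U : ℤ) : ℝ) / 1000000) < 0 :=
      mul_neg_of_neg_of_pos hcon (by positivity)
    linarith only [hD0, hx1, this]
  have key := DS_D h hmax (v := vr) (G := (G : ℝ) / 128) (n := x) hv0 (by linarith only [ht1,
      ht1']) hvt
    (by
      have := mul_le_mul_of_nonneg_left hgt hx10
      linarith only [hD2, hx1, this]) hG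
  have hk := kval_le G v (cdiv (D2 * 1000000000000) (kgl t1 U) - 1000000)
  rw [← hx, ← hvr] at hk
  exact hk.trans key

/-- soundness of kind M -/
theorem kM_sound (h : Fr (M + 1) a ζ z) (hmax : ∀ k, ‖u a ζ k‖ ≤ ‖u a ζ 0‖)
    (B : InB a ζ n1 n2 D1 D2 b1 b2 t1 t2) {G g : ℕ}
    (hk : kG n1 b1 (kX0 b1 b2 t2) G = true) :
    ((kM n1 b1 b2 t1 (kX0 b1 b2 t2) G g : ℤ) : ℝ) / 1000000 ≤
      (1 - a ^ 2) * ‖u a ζ 0‖ * DS a ζ := by
  have hy := y_nonneg h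
  unfold kM
  split_ifs with c1 c2
  · exact neg_case hy
  · exact neg_case hy
  push Not at c1
  have hn1Z := B.n10
  have hn1R : (2 : ℝ) ≤ n1 := by exact_mod_cast hn1Z
  have hnn := knn_sound h B (by linarith only [hn1Z] : 0 ≤ n1) c1 le_rfl
  obtain ⟨nn, hnndef⟩ : ∃ nn : ℤ, nn = knn n1 b1 (kden b1 t1) := ⟨_, rfl⟩
  rw [← hnndef] at hnn ⊢
  have hX0 := kX0_sound h B
  have hX00Z := kG_X0 hk
  have hin := kG_ineq h B c2 hk
  obtain ⟨X0, hX0def⟩ : ∃ X0 : ℤ, X0 = kX0 b1 b2 t2 := ⟨_, rfl⟩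
  rw [← hX0def] at hX0 hX00Z hin ⊢
  unfold kM2
  split_ifs with d1 d2 d3 d4 d5 d6
  · exact neg_case hy
  · exact neg_case hy
  · exact neg_case hy
  · exact neg_case hy
  · exact neg_case hy
  · exact neg_case hy
  push Not at d1 d2 d3 d5 d6
  have d4' : g = 0 ∨ 64 ≤ g := by
    by_cases hg : g = 0
    · left; exact hg
    · right
      simp only [hg, not_false_eq_true, Bool.not_eq_eq_eq_not, Bool.not_true, Bool.and_eq_true,
        decide_eq_true_eq, not_and, not_lt, beq_eq_false_iff_ne, ne_eq, forall_const] at d4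
      exact d4
  have hnnR : (0 : ℝ) < nn := by exact_mod_cast d1
  obtain ⟨nr, hnr⟩ : ∃ nr : ℝ, nr = (nn : ℝ) / 1000000 := ⟨_, rfl⟩
  obtain ⟨Gr, hGr⟩ : ∃ Gr : ℝ, Gr = (G : ℝ) / 128 := ⟨_, rfl⟩
  obtain ⟨gr, hgr⟩ : ∃ gr : ℝ, gr = (g : ℝ) / 128 := ⟨_, rfl⟩
  obtain ⟨Xr, hXr⟩ : ∃ Xr : ℝ, Xr = (X0 : ℝ) / 1000000 := ⟨_, rfl⟩
  have hXr0 : 0 ≤ Xr := by
    have : (0 : ℝ) ≤ X0 := by exact_mod_cast hX00Z
    rw [hXr]; positivity
  have hnr0 : 0 < nr := by rw [hnr]; positivity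
  have hE := eU_sound G
  rw [← hnr] at hnn
  rw [← hXr] at hX0 hin
  rw [← hGr] at hin hE
  have hm : 0 ≤ 1 / 2 * (1 + Xr / 2) * (Gr - 1) + 1 / 2 * Xr - 1 := by
    have d2R : (0 : ℝ) ≤ (2000000 + X0) * ((G : ℝ) - 128) + 256 * X0 - 512000000 := by
      exact_mod_cast d2
    have e1 : 1 / 2 * (1 + Xr / 2) * (Gr - 1) + 1 / 2 * Xr - 1 =
        ((2000000 + X0) * ((G : ℝ) - 128) + 256 * X0 - 512000000) / 512000000 := by
      rw [hXr, hGr]; field_simp; ring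
    rw [e1]
    positivity
  have hP : (2 * gr * Gr - gr ^ 2) * 16384 = 2 * g * G - g * g := by
    rw [hgr, hGr]; ring
  have hPn : 2 * gr * Gr - gr ^ 2 ≤ nr := by
    have d3R : (2 * (g : ℝ) * G - g * g) * 1000000 ≤ nn * 16384 := by exact_mod_cast d3
    rw [← hP] at d3R
    rw [hnr, le_div_iff₀ (by norm_num)]
    linarith only [d3R]
  have hg0 : gr = 0 ∨ 1 ≤ 2 * gr := by
    rcases d4' with h1 | h1
    · left; rw [hgr, h1]; simp
    · right
      have : (64 : ℝ) ≤ g := by exact_mod_cast h1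
      rw [hgr]; linarith only [this]
  have hgn : gr ≤ nr := by
    have d5R : (g : ℝ) * 1000000 ≤ nn * 128 := by exact_mod_cast d5
    rw [hnr, hgr, div_le_div_iff₀ (by norm_num) (by norm_num)]
    linarith only [d5R]
  have hgr0 : 0 ≤ gr := by rw [hgr]; positivity
  have gq := le_cdiv0 (2 * (g : ℤ) * 1000000000000) (128 * nn) (by linarith only [d1])
  push_cast at gq
  have hvt : 1 + 2 * gr / nr ≤ (1 + a) * ‖u a ζ 0‖ := by
    have d6R : 1000000 + ((cdiv (2 * (g : ℤ) * 1000000000000) (128 * nn) : ℤ) : ℝ) ≤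
        ((((2000000 - b2) * t1) / 1000000 : ℤ) : ℝ) := by exact_mod_cast d6
    have h1 := v_box h B d6R
    have h2 : 2 * gr / nr ≤
        ((cdiv (2 * (g : ℤ) * 1000000000000) (128 * nn) : ℤ) : ℝ) / 1000000 := by
      have e1 : 2 * gr / nr = 2 * (g : ℝ) * 1000000000000 / (128 * nn) / 1000000 := by
        rw [hgr, hnr]; field_simp; ring
      rw [e1]
      exact div_le_div_of_nonneg_right gq (by norm_num)
    linarith only [h1, h2]
  have key := DS_M h hmax (X0 := Xr) (g0 := gr) (g1 := Gr) (n1 := nr)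
    (E := ((eU G : ℤ) : ℝ) / 1000000) (N1 := (n1 : ℝ)) (by linarith only [hn1R]) B.hn1 hX0 hXr0 hE hin hm hnr0
    hnn hPn hg0 hgn hgr0 hvt
  refine le_trans ?_ key
  have g1 := fdiv_le0 ((G : ℤ) * 1000000) 128 (by norm_num)
  have g2 := fdiv_le0 ((2 * (g : ℤ) * G - g * g) * 1000000000000) (16384 * nn) (by linarith only [d1])
  push_cast at g1 g2 ⊢
  have e1 : Gr + (2 * gr * Gr - gr ^ 2) / nr = ((G : ℝ) * 1000000 / 128 +
      (2 * (g : ℝ) * G - g * g) * 1000000000000 / (16384 * nn)) / 1000000 := by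
    rw [← hP, hnr, hGr]
    field_simp
    ring
  rw [e1]
  exact div_le_div_of_nonneg_right (by linarith only [g1, g2]) (by norm_num)

/-- the tangent -/
theorem kvY_mono {Cp Y0 : ℤ} (hY0 : 0 < Y0) {Y1 Y2 : ℤ} {Y : ℝ}
    (h1 : (Y1 : ℝ) / 1000000 ≤ Y) (h2 : Y ≤ (Y2 : ℝ) / 1000000) :
    ((kV Cp Y0 Y1 Y2 : ℤ) : ℝ) / 1000000 ≤
      Y + (Cp : ℝ) / 1000000 * (2 * ((Y0 : ℝ) / 1000000) - Y) / ((Y0 : ℝ) / 1000000) ^ 2 := by
  have hY0R : (0 : ℝ) < Y0 := by exact_mod_cast hY0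
  have hv : ∀ W : ℤ, ((kvY Cp Y0 W : ℤ) : ℝ) / 1000000 ≤ (W : ℝ) / 1000000 +
      (Cp : ℝ) / 1000000 * (2 * ((Y0 : ℝ) / 1000000) - (W : ℝ) / 1000000) /
        ((Y0 : ℝ) / 1000000) ^ 2 := by
    intro W
    have g := fdiv_le0 (Cp * (2 * Y0 - W) * 1000000) (Y0 * Y0) (by positivity)
    unfold kvY
    push_cast at g ⊢
    have e1 : (W : ℝ) / 1000000 +
      (Cp : ℝ) / 1000000 * (2 * ((Y0 : ℝ) / 1000000) - (W : ℝ) / 1000000) /
        ((Y0 : ℝ) / 1000000) ^ 2 = (W + Cp * (2 * Y0 - W) * 1000000 / (Y0 * Y0)) / 1000000 := by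
      field_simp
    rw [e1]
    exact div_le_div_of_nonneg_right (by linarith only [g]) (by norm_num)
  -- linear in `Y`
  obtain ⟨C, hC⟩ : ∃ C : ℝ, C = (Cp : ℝ) / 1000000 := ⟨_, rfl⟩
  obtain ⟨y0, hy0⟩ : ∃ y0 : ℝ, y0 = (Y0 : ℝ) / 1000000 := ⟨_, rfl⟩
  have hy00 : 0 < y0 := by rw [hy0]; positivity
  rw [← hC, ← hy0] at hv ⊢
  have hk1 : ((kV Cp Y0 Y1 Y2 : ℤ) : ℝ) ≤ ((kvY Cp Y0 Y1 : ℤ) : ℝ) := by
    unfold kV
    split_ifs with hc
    · exact le_rfl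
    · push Not at hc
      exact_mod_cast hc.le
  have hk2 : ((kV Cp Y0 Y1 Y2 : ℤ) : ℝ) ≤ ((kvY Cp Y0 Y2 : ℤ) : ℝ) := by
    unfold kV
    split_ifs with hc
    · exact_mod_cast hc
    · exact le_rfl
  have m1 := (div_le_div_of_nonneg_right hk1 (by norm_num : (0:ℝ) ≤ 1000000)).trans (hv Y1)
  have m2 := (div_le_div_of_nonneg_right hk2 (by norm_num : (0:ℝ) ≤ 1000000)).trans (hv Y2)
  have e : ∀ W : ℝ, W + C * (2 * y0 - W) / y0 ^ 2 = 2 * C / y0 + W * (1 - C / y0 ^ 2) := by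
    intro W; field_simp; ring
  rw [e] at m1 m2 ⊢
  rcases le_total 0 (1 - C / y0 ^ 2) with hs | hs
  · have := mul_le_mul_of_nonneg_right h1 hs
    linarith only [m1, this]
  · have := mul_le_mul_of_nonpos_right h2 hs
    linarith only [m2, this]

/-- soundness of kind S -/
theorem kS_sound (h : Fr (M + 1) a ζ z) (hmax : ∀ k, ‖u a ζ k‖ ≤ ‖u a ζ 0‖)
    (B : InB a ζ n1 n2 D1 D2 b1 b2 t1 t2) {Do : ℕ}
    (hk : kS n1 b2 t2 Do (cdiv (2 * Do * b2 * t2) 1000000000000)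
        (cdiv (b2 * (2 * t2 - 1000000)) 1000000) = true) : (Do : ℝ) / 1000000 ≤ DS a ζ := by
  have g1 := le_cdiv0 (2 * (Do : ℤ) * b2 * t2) 1000000000000 (by norm_num)
  have g2 := le_cdiv0 (b2 * (2 * t2 - 1000000)) 1000000 (by norm_num)
  obtain ⟨u0, hu0⟩ : ∃ u0 : ℤ, u0 = cdiv (2 * Do * b2 * t2) 1000000000000 := ⟨_, rfl⟩
  obtain ⟨X0, hX0⟩ : ∃ X0 : ℤ, X0 = cdiv (b2 * (2 * t2 - 1000000)) 1000000 := ⟨_, rfl⟩
  rw [← hu0, ← hX0] at hk
  rw [← hu0] at g1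
  rw [← hX0] at g2
  unfold kS at hk
  split_ifs at hk with c1 c2
  push Not at c1 c2
  have c1R : (u0 : ℝ) ≤ 1000000 := by exact_mod_cast c1
  have c2R : 6 * (2 * (t2 : ℝ) - 1000000) * 1000000000000000000 +
    2 * t2 * (1000000 + u0) * (Do * (6000000 + 5 * X0)) ≤
    2 * (n1 * (3000000000000 - b2 * b2)) * 1000000000000 := by exact_mod_cast c2
  push_cast at g1 g2
  refine DS_S h hmax (b2 := (b2 : ℝ) / 1000000) (t2 := (t2 : ℝ) / 1000000) (N1 := (n1 : ℝ))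
    (u0 := (u0 : ℝ) / 1000000) (X0 := (X0 : ℝ) / 1000000) B.hb2 B.b2R B.ht2 B.hn1 (by positivity)
    ?_ ?_ ?_ ?_
  · have e1 : 2 * ((Do : ℝ) / 1000000) * ((b2 : ℝ) / 1000000) * ((t2 : ℝ) / 1000000) =
        2 * (Do : ℝ) * b2 * t2 / 1000000000000 / 1000000 := by ring
    rw [e1]
    exact div_le_div_of_nonneg_right g1 (by norm_num)
  · rw [div_le_one (by norm_num)]; exact c1R
  · have e1 : (b2 : ℝ) / 1000000 * (2 * ((t2 : ℝ) / 1000000) - 1) =
        (b2 : ℝ) * (2 * t2 - 1000000) / 1000000 / 1000000 := by ring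
    rw [e1]
    exact div_le_div_of_nonneg_right g2 (by norm_num)
  · have e1 : 3 * (2 * ((t2 : ℝ) / 1000000) - 1) + 2 * ((t2 : ℝ) / 1000000) *
        (1 + (u0 : ℝ) / 1000000) * ((Do : ℝ) / 1000000) * (3 + 5 / 2 * ((X0 : ℝ) / 1000000)) =
        (6 * (2 * (t2 : ℝ) - 1000000) * 1000000000000000000 +
    2 * t2 * (1000000 + u0) * (Do * (6000000 + 5 * X0))) / 2000000000000000000000000 := by
      ring
    have e2 : (n1 : ℝ) * (3 - ((b2 : ℝ) / 1000000) ^ 2) =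
        (2 * (n1 * (3000000000000 - b2 * b2)) * 1000000000000) / 2000000000000000000000000 := by
      ring
    rw [e1, e2]
    exact div_le_div_of_nonneg_right c2R (by norm_num)

end Sound

end Pool.Agent.Lib.MP_172a45_an.F.H69
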