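import Pool.Agent.Lib.MP_172a45_an.F.H69.ChkB
import Pool.Agent.Lib.MP_172a45_an.F.H69.C.Ca0
import Pool.Agent.Lib.MP_172a45_an.F.H69.C.Ca1
import Pool.Agent.Lib.MP_172a45_an.F.H69.C.Ca2
import Pool.Agent.Lib.MP_172a45_an.F.H69.C.Ca3
import Pool.Agent.Lib.MP_172a45_an.F.H69.C.Ca4
import Pool.Agent.Lib.MP_172a45_an.F.H69.C.Ca5
import Pool.Agent.Lib.MP_172a45_an.F.H69.C.Cb0
import Pool.Agent.Lib.MP_172a45_an.F.H69.C.Cb1
import Pool.Agent.Lib.MP_172a45_an.F.H69.C.Cb2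
import Pool.Agent.Lib.MP_172a45_an.F.H69.C.Cb3
import Pool.Agent.Lib.MP_172a45_an.F.H69.C.Cc0
import Pool.Agent.Lib.MP_172a45_an.F.H69.C.Cc1
import Pool.Agent.Lib.MP_172a45_an.F.H69.C.Cd0
import Pool.Agent.Lib.MP_172a45_an.F.H69.C.Cd1
import Pool.Agent.Lib.MP_172a45_an.F.H69.C.Ce0
import Pool.Agent.Lib.MP_172a45_an.F.H69.C.Ce1
import Pool.Agent.Lib.MP_172a45_an.F.H69.C.Cf0
import Pool.Agent.Lib.MP_172a45_an.F.H69.C.Cg0
import Pool.Agent.Lib.MP_172a45_an.F.H69.C.Cg1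
import Pool.Agent.Lib.MP_172a45_an.F.H69.C.Cg2
import Pool.Agent.Lib.MP_172a45_an.F.H69.C.Cg3
import Pool.Agent.Lib.MP_172a45_an.F.H69.C.Cg4
import Pool.Agent.Lib.MP_172a45_an.F.H69.C.Cg5
import Pool.Agent.Lib.MP_172a45_an.F.H69.C.Ch0
import Pool.Agent.Lib.MP_172a45_an.F.H69.C.Ch1
import Pool.Agent.Lib.MP_172a45_an.F.H69.C.Ch2
import Pool.Agent.Lib.MP_172a45_an.F.H69.C.Ch3
import Pool.Agent.Lib.MP_172a45_an.F.H69.C.Ch4
import Pool.Agent.Lib.MP_172a45_an.F.H69.C.Ch5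
import Pool.Agent.Lib.MP_172a45_an.F.H69.C.Ch6
import Pool.Agent.Lib.MP_172a45_an.F.H69.C.Ch7
import Pool.Agent.Lib.MP_172a45_an.F.H69.C.Ch8
import Pool.Agent.Lib.MP_172a45_an.F.H69.C.Ch9
import Pool.Agent.Lib.MP_172a45_an.F.H69.C.Ch10

set_option autoImplicit false

/-!
# Part L-b for `t₀ ≤ 25/2`: all cells
-/

namespace Pool.Agent.Lib.MP_172a45_an.F.H69

open Finset Real
open Pool.Agent.Lib.MP_172a45_an.F.Fr
open Pool.Agent.Lib.MP_172a45_an.L

variable {M : ℕ} {a : ℝ} {ζ z : Fin (M + 1) → ℂ}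

/-- splitting the range of `t₀` -/
theorem InB.split {n1 n2 D1 D2 b1 b2 t1 t2 : ℤ} (B : InB a ζ n1 n2 D1 D2 b1 b2 t1 t2) (m : ℤ)
    (hm : 1000000 ≤ m) : InB a ζ n1 n2 D1 D2 b1 b2 t1 m ∨ InB a ζ n1 n2 D1 D2 b1 b2 m t2 := by
  rcases le_total ‖u a ζ 0‖ ((m : ℝ) / 1000000) with h | h
  · exact Or.inl { B with ht2 := h }
  · exact Or.inr { B with ht1 := h, t10 := hm }

/-- N in [100, 125], deficit in [13, oo] -/
theorem job_a (h : Fr (M + 1) a ζ z) (hM : 0 < M) (hmax : ∀ k, ‖u a ζ k‖ ≤ ‖u a ζ 0‖)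
    (hΔ : 8 ≤ Del a ζ) (B : InB a ζ 100 125 13 0 0 1000000 1000000 12500000) : False := by
  rcases B.split 4000000 (by norm_num) with B | B
  · exact chk_sound h hM hmax hΔ _ _ _ _ _ B C.ca0
  rcases B.split 5250000 (by norm_num) with B | B
  · exact chk_sound h hM hmax hΔ _ _ _ _ _ B C.ca1
  rcases B.split 7000000 (by norm_num) with B | B
  · exact chk_sound h hM hmax hΔ _ _ _ _ _ B C.ca2
  rcases B.split 10250000 (by norm_num) with B | B
  · exact chk_sound h hM hmax hΔ _ _ _ _ _ B C.ca3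
  rcases B.split 12250000 (by norm_num) with B | B
  · exact chk_sound h hM hmax hΔ _ _ _ _ _ B C.ca4
  exact chk_sound h hM hmax hΔ _ _ _ _ _ B C.ca5

/-- N in [125, 160], deficit in [13, oo] -/
theorem job_b (h : Fr (M + 1) a ζ z) (hM : 0 < M) (hmax : ∀ k, ‖u a ζ k‖ ≤ ‖u a ζ 0‖)
    (hΔ : 8 ≤ Del a ζ) (B : InB a ζ 125 160 13 0 0 1000000 1000000 12500000) : False := by
  rcases B.split 4750000 (by norm_num) with B | B
  · exact chk_sound h hM hmax hΔ _ _ _ _ _ B C.cb0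
  rcases B.split 7500000 (by norm_num) with B | B
  · exact chk_sound h hM hmax hΔ _ _ _ _ _ B C.cb1
  rcases B.split 12000000 (by norm_num) with B | B
  · exact chk_sound h hM hmax hΔ _ _ _ _ _ B C.cb2
  exact chk_sound h hM hmax hΔ _ _ _ _ _ B C.cb3

/-- N in [160, 200], deficit in [13, oo] -/
theorem job_c (h : Fr (M + 1) a ζ z) (hM : 0 < M) (hmax : ∀ k, ‖u a ζ k‖ ≤ ‖u a ζ 0‖)
    (hΔ : 8 ≤ Del a ζ) (B : InB a ζ 160 200 13 0 0 1000000 1000000 12500000) : False := by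
  rcases B.split 6500000 (by norm_num) with B | B
  · exact chk_sound h hM hmax hΔ _ _ _ _ _ B C.cc0
  exact chk_sound h hM hmax hΔ _ _ _ _ _ B C.cc1

/-- N in [200, 260], deficit in [13, oo] -/
theorem job_d (h : Fr (M + 1) a ζ z) (hM : 0 < M) (hmax : ∀ k, ‖u a ζ k‖ ≤ ‖u a ζ 0‖)
    (hΔ : 8 ≤ Del a ζ) (B : InB a ζ 200 260 13 0 0 1000000 1000000 12500000) : False := by
  rcases B.split 7750000 (by norm_num) with B | B
  · exact chk_sound h hM hmax hΔ _ _ _ _ _ B C.cd0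
  exact chk_sound h hM hmax hΔ _ _ _ _ _ B C.cd1

/-- N in [260, 350], deficit in [13, oo] -/
theorem job_e (h : Fr (M + 1) a ζ z) (hM : 0 < M) (hmax : ∀ k, ‖u a ζ k‖ ≤ ‖u a ζ 0‖)
    (hΔ : 8 ≤ Del a ζ) (B : InB a ζ 260 350 13 0 0 1000000 1000000 12500000) : False := by
  rcases B.split 9500000 (by norm_num) with B | B
  · exact chk_sound h hM hmax hΔ _ _ _ _ _ B C.ce0
  exact chk_sound h hM hmax hΔ _ _ _ _ _ B C.ce1

/-- N in [350, oo], deficit in [13, oo] -/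
theorem job_f (h : Fr (M + 1) a ζ z) (hM : 0 < M) (hmax : ∀ k, ‖u a ζ k‖ ≤ ‖u a ζ 0‖)
    (hΔ : 8 ≤ Del a ζ) (B : InB a ζ 350 0 13 0 0 1000000 1000000 12500000) : False := by
  exact chk_sound h hM hmax hΔ _ _ _ _ _ B C.cf0

/-- N in [100, oo], deficit in [10, 13] -/
theorem job_g (h : Fr (M + 1) a ζ z) (hM : 0 < M) (hmax : ∀ k, ‖u a ζ k‖ ≤ ‖u a ζ 0‖)
    (hΔ : 8 ≤ Del a ζ) (B : InB a ζ 100 0 10 13 0 1000000 1000000 12500000) : False := by
  rcases B.split 3250000 (by norm_num) with B | B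
  · exact chk_sound h hM hmax hΔ _ _ _ _ _ B C.cg0
  rcases B.split 4000000 (by norm_num) with B | B
  · exact chk_sound h hM hmax hΔ _ _ _ _ _ B C.cg1
  rcases B.split 5000000 (by norm_num) with B | B
  · exact chk_sound h hM hmax hΔ _ _ _ _ _ B C.cg2
  rcases B.split 7500000 (by norm_num) with B | B
  · exact chk_sound h hM hmax hΔ _ _ _ _ _ B C.cg3
  rcases B.split 12250000 (by norm_num) with B | B
  · exact chk_sound h hM hmax hΔ _ _ _ _ _ B C.cg4
  exact chk_sound h hM hmax hΔ _ _ _ _ _ B C.cg5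

/-- N in [100, oo], deficit in [8, 10] -/
theorem job_h (h : Fr (M + 1) a ζ z) (hM : 0 < M) (hmax : ∀ k, ‖u a ζ k‖ ≤ ‖u a ζ 0‖)
    (hΔ : 8 ≤ Del a ζ) (B : InB a ζ 100 0 8 10 0 1000000 1000000 12500000) : False := by
  rcases B.split 2750000 (by norm_num) with B | B
  · exact chk_sound h hM hmax hΔ _ _ _ _ _ B C.ch0
  rcases B.split 3000000 (by norm_num) with B | B
  · exact chk_sound h hM hmax hΔ _ _ _ _ _ B C.ch1
  rcases B.split 3250000 (by norm_num) with B | B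
  · exact chk_sound h hM hmax hΔ _ _ _ _ _ B C.ch2
  rcases B.split 3500000 (by norm_num) with B | B
  · exact chk_sound h hM hmax hΔ _ _ _ _ _ B C.ch3
  rcases B.split 3750000 (by norm_num) with B | B
  · exact chk_sound h hM hmax hΔ _ _ _ _ _ B C.ch4
  rcases B.split 4000000 (by norm_num) with B | B
  · exact chk_sound h hM hmax hΔ _ _ _ _ _ B C.ch5
  rcases B.split 4250000 (by norm_num) with B | B
  · exact chk_sound h hM hmax hΔ _ _ _ _ _ B C.ch6
  rcases B.split 4750000 (by norm_num) with B | B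
  · exact chk_sound h hM hmax hΔ _ _ _ _ _ B C.ch7
  rcases B.split 6000000 (by norm_num) with B | B
  · exact chk_sound h hM hmax hΔ _ _ _ _ _ B C.ch8
  rcases B.split 10000000 (by norm_num) with B | B
  · exact chk_sound h hM hmax hΔ _ _ _ _ _ B C.ch9
  exact chk_sound h hM hmax hΔ _ _ _ _ _ B C.ch10

/-- the base box -/
theorem base (h : Fr (M + 1) a ζ z) (hmax : ∀ k, ‖u a ζ k‖ ≤ ‖u a ζ 0‖)
    (ht : ‖u a ζ 0‖ ≤ 25 / 2) {n1 n2 D1 D2 : ℤ} (hn1 : (n1 : ℝ) ≤ M + 1)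
    (hn2 : n2 = 0 ∨ (M : ℝ) + 1 ≤ n2) (hD1 : (D1 : ℝ) ≤ Del a ζ) (hD2 : D2 = 0 ∨ Del a ζ ≤ D2)
    (h2 : 2 ≤ n1) : InB a ζ n1 n2 D1 D2 0 1000000 1000000 12500000 where
  hb1 := by push_cast; linarith only [h.a1]
  hb2 := by push_cast; linarith only [h.a0]
  ht1 := by push_cast; linarith only [one_le_t0 h hmax]
  ht2 := by push_cast; linarith only [ht]
  hn1 := hn1
  hn2 := hn2
  hD1 := hD1
  hD2 := hD2
  b10 := le_rfl
  b21 := le_rfl
  t10 := le_rfl
  n10 := h2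

/-- **part L-b for `t₀ ≤ 25/2`** -/
theorem Lb1 (h : Fr (M + 1) a ζ z) (hM : 99 ≤ M) (hmax : ∀ k, ‖u a ζ k‖ ≤ ‖u a ζ 0‖)
    (hΔ : 8 ≤ Del a ζ) (ht : ‖u a ζ 0‖ ≤ 25 / 2) : False := by
  have hM0 : 0 < M := by omega
  have hMR : (99 : ℝ) ≤ M := by exact_mod_cast hM
  rcases le_total (Del a ζ) 10 with h1 | h1
  · exact job_h h hM0 hmax hΔ (base h hmax ht (by push_cast; linarith only [hMR]) (Or.inl rfl)
      (by push_cast; linarith only [hΔ]) (Or.inr (by push_cast; linarith only [h1])) (by norm_num))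
  rcases le_total (Del a ζ) 13 with h2 | h2
  · exact job_g h hM0 hmax hΔ (base h hmax ht (by push_cast; linarith only [hMR]) (Or.inl rfl)
      (by push_cast; linarith only [h1]) (Or.inr (by push_cast; linarith only [h2])) (by norm_num))
  rcases le_total ((M : ℝ) + 1) 125 with h3 | h3
  · exact job_a h hM0 hmax hΔ (base h hmax ht (by push_cast; linarith only [hMR])
      (Or.inr (by push_cast; linarith only [h3])) (by push_cast; linarith only [h2]) (Or.inl rfl) (by norm_num))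
  rcases le_total ((M : ℝ) + 1) 160 with h4 | h4
  · exact job_b h hM0 hmax hΔ (base h hmax ht (by push_cast; linarith only [h3])
      (Or.inr (by push_cast; linarith only [h4])) (by push_cast; linarith only [h2]) (Or.inl rfl) (by norm_num))
  rcases le_total ((M : ℝ) + 1) 200 with h5 | h5
  · exact job_c h hM0 hmax hΔ (base h hmax ht (by push_cast; linarith only [h4])
      (Or.inr (by push_cast; linarith only [h5])) (by push_cast; linarith only [h2]) (Or.inl rfl) (by norm_num))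
  rcases le_total ((M : ℝ) + 1) 260 with h6 | h6
  · exact job_d h hM0 hmax hΔ (base h hmax ht (by push_cast; linarith only [h5])
      (Or.inr (by push_cast; linarith only [h6])) (by push_cast; linarith only [h2]) (Or.inl rfl) (by norm_num))
  rcases le_total ((M : ℝ) + 1) 350 with h7 | h7
  · exact job_e h hM0 hmax hΔ (base h hmax ht (by push_cast; linarith only [h6])
      (Or.inr (by push_cast; linarith only [h7])) (by push_cast; linarith only [h2]) (Or.inl rfl) (by norm_num))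
  · exact job_f h hM0 hmax hΔ (base h hmax ht (by push_cast; linarith only [h7]) (Or.inl rfl)
      (by push_cast; linarith only [h2]) (Or.inl rfl) (by norm_num))

end Pool.Agent.Lib.MP_172a45_an.F.H69
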