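import Pool.Agent.Lib.MP_172a45_an.F.H69.Core
import Pool.Agent.Lib.MP_172a45_an.F.H69.Def

set_option autoImplicit false

/-!
# The integer recursion and its soundness

Numbers are scaled by `10⁶`.  `n` steps per unit; grid points `i/(n ν)`; `ν ≥ 1` is a scaling
parameter (`ν = 1` for bounded `t₀`).
-/

namespace Pool.Agent.Lib.MP_172a45_an.F.H69

open Set MeasureTheory

/-- floor and ceiling division -/
theorem fdiv_le (a b : ℤ) (hb : 0 < b) : ((a / b : ℤ) : ℝ) ≤ (a : ℝ) / b := by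
  rw [le_div_iff₀ (by exact_mod_cast hb)]
  exact_mod_cast Int.ediv_mul_le a hb.ne'

theorem le_cdiv (a b : ℤ) (hb : 0 < b) : (a : ℝ) / b ≤ ((cdiv a b : ℤ) : ℝ) := by
  unfold cdiv
  have h := fdiv_le (-a) b hb
  push_cast at h ⊢
  rw [neg_div] at h
  linarith only [h]

theorem eu_sound {n X1 TAU i : ℤ} (hi : 0 ≤ i) (hin : i < n) (hX : 0 ≤ X1) (hT : 0 ≤ TAU) :
    lst ((TAU : ℝ) / 1000000) ((X1 : ℝ) / 1000000) ((i : ℝ) / n) ≤
      ((eu n X1 TAU i : ℤ) : ℝ) / 1000000 := by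
  have hn : 0 < n := lt_of_le_of_lt hi hin
  have hnR : (0 : ℝ) < n := by exact_mod_cast hn
  have hiR : (0 : ℝ) ≤ i := by exact_mod_cast hi
  have hinR : (i : ℝ) < n := by exact_mod_cast hin
  have hXR : (0 : ℝ) ≤ X1 := by exact_mod_cast hX
  have hTR : (0 : ℝ) ≤ TAU := by exact_mod_cast hT
  have hni : 0 < n - i := by linarith
  have hniR : (0 : ℝ) < (n : ℝ) - i := by linarith
  have hs0 : (0:ℝ) ≤ (i : ℝ) / n := by positivity
  have hs1 : (i : ℝ) / n < 1 := by rw [div_lt_one hnR]; exact hinR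
  set B := cdiv (n * 1000000 + i * TAU) (n - i) with hB
  set g := (i * (X1 * X1)) / (n * 1000000 + i * X1) with hg
  have hBr : Bf ((TAU : ℝ) / 1000000) ((i : ℝ) / n) ≤ (B : ℝ) / 1000000 := by
    have h1 := le_cdiv (n * 1000000 + i * TAU) (n - i) hni
    rw [← hB] at h1
    push_cast at h1
    have e : Bf ((TAU : ℝ) / 1000000) ((i : ℝ) / n) =
        ((n : ℝ) * 1000000 + i * TAU) / (n - i) / 1000000 := by
      unfold Bf
      have : (1 : ℝ) - i / n ≠ 0 := by linarith only [hs1]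
      have : (n : ℝ) - i ≠ 0 := by linarith
      field_simp
    rw [e]
    exact div_le_div_of_nonneg_right h1 (by norm_num)
  have hgr : (g : ℝ) / 1000000 ≤ gf ((X1 : ℝ) / 1000000) ((i : ℝ) / n) := by
    have hden : 0 < n * 1000000 + i * X1 := by
      have := mul_nonneg hi hX
      linarith only [hi, hin, this]
    have h1 := fdiv_le (i * (X1 * X1)) (n * 1000000 + i * X1) hden
    rw [← hg] at h1
    push_cast at h1
    have e : gf ((X1 : ℝ) / 1000000) ((i : ℝ) / n) =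
        ((i : ℝ) * (X1 * X1)) / (n * 1000000 + i * X1) / 1000000 := by
      unfold gf
      have h2 : (0 : ℝ) < n * 1000000 + i * X1 := by positivity
      have h3 : (1 : ℝ) + i / n * (X1 / 1000000) ≠ 0 := by positivity
      field_simp
    rw [e]
    exact div_le_div_of_nonneg_right h1 (by norm_num)
  have hBpos : 0 < Bf ((TAU : ℝ) / 1000000) ((i : ℝ) / n) := Bf_pos (by positivity) hs0 hs1
  have hgp : 0 ≤ g := by
    rw [hg]
    exact Int.ediv_nonneg (by positivity) (by have := mul_nonneg hi hX; linarith only [hi, hin,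
        this])
  have hgpR : (0 : ℝ) ≤ (g : ℝ) / 1000000 := by
    have : (0 : ℝ) ≤ g := by exact_mod_cast hgp
    positivity
  have hBp : 0 < (B : ℝ) / 1000000 := lt_of_lt_of_le hBpos hBr
  have hBp' : (0 : ℝ) < B := by
    have := mul_pos hBp (by norm_num : (0:ℝ) < 1000000)
    rwa [div_mul_cancel₀ _ (by norm_num : (1000000:ℝ) ≠ 0)] at this
  have h1 : lst ((TAU : ℝ) / 1000000) ((X1 : ℝ) / 1000000) ((i : ℝ) / n) ≤
      Lf ((B : ℝ) / 1000000) ((g : ℝ) / 1000000) := by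
    unfold lst
    exact (Lf_anti hBpos hgr).trans (Lf_mono hBpos hBr hgpR)
  refine h1.trans ?_
  have e2 : eu n X1 TAU i = if 2 * B - g ≤ 0 then 0 else cdiv ((2 * B - g) * (2 * B - g)) (4 * B) :=
    rfl
  rw [e2]
  have e3 : 2 * ((B : ℝ) / 1000000) - (g : ℝ) / 1000000 = ((2 * B - g : ℤ) : ℝ) / 1000000 := by
    push_cast; ring
  split_ifs with h
  · have h4 : ((2 * B - g : ℤ) : ℝ) / 1000000 ≤ 0 := by
      have : ((2 * B - g : ℤ) : ℝ) ≤ 0 := by exact_mod_cast h
      exact div_nonpos_of_nonpos_of_nonneg this (by norm_num)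
    unfold Lf
    rw [e3, max_eq_right h4]
    simp
  · push Not at h
    have h4 : 0 ≤ ((2 * B - g : ℤ) : ℝ) / 1000000 := by
      have : (0 : ℝ) < ((2 * B - g : ℤ) : ℝ) := by exact_mod_cast h
      positivity
    have h5 := le_cdiv ((2 * B - g) * (2 * B - g)) (4 * B) (by
      have : (0 : ℤ) < B := by exact_mod_cast hBp'
      linarith only [this])
    unfold Lf
    rw [e3, max_eq_left h4]
    have e4 : (((2 * B - g : ℤ) : ℝ) / 1000000) ^ 2 / (4 * ((B : ℝ) / 1000000)) =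
        (((2 * B - g) * (2 * B - g) : ℤ) : ℝ) / ((4 * B : ℤ) : ℝ) / 1000000 := by
      push_cast
      field_simp
    rw [e4]
    exact div_le_div_of_nonneg_right h5 (by norm_num)

/-- the lower bound function of `lam` -/
noncomputable def lamL (X m D σ : ℝ) : ℝ := -(X * (1 + σ * X)⁻¹) + m * (1 - σ) + σ * D

theorem lamL_chord {X m D s0 s1 s θ : ℝ} (hX : 0 ≤ X) (hθ0 : 0 ≤ θ) (hθ1 : θ ≤ 1) (h0 : 0 ≤ s0)
    (h01 : s0 ≤ s1) (hs : s = (1 - θ) * s0 + θ * s1) :
    (1 - θ) * lamL X m D s0 + θ * lamL X m D s1 ≤ lamL X m D s := by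
  have h := inv_chord hX hθ0 hθ1 h0 h01 hs
  unfold lamL
  rw [hs] at h ⊢
  nlinarith only [h]

theorem ll_sound {n X2 M D i : ℤ} (hi : 0 ≤ i) (hin : i < n) (hX : 0 ≤ X2) :
    ((ll n X2 M D i : ℤ) : ℝ) / 1000000 ≤
      lamL ((X2 : ℝ) / 1000000) ((M : ℝ) / 1000000) ((D : ℝ) / 1000000) ((i : ℝ) / n) := by
  have hn : 0 < n := lt_of_le_of_lt hi hin
  have hnR : (0 : ℝ) < n := by exact_mod_cast hn
  have hiR : (0 : ℝ) ≤ i := by exact_mod_cast hi
  have hXR : (0 : ℝ) ≤ X2 := by exact_mod_cast hX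
  have hden : 0 < n * 1000000 + i * X2 := by
    have := mul_nonneg hi hX
    linarith
  have hdenR : (0 : ℝ) < n * 1000000 + i * X2 := by positivity
  have h1 := fdiv_le (M * (n - i) + i * D) n hn
  have h2 := le_cdiv (n * X2 * 1000000) (n * 1000000 + i * X2) hden
  unfold ll lamL
  push_cast at h1 h2 ⊢
  have e1 : (X2 : ℝ) / 1000000 * (1 + (i : ℝ) / n * ((X2 : ℝ) / 1000000))⁻¹ =
      (n * X2 * 1000000) / (n * 1000000 + i * X2) / 1000000 := by
    have h3 : (1 : ℝ) + i / n * (X2 / 1000000) ≠ 0 := by positivity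
    field_simp
  have e2 : (M : ℝ) / 1000000 * (1 - (i : ℝ) / n) + (i : ℝ) / n * ((D : ℝ) / 1000000) =
      (M * (n - i) + i * D) / n / 1000000 := by
    field_simp
  have e3 : -((X2 : ℝ) / 1000000 * (1 + (i : ℝ) / n * ((X2 : ℝ) / 1000000))⁻¹) +
      (M : ℝ) / 1000000 * (1 - (i : ℝ) / n) + (i : ℝ) / n * ((D : ℝ) / 1000000) =
      (M * (n - i) + i * D) / n / 1000000 -
        (n * X2 * 1000000) / (n * 1000000 + i * X2) / 1000000 := by
    rw [← e2, ← e1]; ring
  rw [e3, ← sub_div]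
  exact div_le_div_of_nonneg_right (by linarith only [h1, h2]) (by norm_num)

/-! ### The recursion -/

section Sound

variable {q lam : ℝ → ℝ} {ν : ℝ}

/-- `θ`-representation of a point of a cell -/
theorem cell_rep {n i : ℤ} (hn : 0 < n) (hν : 0 < ν) {x : ℝ}
    (hx : x ∈ Icc ((i : ℝ) / (n * ν)) (((i : ℝ) + 1) / (n * ν))) :
    0 ≤ n * ν * x - i ∧ n * ν * x - i ≤ 1 := by
  have hnR : (0 : ℝ) < n := by exact_mod_cast hn
  have h : (0:ℝ) < n * ν := by positivity
  have h1 := hx.1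
  have h2 := hx.2
  rw [div_le_iff₀ h] at h1
  rw [le_div_iff₀ h] at h2
  constructor <;> linarith

/-- the loss with the scaling: `lst (ν τ) (ν x) (σ/ν) ≤ lst τ x σ` -/
theorem lst_scale {τ x σ : ℝ} (hν : 1 ≤ ν) (hτ : 0 ≤ τ) (hx : 0 ≤ x) (hσ0 : 0 ≤ σ) (hσ1 : σ < 1) :
    lst (ν * τ) (ν * x) (σ / ν) ≤ lst τ x σ := by
  have hν0 : 0 < ν := by linarith
  have h1 : σ / ν ≤ σ := div_le_self hσ0 hν
  have h0 : 0 ≤ σ / ν := by positivity
  have hB : Bf (ν * τ) (σ / ν) ≤ Bf τ σ := by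
    unfold Bf
    have e : σ / ν * (ν * τ) = σ * τ := by field_simp
    rw [e]
    exact div_le_div_of_nonneg_left (by positivity) (by linarith) (by linarith)
  have hg : gf x σ ≤ gf (ν * x) (σ / ν) := by
    unfold gf
    have e1 : σ / ν * (ν * x) ^ 2 = ν * (σ * x ^ 2) := by field_simp
    have e2 : σ / ν * (ν * x) = σ * x := by field_simp
    rw [e1, e2]
    refine div_le_div_of_nonneg_right ?_ (by positivity)
    have : 0 ≤ σ * x ^ 2 := by positivity
    nlinarith only [hν, this]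
  have hB0 : 0 < Bf (ν * τ) (σ / ν) := Bf_pos (by positivity) h0 (by linarith)
  unfold lst
  exact (Lf_anti hB0 hg).trans (Lf_mono hB0 hB (gf_nonneg hx hσ0))

/-- chord bound of the loss on a cell -/
theorem lst_cell {n X1 TAU i : ℤ} (hν : 1 ≤ ν) (hi : 0 ≤ i) (hin : i + 1 < n) (hX : 0 ≤ X1)
    (hT : 0 ≤ TAU) {x : ℝ}
    (hx : x ∈ Icc ((i : ℝ) / (n * ν)) (((i : ℝ) + 1) / (n * ν))) :
    lst (ν * ((TAU : ℝ) / 1000000)) (ν * ((X1 : ℝ) / 1000000)) x ≤
      ((eu n X1 TAU i : ℤ) : ℝ) / 1000000 -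
        (((eu n X1 TAU i : ℤ) : ℝ) - ((eu n X1 TAU (i + 1) : ℤ) : ℝ)) / 1000000 * (n * ν) *
          (x - (i : ℝ) / (n * ν)) := by
  have hn : 0 < n := by linarith
  have hnR : (0 : ℝ) < n := by exact_mod_cast hn
  have hν0 : 0 < ν := by linarith
  have hiR : (0 : ℝ) ≤ i := by exact_mod_cast hi
  have hXR : (0 : ℝ) ≤ (X1 : ℝ) / 1000000 := by
    have : (0 : ℝ) ≤ X1 := by exact_mod_cast hX
    positivity
  have hTR : (0 : ℝ) ≤ (TAU : ℝ) / 1000000 := by
    have : (0 : ℝ) ≤ TAU := by exact_mod_cast hT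
    positivity
  obtain ⟨h0, h1⟩ := cell_rep hn hν0 hx
  set θ := n * ν * x - i with hθ
  have hinR : (i : ℝ) + 1 < n := by exact_mod_cast hin
  have hs1 : ((i : ℝ) + 1) / n < 1 := by rw [div_lt_one hnR]; exact hinR
  have hσ : ν * x = (1 - θ) * ((i : ℝ) / n) + θ * (((i : ℝ) + 1) / n) := by
    rw [hθ]; field_simp; ring
  have hx0 : 0 ≤ x := le_trans (by positivity) hx.1
  have hσ1 : ν * x < 1 := by
    have h3 := hx.2
    rw [le_div_iff₀ (by positivity)] at h3
    have h4 : n * (ν * x) < n * 1 := by nlinarith only [h1, hinR]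
    exact lt_of_mul_lt_mul_left h4 hnR.le
  have h2 := lst_scale (ν := ν) (τ := (TAU : ℝ) / 1000000) (x := (X1 : ℝ) / 1000000) hν hTR hXR
    (by positivity : 0 ≤ ν * x) hσ1
  have e0 : ν * x / ν = x := by field_simp
  rw [e0] at h2
  have h3 := eu_sound (n := n) (X1 := X1) (TAU := TAU) (i := i) hi (by linarith only [hin]) hX hT
  have h4 := eu_sound (n := n) (X1 := X1) (TAU := TAU) (i := i + 1) (by linarith only [hi]) hin hX hT
  push_cast at h4
  have h5 := lst_chord hTR hXR h0 h1 (by positivity) (by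
    refine div_le_div_of_nonneg_right ?_ hnR.le; linarith only) hs1 hσ h3 h4
  refine (h2.trans h5).trans (le_of_eq ?_)
  have e5 : (n * ν : ℝ) * (x - (i : ℝ) / (n * ν)) = θ := by
    rw [hθ]; field_simp
  rw [mul_assoc, e5]
  ring

/-- chord bound of `lam` on a cell -/
theorem lam_cell {n X2 M D i : ℤ} (hν : 1 ≤ ν) (hi : 0 ≤ i) (hin : i + 1 < n) (hX : 0 ≤ X2)
    (hlam : ∀ x : ℝ, 0 ≤ x → ν * x < 1 → ν * lamL ((X2 : ℝ) / 1000000) ((M : ℝ) / 1000000)
      ((D : ℝ) / 1000000) (ν * x) ≤ lam x) {x : ℝ}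
    (hx : x ∈ Icc ((i : ℝ) / (n * ν)) (((i : ℝ) + 1) / (n * ν))) :
    ν * (((ll n X2 M D i : ℤ) : ℝ) / 1000000 +
        (((ll n X2 M D (i + 1) : ℤ) : ℝ) - ((ll n X2 M D i : ℤ) : ℝ)) / 1000000 * (n * ν) *
          (x - (i : ℝ) / (n * ν))) ≤ lam x := by
  have hn : 0 < n := by linarith
  have hnR : (0 : ℝ) < n := by exact_mod_cast hn
  have hν0 : 0 < ν := by linarith
  have hiR : (0 : ℝ) ≤ i := by exact_mod_cast hi
  have hXR : (0 : ℝ) ≤ (X2 : ℝ) / 1000000 := by
    have : (0 : ℝ) ≤ X2 := by exact_mod_cast hX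
    positivity
  obtain ⟨h0, h1⟩ := cell_rep hn hν0 hx
  set θ := n * ν * x - i with hθ
  have hinR : (i : ℝ) + 1 < n := by exact_mod_cast hin
  have hσ : ν * x = (1 - θ) * ((i : ℝ) / n) + θ * (((i : ℝ) + 1) / n) := by
    rw [hθ]; field_simp; ring
  have hx0 : 0 ≤ x := le_trans (by positivity) hx.1
  have hσ1 : ν * x < 1 := by
    have h3 := hx.2
    rw [le_div_iff₀ (by positivity)] at h3
    have h4 : n * (ν * x) < n * 1 := by nlinarith only [h1, hinR]
    exact lt_of_mul_lt_mul_left h4 hnR.le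
  refine le_trans ?_ (hlam x hx0 hσ1)
  refine mul_le_mul_of_nonneg_left ?_ hν0.le
  have h3 := ll_sound (n := n) (X2 := X2) (M := M) (D := D) (i := i) hi (by linarith) hX
  have h4 := ll_sound (n := n) (X2 := X2) (M := M) (D := D) (i := i + 1) (by linarith) hin hX
  push_cast at h4
  have h5 := lamL_chord (m := (M : ℝ) / 1000000) (D := (D : ℝ) / 1000000) hXR h0 h1
    (by positivity : (0:ℝ) ≤ (i : ℝ) / n)
    (by refine div_le_div_of_nonneg_right ?_ hnR.le; linarith only) hσ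
  refine le_trans ?_ h5
  have e5 : (n * ν : ℝ) * (x - (i : ℝ) / (n * ν)) = θ := by
    rw [hθ]; field_simp
  rw [mul_assoc, e5]
  have a1 := mul_le_mul_of_nonneg_left h3 (by linarith only [h1] : 0 ≤ 1 - θ)
  have a2 := mul_le_mul_of_nonneg_left h4 h0
  linarith only [a1, a2]

/-- soundness of one step, abstract form -/
theorem stp_sound' {n A H Ls Lt Ms Mt : ℤ} {s t A' : ℝ} {ℓ : ℝ → ℝ} (hn : 0 < n) (hν : 0 < ν)
    (hst : t - s = 1 / (n * ν))
    (hq : ∀ x ∈ Icc s t, HasDerivAt q (-(lam x) * q x) x) (hq0 : ∀ x ∈ Icc s t, 0 ≤ q x)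
    (hℓc : ContinuousOn ℓ (Icc s t))
    (hℓ : ∀ x ∈ Icc s t, ℓ x ≤ (Ls : ℝ) / 1000000 - ((Ls : ℝ) - Lt) / 1000000 * (n * ν) * (x - s))
    (hlam : ∀ x ∈ Icc s t, ν * ((Ms : ℝ) / 1000000 +
      ((Mt : ℝ) - Ms) / 1000000 * (n * ν) * (x - s)) ≤ lam x)
    (hlam0 : ∀ x ∈ Icc s t, 0 ≤ lam x) (hH : 0 ≤ H) (hN : 0 ≤ stp n A H Ls Lt Ms Mt)
    (hA : (A : ℝ) / 1000000 ≤ A') :
    q t * (((stp n A H Ls Lt Ms Mt : ℤ) : ℝ) / (1000000 * ν)) - q s * ((H : ℝ) / (1000000 * ν)) ≤
      ∫ x in s..t, q x * (A' - ℓ x) := by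
  have hnR : (0 : ℝ) < n := by exact_mod_cast hn
  have hδ : 0 < t - s := by rw [hst]; positivity
  have hst' : s ≤ t := by linarith only [hδ]
  have hqt : 0 ≤ q t := hq0 t ⟨hst', le_rfl⟩
  have hHR : (0 : ℝ) ≤ H := by exact_mod_cast hH
  have h0 : (0 : ℝ) ≤ (H : ℝ) / (1000000 * ν) := by positivity
  -- the slopes
  obtain ⟨L0, hL0⟩ : ∃ L0 : ℤ, L0 = if Ms < 0 ∨ Mt < 0 then 0 else if Ms ≤ Mt then Ms else Mt :=
    ⟨_, rfl⟩
  obtain ⟨dL, hdL⟩ : ∃ dL : ℤ, dL = if Ms < 0 ∨ Mt < 0 then 0 else if Ms ≤ Mt then Mt - Ms else 0 :=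
    ⟨_, rfl⟩
  obtain ⟨P, hP⟩ : ∃ P : ℤ, P = A - Ls + L0 * H / 1000000 := ⟨_, rfl⟩
  obtain ⟨E, hE⟩ : ∃ E : ℤ, E = Ls - Lt + dL * H / 1000000 + L0 * P / (n * 1000000) := ⟨_, rfl⟩
  have hstp : stp n A H Ls Lt Ms Mt = if 0 ≤ P ∧ 0 ≤ E then H + (2 * P + E) / (2 * n)
      else if 0 ≤ P ∧ L0 ≤ n * 1000000 ∧ 0 ≤ P + E then H + (P + E) / n
      else H + (A - (if Ls ≤ Lt then Lt else Ls)) / n := by
    unfold stp
    simp only
    rw [← hL0, ← hdL, ← hP, ← hE]
  have hL0n : 0 ≤ L0 := by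
    rw [hL0]
    split_ifs with h1 h2
    · exact le_rfl
    · push Not at h1; exact h1.1
    · push Not at h1; exact h1.2
  have hdLn : 0 ≤ dL := by
    rw [hdL]
    split_ifs with h1 h2
    · exact le_rfl
    · linarith only [h2]
    · exact le_rfl
  have hL0R : (0 : ℝ) ≤ L0 := by exact_mod_cast hL0n
  have hdLR : (0 : ℝ) ≤ dL := by exact_mod_cast hdLn
  have hlam' : ∀ x ∈ Icc s t, ν * ((L0 : ℝ) / 1000000) +
      ν * ((dL : ℝ) / 1000000 * (n * ν)) * (x - s) ≤ lam x := by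
    intro x hx
    rw [hL0, hdL]
    split_ifs with h1 h2
    · have := hlam0 x hx
      simpa using this
    · have := hlam x hx
      refine le_trans (le_of_eq ?_) this
      push_cast
      ring
    · push Not at h2
      have h3 := hlam x hx
      have hw0 : 0 ≤ x - s := sub_nonneg.2 hx.1
      have hw1 : (n * ν) * (x - s) ≤ 1 := by
        have : x - s ≤ t - s := by linarith only [hx.2]
        rw [hst, le_div_iff₀ (by positivity)] at this
        linarith only [this]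
      have h4 : ((Mt : ℝ) - Ms) / 1000000 ≤ 0 := by
        have : (Mt : ℝ) < Ms := by exact_mod_cast h2
        exact div_nonpos_of_nonpos_of_nonneg (by linarith only [this]) (by norm_num)
      have h5 : ((Mt : ℝ) - Ms) / 1000000 * 1 ≤ ((Mt : ℝ) - Ms) / 1000000 * ((n * ν) * (x - s)) :=
        mul_le_mul_of_nonpos_left hw1 h4
      refine le_trans ?_ h3
      have h6 : (Mt : ℝ) / 1000000 ≤ (Ms : ℝ) / 1000000 +
          ((Mt : ℝ) - Ms) / 1000000 * (n * ν) * (x - s) := by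
        have e : (Mt : ℝ) / 1000000 = (Ms : ℝ) / 1000000 + ((Mt : ℝ) - Ms) / 1000000 * 1 := by ring
        rw [e]
        linarith only [h5]
      have h7 := mul_le_mul_of_nonneg_left h6 hν.le
      simpa using h7
  have hPr : (P : ℝ) / 1000000 ≤ A' - (Ls : ℝ) / 1000000 +
      ν * ((L0 : ℝ) / 1000000) * ((H : ℝ) / (1000000 * ν)) := by
    have h1 := fdiv_le (L0 * H) 1000000 (by norm_num)
    rw [hP]
    push_cast at h1 ⊢
    have e : ν * ((L0 : ℝ) / 1000000) * ((H : ℝ) / (1000000 * ν)) =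
        (L0 * H / 1000000) / 1000000 := by field_simp
    rw [e]
    have := div_le_div_of_nonneg_right h1 (by norm_num : (0:ℝ) ≤ 1000000)
    calc ((A : ℝ) - Ls + ((L0 * H / 1000000 : ℤ) : ℝ)) / 1000000 =
        (A : ℝ) / 1000000 - (Ls : ℝ) / 1000000 + ((L0 * H / 1000000 : ℤ) : ℝ) / 1000000 := by ring
      _ ≤ _ := by linarith only [hA, h1]
  have hEr : (E : ℝ) / 1000000 * (n * ν) ≤ ((Ls : ℝ) - Lt) / 1000000 * (n * ν) +
      ν * ((dL : ℝ) / 1000000 * (n * ν)) * ((H : ℝ) / (1000000 * ν)) +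
      ν * ((L0 : ℝ) / 1000000) * ((P : ℝ) / 1000000) := by
    have h1 := fdiv_le (dL * H) 1000000 (by norm_num)
    have h2 := fdiv_le (L0 * P) (n * 1000000) (by positivity)
    have hEc : (E : ℝ) = (Ls : ℝ) - Lt + ((dL * H / 1000000 : ℤ) : ℝ) +
        ((L0 * P / (n * 1000000) : ℤ) : ℝ) := by
      rw [hE]; push_cast; ring
    push_cast at h1 h2
    have h3 : (E : ℝ) ≤ (Ls : ℝ) - Lt + dL * H / 1000000 + L0 * P / (n * 1000000) := by
      rw [hEc]
      linarith only [h1, h2]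
    have h4 : (E : ℝ) / 1000000 * (n * ν) ≤
        ((Ls : ℝ) - Lt + dL * H / 1000000 + L0 * P / (n * 1000000)) / 1000000 * (n * ν) := by
      refine mul_le_mul_of_nonneg_right ?_ (by positivity)
      exact div_le_div_of_nonneg_right h3 (by norm_num)
    refine h4.trans (le_of_eq ?_)
    field_simp
  rw [hstp] at hN ⊢
  by_cases c1 : 0 ≤ P ∧ 0 ≤ E
  · rw [if_pos c1] at hN ⊢
    have hPR : (0 : ℝ) ≤ P := by exact_mod_cast c1.1
    have hER : (0 : ℝ) ≤ E := by exact_mod_cast c1.2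
    have key := step_up (q := q) (lam := lam) (ℓ := ℓ) (s := s) (t := t) (A := A') hst' hq hq0 hℓc
      (h := (H : ℝ) / (1000000 * ν)) (p := (P : ℝ) / 1000000)
      (r := (E : ℝ) / 1000000 * (n * ν) / 2)
      (c := ((Ls : ℝ) - Lt) / 1000000 * (n * ν)) (L0 := ν * ((L0 : ℝ) / 1000000))
      (L1 := ν * ((dL : ℝ) / 1000000 * (n * ν))) (Ls := (Ls : ℝ) / 1000000)
      hℓ hlam' h0 (by positivity) (by positivity) hPr (by positivity)
      (Or.inl ⟨by positivity, by linarith only [hEr]⟩)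
    have e1 := fdiv_le (2 * P + E) (2 * n) (by positivity)
    push_cast at e1 ⊢
    have e2 : ((H : ℝ) + (((2 * P + E) / (2 * n) : ℤ) : ℝ)) / (1000000 * ν) ≤
        (H : ℝ) / (1000000 * ν) + (P : ℝ) / 1000000 * (t - s) +
          (E : ℝ) / 1000000 * (n * ν) / 2 * (t - s) ^ 2 := by
      rw [hst]
      have e3 : (H : ℝ) / (1000000 * ν) + (P : ℝ) / 1000000 * (1 / (n * ν)) +
          (E : ℝ) / 1000000 * (n * ν) / 2 * (1 / (n * ν)) ^ 2 =
          ((H : ℝ) + (2 * P + E) / (2 * n)) / (1000000 * ν) := by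
        field_simp
        ring
      rw [e3]
      exact div_le_div_of_nonneg_right (by linarith only [e1]) (by positivity)
    have e4 := mul_le_mul_of_nonneg_left e2 hqt
    linarith only [key, e4]
  · rw [if_neg c1] at hN ⊢
    by_cases c2 : 0 ≤ P ∧ L0 ≤ n * 1000000 ∧ 0 ≤ P + E
    · rw [if_pos c2] at hN ⊢
      have hPR : (0 : ℝ) ≤ P := by exact_mod_cast c2.1
      have hEn : E < 0 := by
        by_contra hcon
        push Not at hcon
        exact c1 ⟨c2.1, hcon⟩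
      have hER : (E : ℝ) ≤ 0 := by exact_mod_cast hEn.le
      have hL0m : (L0 : ℝ) ≤ n * 1000000 := by exact_mod_cast c2.2.1
      have hPE : (0 : ℝ) ≤ P + E := by exact_mod_cast c2.2.2
      have key := step_up (q := q) (lam := lam) (ℓ := ℓ) (s := s) (t := t) (A := A') hst' hq hq0
        hℓc (h := (H : ℝ) / (1000000 * ν)) (p := (P : ℝ) / 1000000)
        (r := (E : ℝ) / 1000000 * (n * ν))
        (c := ((Ls : ℝ) - Lt) / 1000000 * (n * ν)) (L0 := ν * ((L0 : ℝ) / 1000000))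
        (L1 := ν * ((dL : ℝ) / 1000000 * (n * ν))) (Ls := (Ls : ℝ) / 1000000)
        hℓ hlam' h0 (by positivity) (by positivity) hPr (by positivity)
        (Or.inr ⟨?_, by linarith only [hEr], ?_, ?_⟩)
      · have e1 := fdiv_le (P + E) n hn
        push_cast at e1 ⊢
        have e2 : ((H : ℝ) + (((P + E) / n : ℤ) : ℝ)) / (1000000 * ν) ≤
            (H : ℝ) / (1000000 * ν) + (P : ℝ) / 1000000 * (t - s) +
              (E : ℝ) / 1000000 * (n * ν) * (t - s) ^ 2 := by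
          rw [hst]
          have e3 : (H : ℝ) / (1000000 * ν) + (P : ℝ) / 1000000 * (1 / (n * ν)) +
              (E : ℝ) / 1000000 * (n * ν) * (1 / (n * ν)) ^ 2 =
              ((H : ℝ) + (P + E) / n) / (1000000 * ν) := by
            field_simp
            ring
          rw [e3]
          exact div_le_div_of_nonneg_right (by linarith only [e1]) (by positivity)
        have e4 := mul_le_mul_of_nonneg_left e2 hqt
        linarith only [key, e4]
      · refine mul_nonpos_of_nonpos_of_nonneg ?_ (by positivity)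
        exact div_nonpos_of_nonpos_of_nonneg hER (by norm_num)
      · rw [hst]
        have e : ν * ((L0 : ℝ) / 1000000) * (1 / (n * ν)) = L0 / (n * 1000000) := by field_simp
        rw [e, div_le_one (by positivity)]
        exact hL0m
      · rw [hst]
        have e : (P : ℝ) / 1000000 + (E : ℝ) / 1000000 * (n * ν) * (1 / (n * ν)) =
            (P + E) / 1000000 := by field_simp
        rw [e]
        positivity
    · rw [if_neg c2] at hN ⊢
      obtain ⟨Lm, hLm⟩ : ∃ Lm : ℤ, Lm = if Ls ≤ Lt then Lt else Ls := ⟨_, rfl⟩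
      rw [← hLm] at hN ⊢
      have hLm1 : Ls ≤ Lm := by rw [hLm]; split_ifs with h <;> linarith only [h]
      have hLm2 : Lt ≤ Lm := by
        rw [hLm]
        split_ifs with h
        · exact le_rfl
        · push Not at h; exact h.le
      have hLm1R : (Ls : ℝ) ≤ Lm := by exact_mod_cast hLm1
      have hLm2R : (Lt : ℝ) ≤ Lm := by exact_mod_cast hLm2
      have e1 := fdiv_le (A - Lm) n hn
      have hNR : (0 : ℝ) ≤ (H : ℝ) + (((A - Lm) / n : ℤ) : ℝ) := by exact_mod_cast hN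
      push_cast at e1
      have e3 : (H : ℝ) / (1000000 * ν) + ((A : ℝ) - Lm) / 1000000 * (t - s) =
          ((H : ℝ) + ((A : ℝ) - Lm) / n) / (1000000 * ν) := by
        rw [hst]
        field_simp
      have e2 : ((H : ℝ) + (((A - Lm) / n : ℤ) : ℝ)) / (1000000 * ν) ≤
          (H : ℝ) / (1000000 * ν) + ((A : ℝ) - Lm) / 1000000 * (t - s) := by
        rw [e3]
        exact div_le_div_of_nonneg_right (by linarith only [e1]) (by positivity)
      have key := step_flat (q := q) (lam := lam) (ℓ := ℓ) (s := s) (t := t) (A := A') hst' hq hq0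
        hℓc (h := (H : ℝ) / (1000000 * ν)) (σ := ((A : ℝ) - Lm) / 1000000) ?_ hlam0 h0 ?_
      · have e4 := mul_le_mul_of_nonneg_left e2 hqt
        push_cast at e4 ⊢
        linarith only [key, e4]
      · intro x hx
        have h1 := hℓ x hx
        have hw0 : 0 ≤ (n * ν) * (x - s) := mul_nonneg (by positivity) (sub_nonneg.2 hx.1)
        have hw1 : (n * ν) * (x - s) ≤ 1 := by
          have : x - s ≤ t - s := by linarith only [hx.2]
          rw [hst, le_div_iff₀ (by positivity)] at this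
          linarith only [this]
        have h2 : (Ls : ℝ) / 1000000 - ((Ls : ℝ) - Lt) / 1000000 * (n * ν) * (x - s) ≤
            (Lm : ℝ) / 1000000 := by
          set w := (n * ν) * (x - s) with hw
          have e5 : (Ls : ℝ) / 1000000 - ((Ls : ℝ) - Lt) / 1000000 * (n * ν) * (x - s) =
              ((1 - w) * Ls + w * Lt) / 1000000 := by rw [hw]; ring
          rw [e5]
          refine div_le_div_of_nonneg_right ?_ (by norm_num)
          nlinarith only [hLm1R, hw1, hLm2R, hw0]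
        have e6 : ((A : ℝ) - Lm) / 1000000 = (A : ℝ) / 1000000 - (Lm : ℝ) / 1000000 := by ring
        linarith only [hA, h1, h2]
      · rw [e3]
        have : (0:ℝ) ≤ (H : ℝ) + ((A : ℝ) - Lm) / n := by linarith only [hNR, e1]
        positivity

/-- data of a run: the functions and their bounds -/
structure RunHyp (q lam : ℝ → ℝ) (ν : ℝ) (n X1 X2 TAU M D : ℤ) : Prop where
  hν : 1 ≤ ν
  hn : 0 < n
  hX1 : 0 ≤ X1
  hX2 : 0 ≤ X2
  hT : 0 ≤ TAU
  hq : ∀ x : ℝ, 0 ≤ x → x < 1 → HasDerivAt q (-(lam x) * q x) x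
  hqc : Continuous q
  hq0 : ∀ x : ℝ, 0 ≤ x → x < 1 → 0 ≤ q x
  hlam : ∀ x : ℝ, 0 ≤ x → ν * x < 1 → ν * lamL ((X2 : ℝ) / 1000000) ((M : ℝ) / 1000000)
      ((D : ℝ) / 1000000) (ν * x) ≤ lam x
  hlam0 : ∀ x : ℝ, 0 ≤ x → x < 1 → 0 ≤ lam x

/-- the loss of a run -/
noncomputable def rl (ν : ℝ) (X1 TAU : ℤ) : ℝ → ℝ :=
  lst (ν * ((TAU : ℝ) / 1000000)) (ν * ((X1 : ℝ) / 1000000))

theorem RunHyp.pt {n X1 X2 TAU M D : ℤ} (R : RunHyp q lam ν n X1 X2 TAU M D) {i : ℤ} (hi : 0 ≤ i)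
    (hin : i < n) : 0 ≤ (i : ℝ) / (n * ν) ∧ (i : ℝ) / (n * ν) < 1 := by
  have hnR : (0 : ℝ) < n := by exact_mod_cast R.hn
  have hν := R.hν
  have hiR : (0 : ℝ) ≤ i := by exact_mod_cast hi
  have hinR : (i : ℝ) < n := by exact_mod_cast hin
  refine ⟨by positivity, ?_⟩
  rw [div_lt_one (by positivity)]
  nlinarith only [hinR, hnR, hν]

theorem RunHyp.rl_cont {n X1 X2 TAU M D : ℤ} (R : RunHyp q lam ν n X1 X2 TAU M D) {t : ℝ}
    (ht : t < 1) : ContinuousOn (rl ν X1 TAU) (Icc 0 t) := by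
  have hν := R.hν
  have h1 : (0 : ℝ) ≤ X1 := by exact_mod_cast R.hX1
  have h2 : (0 : ℝ) ≤ TAU := by exact_mod_cast R.hT
  exact lst_cont (by positivity) (by positivity) ht

/-- soundness of the loop -/
theorem go_sound {n X1 X2 TAU A M D : ℤ} {fin : ℤ → ℤ → Bool}
    (R : RunHyp q lam ν n X1 X2 TAU M D) {A' : ℝ} (hA : (A : ℝ) / 1000000 ≤ A') :
    ∀ (k : ℕ) (i H : ℤ), 0 ≤ i → 0 ≤ H →
      Inv q (rl ν X1 TAU) A' ((i : ℝ) / (n * ν)) ((H : ℝ) / (1000000 * ν)) →
      go n X1 X2 TAU A M D fin k i H (eu n X1 TAU i) (ll n X2 M D i) = true →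
      ∃ j G : ℤ, 0 < j ∧ j < n ∧ 0 ≤ G ∧ fin j G = true ∧
        Inv q (rl ν X1 TAU) A' ((j : ℝ) / (n * ν)) ((G : ℝ) / (1000000 * ν)) := by
  intro k
  induction k with
  | zero => intro i H _ _ _ h; simp [go] at h
  | succ k ih =>
    intro i H hi hH hI h
    have hn := R.hn
    have hnR : (0 : ℝ) < n := by exact_mod_cast hn
    have hν := R.hν
    have hν0 : 0 < ν := by linarith
    unfold go at h
    simp only at h
    split_ifs at h with h1 h2 h3
    · push Not at h1 h2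
      refine ⟨i + 1, _, by linarith, h1, h2, h3, ?_⟩
      obtain ⟨p0, p1⟩ := R.pt hi (by linarith : i < n)
      obtain ⟨p2, p3⟩ := R.pt (by linarith : 0 ≤ i + 1) h1
      push_cast at p2 p3 ⊢
      have hst : ((i : ℝ) + 1) / (n * ν) - (i : ℝ) / (n * ν) = 1 / (n * ν) := by ring
      have hle : (i : ℝ) / (n * ν) ≤ ((i : ℝ) + 1) / (n * ν) := by
        have : (0:ℝ) < 1 / (n * ν) := by positivity
        linarith only [hst, this]
      refine Inv.add p0 hle R.hqc.continuousOn (R.rl_cont p3) hI ?_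
      exact stp_sound' hn hν0 hst (fun x hx => R.hq x (p0.trans hx.1) (lt_of_le_of_lt hx.2 p3))
        (fun x hx => R.hq0 x (p0.trans hx.1) (lt_of_le_of_lt hx.2 p3))
        ((R.rl_cont p3).mono (Icc_subset_Icc p0 le_rfl))
        (fun x hx => lst_cell hν hi h1 R.hX1 R.hT hx)
        (fun x hx => lam_cell hν hi h1 R.hX2 R.hlam hx)
        (fun x hx => R.hlam0 x (p0.trans hx.1) (lt_of_le_of_lt hx.2 p3)) hH h2 hA
    · push Not at h1 h2
      obtain ⟨p0, p1⟩ := R.pt hi (by linarith : i < n)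
      obtain ⟨p2, p3⟩ := R.pt (by linarith : 0 ≤ i + 1) h1
      push_cast at p2 p3
      refine ih (i + 1) _ (by linarith) h2 ?_ h
      push_cast
      have hst : ((i : ℝ) + 1) / (n * ν) - (i : ℝ) / (n * ν) = 1 / (n * ν) := by ring
      have hle : (i : ℝ) / (n * ν) ≤ ((i : ℝ) + 1) / (n * ν) := by
        have : (0:ℝ) < 1 / (n * ν) := by positivity
        linarith only [hst, this]
      refine Inv.add p0 hle R.hqc.continuousOn (R.rl_cont p3) hI ?_
      exact stp_sound' hn hν0 hst (fun x hx => R.hq x (p0.trans hx.1) (lt_of_le_of_lt hx.2 p3))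
        (fun x hx => R.hq0 x (p0.trans hx.1) (lt_of_le_of_lt hx.2 p3))
        ((R.rl_cont p3).mono (Icc_subset_Icc p0 le_rfl))
        (fun x hx => lst_cell hν hi h1 R.hX1 R.hT hx)
        (fun x hx => lam_cell hν hi h1 R.hX2 R.hlam hx)
        (fun x hx => R.hlam0 x (p0.trans hx.1) (lt_of_le_of_lt hx.2 p3)) hH h2 hA

end Sound

/-! ### The start stage -/

section Start

variable {q lam : ℝ → ℝ} {ν : ℝ}

theorem stt_sound {n X1 X2 TAU A K Hm LAM M D : ℤ}
    (R : RunHyp q lam ν n X1 X2 TAU M D) {A' b : ℝ} (hA : (A : ℝ) / 1000000 ≤ A')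
    (hHm : 0 ≤ Hm) (hK : (LAM : ℝ) * Hm / 1000000 ≤ K)
    (hΛ : Hm = 0 ∨ ∀ x ∈ Icc (0:ℝ) b, lam x ≤ ν * ((LAM : ℝ) / 1000000)) :
    ∀ (k : ℕ) (j H : ℤ), 0 ≤ j → j + k < n → ((j : ℝ) + k) / (n * ν) ≤ b →
      Inv q (rl ν X1 TAU) A' ((j : ℝ) / (n * ν)) ((H : ℝ) / (1000000 * ν)) →
      0 ≤ stt n X1 TAU A K Hm k j H (eu n X1 TAU j) →
      Inv q (rl ν X1 TAU) A' (((j : ℝ) + k) / (n * ν))
        (((stt n X1 TAU A K Hm k j H (eu n X1 TAU j) : ℤ) : ℝ) / (1000000 * ν)) := by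
  intro k
  induction k with
  | zero =>
    intro j H hj hjn hb hI h
    simpa [stt] using hI
  | succ k ih =>
    intro j H hj hjn hb hI h
    have hn := R.hn
    have hnR : (0 : ℝ) < n := by exact_mod_cast hn
    have hν := R.hν
    have hν0 : 0 < ν := by linarith only [hν]
    unfold stt at h ⊢
    simp only at h ⊢
    split_ifs at h ⊢ with h1 h2 h3
    · exact absurd h (by norm_num)
    · exact absurd h (by norm_num)
    · exact absurd h (by norm_num)
    · push Not at h1 h2 h3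
      push_cast at hjn
      have hkR : (0 : ℝ) ≤ k := by positivity
      have hj1 : j + 1 < n := by
        have : (0 : ℤ) ≤ k := by positivity
        linarith only [hjn]
      obtain ⟨p0, p1⟩ := R.pt hj (by linarith : j < n)
      obtain ⟨p2, p3⟩ := R.pt (by linarith : 0 ≤ j + 1) hj1
      push_cast at p2 p3
      have e0 : ((j : ℝ) + ((k + 1 : ℕ) : ℝ)) / (n * ν) = (((j + 1 : ℤ) : ℝ) + k) / (n * ν) := by
        push_cast; ring
      rw [e0] at hb ⊢
      have hHR : -(Hm : ℝ) ≤ H := by exact_mod_cast h2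
      have hHmR : (0 : ℝ) ≤ Hm := by exact_mod_cast hHm
      have h1R : ((eu n X1 TAU (j + 1) : ℤ) : ℝ) ≤ ((eu n X1 TAU j : ℤ) : ℝ) := by exact_mod_cast h1
      refine ih (j + 1) _ (by linarith only [hj]) (by linarith only [hjn]) hb ?_ h
      push_cast
      have hst : ((j : ℝ) + 1) / (n * ν) - (j : ℝ) / (n * ν) = 1 / (n * ν) := by ring
      have hle : (j : ℝ) / (n * ν) ≤ ((j : ℝ) + 1) / (n * ν) := by
        have : (0:ℝ) < 1 / (n * ν) := by positivity
        linarith only [hst, this]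
      have hb1 : ((j : ℝ) + 1) / (n * ν) ≤ b := by
        refine le_trans ?_ hb
        push_cast
        exact div_le_div_of_nonneg_right (by linarith only) (by positivity)
      refine Inv.add p0 hle R.hqc.continuousOn (R.rl_cont p3) hI ?_
      have hqt := R.hq0 (((j : ℝ) + 1) / (n * ν)) p2 p3
      have key := step_start (q := q) (lam := lam) (ℓ := rl ν X1 TAU) (s := (j : ℝ) / (n * ν))
        (t := ((j : ℝ) + 1) / (n * ν)) (A := A') hle
        (fun x hx => R.hq x (p0.trans hx.1) (lt_of_le_of_lt hx.2 p3))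
        (fun x hx => R.hq0 x (p0.trans hx.1) (lt_of_le_of_lt hx.2 p3))
        ((R.rl_cont p3).mono (Icc_subset_Icc p0 le_rfl))
        (h := (H : ℝ) / (1000000 * ν))
        (c := (((eu n X1 TAU j : ℤ) : ℝ) - ((eu n X1 TAU (j + 1) : ℤ) : ℝ)) / 1000000 * (n * ν))
        (Ls := A' - ((A : ℝ) - ((eu n X1 TAU j : ℤ) : ℝ)) / 1000000)
        (K := (K : ℝ) / 1000000) (Λ := ν * ((LAM : ℝ) / 1000000)) (H := (Hm : ℝ) / (1000000 * ν))
        (fun x hx => ?_) (fun x hx => R.hlam0 x (p0.trans hx.1) (lt_of_le_of_lt hx.2 p3))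
        ?_ (by positivity) ?_ ?_ ?_ ?_
      · -- conclusion
        have e1 := fdiv_le (2 * (A - K) - eu n X1 TAU j - eu n X1 TAU (j + 1)) (2 * n) (by positivity)
        push_cast at e1
        have e2 : ((H : ℝ) + (((2 * (A - K) - eu n X1 TAU j - eu n X1 TAU (j + 1)) / (2 * n) : ℤ) : ℝ)) /
            (1000000 * ν) ≤ (H : ℝ) / (1000000 * ν) +
            (A' - (K : ℝ) / 1000000 - (A' - ((A : ℝ) - ((eu n X1 TAU j : ℤ) : ℝ)) / 1000000)) *
              (((j : ℝ) + 1) / (n * ν) - (j : ℝ) / (n * ν)) +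
            (((eu n X1 TAU j : ℤ) : ℝ) - ((eu n X1 TAU (j + 1) : ℤ) : ℝ)) / 1000000 * (n * ν) / 2 *
              (((j : ℝ) + 1) / (n * ν) - (j : ℝ) / (n * ν)) ^ 2 := by
          rw [hst]
          have e3 : (H : ℝ) / (1000000 * ν) +
            (A' - (K : ℝ) / 1000000 - (A' - ((A : ℝ) - ((eu n X1 TAU j : ℤ) : ℝ)) / 1000000)) *
              (1 / (n * ν)) +
            (((eu n X1 TAU j : ℤ) : ℝ) - ((eu n X1 TAU (j + 1) : ℤ) : ℝ)) / 1000000 * (n * ν) / 2 *
              (1 / (n * ν)) ^ 2 = ((H : ℝ) + (2 * ((A : ℝ) - K) - ((eu n X1 TAU j : ℤ) : ℝ) -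
              ((eu n X1 TAU (j + 1) : ℤ) : ℝ)) / (2 * n)) / (1000000 * ν) := by
            field_simp
            ring
          rw [e3]
          exact div_le_div_of_nonneg_right (by linarith only [e1]) (by positivity)
        have e4 := mul_le_mul_of_nonneg_left e2 hqt
        linarith only [key, e4]
      · have := lst_cell hν hj hj1 R.hX1 R.hT hx
        unfold rl
        refine this.trans ?_
        have : (A : ℝ) / 1000000 ≤ A' := hA
        have e : A' - ((A : ℝ) - ((eu n X1 TAU j : ℤ) : ℝ)) / 1000000 =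
            ((eu n X1 TAU j : ℤ) : ℝ) / 1000000 + (A' - (A : ℝ) / 1000000) := by ring
        rw [e]
        linarith only [hA]
      · rcases hΛ with h4 | h4
        · left; rw [h4]; simp
        · right
          intro x hx
          exact h4 x ⟨p0.trans hx.1, hx.2.trans hb1⟩
      · have e : ν * ((LAM : ℝ) / 1000000) * ((Hm : ℝ) / (1000000 * ν)) =
            ((LAM : ℝ) * Hm / 1000000) / 1000000 := by field_simp
        rw [e]
        exact div_le_div_of_nonneg_right hK (by norm_num)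
      · rw [← neg_div]
        exact div_le_div_of_nonneg_right hHR (by positivity)
      · rw [hst]
        have h3R : (0 : ℝ) ≤ ((H : ℝ) + Hm) * n + (A - K - ((eu n X1 TAU j : ℤ) : ℝ)) := by
          exact_mod_cast h3
        have e : (H : ℝ) / (1000000 * ν) + (A' - (K : ℝ) / 1000000 -
            (A' - ((A : ℝ) - ((eu n X1 TAU j : ℤ) : ℝ)) / 1000000)) * (1 / (n * ν)) +
            (Hm : ℝ) / (1000000 * ν) =
            (((H : ℝ) + Hm) * n + (A - K - ((eu n X1 TAU j : ℤ) : ℝ))) / (1000000 * n * ν) := by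
          field_simp
          ring
        have h5 : (0:ℝ) ≤ (((H : ℝ) + Hm) * n + (A - K - ((eu n X1 TAU j : ℤ) : ℝ))) /
            (1000000 * n * ν) := by positivity
        linarith only [e, h5]
      · have : (0:ℝ) ≤ ((eu n X1 TAU j : ℤ) : ℝ) - ((eu n X1 TAU (j + 1) : ℤ) : ℝ) := by linarith only [h1R]
        positivity

/-- change of the grid: `Inv` at `0` -/
theorem Inv_zero {ℓ : ℝ → ℝ} {A : ℝ} : Inv q ℓ A 0 0 := by
  unfold Inv
  simp

/-- soundness of a run -/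
theorem run_sound {n X1 X2 TAU A M D LAM Hm : ℤ} {fin : ℤ → ℤ → Bool} {n0 k : ℕ}
    (R : RunHyp q lam ν n X1 X2 TAU M D) (hn2 : 2 ≤ n) (hn0 : 0 < n0) (hHm : 0 ≤ Hm)
    (h : runOK n X1 X2 TAU A M D LAM Hm fin n0 k = true) {A' : ℝ} (hA : (A : ℝ) / 1000000 ≤ A')
    (hΛ : 1 ≤ A' ∨ ∀ x ∈ Icc (0:ℝ) (1 / (n * ν)), lam x ≤ ν * ((LAM : ℝ) / 1000000)) :
    ∃ j G : ℤ, 0 < j ∧ j < n ∧ 0 ≤ G ∧ fin j G = true ∧
      Inv q (rl ν X1 TAU) A' ((j : ℝ) / (n * ν)) ((G : ℝ) / (1000000 * ν)) := by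
  have hn := R.hn
  have hnR : (0 : ℝ) < n := by exact_mod_cast hn
  have hν := R.hν
  have hν0 : 0 < ν := by linarith
  have hn0R : (0 : ℝ) < n0 := by exact_mod_cast hn0
  unfold runOK at h
  simp only at h
  split_ifs at h with h1 h2 h3
  · refine go_sound R hA k 0 0 le_rfl le_rfl ?_ h
    simpa using (Inv_zero : Inv q (rl ν X1 TAU) A' 0 0)
  · push Not at h1 h2 h3
    -- the refined grid
    have R' : RunHyp q lam ν (n * n0) X1 X2 TAU M D :=
      { hν := R.hν, hn := by positivity, hX1 := R.hX1, hX2 := R.hX2, hT := R.hT, hq := R.hq,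
        hqc := R.hqc, hq0 := R.hq0, hlam := R.hlam, hlam0 := R.hlam0 }
    have hlt : (0 : ℤ) + (n0 : ℕ) < n * n0 := by
      have : (0 : ℤ) < n0 := by exact_mod_cast hn0
      nlinarith only [hn0, hn2]
    have e1 : (((0 : ℤ) : ℝ) + (n0 : ℕ)) / (((n * n0 : ℤ) : ℝ) * ν) = 1 / (n * ν) := by
      push_cast
      field_simp
      ring
    have hI0 : Inv q (rl ν X1 TAU) A' (((0 : ℤ) : ℝ) / (((n * n0 : ℤ) : ℝ) * ν))
        (((0 : ℤ) : ℝ) / (1000000 * ν)) := by
      simpa using (Inv_zero : Inv q (rl ν X1 TAU) A' 0 0)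
    refine go_sound R hA k 1 _ (by norm_num) h2 ?_ h
    push_cast
    rcases hΛ with hΛ | hΛ
    · have hA1 : ((1000000 : ℤ) : ℝ) / 1000000 ≤ A' := by push_cast; norm_num; exact hΛ
      have key := stt_sound (A := 1000000) (K := 0) (Hm := 0) (LAM := 0) (b := 1 / (n * ν)) R' hA1
        le_rfl (by simp) (Or.inl rfl) n0 0 0 le_rfl hlt e1.le hI0 (h2.trans h3)
      rw [e1] at key
      refine Inv.mono (R.hq0 _ (by positivity) ?_) key ?_
      · have := (R.pt (i := 1) (by norm_num) (by linarith only [hn2])).2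
        push_cast at this
        exact this
      · refine div_le_div_of_nonneg_right ?_ (by positivity)
        exact_mod_cast h3
    · have hK : (LAM : ℝ) * Hm / 1000000 ≤ ((cdiv (LAM * Hm) 1000000 : ℤ) : ℝ) := by
        have := le_cdiv (LAM * Hm) 1000000 (by norm_num)
        push_cast at this
        exact this
      have key := stt_sound (b := 1 / (n * ν)) R' hA hHm hK (Or.inr hΛ) n0 0 0 le_rfl hlt e1.le
        hI0 h2
      rw [e1] at key
      exact key

end Start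

end Pool.Agent.Lib.MP_172a45_an.F.H69
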