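import Mathlib

set_option autoImplicit false

/-!
# Supersolutions: one step

`q' = -lam q`, `q ≥ 0`.  If `h' ≤ A - ℓ + lam h` then `(q h)' ≤ q (A - ℓ)`, so `q h` is dominated by
`∫ q (A - ℓ)`.  Four explicit choices of `h` on one cell.
-/

namespace Pool.Agent.Lib.MP_172a45_an.F.H69

open Set MeasureTheory

/-- the state: `q s · h ≤ ∫₀ˢ q (A - ℓ)` -/
def Inv (q ℓ : ℝ → ℝ) (A s h : ℝ) : Prop := q s * h ≤ ∫ x in (0:ℝ)..s, q x * (A - ℓ x)

/-- the general step -/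
theorem step_gen {q lam ℓ h h' : ℝ → ℝ} {s t A : ℝ} (hst : s ≤ t)
    (hq : ∀ x ∈ Icc s t, HasDerivAt q (-(lam x) * q x) x) (hq0 : ∀ x ∈ Icc s t, 0 ≤ q x)
    (hh : ∀ x, HasDerivAt h (h' x) x) (hℓ : ContinuousOn ℓ (Icc s t))
    (hle : ∀ x ∈ Icc s t, h' x ≤ A - ℓ x + lam x * h x) :
    q t * h t - q s * h s ≤ ∫ x in s..t, q x * (A - ℓ x) := by
  have hqc : ContinuousOn q (Icc s t) := fun x hx => (hq x hx).continuousAt.continuousWithinAt
  have hhc : Continuous h := continuous_iff_continuousAt.2 fun x => (hh x).continuousAt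
  have hφc : ContinuousOn (fun x => q x * (A - ℓ x)) (Icc s t) :=
    hqc.mul (continuousOn_const.sub hℓ)
  refine intervalIntegral.sub_le_integral_of_hasDeriv_right_of_le (g := fun x => q x * h x)
    (g' := fun x => -(lam x) * q x * h x + q x * h' x) hst (hqc.mul hhc.continuousOn) ?_
    hφc.integrableOn_Icc ?_
  · intro x hx
    exact ((hq x ⟨hx.1.le, hx.2.le⟩).mul (hh x)).hasDerivWithinAt
  · intro x hx
    have h1 := hle x ⟨hx.1.le, hx.2.le⟩
    have h2 := hq0 x ⟨hx.1.le, hx.2.le⟩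
    have h3 := mul_le_mul_of_nonneg_left h1 h2
    nlinarith only [h3]

/-- adding a step to the state -/
theorem Inv.add {q ℓ : ℝ → ℝ} {A s t h0 h1 : ℝ} (hs : 0 ≤ s) (hst : s ≤ t)
    (hqc : ContinuousOn q (Icc 0 t)) (hℓ : ContinuousOn ℓ (Icc 0 t)) (h : Inv q ℓ A s h0)
    (h2 : q t * h1 - q s * h0 ≤ ∫ x in s..t, q x * (A - ℓ x)) : Inv q ℓ A t h1 := by
  have hφc : ContinuousOn (fun x => q x * (A - ℓ x)) (Icc 0 t) :=
    hqc.mul (continuousOn_const.sub hℓ)
  have i1 : IntervalIntegrable (fun x => q x * (A - ℓ x)) volume 0 s :=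
    (hφc.mono (Icc_subset_Icc le_rfl hst)).intervalIntegrable_of_Icc hs
  have i2 : IntervalIntegrable (fun x => q x * (A - ℓ x)) volume s t :=
    (hφc.mono (Icc_subset_Icc hs le_rfl)).intervalIntegrable_of_Icc hst
  unfold Inv at h ⊢
  rw [← intervalIntegral.integral_add_adjacent_intervals i1 i2]
  linarith

/-- smaller `h` is weaker -/
theorem Inv.mono {q ℓ : ℝ → ℝ} {A s h0 h1 : ℝ} (hq : 0 ≤ q s) (h : Inv q ℓ A s h0) (h2 : h1 ≤ h0) :
    Inv q ℓ A s h1 := by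
  unfold Inv at h ⊢
  have := mul_le_mul_of_nonneg_left h2 hq
  linarith

section Steps

variable {q lam ℓ : ℝ → ℝ} {s t A : ℝ}

/-- growth step: `h(w) = h + p w + r w²` -/
theorem step_up (hst : s ≤ t)
    (hq : ∀ x ∈ Icc s t, HasDerivAt q (-(lam x) * q x) x) (hq0 : ∀ x ∈ Icc s t, 0 ≤ q x)
    (hℓc : ContinuousOn ℓ (Icc s t)) {h p r c L0 L1 Ls : ℝ}
    (hℓ : ∀ x ∈ Icc s t, ℓ x ≤ Ls - c * (x - s))
    (hlam : ∀ x ∈ Icc s t, L0 + L1 * (x - s) ≤ lam x) (h0 : 0 ≤ h) (hL0 : 0 ≤ L0) (hL1 : 0 ≤ L1)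
    (hp : p ≤ A - Ls + L0 * h) (hp0 : 0 ≤ p)
    (hr : (0 ≤ r ∧ 2 * r ≤ c + L1 * h + L0 * p) ∨
      (r ≤ 0 ∧ r ≤ c + L1 * h + L0 * p ∧ L0 * (t - s) ≤ 1 ∧ 0 ≤ p + r * (t - s))) :
    q t * (h + p * (t - s) + r * (t - s) ^ 2) - q s * h ≤ ∫ x in s..t, q x * (A - ℓ x) := by
  have key := step_gen (q := q) (lam := lam) (ℓ := ℓ) (A := A)
    (h := fun x => h + p * (x - s) + r * (x - s) ^ 2)
    (h' := fun x => p + 2 * r * (x - s)) hst hq hq0 ?_ hℓc ?_
  · simpa using key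
  · intro x
    have h1 : HasDerivAt (fun x : ℝ => x - s) 1 x := (hasDerivAt_id x).sub_const s
    have h2 := ((h1.const_mul p).const_add h).add ((h1.pow 2).const_mul r)
    refine h2.congr_deriv ?_
    simp
    ring
  · intro x hx
    have w0 : 0 ≤ x - s := sub_nonneg.2 hx.1
    have w1 : x - s ≤ t - s := by linarith [hx.2]
    have e1 := hℓ x hx
    have e2 := hlam x hx
    set w := x - s with hw
    have hL : 0 ≤ L0 + L1 * w := by positivity
    have hpw : 0 ≤ p * w := mul_nonneg hp0 w0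
    -- `h(w) ≥ h`
    have hh : h ≤ h + p * w + r * w ^ 2 := by
      rcases hr with ⟨hr0, _⟩ | ⟨hr0, _, _, hr3⟩
      · have := mul_nonneg hr0 (sq_nonneg w)
        linarith
      · have h5 : r * (t - s) ≤ r * w := mul_le_mul_of_nonpos_left w1 hr0
        have h6 : 0 ≤ (p + r * w) * w := mul_nonneg (by linarith) w0
        nlinarith only [h6]
    have hH : 0 ≤ h + p * w + r * w ^ 2 := h0.trans hh
    have e3 : (L0 + L1 * w) * (h + p * w + r * w ^ 2) ≤ lam x * (h + p * w + r * w ^ 2) :=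
      mul_le_mul_of_nonneg_right e2 hH
    have e4 : L1 * w * h ≤ L1 * w * (h + p * w + r * w ^ 2) :=
      mul_le_mul_of_nonneg_left hh (by positivity)
    have e5 : L0 * (r * w ^ 2) ≥ L0 * (t - s) * r * w ∨ 0 ≤ r := by
      rcases hr with ⟨hr0, _⟩ | ⟨hr0, _, _, _⟩
      · exact Or.inr hr0
      · left
        have h7 : w ^ 2 ≤ (t - s) * w := by nlinarith only [w0, w1]
        have h8 : r * ((t - s) * w) ≤ r * w ^ 2 := mul_le_mul_of_nonpos_left h7 hr0
        have h9 := mul_le_mul_of_nonneg_left h8 hL0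
        nlinarith only [h9]
    rcases hr with ⟨hr0, hr1⟩ | ⟨hr0, hr1, hr2, hr3⟩
    · have e6 := mul_le_mul_of_nonneg_right hr1 w0
      have e7 : 0 ≤ L0 * (r * w ^ 2) := mul_nonneg hL0 (mul_nonneg hr0 (sq_nonneg w))
      nlinarith only [hp, e1, e3, e4, e6, e7]
    · have e6 := mul_le_mul_of_nonneg_right hr1 w0
      have e8 : r * w ≤ L0 * (t - s) * r * w := by
        have : r * w * (1 - L0 * (t - s)) ≤ 0 :=
          mul_nonpos_of_nonpos_of_nonneg (mul_nonpos_of_nonpos_of_nonneg hr0 w0) (by linarith)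
        nlinarith only [this]
      rcases e5 with e5 | e5
      · nlinarith only [hp, e1, e3, e4, e6, e8, e5]
      · have : r = 0 := le_antisymm hr0 e5
        subst this
        nlinarith only [hp, e1, e3, e4, e6]

/-- flat step: `h(w) = h + σ w` -/
theorem step_flat (hst : s ≤ t)
    (hq : ∀ x ∈ Icc s t, HasDerivAt q (-(lam x) * q x) x) (hq0 : ∀ x ∈ Icc s t, 0 ≤ q x)
    (hℓc : ContinuousOn ℓ (Icc s t)) {h σ : ℝ}
    (hℓ : ∀ x ∈ Icc s t, ℓ x ≤ A - σ) (hlam : ∀ x ∈ Icc s t, 0 ≤ lam x) (h0 : 0 ≤ h)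
    (h1 : 0 ≤ h + σ * (t - s)) :
    q t * (h + σ * (t - s)) - q s * h ≤ ∫ x in s..t, q x * (A - ℓ x) := by
  have key := step_gen (q := q) (lam := lam) (ℓ := ℓ) (A := A)
    (h := fun x => h + σ * (x - s)) (h' := fun _ => σ) hst hq hq0 ?_ hℓc ?_
  · simpa using key
  · intro x
    have h1 : HasDerivAt (fun x : ℝ => x - s) 1 x := (hasDerivAt_id x).sub_const s
    refine ((h1.const_mul σ).const_add h).congr_deriv ?_
    simp
  · intro x hx
    have w0 : 0 ≤ x - s := sub_nonneg.2 hx.1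
    have w1 : x - s ≤ t - s := by linarith [hx.2]
    have e1 := hℓ x hx
    have e2 := hlam x hx
    have hH : 0 ≤ h + σ * (x - s) := by
      rcases le_total 0 σ with hσ | hσ
      · positivity
      · have := mul_le_mul_of_nonpos_left w1 hσ
        linarith
    have := mul_nonneg e2 hH
    linarith

/-- start step (`h` may be negative, `lam ≤ Λ`): `h' = A - chord - Λ H`, `h ≥ -H` -/
theorem step_start (hst : s ≤ t)
    (hq : ∀ x ∈ Icc s t, HasDerivAt q (-(lam x) * q x) x) (hq0 : ∀ x ∈ Icc s t, 0 ≤ q x)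
    (hℓc : ContinuousOn ℓ (Icc s t)) {h c Ls K Λ H : ℝ}
    (hℓ : ∀ x ∈ Icc s t, ℓ x ≤ Ls - c * (x - s)) (hlam0 : ∀ x ∈ Icc s t, 0 ≤ lam x)
    (hlam : H = 0 ∨ ∀ x ∈ Icc s t, lam x ≤ Λ) (hH : 0 ≤ H) (hK : Λ * H ≤ K)
    (h1 : -H ≤ h) (h2 : -H ≤ h + (A - K - Ls) * (t - s)) (hc : 0 ≤ c) :
    q t * (h + (A - K - Ls) * (t - s) + c / 2 * (t - s) ^ 2) - q s * h ≤
      ∫ x in s..t, q x * (A - ℓ x) := by
  have key := step_gen (q := q) (lam := lam) (ℓ := ℓ) (A := A)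
    (h := fun x => h + (A - K - Ls) * (x - s) + c / 2 * (x - s) ^ 2)
    (h' := fun x => (A - K - Ls) + c * (x - s)) hst hq hq0 ?_ hℓc ?_
  · simpa using key
  · intro x
    have h1 : HasDerivAt (fun x : ℝ => x - s) 1 x := (hasDerivAt_id x).sub_const s
    have h2 := ((h1.const_mul (A - K - Ls)).const_add h).add ((h1.pow 2).const_mul (c / 2))
    refine h2.congr_deriv ?_
    simp
    ring
  · intro x hx
    have w0 : 0 ≤ x - s := sub_nonneg.2 hx.1
    have w1 : x - s ≤ t - s := by linarith [hx.2]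
    have e1 := hℓ x hx
    have e0 := hlam0 x hx
    have hHw : -H ≤ h + (A - K - Ls) * (x - s) + c / 2 * (x - s) ^ 2 := by
      have h3 : 0 ≤ c / 2 * (x - s) ^ 2 := by positivity
      rcases le_total 0 (A - K - Ls) with hσ | hσ
      · have : 0 ≤ (A - K - Ls) * (x - s) := mul_nonneg hσ w0
        linarith only [h1, h3, this]
      · have := mul_le_mul_of_nonpos_left w1 hσ
        linarith only [h2, h3, this]
    have e3 : -(Λ * H) ≤ lam x * (h + (A - K - Ls) * (x - s) + c / 2 * (x - s) ^ 2) := by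
      have h4 : lam x * (-H) ≤ lam x * (h + (A - K - Ls) * (x - s) + c / 2 * (x - s) ^ 2) :=
        mul_le_mul_of_nonneg_left hHw e0
      have h5 : lam x * H ≤ Λ * H := by
        rcases hlam with h6 | h6
        · rw [h6]; simp
        · exact mul_le_mul_of_nonneg_right (h6 x hx) hH
      linarith only [h4, h5]
    linarith only [hK, e1, e3]

end Steps

end Pool.Agent.Lib.MP_172a45_an.F.H69
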