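import Pool.Agent.Lib.MP_172a45_an.F.H69.Frm

set_option autoImplicit false

/-!
# Type 2: `t₀ ≥ 25/2`, scaling `ν = t₀/(25/2)`
-/

namespace Pool.Agent.Lib.MP_172a45_an.F.H69

open Finset Real MeasureTheory
open Pool.Agent.Lib.MP_172a45_an.F.Fr
open Pool.Agent.Lib.MP_172a45_an.L

theorem lst_le_Bf {τ x s : ℝ} (hτ : 0 ≤ τ) (hx : 0 ≤ x) (hs0 : 0 ≤ s) (hs1 : s < 1) :
    lst τ x s ≤ Bf τ s := by
  have hB := Bf_pos hτ hs0 hs1
  have hg := gf_nonneg hx hs0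
  unfold lst Lf
  rw [div_le_iff₀ (by positivity)]
  have h1 : max (2 * Bf τ s - gf x s) 0 ≤ 2 * Bf τ s := max_le (by linarith) (by positivity)
  have h2 : (max (2 * Bf τ s - gf x s) 0) ^ 2 ≤ (2 * Bf τ s) ^ 2 :=
    pow_le_pow_left₀ (le_max_right _ _) h1 2
  nlinarith only [h2]

/-- `X - X/(1 + xX)` is nondecreasing in `X` -/
theorem gain_mono {x X Y : ℝ} (hx : 0 ≤ x) (hX : 0 ≤ X) (hXY : X ≤ Y) :
    X - X * (1 + x * X)⁻¹ ≤ Y - Y * (1 + x * Y)⁻¹ := by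
  have := gf_mono hX hXY hx
  rwa [gf_eq hX hx, gf_eq (hX.trans hXY) hx] at this

/-- auxiliary: `x ≤ ν x` -/
theorem le_mul_self_nu {ν x : ℝ} (hν : 1 ≤ ν) (hx : 0 ≤ x) : x ≤ ν * x := by
  have := mul_le_mul_of_nonneg_right hν hx
  linarith

/-- `x/(1 + s x) ≤ x` -/
theorem inv_le_self {x s : ℝ} (hx : 0 ≤ x) (hs : 0 ≤ s) : x * (1 + s * x)⁻¹ ≤ x := by
  have h4 : (1 + s * x)⁻¹ ≤ 1 := by
    apply inv_le_one_of_one_le₀
    have := mul_nonneg hs hx
    linarith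
  calc x * (1 + s * x)⁻¹ ≤ x * 1 := mul_le_mul_of_nonneg_left h4 hx
    _ = x := mul_one x

/-- auxiliary: the start bound of `lam` -/
theorem lam_start {G B ν L : ℝ} (hν : 1 ≤ ν) (h1 : G ≤ 18 / 5) (hL : 18 / 5 + B ≤ L) :
    G + ν * B ≤ ν * L := by
  have h2 := mul_le_mul_of_nonneg_left hL (by linarith only [hν] : 0 ≤ ν)
  have h3 : ν * (18 / 5) ≥ 1 * (18 / 5) := mul_le_mul_of_nonneg_right hν (by norm_num)
  linarith only [hν, h1, h2]

/-- auxiliary: the exponential continuation -/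
theorem cont_aux {ν s1 se x t φ g E T' lam : ℝ} (hν : 1 ≤ ν) (ht : t = 25 / 2 * ν)
    (hse : ν * se = s1) (hsx : se ≤ x) (hx0 : 0 ≤ x) (hx1 : x ≤ s1) (hs1 : s1 < 1)
    (h16 : 16 / 25 ≤ s1) (hg : 0 ≤ g) (hT' : T' ≤ t) (hE : 1 + 1 / 4 * t * (x - se) ≤ E)
    (g4 : 1 + 25 / 2 * s1 ≤ (φ - 25 / 8) * g * (1 - s1)) (g5 : 0 < (φ - 25 / 8) * g)
    (hl : ν * φ ≤ lam) :
    g / ν * (E * (1 / 4 * t)) ≤ -Bf T' x + lam * (g / ν * E) := by
  have hν0 : 0 < ν := by linarith only [hν, hs1, h16]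
  have ht0 : 0 ≤ t := by rw [ht]; positivity
  have p : 0 < 1 - x := by linarith only [hx1, hs1]
  have hw0 : 0 ≤ x - se := by linarith only [hsx]
  have hw1 : 0 ≤ t * (x - se) := mul_nonneg ht0 hw0
  have hE1 : 1 ≤ E := by linarith only [hE, hw1]
  have h8 : (1 + 25 / 2 * s1) * E ≤ (φ - 25 / 8) * g * (1 - x) * E := by
    refine mul_le_mul_of_nonneg_right (g4.trans ?_) (by linarith only [hs1, h16, hE, hw1])
    exact mul_le_mul_of_nonneg_left (by linarith only [hx1]) g5.le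
  have h9 : 1 + x * t ≤ (1 + 25 / 2 * s1) * E := by
    have e1 : x * t = 25 / 2 * s1 + t * (x - se) := by
      rw [ht, ← hse]; ring
    rw [e1]
    have h10 : (1 + 25 / 2 * s1) * (1 + 1 / 4 * t * (x - se)) ≤ (1 + 25 / 2 * s1) * E :=
      mul_le_mul_of_nonneg_left hE (by linarith only [hs1, h16])
    have h12 : 9 * (t * (x - se)) ≤ (1 + 25 / 2 * s1) * (t * (x - se)) :=
      mul_le_mul_of_nonneg_right (by linarith only [h16]) hw1
    have e2 : (1 + 25 / 2 * s1) * (1 + 1 / 4 * t * (x - se)) =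
        (1 + 25 / 2 * s1) + 1 / 4 * ((1 + 25 / 2 * s1) * (t * (x - se))) := by ring
    rw [e2] at h10
    linarith only [hw1, h10, h12]
  have h13 : Bf T' x ≤ (φ - 25 / 8) * g * E := by
    unfold Bf
    rw [div_le_iff₀ p]
    have h14 : x * T' ≤ x * t := mul_le_mul_of_nonneg_left hT' hx0
    have e3 : (φ - 25 / 8) * g * E * (1 - x) = (φ - 25 / 8) * g * (1 - x) * E := by ring
    rw [e3]
    linarith only [h8, h9, h14]
  have h15 : (φ - 25 / 8) * g * E = ν * φ * (g / ν * E) - g / ν * (E * (1 / 4 * t)) := by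
    rw [ht]; field_simp; ring
  have h17 : 0 ≤ g / ν * E := by
    have : 0 ≤ E := by linarith only [hs1, h16, hE, hw1]
    positivity
  have h16' : ν * φ * (g / ν * E) ≤ lam * (g / ν * E) := mul_le_mul_of_nonneg_right hl h17
  linarith only [h13, h15, h16']

/-- auxiliary: the final test -/
theorem fin_aux {ν s1 se t g T' E c0 W : ℝ} (hν : 1 ≤ ν) (ht : t = 25 / 2 * ν)
    (hse : ν * se = s1) (hs0 : 0 < s1) (h16 : 16 / 25 ≤ s1) (hg : 0 ≤ g)
    (hE : Real.exp (1 / 4 * t * (s1 - se)) = E) (hw : 0 < s1 ^ 2 + s1 - 1)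
    (g3 : 2 * (1 + T') ≤ g * (s1 ^ 2 + s1 - 1)) (hc0 : 0 < c0) (hW : s1 * c0 ≤ W) :
    2 * s1 / (s1 ^ 2 + s1 - 1) * ((1 + ν * T') * c0) ≤ g / ν * E * W := by
  have hν0 : 0 < ν := by linarith only [hν]
  have hexp : ν ^ 2 ≤ E := by
    have h1 : ν ≤ Real.exp (ν - 1) := by
      have := Real.add_one_le_exp (ν - 1)
      linarith
    have h2 : Real.exp (ν - 1) ^ 2 = Real.exp (2 * (ν - 1)) := by
      rw [← Real.exp_nat_mul]; norm_num
    have hse' : se = s1 / ν := by rw [← hse]; field_simp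
    have h3 : 2 * (ν - 1) ≤ 1 / 4 * t * (s1 - se) := by
      have e : 1 / 4 * t * (s1 - se) = 25 / 8 * s1 * (ν - 1) := by
        rw [ht, hse']; field_simp; ring
      rw [e]
      have : 0 ≤ (25 / 8 * s1 - 2) * (ν - 1) := mul_nonneg (by linarith only [h16]) (by linarith only [hν])
      linarith only [this]
    calc ν ^ 2 ≤ Real.exp (ν - 1) ^ 2 := pow_le_pow_left₀ hν0.le h1 2
      _ = Real.exp (2 * (ν - 1)) := h2
      _ ≤ Real.exp (1 / 4 * t * (s1 - se)) := Real.exp_le_exp.2 h3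
      _ = E := hE
  have hgν : g * ν ≤ g / ν * E := by
    calc g * ν = g / ν * ν ^ 2 := by field_simp
      _ ≤ _ := mul_le_mul_of_nonneg_left hexp (by positivity)
  have h5 : 2 * s1 / (s1 ^ 2 + s1 - 1) * ((1 + ν * T') * c0) ≤ g * ν * (s1 * c0) := by
    rw [div_mul_eq_mul_div, div_le_iff₀ hw]
    have h6 : 2 * (1 + ν * T') ≤ ν * (g * (s1 ^ 2 + s1 - 1)) := by
      have := mul_le_mul_of_nonneg_left g3 hν0.le
      linarith only [hν, this]
    have h7 := mul_le_mul_of_nonneg_left h6 (by positivity : 0 ≤ s1 * c0)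
    have e1 : 2 * s1 * ((1 + ν * T') * c0) = s1 * c0 * (2 * (1 + ν * T')) := by ring
    have e2 : g * ν * (s1 * c0) * (s1 ^ 2 + s1 - 1) =
        s1 * c0 * (ν * (g * (s1 ^ 2 + s1 - 1))) := by ring
    rw [e1, e2]
    exact h7
  refine h5.trans ?_
  exact mul_le_mul hgν hW (by positivity) (by have := Real.exp_pos (1 / 4 * t * (s1 - se)); rw [hE] at this; positivity)

section Frame

variable {M : ℕ} {a : ℝ} {ζ z : Fin (M + 1) → ℂ}

/-- **type 2** -/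
theorem run2_false (h : Fr (M + 1) a ζ z) (hM : 0 < M) (hmax : ∀ k, ‖u a ζ k‖ ≤ ‖u a ζ 0‖)
    (hΔ : 8 ≤ Del a ζ) (ht0 : 25 / 2 ≤ ‖u a ζ 0‖)
    {n X1 X2 TAU A Mm LAM Hm : ℤ} {n0 k : ℕ} {e R2 : ℝ}
    (hrun : runOK n X1 X2 TAU A Mm Mm LAM Hm (fin2 n X2 Mm TAU) n0 k = true)
    (hn2 : 2 ≤ n) (hn0 : 0 < n0) (hHm : 0 ≤ Hm) (hX10 : 0 ≤ X1) (hX20 : 0 ≤ X2) (hT0 : 0 ≤ TAU)
    (hA0 : 0 ≤ A) (hA4 : A ≤ 4000000) (he0 : 0 ≤ e)
    (he : e ≤ (a * (‖u a ζ 0‖ - 1) + (‖u a ζ 0‖ - 1 + DS a ζ)) / (2 * M))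
    (hF : (A : ℝ) / 1000000 + 1 / 50 ≤
      (‖u a ζ 0‖ - 1 + DS a ζ) * (1 + 1 / M) - a * ‖u a ζ 0‖ - a / 2 + e)
    (hG : a * ‖u a ζ 0‖ + a / 2 ≤ ‖u a ζ 0‖ - 1 + DS a ζ)
    (hX1 : ‖u a ζ 0‖ / (25 / 2) * ((X1 : ℝ) / 1000000) ≤ a * ‖u a ζ 0‖ + a / 2 - e)
    (hv : (X2 = X1 ∧ Mm = X1) ∨
      (a * ‖u a ζ 0‖ + a / 2 - e ≤ ‖u a ζ 0‖ / (25 / 2) * ((X2 : ℝ) / 1000000) ∧
        ‖u a ζ 0‖ / (25 / 2) * ((Mm : ℝ) / 1000000) ≤ ‖u a ζ 0‖ - 1 + DS a ζ))
    (hτ : ‖u a ζ 0‖ - 1 ≤ ‖u a ζ 0‖ / (25 / 2) * ((TAU : ℝ) / 1000000) ∨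
      a * ‖u a ζ 0‖ ≤ ‖u a ζ 0‖ / (25 / 2) * ((TAU : ℝ) / 1000000)) (hTU : TAU ≤ 12500000)
    (hLAM : A < 1000000 → (M : ℝ) ≤ R2 * ‖u a ζ 0‖ ∧
      18 / 5 + 1 / n * (169 + R2 * (625 / 4) / (1 - 1 / n)) ≤ (LAM : ℝ) / 1000000) : False := by
  obtain ⟨c0, hc1, hroot⟩ := exists_c0 h hM hmax
  have hκ1 := kap_le_one h hM hmax
  have hM0 : (0 : ℝ) < M := by exact_mod_cast hM
  have ha0 := h.a0
  have ha1 := h.a1
  obtain ⟨ν, hνdef⟩ : ∃ ν : ℝ, ν = ‖u a ζ 0‖ / (25 / 2) := ⟨_, rfl⟩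
  have hν : 1 ≤ ν := by
    rw [hνdef, le_div_iff₀ (by norm_num)]; linarith only [ht0]
  have hν0 : 0 < ν := by linarith only [ht0, ha0, ha1, hνdef]
  have ht0ν : ‖u a ζ 0‖ = 25 / 2 * ν := by rw [hνdef]; field_simp
  rw [← hνdef] at hX1 hv hτ
  have hn : 0 < n := by linarith only [hn2]
  have hnR : (0 : ℝ) < n := by exact_mod_cast hn
  have hn2R : (2 : ℝ) ≤ n := by exact_mod_cast hn2
  have hx := x_le h hM hmax hroot he
  have hTR : (0 : ℝ) ≤ (TAU : ℝ) / 1000000 := by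
    have : (0 : ℝ) ≤ TAU := by exact_mod_cast hT0
    positivity
  have hX1R : (0 : ℝ) ≤ (X1 : ℝ) / 1000000 := by
    have : (0 : ℝ) ≤ X1 := by exact_mod_cast hX10
    positivity
  have hX2R : (0 : ℝ) ≤ (X2 : ℝ) / 1000000 := by
    have : (0 : ℝ) ≤ X2 := by exact_mod_cast hX20
    positivity
  have hτ' : ∀ k, ‖vt a ζ k‖ ≤ 1 + ν * ((TAU : ℝ) / 1000000) := by
    intro k
    rcases hτ with h1 | h1
    · have h2 : ‖vt a ζ k‖ ≤ ‖ut a ζ k‖ := h.gl k.succ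
      have h3 : ‖ut a ζ k‖ ≤ ‖u a ζ 0‖ := hmax k.succ
      linarith only [h1, h2, h3]
    · have h2 : ‖vt a ζ k‖ ≤ 1 + a * ‖ut a ζ k‖ := by
        unfold vt
        refine (norm_sub_le _ _).trans ?_
        rw [norm_one, norm_mul, Complex.norm_real, Real.norm_of_nonneg ha0.le]
      have h3 : ‖ut a ζ k‖ ≤ ‖u a ζ 0‖ := hmax k.succ
      have := mul_le_mul_of_nonneg_left h3 ha0.le
      linarith only [h1, h2, this]
  set Xh := a * ‖u a ζ 0‖ + a / 2 - e with hXh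
  have hXh0 : 0 ≤ Xh := by linarith only [hc1, hx]
  have hGx : Xh ≤ ‖u a ζ 0‖ - 1 + DS a ζ := by linarith only [he0, hG, hXh]
  -- the lower bound of `lam`
  have hlamA : ∀ x : ℝ, 0 ≤ x → x < 1 → ν * ((Mm : ℝ) / 1000000 -
      (X2 : ℝ) / 1000000 * (1 + ν * x * ((X2 : ℝ) / 1000000))⁻¹) ≤ lamf a ζ c0 x := by
    intro x hx0 hx1
    rcases hv with ⟨e1, e2⟩ | ⟨e1, e2⟩
    · have h1 := lamf_ge_G h hM hc1 hx0 hx1 hx
      rw [e1, e2]
      have h2 := gain_mono hx0 (by positivity : 0 ≤ ν * ((X1 : ℝ) / 1000000)) hX1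
      have e3 : ν * ((X1 : ℝ) / 1000000 - (X1 : ℝ) / 1000000 *
          (1 + ν * x * ((X1 : ℝ) / 1000000))⁻¹) = ν * ((X1 : ℝ) / 1000000) -
          ν * ((X1 : ℝ) / 1000000) * (1 + x * (ν * ((X1 : ℝ) / 1000000)))⁻¹ := by ring_nf
      rw [e3]
      linarith only [he0, hG, hXh, h1, h2]
    · have h1 := lamf_ge_G h hM hc1 hx0 hx1 (hx.trans e1)
      have e3 : ν * ((Mm : ℝ) / 1000000 - (X2 : ℝ) / 1000000 *
          (1 + ν * x * ((X2 : ℝ) / 1000000))⁻¹) = ν * ((Mm : ℝ) / 1000000) -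
          ν * ((X2 : ℝ) / 1000000) * (1 + x * (ν * ((X2 : ℝ) / 1000000)))⁻¹ := by ring_nf
      rw [e3]
      linarith only [e2, h1]
  have hlam0 : ∀ x : ℝ, 0 ≤ x → x < 1 → 0 ≤ lamf a ζ c0 x := by
    intro x hx0 hx1
    have h1 := lamf_ge_G h hM hc1 hx0 hx1 (le_refl (c0 - 1))
    have h2 : (c0 - 1) * (1 + x * (c0 - 1))⁻¹ ≤ c0 - 1 := inv_le_self (by linarith only [hc1]) hx0
    linarith only [he0, hG, hx, hXh, h1, h2]
  have R : RunHyp (qf a ζ c0) (lamf a ζ c0) ν n X1 X2 TAU Mm Mm := by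
    refine runHyp h hc1 hν hn hX10 hX20 hT0 ?_ hlam0
    intro x hx0 hx1
    have hx1' : x < 1 := lt_of_le_of_lt (le_mul_self_nu hν hx0) hx1
    refine le_trans (le_of_eq ?_) (hlamA x hx0 hx1')
    unfold lamL
    ring
  have hx1a : ν * ((X1 : ℝ) / 1000000) ≤ a * ‖u a ζ 0‖ + a / 2 := by linarith only [he0, hX1, hXh]
  have e2 : ((M : ℝ) + 1) * (1 - kap a ζ) = (‖u a ζ 0‖ - 1 + DS a ζ) * (1 + 1 / M) := by
    rw [mu_eq h hM]; field_simp
  have hF1 : (A : ℝ) / 1000000 + 1 / 50 ≤ Gam a ζ c0 := by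
    unfold Gam
    rw [e2]
    linarith only [hF, hx, hXh]
  have hF2 : (A : ℝ) / 1000000 + 1 / 50 ≤ (M + 1) * (1 - kap a ζ) - ν * ((X1 : ℝ) / 1000000) := by
    rw [e2]
    linarith only [hF, hX1, hXh]
  have hAR : (0 : ℝ) ≤ (A : ℝ) / 1000000 := by
    have : (0 : ℝ) ≤ A := by exact_mod_cast hA0
    positivity
  have hA4R : (A : ℝ) / 1000000 ≤ 4 := by
    rw [div_le_iff₀ (by norm_num)]
    have : (A : ℝ) ≤ 4000000 := by exact_mod_cast hA4
    linarith only [this]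
  obtain ⟨A', hAA, hA'4, hG1, hG2, hΛ⟩ : ∃ A' : ℝ, (A : ℝ) / 1000000 ≤ A' ∧ A' ≤ 4 ∧
      A' + 1 / 50 ≤ Gam a ζ c0 ∧
      A' + 1 / 50 ≤ (M + 1) * (1 - kap a ζ) - ν * ((X1 : ℝ) / 1000000) ∧
      (1 ≤ A' ∨ ∀ x ∈ Set.Icc (0:ℝ) (1 / (n * ν)),
        lamf a ζ c0 x ≤ ν * ((LAM : ℝ) / 1000000)) := by
    by_cases hA1 : A < 1000000
    · by_cases hc : Gam a ζ c0 < 51 / 50 ∨
        (M + 1) * (1 - kap a ζ) - ν * ((X1 : ℝ) / 1000000) < 51 / 50
      · refine ⟨(A : ℝ) / 1000000, le_rfl, hA4R, hF1, hF2, Or.inr ?_⟩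
        intro x hx'
        obtain ⟨hMR, hL⟩ := hLAM hA1
        have hG' := G_le h hM hmax hc1 hroot hx1a hc
        have hn1 : 1 / (n : ℝ) ≤ 1 / 2 := one_div_le_one_div_of_le (by norm_num) hn2R
        have hnν : 1 / (n * ν) ≤ 1 / (n : ℝ) :=
          one_div_le_one_div_of_le hnR (by
            have := mul_le_mul_of_nonneg_left hν hnR.le
            linarith only [this])
        have hx1 : x < 1 := by linarith only [ha0, ha1, hn1, hnν, hx'.2]
        have hxn : x ≤ 1 / (n : ℝ) := hx'.2.trans hnν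
        have hτ1 : ∀ k, ‖vt a ζ k‖ ≤ 1 + (‖u a ζ 0‖ - 1) := by
          intro k
          have h2 : ‖vt a ζ k‖ ≤ ‖ut a ζ k‖ := h.gl k.succ
          have h3 : ‖ut a ζ k‖ ≤ ‖u a ζ 0‖ := hmax k.succ
          linarith only [h2, h3]
        have h1 := lamf_le h hM hc1 hx'.1 hx1 hκ1 hτ1 (by linarith only [ht0, ha0, ha1])
        have p1 : 0 < 1 - 1 / (n : ℝ) := by linarith only [ha0, ha1, hn1]
        have p2 : 0 < 1 - x := by linarith only [hx1]
        have hx0 : 0 ≤ x := hx'.1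
        have hR2 : 0 ≤ R2 := by
          by_contra hcon
          push Not at hcon
          have : R2 * ‖u a ζ 0‖ < 0 := mul_neg_of_neg_of_pos hcon (by linarith only [ht0, ha0, ha1])
          linarith only [hM0, hMR, this]
        -- the two terms
        have hc13 : (c0 - 1) ^ 2 ≤ (13 * ν) ^ 2 := by
          refine pow_le_pow_left₀ (by linarith only [hc1]) ?_ 2
          have h9 : a * ‖u a ζ 0‖ ≤ 1 * ‖u a ζ 0‖ :=
            mul_le_mul_of_nonneg_right ha1.le (by linarith only [ht0, ha0, ha1])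
          rw [ht0ν] at h9
          have h10 : c0 - 1 ≤ a * ‖u a ζ 0‖ + a / 2 := by linarith only [he0, hx, hXh]
          rw [ht0ν] at h10
          linarith only [ht0, ha1, hνdef, h9, h10]
        have hMt : (M : ℝ) * (‖u a ζ 0‖ - 1) / (1 - x) ≤
            ν ^ 2 * (R2 * (625 / 4) / (1 - 1 / n)) := by
          have e5 : ν ^ 2 * (R2 * (625 / 4) / (1 - 1 / n)) =
              (R2 * ‖u a ζ 0‖ * ‖u a ζ 0‖) / (1 - 1 / n) := by rw [ht0ν]; ring
          rw [e5]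
          refine div_le_div₀ (by positivity) ?_ p1 (by linarith only [hxn])
          exact mul_le_mul hMR (by linarith only [ha0, ha1]) (by linarith only [ht0, ha0,
              ha1]) (by positivity)
        have hsum : x * ((c0 - 1) ^ 2 + M * (‖u a ζ 0‖ - 1) / (1 - x)) ≤
            1 / (n * ν) * ((13 * ν) ^ 2 + ν ^ 2 * (R2 * (625 / 4) / (1 - 1 / n))) := by
          refine mul_le_mul hx'.2 (add_le_add hc13 hMt) ?_ (by positivity)
          have : 0 ≤ (M : ℝ) * (‖u a ζ 0‖ - 1) / (1 - x) :=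
            div_nonneg (mul_nonneg hM0.le (by linarith only [ht0, ha0, ha1])) p2.le
          positivity
        have e6 : 1 / (n * ν) * ((13 * ν) ^ 2 + ν ^ 2 * (R2 * (625 / 4) / (1 - 1 / n))) =
            ν * (1 / n * (169 + R2 * (625 / 4) / (1 - 1 / n))) := by
          field_simp
          ring
        rw [e6] at hsum
        exact (h1.trans (add_le_add le_rfl hsum)).trans (lam_start hν hG' hL)
      · push Not at hc
        refine ⟨1, ?_, by norm_num, by linarith only [hc.1], by linarith only [hc.2], Or.inl le_rfl⟩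
        rw [div_le_one (by norm_num)]
        have : (A : ℝ) < 1000000 := by exact_mod_cast hA1
        linarith only [this]
    · push Not at hA1
      refine ⟨(A : ℝ) / 1000000, le_rfl, hA4R, hF1, hF2, Or.inl ?_⟩
      rw [le_div_iff₀ (by norm_num)]
      have : (1000000 : ℝ) ≤ A := by exact_mod_cast hA1
      linarith only [this]
  obtain ⟨j, G, hj0, hjn, hGG, hfin, hI⟩ := run_sound R hn2 hn0 hHm hrun hAA hΛ
  have hA'0 : 0 ≤ A' := hAR.trans hAA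
  have hjR : (0 : ℝ) < j := by exact_mod_cast hj0
  have hjnR : (j : ℝ) < n := by exact_mod_cast hjn
  have hs0 : (0:ℝ) < (j : ℝ) / n := by positivity
  have hs1 : (j : ℝ) / n < 1 := by rw [div_lt_one hnR]; exact hjnR
  unfold fin2 at hfin
  split_ifs at hfin with f1 f2 f3 f4
  push Not at f1 f2 f3 f4
  have f1R : (0 : ℝ) < (j : ℝ) * j + j * n - n * n := by exact_mod_cast f1
  have f2R : 16 * (n : ℝ) ≤ 25 * j := by exact_mod_cast f2
  have f3R : 2 * (1000000 + (TAU : ℝ)) * (n * n) ≤ G * (j * j + j * n - n * n) := by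
    exact_mod_cast f3
  have f4R : (2 * (n : ℝ) + 25 * j) * 1000000000000 ≤
      2 * ((((ll n X2 Mm Mm j : ℤ) : ℝ) - 3125000) * G) * (n - j) := by exact_mod_cast f4
  obtain ⟨s1, hs1def⟩ : ∃ s1 : ℝ, s1 = (j : ℝ) / n := ⟨_, rfl⟩
  obtain ⟨g, hgdef⟩ : ∃ g : ℝ, g = (G : ℝ) / 1000000 := ⟨_, rfl⟩
  obtain ⟨φ, hφdef⟩ : ∃ φ : ℝ, φ = ((ll n X2 Mm Mm j : ℤ) : ℝ) / 1000000 := ⟨_, rfl⟩
  have hg0 : 0 ≤ g := by
    have : (0 : ℝ) ≤ G := by exact_mod_cast hGG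
    rw [hgdef]; positivity
  rw [← hs1def] at hs0 hs1
  have hjs : (j : ℝ) = s1 * n := by rw [hs1def]; field_simp
  have hw : 0 < s1 ^ 2 + s1 - 1 := by
    have e : s1 ^ 2 + s1 - 1 = (j * j + j * n - n * n) / (n * n) := by
      rw [hs1def]; field_simp
    rw [e]
    positivity
  have g2 : 16 / 25 ≤ s1 := by
    rw [hs1def, div_le_div_iff₀ (by norm_num) hnR]
    linarith only [f2R]
  have g3 : 2 * (1 + (TAU : ℝ) / 1000000) ≤ g * (s1 ^ 2 + s1 - 1) := by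
    have e : g * (s1 ^ 2 + s1 - 1) = (G * (j * j + j * n - n * n)) / (1000000 * (n * n)) := by
      rw [hs1def, hgdef]; field_simp
    rw [e, le_div_iff₀ (by positivity)]
    have e' : 2 * (1 + (TAU : ℝ) / 1000000) * (1000000 * (n * n)) =
      2 * (1000000 + (TAU : ℝ)) * (n * n) := by ring
    rw [e']
    exact f3R
  have g4 : 1 + 25 / 2 * s1 ≤ (φ - 25 / 8) * g * (1 - s1) := by
    have e : (φ - 25 / 8) * g * (1 - s1) =
        (2 * ((((ll n X2 Mm Mm j : ℤ) : ℝ) - 3125000) * G) * (n - j)) /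
          (2 * n * 1000000000000) := by
      rw [hs1def, hgdef, hφdef]; field_simp; ring
    rw [e, le_div_iff₀ (by positivity)]
    have e' : (1 + 25 / 2 * s1) * (2 * n * 1000000000000) =
        (2 * (n : ℝ) + 25 * j) * 1000000000000 := by rw [hjs]; ring
    rw [e']
    exact f4R
  have g5 : 0 < (φ - 25 / 8) * g := by
    by_contra hcon
    push Not at hcon
    have : (φ - 25 / 8) * g * (1 - s1) ≤ 0 :=
      mul_nonpos_of_nonpos_of_nonneg hcon (by linarith only [hs1])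
    linarith only [hs1, g2, g4, this]
  have hφL : φ ≤ lamL ((X2 : ℝ) / 1000000) ((Mm : ℝ) / 1000000) ((Mm : ℝ) / 1000000) s1 := by
    rw [hφdef, hs1def]
    exact ll_sound hj0.le hjn hX20
  -- the state at `s_e`
  obtain ⟨se, hsedef⟩ : ∃ se : ℝ, se = s1 / ν := ⟨_, rfl⟩
  have hse : (j : ℝ) / (n * ν) = se := by rw [hsedef, hs1def]; field_simp
  have hhe : (G : ℝ) / (1000000 * ν) = g / ν := by rw [hgdef]; field_simp
  rw [hse, hhe] at hI
  have hse0 : 0 < se := by rw [hsedef]; positivity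
  have hses1 : se ≤ s1 := by rw [hsedef]; exact div_le_self hs0.le hν
  have hνse : ν * se = s1 := by rw [hsedef]; field_simp
  have hlc := R.rl_cont (X1 := X1) (TAU := TAU) hs1
  have hτν : ν * ((TAU : ℝ) / 1000000) ≤ ‖u a ζ 0‖ := by
    rw [ht0ν]
    have h9 : (TAU : ℝ) / 1000000 ≤ 25 / 2 := by
      rw [div_le_iff₀ (by norm_num)]
      have : (TAU : ℝ) ≤ 12500000 := by exact_mod_cast hTU
      linarith only [this]
    have := mul_le_mul_of_nonneg_left h9 hν0.le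
    linarith only [this]
  have key := step_gen (q := qf a ζ c0) (lam := lamf a ζ c0) (ℓ := rl ν X1 TAU) (A := A')
    (s := se) (t := s1) (h := fun x => g / ν * Real.exp (1 / 4 * ‖u a ζ 0‖ * (x - se)))
    (h' := fun x => g / ν * (Real.exp (1 / 4 * ‖u a ζ 0‖ * (x - se)) * (1 / 4 * ‖u a ζ 0‖))) hses1
    (fun x hx => R.hq x (hse0.le.trans hx.1) (lt_of_le_of_lt hx.2 hs1))
    (fun x hx => R.hq0 x (hse0.le.trans hx.1) (lt_of_le_of_lt hx.2 hs1))
    (fun x => by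
      have h1 : HasDerivAt (fun x : ℝ => 1 / 4 * ‖u a ζ 0‖ * (x - se)) (1 / 4 * ‖u a ζ 0‖) x := by
        have := ((hasDerivAt_id x).sub_const se).const_mul (1 / 4 * ‖u a ζ 0‖)
        simpa using this
      exact (h1.exp).const_mul (g / ν))
    (hlc.mono (Set.Icc_subset_Icc hse0.le le_rfl)) ?_
  · -- conclusion
    have hI1 := Inv.add hse0.le hses1 (qf_cont a ζ c0).continuousOn hlc hI (by
      have e0 : g / ν * Real.exp (1 / 4 * ‖u a ζ 0‖ * (se - se)) = g / ν := by simp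
      simp only [e0] at key
      exact key)
    refine fr_false h hM hmax hΔ hc1 hroot (by positivity : 0 ≤ ν * ((TAU : ℝ) / 1000000)) hτ' hs0
      hs1 hw (by positivity : 0 ≤ ν * ((X1 : ℝ) / 1000000)) hA'0 hA'4 hx1a hG1 hG2 hI1 ?_
    have hTT : s1 * c0 ≤ TT c0 s1 := by unfold TT; linarith only [hs1]
    exact fin_aux hν ht0ν hνse hs0 g2 hg0 rfl hw g3 (by linarith only [hc1, hs1, g2]) hTT
  · -- the differential inequality
    intro x hx
    have hx0 : 0 ≤ x := hse0.le.trans hx.1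
    have hx1 : x < 1 := lt_of_le_of_lt hx.2 hs1
    have hl := lst_le_Bf (τ := ν * ((TAU : ℝ) / 1000000)) (x := ν * ((X1 : ℝ) / 1000000))
      (s := x) (by positivity) (by positivity) hx0 hx1
    have hrl : rl ν X1 TAU x ≤ Bf (ν * ((TAU : ℝ) / 1000000)) x := hl
    -- `lam x ≥ ν φ`
    have hlx : ν * φ ≤ lamf a ζ c0 x := by
      refine le_trans ?_ (hlamA x hx0 hx1)
      refine mul_le_mul_of_nonneg_left (hφL.trans ?_) hν0.le
      unfold lamL
      have h1 : s1 ≤ ν * x := by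
        rw [← hνse]; exact mul_le_mul_of_nonneg_left hx.1 hν0.le
      have h2 : (1 + ν * x * ((X2 : ℝ) / 1000000))⁻¹ ≤ (1 + s1 * ((X2 : ℝ) / 1000000))⁻¹ := by
        apply inv_anti₀ (by positivity)
        have := mul_le_mul_of_nonneg_right h1 hX2R
        linarith only [this]
      have h3 := mul_le_mul_of_nonneg_left h2 hX2R
      linarith only [h3]
    have hEge : 1 + 1 / 4 * ‖u a ζ 0‖ * (x - se) ≤ Real.exp (1 / 4 * ‖u a ζ 0‖ * (x - se)) := by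
      have := Real.add_one_le_exp (1 / 4 * ‖u a ζ 0‖ * (x - se))
      linarith only [this]
    have hfin := cont_aux hν ht0ν hνse hx.1 hx0 hx.2 hs1 g2 hg0 hτν hEge g4 g5 hlx
    linarith only [hAR, hAA, hrl, hfin]

end Frame

end Pool.Agent.Lib.MP_172a45_an.F.H69
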